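import Pool.Agent.H65G.Basic

set_option autoImplicit false

/-! The weighted area inequality for Lipschitz maps (module LB/Area). -/

open Real Set MeasureTheory Metric Filter Topology
open scoped RealInnerProductSpace

namespace Pool.Agent.H65L

open Pool.Agent.H65G

variable {n : ℕ}

/-- Lipschitz images of null sets are null sets. -/
theorem volume_image_null {s : Set (E n)} {P : E n → E n} {K : NNReal}
    (hP : LipschitzOnWith K P s) (hs : volume s = 0) : volume (P '' s) = 0 := by
  have h1 : (volume : Measure (E n)) ≪ (μH[(n : ℝ)] : Measure (E n)) :=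
    Measure.absolutelyContinuous_isAddHaarMeasure _ _
  have h2 : (μH[(n : ℝ)] : Measure (E n)) ≪ (volume : Measure (E n)) :=
    Measure.absolutelyContinuous_isAddHaarMeasure _ _
  refine h1 ?_
  have h3 := hP.hausdorffMeasure_image_le (d := (n : ℝ)) (Nat.cast_nonneg n)
  rw [h2 hs, mul_zero] at h3
  exact le_antisymm h3 bot_le

/-- The inequality when the map is measurable and differentiable at every point. -/
theorem lintegral_image_le_aux {t : Set (E n)} (ht : MeasurableSet t) {P : E n → E n}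
    (hPm : Measurable P) {P' : E n → E n →L[ℝ] E n}
    (hd : ∀ p ∈ t, HasFDerivWithinAt P (P' p) t p) {f : E n → ENNReal} (hf : Measurable f) :
    ∫⁻ w in P '' t, f w ≤ ∫⁻ p in t, f (P p) * ENNReal.ofReal |(P' p).det| := by
  have hJ : AEMeasurable (fun p => ENNReal.ofReal |(P' p).det|) (volume.restrict t) :=
    aemeasurable_ofReal_abs_det_fderivWithin volume ht hd
  set ν : Measure (E n) :=
    ((volume.restrict t).withDensity fun p => ENNReal.ofReal |(P' p).det|).map P with hν
  have hle : volume.restrict (P '' t) ≤ ν := by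
    rw [Measure.le_iff]
    intro B hB
    rw [Measure.restrict_apply hB, hν, Measure.map_apply hPm hB,
      withDensity_apply _ (hPm hB), Measure.restrict_restrict (hPm hB)]
    have e : B ∩ P '' t = P '' (P ⁻¹' B ∩ t) := by
      ext w
      constructor
      · rintro ⟨h1, p, hp, rfl⟩
        exact ⟨p, ⟨h1, hp⟩, rfl⟩
      · rintro ⟨p, ⟨h1, hp⟩, rfl⟩
        exact ⟨h1, p, hp, rfl⟩
    rw [e]
    exact addHaar_image_le_lintegral_abs_det_fderiv volume ((hPm hB).inter ht)
      fun p hp => (hd p hp.2).mono inter_subset_right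
  refine (lintegral_mono' hle le_rfl).trans ?_
  have h5 := lintegral_withDensity_eq_lintegral_mul₀ hJ (hf.comp hPm).aemeasurable
  simp only [Function.comp_apply] at h5
  rw [hν, lintegral_map hf hPm, h5]
  refine le_of_eq (lintegral_congr fun p => ?_)
  simp only [Pi.mul_apply, Function.comp_apply]
  rw [mul_comm]

theorem lintegral_image_le {s : Set (E n)} (hs : MeasurableSet s) {P : E n → E n}
    {P' : E n → E n →L[ℝ] E n} {K : NNReal} (hP : LipschitzOnWith K P s)
    (hd : ∀ᵐ p, p ∈ s → HasFDerivWithinAt P (P' p) s p) {f : E n → ENNReal} (hf : Measurable f) :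
    ∫⁻ w in P '' s, f w ≤ ∫⁻ p in s, f (P p) * ENNReal.ofReal |(P' p).det| := by
  classical
  set N := toMeasurable volume {p | ¬ (p ∈ s → HasFDerivWithinAt P (P' p) s p)} with hN
  have hNm : MeasurableSet N := measurableSet_toMeasurable _ _
  have hN0 : volume N = 0 := by rw [hN, measure_toMeasurable]; exact hd
  have hNsub : ∀ p, p ∈ s → p ∉ N → HasFDerivWithinAt P (P' p) s p := by
    intro p hp hpN
    by_contra hcon
    exact hpN (subset_toMeasurable _ _ fun h => hcon (h hp))
  set t := s \ N with ht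
  have htm : MeasurableSet t := hs.diff hNm
  have hts : t ⊆ s := sdiff_subset
  set Q : E n → E n := t.piecewise P (fun _ => 0) with hQ
  have hQm : Measurable Q := by
    refine ContinuousOn.measurable_piecewise ?_ continuous_zero.continuousOn htm
    exact hP.continuousOn.mono hts
  have hQP : EqOn Q P t := fun p hp => by simp [hQ, hp]
  have hQd : ∀ p ∈ t, HasFDerivWithinAt Q (P' p) t p := fun p hp =>
    ((hNsub p hp.1 hp.2).mono hts).congr hQP (hQP hp)
  have h1 := lintegral_image_le_aux htm hQm hQd hf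
  rw [hQP.image_eq] at h1
  have h2 : ∫⁻ p in t, f (Q p) * ENNReal.ofReal |(P' p).det| =
      ∫⁻ p in t, f (P p) * ENNReal.ofReal |(P' p).det| :=
    setLIntegral_congr_fun htm fun p hp => by simp only [hQP hp]
  rw [h2] at h1
  have hcov : P '' s ⊆ P '' t ∪ P '' (s ∩ N) := by
    rintro _ ⟨p, hp, rfl⟩
    by_cases hpN : p ∈ N
    · exact Or.inr ⟨p, ⟨hp, hpN⟩, rfl⟩
    · exact Or.inl ⟨p, ⟨hp, hpN⟩, rfl⟩
  have hnull : volume (P '' (s ∩ N)) = 0 :=
    volume_image_null (hP.mono inter_subset_left) (measure_mono_null inter_subset_right hN0)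
  calc ∫⁻ w in P '' s, f w ≤ ∫⁻ w in P '' t ∪ P '' (s ∩ N), f w := lintegral_mono_set hcov
    _ ≤ (∫⁻ w in P '' t, f w) + ∫⁻ w in P '' (s ∩ N), f w := lintegral_union_le _ _ _
    _ = ∫⁻ w in P '' t, f w := by
      rw [Measure.restrict_eq_zero.2 hnull, lintegral_zero_measure, add_zero]
    _ ≤ ∫⁻ p in t, f (P p) * ENNReal.ofReal |(P' p).det| := h1
    _ ≤ ∫⁻ p in s, f (P p) * ENNReal.ofReal |(P' p).det| := lintegral_mono_set hts

/-- Derivative of an implicitly defined map on an arbitrary set. -/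
theorem hasFDerivWithinAt_zero {k : ℕ} {H : E k × E n → E n} {p₀ : E k} {w₀ : E n}
    {N : E k →L[ℝ] E n} {D : E n →L[ℝ] E n}
    (hH : HasFDerivAt H (N.comp (ContinuousLinearMap.fst ℝ (E k) (E n)) +
      D.comp (ContinuousLinearMap.snd ℝ (E k) (E n))) (p₀, w₀)) (hD : D.det ≠ 0)
    {s : Set (E k)} {P : E k → E n} (hw₀ : P p₀ = w₀) (h₀ : H (p₀, w₀) = 0)
    (hP : ∀ p ∈ s, H (p, P p) = 0) {K : ℝ} (hK : ∀ p ∈ s, ‖P p - P p₀‖ ≤ K * ‖p - p₀‖) :
    ∃ P' : E k →L[ℝ] E n, HasFDerivWithinAt P P' s p₀ ∧ ∀ h, D (P' h) = -N h := by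
  subst hw₀
  set e : E n ≃L[ℝ] E n := D.toContinuousLinearEquivOfDetNeZero hD with he
  have heD : ∀ x, e x = D x := fun x => rfl
  refine ⟨-((e.symm : E n →L[ℝ] E n).comp N), ?_, fun h => ?_⟩
  · -- `P p - P p₀ + e⁻¹ N (p - p₀) = e⁻¹ (D (P p - P p₀) + N (p - p₀))`
    have h1 : (fun q : E k × E n => H q - H (p₀, P p₀) -
        (N.comp (ContinuousLinearMap.fst ℝ (E k) (E n)) +
          D.comp (ContinuousLinearMap.snd ℝ (E k) (E n))) (q - (p₀, P p₀))) =o[𝓝 (p₀, P p₀)]
        fun q => q - (p₀, P p₀) := hH.isLittleO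
    have hbound : ∀ p ∈ s, ‖(p, P p) - (p₀, P p₀)‖ ≤ (|K| + 1) * ‖p - p₀‖ := by
      intro p hp
      rw [Prod.mk_sub_mk, Prod.norm_def]
      refine max_le ?_ ?_
      · have := norm_nonneg (p - p₀)
        have := abs_nonneg K
        simp only
        nlinarith
      · refine (hK p hp).trans ?_
        have := norm_nonneg (p - p₀)
        have := le_abs_self K
        nlinarith
    have htend : Tendsto (fun p => (p, P p)) (𝓝[s] p₀) (𝓝 (p₀, P p₀)) := by
      rw [tendsto_iff_norm_sub_tendsto_zero]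
      refine squeeze_zero' (g := fun p => (|K| + 1) * ‖p - p₀‖)
        (Eventually.of_forall fun p => norm_nonneg _)
        (eventually_nhdsWithin_of_forall hbound) ?_
      have : Tendsto (fun p : E k => (|K| + 1) * ‖p - p₀‖) (𝓝 p₀) (𝓝 ((|K| + 1) * ‖p₀ - p₀‖)) :=
        (tendsto_const_nhds.mul ((tendsto_id.sub tendsto_const_nhds).norm))
      rw [sub_self, norm_zero, mul_zero] at this
      exact this.mono_left nhdsWithin_le_nhds
    have h2 := h1.comp_tendsto htend
    have h3 : ((fun q : E k × E n => q - (p₀, P p₀)) ∘ fun p => (p, P p)) =O[𝓝[s] p₀]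
        fun p => p - p₀ := by
      refine Asymptotics.IsBigO.of_bound (|K| + 1) ?_
      exact eventually_nhdsWithin_of_forall hbound
    have h4 := h2.trans_isBigO h3
    rw [hasFDerivWithinAt_iff_isLittleO]
    have h5 : (fun p => P p - P p₀ - (-((e.symm : E n →L[ℝ] E n).comp N)) (p - p₀)) =O[𝓝[s] p₀]
        ((fun q : E k × E n => H q - H (p₀, P p₀) -
        (N.comp (ContinuousLinearMap.fst ℝ (E k) (E n)) +
          D.comp (ContinuousLinearMap.snd ℝ (E k) (E n))) (q - (p₀, P p₀))) ∘ fun p => (p, P p)) := by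
      refine Asymptotics.IsBigO.of_bound ‖(e.symm : E n →L[ℝ] E n)‖ ?_
      refine eventually_nhdsWithin_of_forall fun p hp => ?_
      have e1 : P p - P p₀ - (-((e.symm : E n →L[ℝ] E n).comp N)) (p - p₀) =
          (e.symm : E n →L[ℝ] E n) (D (P p - P p₀) + N (p - p₀)) := by
        rw [map_add, ← heD]
        simp only [neg_apply, ContinuousLinearMap.comp_apply,
          ContinuousLinearEquiv.coe_coe, ContinuousLinearEquiv.symm_apply_apply, sub_neg_eq_add]
      have e2 : ((fun q : E k × E n => H q - H (p₀, P p₀) -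
        (N.comp (ContinuousLinearMap.fst ℝ (E k) (E n)) +
          D.comp (ContinuousLinearMap.snd ℝ (E k) (E n))) (q - (p₀, P p₀))) ∘ fun p => (p, P p)) p =
          -(D (P p - P p₀) + N (p - p₀)) := by
        simp only [Function.comp_apply, hP p hp, h₀, sub_zero, zero_sub, Prod.mk_sub_mk,
          add_apply, ContinuousLinearMap.comp_apply,
          ContinuousLinearMap.coe_fst', ContinuousLinearMap.coe_snd']
        rw [add_comm]
      rw [e1, e2, norm_neg]
      exact ContinuousLinearMap.le_opNorm _ _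
    exact h5.trans_isLittleO h4
  · have : D (e.symm (N h)) = N h := by rw [← heD, ContinuousLinearEquiv.apply_symm_apply]
    simp [this]

end Pool.Agent.H65L
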