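import Pool.Agent.H65L.LamAlg

set_option autoImplicit false

/-! Existence and properties of the boosted function (module LB/Boost). -/

open Real Set MeasureTheory Metric Filter Topology
open scoped RealInnerProductSpace

namespace Pool.Agent.H65L

open Pool.Agent.H65G

variable {n : ℕ}

/-- The function whose zero is the boosted function. -/
private noncomputable def kf (w : E n) (G : E n → ℝ) (y : E n) (t : ℝ) : ℝ :=
  gm w * (t + ⟪w, y⟫) - G (Lam w y + (gm w * t) • w)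

private theorem kf_mono {κ r : ℝ} (hκ0 : 0 ≤ κ) {w : E n} (hw1 : ‖w‖ < 1) (hw : ‖w‖ ≤ r)
    {G : E n → ℝ} (hG : Cone κ G) (y : E n) {s t : ℝ} (hst : s ≤ t) :
    gm w * (1 - κ * r) * (t - s) ≤ kf w G y t - kf w G y s := by
  have hg := gm_pos hw1
  have h1 := hG.lip (Lam w y + (gm w * t) • w) (Lam w y + (gm w * s) • w)
  have h2 : Lam w y + (gm w * t) • w - (Lam w y + (gm w * s) • w) = (gm w * (t - s)) • w := by
    module
  rw [h2, norm_smul, Real.norm_eq_abs,
    abs_of_nonneg (mul_nonneg hg.le (sub_nonneg.2 hst))] at h1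
  have h3 := (abs_le.1 h1).2
  have h4 : κ * (gm w * (t - s) * ‖w‖) ≤ κ * (gm w * (t - s) * r) := by
    apply mul_le_mul_of_nonneg_left _ hκ0
    exact mul_le_mul_of_nonneg_left hw (mul_nonneg hg.le (sub_nonneg.2 hst))
  unfold kf
  linarith

private theorem kf_cont {κ : ℝ} {w : E n} {G : E n → ℝ} (hG : Cone κ G) (y : E n) :
    Continuous (kf w G y) := by
  have hGc : Continuous G := by
    have : LipschitzWith (Real.toNNReal (max κ 0)) G := by
      refine LipschitzWith.of_dist_le_mul fun z z' => ?_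
      rw [Real.dist_eq, dist_eq_norm, Real.coe_toNNReal _ (le_max_right _ _)]
      exact (hG.lip z z').trans (mul_le_mul_of_nonneg_right (le_max_left _ _) (norm_nonneg _))
    exact this.continuous
  unfold kf
  fun_prop

/-- For a cone function `G` with Lipschitz constant `κ < 1` and `|w| ≤ r < 1` the boost of the
subgraph of `G` is again the subgraph of a cone function, with a Lipschitz constant `κ' < 1` which
depends on `κ` and `r` only. -/
theorem exists_boost {κ r : ℝ} (hκ0 : 0 ≤ κ) (hκ : κ < 1) (hr0 : 0 ≤ r) (hr : r < 1) :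
    ∃ κ' : ℝ, 0 ≤ κ' ∧ κ' < 1 ∧ ∀ w : E n, ‖w‖ ≤ r → ∀ G : E n → ℝ, Cone κ G →
      ∃ G' : E n → ℝ, Cone κ' G' ∧ IsBoost w G G' := by
  have hk2 : 0 < 1 - κ ^ 2 := by nlinarith
  have hr2 : 0 < 1 - r ^ 2 := by nlinarith
  have hk3 : 1 - κ ^ 2 ≤ 1 := by nlinarith
  have hr3 : 1 - r ^ 2 ≤ 1 := by nlinarith
  have hpos : 0 < (1 - κ ^ 2) * (1 - r ^ 2) := mul_pos hk2 hr2
  have hle : (1 - κ ^ 2) * (1 - r ^ 2) ≤ 1 := mul_le_one₀ hk3 hr2.le hr3
  have hq : 0 ≤ 1 - (1 - κ ^ 2) * (1 - r ^ 2) / 4 := by linarith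
  refine ⟨√(1 - (1 - κ ^ 2) * (1 - r ^ 2) / 4), Real.sqrt_nonneg _, ?_, ?_⟩
  · rw [Real.sqrt_lt' one_pos]
    linarith
  intro w hw G hG
  have hw1 : ‖w‖ < 1 := lt_of_le_of_lt hw hr
  have hg := gm_pos hw1
  have hc : 0 < gm w * (1 - κ * r) := by
    apply mul_pos hg
    have : κ * r < 1 := mul_lt_one_of_nonneg_of_lt_one_left hκ0 hκ hr.le
    linarith
  have hmono : ∀ (y : E n) (s t : ℝ), s ≤ t →
      gm w * (1 - κ * r) * (t - s) ≤ kf w G y t - kf w G y s :=
    fun y s t hst => kf_mono hκ0 hw1 hw hG y hst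
  have hex : ∀ y : E n, ∃ t : ℝ, kf w G y t = 0 := by
    intro y
    set c := gm w * (1 - κ * r) with hcdef
    set a := |kf w G y 0| / c with ha
    have ha0 : 0 ≤ a := div_nonneg (abs_nonneg _) hc.le
    have hca : c * a = |kf w G y 0| := by
      rw [ha]
      field_simp
    have h1 : 0 ≤ kf w G y a := by
      have := hmono y 0 a ha0
      have h2 := neg_abs_le (kf w G y 0)
      rw [sub_zero, hca] at this
      linarith
    have h2 : kf w G y (-a) ≤ 0 := by
      have := hmono y (-a) 0 (by linarith)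
      have h2 := le_abs_self (kf w G y 0)
      rw [sub_neg_eq_add, zero_add, hca] at this
      linarith
    exact mem_range_of_exists_le_of_exists_ge (kf_cont hG y) ⟨_, h2⟩ ⟨_, h1⟩
  choose T hT using hex
  have hle_iff : ∀ (y : E n) (t : ℝ), kf w G y t ≤ 0 ↔ t ≤ T y := by
    intro y t
    constructor
    · intro h
      by_contra hlt
      push Not at hlt
      have := hmono y (T y) t hlt.le
      rw [hT y] at this
      have h3 : 0 < gm w * (1 - κ * r) * (t - T y) := mul_pos hc (sub_pos.2 hlt)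
      linarith
    · intro h
      have := hmono y t (T y) h
      rw [hT y] at this
      have h3 : 0 ≤ gm w * (1 - κ * r) * (T y - t) := mul_nonneg hc.le (sub_nonneg.2 h)
      linarith
  have huniq : ∀ (y : E n) (t : ℝ), kf w G y t = 0 → T y = t := by
    intro y t h
    apply le_antisymm _ ((hle_iff y t).1 h.le)
    by_contra hlt
    push Not at hlt
    have := hmono y t (T y) hlt.le
    rw [hT y, h] at this
    have h3 : 0 < gm w * (1 - κ * r) * (T y - t) := mul_pos hc (sub_pos.2 hlt)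
    linarith
  refine ⟨T, ⟨?_, ?_, ?_⟩, ⟨?_, ?_⟩⟩
  · intro y
    apply huniq
    have h1 : Lam w (-y) + (gm w * -T y) • w = -(Lam w y + (gm w * T y) • w) := by
      rw [map_neg]
      module
    have h2 := hT y
    unfold kf at h2 ⊢
    rw [h1, hG.odd, inner_neg_right]
    linarith
  · intro s y hs
    apply huniq
    have h1 : Lam w (s • y) + (gm w * (s * T y)) • w = s • (Lam w y + (gm w * T y) • w) := by
      rw [map_smul]
      module
    have h2 := hT y
    unfold kf at h2 ⊢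
    rw [h1, hG.hom _ _ hs, real_inner_smul_right]
    linear_combination s * h2
  · intro y₁ y₂
    have b1 := boost_inv hw1 y₁ (T y₁)
    have b2 := boost_inv hw1 y₂ (T y₂)
    set z₁ := Lam w y₁ + (gm w * T y₁) • w with hz₁
    set z₂ := Lam w y₂ + (gm w * T y₂) • w with hz₂
    set τ₁ := gm w * (T y₁ + ⟪w, y₁⟫) with hτ₁
    set τ₂ := gm w * (T y₂ + ⟪w, y₂⟫) with hτ₂
    have g1 : τ₁ = G z₁ := by
      have := hT y₁
      unfold kf at this
      linarith
    have g2 : τ₂ = G z₂ := by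
      have := hT y₂
      unfold kf at this
      linarith
    have hlip : |τ₁ - τ₂| ≤ κ * ‖z₁ - z₂‖ := by
      rw [g1, g2]
      exact hG.lip _ _
    have hy : y₁ - y₂ = Lam w ((z₁ - z₂) - (τ₁ - τ₂) • w) := by
      conv_lhs => rw [← b1.1, ← b2.1]
      rw [← map_sub]
      congr 1
      module
    have ht : T y₁ - T y₂ = gm w * ((τ₁ - τ₂) - ⟪w, z₁ - z₂⟫) := by
      conv_lhs => rw [← b1.2, ← b2.2]
      rw [inner_sub_right]
      ring
    have hn := norm_Lam_sub_sq hw1 (z₁ - z₂) (τ₁ - τ₂)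
    rw [← hy, qf] at hn
    have ht2 : (T y₁ - T y₂) ^ 2 = gm w ^ 2 * ((τ₁ - τ₂) - ⟪w, z₁ - z₂⟫) ^ 2 := by
      rw [ht]
      ring
    have hnZ := norm_nonneg (z₁ - z₂)
    have hτsq : (τ₁ - τ₂) ^ 2 ≤ κ ^ 2 * ‖z₁ - z₂‖ ^ 2 := by
      rw [← sq_abs, ← mul_pow]
      exact pow_le_pow_left₀ (abs_nonneg _) hlip 2
    have hyn : ‖y₁ - y₂‖ ≤ gm w * (2 * ‖z₁ - z₂‖) := by
      rw [hy]
      refine (norm_Lam_le hw1 _).trans ?_
      apply mul_le_mul_of_nonneg_left _ hg.le
      refine (norm_sub_le _ _).trans ?_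
      rw [norm_smul, Real.norm_eq_abs]
      have h5 : |τ₁ - τ₂| * ‖w‖ ≤ ‖z₁ - z₂‖ := by
        exact (mul_le_of_le_one_right (abs_nonneg _) hw1.le).trans
          (hlip.trans (mul_le_of_le_one_left hnZ hκ.le))
      linarith
    have hyn2 : ‖y₁ - y₂‖ ^ 2 * (1 - r ^ 2) ≤ 4 * ‖z₁ - z₂‖ ^ 2 := by
      have h5 := pow_le_pow_left₀ (norm_nonneg _) hyn 2
      have h6 := gm_sq_mul hw1
      have h7 : 1 - r ^ 2 ≤ 1 - ‖w‖ ^ 2 := by
        have := pow_le_pow_left₀ (norm_nonneg w) hw 2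
        linarith
      have h8 : ‖y₁ - y₂‖ ^ 2 * (1 - r ^ 2) ≤ ‖y₁ - y₂‖ ^ 2 * (1 - ‖w‖ ^ 2) :=
        mul_le_mul_of_nonneg_left h7 (sq_nonneg _)
      have h9 : ‖y₁ - y₂‖ ^ 2 * (1 - ‖w‖ ^ 2) ≤
          (gm w * (2 * ‖z₁ - z₂‖)) ^ 2 * (1 - ‖w‖ ^ 2) :=
        mul_le_mul_of_nonneg_right h5 (one_sub_pos hw1).le
      have h10 : (gm w * (2 * ‖z₁ - z₂‖)) ^ 2 * (1 - ‖w‖ ^ 2) =
          gm w ^ 2 * (1 - ‖w‖ ^ 2) * (4 * ‖z₁ - z₂‖ ^ 2) := by ring
      rw [h6, one_mul] at h10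
      linarith
    have hfin : (T y₁ - T y₂) ^ 2 ≤
        (√(1 - (1 - κ ^ 2) * (1 - r ^ 2) / 4) * ‖y₁ - y₂‖) ^ 2 := by
      rw [mul_pow, Real.sq_sqrt hq]
      have h5 := mul_le_mul_of_nonneg_left hyn2 hk2.le
      linarith
    exact abs_le_of_sq_le_sq hfin (mul_nonneg (Real.sqrt_nonneg _) (norm_nonneg _))
  · intro z τ
    obtain ⟨h1, h2⟩ := inv_boost hw1 z τ
    rw [← hle_iff]
    unfold kf
    rw [h1, h2]
    constructor <;> intro h <;> linarith
  · intro z
    obtain ⟨h1, h2⟩ := inv_boost hw1 z (G z)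
    apply huniq
    unfold kf
    rw [h1, h2]
    ring

end Pool.Agent.H65L
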