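import Pool.Agent.H65L.Gauss

set_option autoImplicit false

/-! Change of variables by a boost (module LB/Change). -/

open Real Set MeasureTheory Metric Filter Topology
open scoped RealInnerProductSpace

namespace Pool.Agent.H65L

open Pool.Agent.H65G

variable {n : ℕ}

theorem integral_comp_Lam {F : Type} [NormedAddCommGroup F] [NormedSpace ℝ F] {w : E n}
    (hw : ‖w‖ < 1) (f : E n → F) : ∫ z, f z = gm w • ∫ y, f (Lam w y) := by
  have h := integral_image_eq_integral_abs_det_fderiv_smul (volume : Measure (E n))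
    MeasurableSet.univ (f := fun y => Lam w y) (f' := fun _ => Lam w)
    (fun x _ => (Lam w).hasFDerivAt.hasFDerivWithinAt) ((LamEquiv hw).injective.injOn) f
  have hi : (fun y => Lam w y) '' univ = univ := by
    rw [image_univ]
    exact (LamEquiv hw).surjective.range_eq
  rw [hi] at h
  simp only [Measure.restrict_univ, det_Lam hw, abs_of_pos (gm_pos hw)] at h
  rw [h, integral_smul]

theorem map_Lam {w : E n} (hw : ‖w‖ < 1) :
    Measure.map (Lam w) (volume : Measure (E n)) = ENNReal.ofReal (gm w)⁻¹ • volume := by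
  have h := Measure.map_linearMap_addHaar_eq_smul_addHaar (volume : Measure (E n))
    (f := ((Lam w : E n →L[ℝ] E n) : E n →ₗ[ℝ] E n)) (by
      have := det_Lam hw
      rw [ContinuousLinearMap.det] at this
      rw [this]
      exact (gm_pos hw).ne')
  have h2 := det_Lam hw
  rw [ContinuousLinearMap.det] at h2
  rw [h2, abs_of_pos (inv_pos.2 (gm_pos hw))] at h
  exact h

/-- The boost as a homeomorphism. -/
noncomputable def chB {w : E n} (hw : ‖w‖ < 1) : (E n × ℝ) ≃ₜ (E n × ℝ) where
  toFun p := (Lam w (p.1 - p.2 • w), gm w * (p.2 - ⟪w, p.1⟫))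
  invFun q := (Lam w q.1 + (gm w * q.2) • w, gm w * (q.2 + ⟪w, q.1⟫))
  left_inv p := by
    have h := inv_boost hw p.1 p.2
    exact Prod.ext h.1 h.2
  right_inv q := by
    have h := boost_inv hw q.1 q.2
    exact Prod.ext h.1 h.2
  continuous_toFun := by fun_prop
  continuous_invFun := by fun_prop

theorem chB_apply {w : E n} (hw : ‖w‖ < 1) (z : E n) (τ : ℝ) :
    chB hw (z, τ) = (Lam w (z - τ • w), gm w * (τ - ⟪w, z⟫)) := rfl

theorem chB_measurePreserving {w : E n} (hw : ‖w‖ < 1) :
    MeasurePreserving (chB hw) (volume.prod volume) (volume.prod volume) := by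
  have hg := gm_pos hw
  -- the shear
  have h1 : MeasurePreserving (fun p : E n × ℝ => (p.1 - p.2 • w, p.2))
      (volume.prod volume) (volume.prod volume) := by
    have e1 : MeasurePreserving (fun p : ℝ × E n => (p.1, p.2 - p.1 • w))
        (volume.prod volume) (volume.prod volume) := by
      refine MeasurePreserving.skew_product (f := id) (g := fun (a : ℝ) (c : E n) => c - a • w)
        (MeasurePreserving.id _) (by fun_prop) (Eventually.of_forall fun a => ?_)
      exact (measurePreserving_sub_right volume (a • w)).map_eq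
    exact (Measure.measurePreserving_swap.comp e1).comp Measure.measurePreserving_swap
  -- the second map
  have h2 : MeasurePreserving (fun p : E n × ℝ => (Lam w p.1, (gm w)⁻¹ * p.2 - gm w * ⟪w, p.1⟫))
      (volume.prod volume)
      ((ENNReal.ofReal (gm w)⁻¹ • volume).prod (ENNReal.ofReal (gm w) • volume)) := by
    refine MeasurePreserving.skew_product (f := fun v => Lam w v)
      (g := fun (v : E n) (τ : ℝ) => (gm w)⁻¹ * τ - gm w * ⟪w, v⟫)
      ⟨(Lam w).continuous.measurable, map_Lam hw⟩ (by fun_prop) (Eventually.of_forall fun v => ?_)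
    have : (fun τ : ℝ => (gm w)⁻¹ * τ - gm w * ⟪w, v⟫) =
        (fun τ : ℝ => τ - gm w * ⟪w, v⟫) ∘ fun τ : ℝ => (gm w)⁻¹ * τ := rfl
    rw [this, ← Measure.map_map (by fun_prop) (by fun_prop),
      Real.map_volume_mul_left (inv_pos.2 hg).ne', inv_inv, abs_of_pos hg, Measure.map_smul,
      (measurePreserving_sub_right volume (gm w * ⟪w, v⟫)).map_eq]
  have h3 : (ENNReal.ofReal (gm w)⁻¹ • (volume : Measure (E n))).prod
      (ENNReal.ofReal (gm w) • (volume : Measure ℝ)) = volume.prod volume := by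
    rw [Measure.prod_smul_left, Measure.prod_smul_right, smul_smul, ← ENNReal.ofReal_mul
      (inv_pos.2 hg).le, inv_mul_cancel₀ hg.ne', ENNReal.ofReal_one, one_smul]
  rw [h3] at h2
  have h4 := h2.comp h1
  have h5 : (chB hw : E n × ℝ → E n × ℝ) =
      (fun p : E n × ℝ => (Lam w p.1, (gm w)⁻¹ * p.2 - gm w * ⟪w, p.1⟫)) ∘
        fun p : E n × ℝ => (p.1 - p.2 • w, p.2) := by
    funext p
    have h6 := gm_sq_mul hw
    refine Prod.ext rfl ?_
    change gm w * (p.2 - ⟪w, p.1⟫) = (gm w)⁻¹ * p.2 - gm w * ⟪w, p.1 - p.2 • w⟫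
    rw [inner_sub_right, real_inner_smul_right, real_inner_self_eq_norm_sq]
    have h7 : (gm w)⁻¹ = gm w * (1 - ‖w‖ ^ 2) := by
      field_simp
      linear_combination -h6
    rw [h7]
    ring
  rw [h5]
  exact h4

section

variable {F : Type} [NormedAddCommGroup F] [NormedSpace ℝ F]

/-- The signed region under the graph. -/
noncomputable def chF (G' : E n → ℝ) (f : E n → ℝ → F) (q : E n × ℝ) : F :=
  indicator {q : E n × ℝ | 0 < q.2 ∧ q.2 ≤ G' q.1} (Function.uncurry f) q -
    indicator {q : E n × ℝ | G' q.1 < q.2 ∧ q.2 ≤ 0} (Function.uncurry f) q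

theorem chF_integrable {G' : E n → ℝ} (hG' : Continuous G')
    (hle : ∀ y, |G' y| ≤ ‖y‖) {f : E n → ℝ → F} (hf : Continuous (Function.uncurry f))
    {C : ℝ} {m : ℕ} (hb : ∀ y τ, |τ| ≤ ‖y‖ → ‖f y τ‖ ≤ C * (1 + ‖y‖) ^ m * wt y) :
    Integrable (chF G' f) (volume.prod volume) := by
  have hC : 0 ≤ C := by
    have h := (norm_nonneg _).trans (hb 0 0 (by simp))
    have h2 : 0 < wt (0 : E n) := wt_pos _
    have h3 : (C * (1 + ‖(0 : E n)‖) ^ m * wt (0 : E n)) = C * wt (0 : E n) := by simp
    rw [h3] at h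
    exact nonneg_of_mul_nonneg_left h h2
  have hm1 : MeasurableSet {q : E n × ℝ | 0 < q.2 ∧ q.2 ≤ G' q.1} :=
    (measurableSet_lt measurable_const measurable_snd).inter
      (measurableSet_le measurable_snd (hG'.measurable.comp measurable_fst))
  have hm2 : MeasurableSet {q : E n × ℝ | G' q.1 < q.2 ∧ q.2 ≤ 0} :=
    (measurableSet_lt (hG'.measurable.comp measurable_fst) measurable_snd).inter
      (measurableSet_le measurable_snd measurable_const)
  have hsm : AEStronglyMeasurable (chF G' f) (volume.prod volume) :=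
    ((hf.stronglyMeasurable.indicator hm1).sub (hf.stronglyMeasurable.indicator hm2)).aestronglyMeasurable
  -- the dominating function
  set g : E n × ℝ → ℝ := fun q =>
    indicator {q : E n × ℝ | |q.2| ≤ ‖q.1‖} (fun q => C * (1 + ‖q.1‖) ^ m * wt q.1) q with hg
  have hms : MeasurableSet {q : E n × ℝ | |q.2| ≤ ‖q.1‖} :=
    measurableSet_le (by fun_prop) (by fun_prop)
  have hwc : Continuous (wt : E n → ℝ) := continuous_wt
  have hgm : AEStronglyMeasurable g (volume.prod volume) :=
    ((by fun_prop : Continuous fun q : E n × ℝ =>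
      C * (1 + ‖q.1‖) ^ m * wt q.1).stronglyMeasurable.indicator hms).aestronglyMeasurable
  have hgy : ∀ (y : E n) (t : ℝ), g (y, t) =
      indicator (Icc (-‖y‖) ‖y‖) (fun _ => C * (1 + ‖y‖) ^ m * wt y) t := by
    intro y t
    by_cases h : |t| ≤ ‖y‖
    · rw [hg]
      simp only
      rw [indicator_of_mem (show (y, t) ∈ {q : E n × ℝ | |q.2| ≤ ‖q.1‖} from h),
        indicator_of_mem (show t ∈ Icc (-‖y‖) ‖y‖ from abs_le.1 h)]
    · rw [hg]
      simp only
      rw [indicator_of_notMem (show (y, t) ∉ {q : E n × ℝ | |q.2| ≤ ‖q.1‖} from h),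
        indicator_of_notMem (show t ∉ Icc (-‖y‖) ‖y‖ from fun h2 => h (abs_le.2 h2))]
  have hgi : Integrable g (volume.prod volume) := by
    rw [integrable_prod_iff hgm]
    constructor
    · refine Eventually.of_forall fun y => ?_
      simp_rw [hgy]
      rw [integrable_indicator_iff measurableSet_Icc]
      exact integrableOn_const (by simp) enorm_ne_top
    · have e : ∀ y : E n, ∫ t, ‖g (y, t)‖ = 2 * C * (‖y‖ * (1 + ‖y‖) ^ m) * wt y := by
        intro y
        have h1 : ∀ t, ‖g (y, t)‖ =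
            indicator (Icc (-‖y‖) ‖y‖) (fun _ => C * (1 + ‖y‖) ^ m * wt y) t := by
          intro t
          rw [hgy, Real.norm_eq_abs, abs_of_nonneg]
          refine indicator_nonneg (fun _ _ => ?_) t
          have := wt_pos y
          positivity
        simp_rw [h1]
        rw [integral_indicator measurableSet_Icc, setIntegral_const]
        simp only [measureReal_def, Real.volume_Icc, smul_eq_mul]
        rw [ENNReal.toReal_ofReal (by have := norm_nonneg y; linarith)]
        ring
      simp_rw [e]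
      have h2 := (integrable_poly_exp (n := n) (m + 1) (c := 1 / 2) (by norm_num)).const_mul (2 * C)
      refine h2.mono' (by fun_prop) (Eventually.of_forall fun y => ?_)
      have hy := norm_nonneg y
      have hw := wt_pos y
      rw [Real.norm_eq_abs, abs_of_nonneg (by positivity)]
      have h3 : wt y = exp (-(1 / 2 * ‖y‖ ^ 2)) := by
        unfold wt
        congr 1
        ring
      rw [h3] at hw ⊢
      have h4 : ‖y‖ * (1 + ‖y‖) ^ m ≤ (1 + ‖y‖) ^ (m + 1) := by
        rw [pow_succ, mul_comm]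
        gcongr
        linarith
      calc 2 * C * (‖y‖ * (1 + ‖y‖) ^ m) * exp (-(1 / 2 * ‖y‖ ^ 2))
          ≤ 2 * C * ((1 + ‖y‖) ^ (m + 1)) * exp (-(1 / 2 * ‖y‖ ^ 2)) := by gcongr
        _ = 2 * C * ((1 + ‖y‖) ^ (m + 1) * exp (-(1 / 2 * ‖y‖ ^ 2))) := by ring
  refine hgi.mono' hsm (Eventually.of_forall fun q => ?_)
  obtain ⟨y, t⟩ := q
  have hy := hle y
  rw [abs_le] at hy
  by_cases h1 : 0 < t ∧ t ≤ G' y
  · have h2 : ¬ (G' y < t ∧ t ≤ 0) := fun h => by linarith [h1.1, h.2]
    have h3 : |t| ≤ ‖y‖ := by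
      rw [abs_le]
      constructor <;> linarith [h1.1, h1.2, norm_nonneg y]
    rw [chF, indicator_of_mem (show (y, t) ∈ {q : E n × ℝ | 0 < q.2 ∧ q.2 ≤ G' q.1} from h1),
      indicator_of_notMem (show (y, t) ∉ {q : E n × ℝ | G' q.1 < q.2 ∧ q.2 ≤ 0} from h2),
      sub_zero, hg]
    simp only
    rw [indicator_of_mem (show (y, t) ∈ {q : E n × ℝ | |q.2| ≤ ‖q.1‖} from h3)]
    exact hb y t h3
  · by_cases h2 : G' y < t ∧ t ≤ 0
    · have h3 : |t| ≤ ‖y‖ := by
        rw [abs_le]
        constructor <;> linarith [h2.1, h2.2, norm_nonneg y]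
      rw [chF, indicator_of_notMem (show (y, t) ∉ {q : E n × ℝ | 0 < q.2 ∧ q.2 ≤ G' q.1} from h1),
        indicator_of_mem (show (y, t) ∈ {q : E n × ℝ | G' q.1 < q.2 ∧ q.2 ≤ 0} from h2),
        zero_sub, norm_neg, hg]
      simp only
      rw [indicator_of_mem (show (y, t) ∈ {q : E n × ℝ | |q.2| ≤ ‖q.1‖} from h3)]
      exact hb y t h3
    · rw [chF, indicator_of_notMem (show (y, t) ∉ {q : E n × ℝ | 0 < q.2 ∧ q.2 ≤ G' q.1} from h1),
        indicator_of_notMem (show (y, t) ∉ {q : E n × ℝ | G' q.1 < q.2 ∧ q.2 ≤ 0} from h2),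
        sub_zero, norm_zero, hg]
      refine indicator_nonneg (fun q _ => ?_) _
      have := wt_pos q.1
      positivity

/-- Integral of the difference of two indicators of half-open intervals. -/
theorem integral_ind_sub (a b : ℝ) {h : ℝ → F} (hc : Continuous h) :
    ∫ t, (indicator {t : ℝ | a < t ∧ t ≤ b} h t - indicator {t : ℝ | b < t ∧ t ≤ a} h t) =
      ∫ t in a..b, h t := by
  have e1 : {t : ℝ | a < t ∧ t ≤ b} = Ioc a b := rfl
  have e2 : {t : ℝ | b < t ∧ t ≤ a} = Ioc b a := rfl
  rw [e1, e2, integral_sub, integral_indicator measurableSet_Ioc,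
    integral_indicator measurableSet_Ioc, intervalIntegral]
  · rw [integrable_indicator_iff measurableSet_Ioc]
    exact (hc.integrableOn_Icc).mono_set Ioc_subset_Icc_self
  · rw [integrable_indicator_iff measurableSet_Ioc]
    exact (hc.integrableOn_Icc).mono_set Ioc_subset_Icc_self

end

/-- The boost preserves the volume, and maps the region between the hyperplane `τ = ⟨w,z⟩` and the
graph of `G` to the region between `τ' = 0` and the graph of `G'`. -/
theorem change_var {F : Type} [NormedAddCommGroup F] [NormedSpace ℝ F] {w : E n} (hw : ‖w‖ < 1)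
    {G G' : E n → ℝ} (hG : Continuous G) (hG' : Continuous G') (hB : IsBoost w G G')
    (hle : ∀ y, |G' y| ≤ ‖y‖) {f : E n → ℝ → F} (hf : Continuous (Function.uncurry f))
    {C : ℝ} {m : ℕ} (hb : ∀ y τ, |τ| ≤ ‖y‖ → ‖f y τ‖ ≤ C * (1 + ‖y‖) ^ m * wt y) :
    Integrable (fun z => ∫ τ in ⟪w, z⟫..G z, f (Lam w (z - τ • w)) (gm w * (τ - ⟪w, z⟫))) ∧
    Integrable (fun y => ∫ τ in (0 : ℝ)..G' y, f y τ) ∧
    ∫ z, ∫ τ in ⟪w, z⟫..G z, f (Lam w (z - τ • w)) (gm w * (τ - ⟪w, z⟫)) =
      ∫ y, ∫ τ in (0 : ℝ)..G' y, f y τ := by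
  have hgp := gm_pos hw
  have hI := chF_integrable hG' hle hf hb
  have hP := chB_measurePreserving hw
  have hme : MeasurableEmbedding (chB hw) := (chB hw).measurableEmbedding
  have hI2 : Integrable (fun p => chF G' f (chB hw p)) (volume.prod volume) :=
    (hP.integrable_comp_emb hme).2 hI
  have hE : ∫ p, chF G' f (chB hw p) ∂(volume.prod volume) =
      ∫ q, chF G' f q ∂(volume.prod volume) := hP.integral_comp hme _
  have hy : ∀ y : E n, ∫ t, chF G' f (y, t) = ∫ τ in (0 : ℝ)..G' y, f y τ := by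
    intro y
    rw [← integral_ind_sub (0 : ℝ) (G' y) (h := fun t => f y t)
      (hf.comp (by fun_prop : Continuous fun t : ℝ => (y, t)))]
    rfl
  have hz : ∀ z : E n, ∫ τ, chF G' f (chB hw (z, τ)) =
      ∫ τ in ⟪w, z⟫..G z, f (Lam w (z - τ • w)) (gm w * (τ - ⟪w, z⟫)) := by
    intro z
    rw [← integral_ind_sub (⟪w, z⟫) (G z)
      (h := fun τ => f (Lam w (z - τ • w)) (gm w * (τ - ⟪w, z⟫)))
      (hf.comp (by fun_prop : Continuous fun τ : ℝ =>
        (Lam w (z - τ • w), gm w * (τ - ⟪w, z⟫))))]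
    congr 1
    funext τ
    rw [chF, chB_apply]
    have i1 : (0 < gm w * (τ - ⟪w, z⟫)) ↔ ⟪w, z⟫ < τ := by
      rw [mul_pos_iff_of_pos_left hgp, sub_pos]
    have i2 : gm w * (τ - ⟪w, z⟫) ≤ 0 ↔ τ ≤ ⟪w, z⟫ := by
      rw [← not_lt, i1, not_lt]
    have i3 := hB.le_iff z τ
    congr 1
    · by_cases h : ⟪w, z⟫ < τ ∧ τ ≤ G z
      · rw [indicator_of_mem, indicator_of_mem]
        · rfl
        · exact h
        · exact ⟨i1.2 h.1, i3.1 h.2⟩
      · rw [indicator_of_notMem, indicator_of_notMem]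
        · exact h
        · rintro ⟨h1, h2⟩
          exact h ⟨i1.1 h1, i3.2 h2⟩
    · by_cases h : G z < τ ∧ τ ≤ ⟪w, z⟫
      · rw [indicator_of_mem, indicator_of_mem]
        · rfl
        · exact h
        · exact ⟨not_le.1 fun h1 => not_le.2 h.1 (i3.2 h1), i2.2 h.2⟩
      · rw [indicator_of_notMem, indicator_of_notMem]
        · exact h
        · rintro ⟨h1, h2⟩
          exact h ⟨not_le.1 fun h3 => not_le.2 h1 (i3.1 h3), i2.1 h2⟩
  refine ⟨?_, ?_, ?_⟩
  · have := hI2.integral_prod_left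
    simpa only [hz] using this
  · have := hI.integral_prod_left
    simpa only [hy] using this
  · rw [integral_prod _ hI2, integral_prod _ hI] at hE
    simpa only [hz, hy] using hE

end Pool.Agent.H65L
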