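import Pool.Agent.H65G.Cube

set_option autoImplicit false

/-! A determinant bound by the trace norm (module LB/DetN). -/

open Real Set MeasureTheory Metric Filter Topology
open scoped RealInnerProductSpace

namespace Pool.Agent.H65L

open Pool.Agent.H65G

variable {n : ℕ}

namespace DN

open Matrix

theorem exists_diag {H : Matrix (Fin n) (Fin n) ℝ} (hH : H.IsHermitian) :
    ∃ U : Matrix (Fin n) (Fin n) ℝ, Uᵀ * U = 1 ∧ Uᵀ * H * U = diagonal hH.eigenvalues := by
  refine ⟨hH.eigenvectorUnitary, ?_, ?_⟩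
  · have := Unitary.coe_star_mul_self hH.eigenvectorUnitary
    rwa [star_eq_conjTranspose, conjTranspose_eq_transpose_of_trivial] at this
  · have := hH.conjStarAlgAut_star_eigenvectorUnitary
    rw [Unitary.conjStarAlgAut_star_apply, star_eq_conjTranspose,
      conjTranspose_eq_transpose_of_trivial] at this
    rw [this]
    rfl

theorem exists_simul {A : Matrix (Fin n) (Fin n) ℝ} (hA : A.PosSemidef) (hdet : A.det ≠ 0)
    (M : Matrix (Fin n) (Fin n) ℝ) :
    ∃ V : Matrix (Fin n) (Fin n) ℝ, Vᵀ * A * V = 1 ∧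
      ∃ d : Fin n → ℝ, (M * V)ᵀ * (M * V) = diagonal d := by
  obtain ⟨U, hU, hUA⟩ := exists_diag hA.1
  set e := hA.1.eigenvalues with he
  have he0 : ∀ i, 0 < e i := by
    intro i
    refine lt_of_le_of_ne (hA.eigenvalues_nonneg i) ?_
    intro h
    apply hdet
    have h1 : (diagonal e).det = 0 := by
      rw [det_diagonal]
      exact Finset.prod_eq_zero (Finset.mem_univ i) h.symm
    rw [← hUA, det_mul, det_mul, det_transpose] at h1
    have h2 : U.det * U.det = 1 := by
      have := congrArg det hU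
      rwa [det_mul, det_transpose, det_one] at this
    have h3 : U.det ≠ 0 := by
      intro h0; rw [h0] at h2; norm_num at h2
    rcases mul_eq_zero.1 h1 with h4 | h4
    · rcases mul_eq_zero.1 h4 with h5 | h5
      · exact absurd h5 h3
      · exact h5
    · exact absurd h4 h3
  set S := U * diagonal (fun i => (√(e i))⁻¹) with hS
  have hSA : Sᵀ * A * S = 1 := by
    have : Sᵀ * A * S = diagonal (fun i => (√(e i))⁻¹) * (Uᵀ * A * U) *
        diagonal (fun i => (√(e i))⁻¹) := by
      rw [hS, transpose_mul, diagonal_transpose]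
      simp only [Matrix.mul_assoc]
    rw [this, hUA, diagonal_mul_diagonal, diagonal_mul_diagonal, ← diagonal_one]
    congr 1
    ext i
    have h1 := he0 i
    have h2 : √(e i) ≠ 0 := (Real.sqrt_pos.2 h1).ne'
    have h3 : √(e i) * √(e i) = e i := Real.mul_self_sqrt h1.le
    field_simp
    nlinarith
  have hH : ((M * S)ᵀ * (M * S)).IsHermitian := by
    unfold IsHermitian
    rw [conjTranspose_eq_transpose_of_trivial, transpose_mul, transpose_transpose]
  obtain ⟨W, hW, hWH⟩ := exists_diag hH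
  refine ⟨S * W, ?_, hH.eigenvalues, ?_⟩
  · have : (S * W)ᵀ * A * (S * W) = Wᵀ * (Sᵀ * A * S) * W := by
      rw [transpose_mul]
      simp only [Matrix.mul_assoc]
    rw [this, hSA, Matrix.mul_one, hW]
  · rw [← hWH]
    simp only [transpose_mul, Matrix.mul_assoc]

/-- AM-GM for `n` numbers -/
theorem amgm (hn : 0 < n) (z : Fin n → ℝ) (hz : ∀ i, 0 ≤ z i) :
    ∏ i, z i ≤ ((∑ i, z i) / n) ^ n := by
  have hn' : (0 : ℝ) < n := by exact_mod_cast hn
  have h := Real.geom_mean_le_arith_mean_weighted Finset.univ (fun _ : Fin n => (1 : ℝ) / n) z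
    (fun i _ => by positivity) (by
      rw [Finset.sum_const, Finset.card_univ, Fintype.card_fin, nsmul_eq_mul]
      field_simp) (fun i _ => hz i)
  have h1 : ∏ i, z i = (∏ i, z i ^ ((1 : ℝ) / n)) ^ n := by
    rw [← Finset.prod_pow]
    refine Finset.prod_congr rfl fun i _ => ?_
    rw [← Real.rpow_natCast, ← Real.rpow_mul (hz i)]
    field_simp
    rw [Real.rpow_one]
  rw [h1]
  refine pow_le_pow_left₀ (Finset.prod_nonneg fun i _ => Real.rpow_nonneg (hz i) _) (h.trans ?_) n
  rw [← Finset.mul_sum, one_div, div_eq_inv_mul]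

theorem quad_eq (A : Matrix (Fin n) (Fin n) ℝ) (h : Fin n → ℝ) :
    quad A (WithLp.toLp 2 h) = h ⬝ᵥ (A *ᵥ h) := by
  unfold quad
  simp only [dotProduct, mulVec, Finset.mul_sum]
  refine Finset.sum_congr rfl fun i _ => Finset.sum_congr rfl fun j _ => ?_
  change A i j * h i * h j = h i * (A i j * h j)
  ring

theorem quad_comb {A V : Matrix (Fin n) (Fin n) ℝ} (hV : Vᵀ * A * V = 1) (t : Fin n → ℝ) :
    quad A (WithLp.toLp 2 (V *ᵥ t)) = ∑ i, t i ^ 2 := by
  rw [quad_eq, mulVec_mulVec, dotProduct_mulVec, ← vecMul_transpose, vecMul_vecMul,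
    ← Matrix.mul_assoc, hV, vecMul_one]
  simp only [dotProduct, sq]

theorem inner_toLp (x y : Fin n → ℝ) :
    ⟪(WithLp.toLp 2 x : E n), WithLp.toLp 2 y⟫ = x ⬝ᵥ y := by
  rw [EuclideanSpace.inner_eq_star_dotProduct, dotProduct_comm]
  simp

/-- matrix of `N` -/
noncomputable def mat (N : E n →L[ℝ] E n) : Matrix (Fin n) (Fin n) ℝ :=
  LinearMap.toMatrix (EuclideanSpace.basisFun (Fin n) ℝ).toBasis
    (EuclideanSpace.basisFun (Fin n) ℝ).toBasis (N : E n →ₗ[ℝ] E n)

theorem mat_det (N : E n →L[ℝ] E n) : N.det = (mat N).det := by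
  unfold mat ContinuousLinearMap.det
  rw [LinearMap.det_toMatrix]

theorem mat_mulVec (N : E n →L[ℝ] E n) (h : Fin n → ℝ) :
    N (WithLp.toLp 2 h) = WithLp.toLp 2 (mat N *ᵥ h) := by
  have h1 := LinearMap.toMatrix_mulVec_repr (EuclideanSpace.basisFun (Fin n) ℝ).toBasis
    (EuclideanSpace.basisFun (Fin n) ℝ).toBasis (N : E n →ₗ[ℝ] E n) (WithLp.toLp 2 h)
  ext i
  have h2 := congrFun h1 i
  have h3 : (⇑((EuclideanSpace.basisFun (Fin n) ℝ).toBasis.repr (WithLp.toLp 2 h)) :
      Fin n → ℝ) = h := by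
    ext j
    simp
  rw [h3] at h2
  unfold mat
  change _ = (LinearMap.toMatrix (EuclideanSpace.basisFun (Fin n) ℝ).toBasis
    (EuclideanSpace.basisFun (Fin n) ℝ).toBasis (N : E n →ₗ[ℝ] E n) *ᵥ h) i
  rw [h2]
  simp

end DN

open DN

open scoped Matrix

/-- `N = ∫ a ⊗ η` with `|η|_A ≤ c` satisfies `|det N| ≤ ((∫ |a| c) / n)^n √det A`. -/
theorem det_le_of_integral {Ω : Type} [MeasurableSpace Ω] {μ : Measure Ω} (hn : 0 < n)
    {A : Matrix (Fin n) (Fin n) ℝ} (hA : A.PosSemidef) {a : Ω → E n} {η : Ω → E n →L[ℝ] ℝ}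
    {c : Ω → ℝ} (hc : ∀ ω, 0 ≤ c ω) (hη : ∀ᵐ ω ∂μ, ∀ h : E n, (η ω h) ^ 2 ≤ c ω ^ 2 * quad A h)
    (hi : Integrable (fun ω => ‖a ω‖ * c ω) μ) (hai : ∀ h, Integrable (fun ω => η ω h • a ω) μ)
    {N : E n →L[ℝ] E n} (hN : ∀ h, N h = ∫ ω, η ω h • a ω ∂μ) :
    |N.det| ≤ ((∫ ω, ‖a ω‖ * c ω ∂μ) / n) ^ n * √A.det := by
  have hn' : (0 : ℝ) < n := by exact_mod_cast hn
  have hS : 0 ≤ ∫ ω, ‖a ω‖ * c ω ∂μ :=
    integral_nonneg fun ω => mul_nonneg (norm_nonneg _) (hc ω)
  have hR : 0 ≤ ((∫ ω, ‖a ω‖ * c ω ∂μ) / n) ^ n := by positivity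
  rw [mat_det]
  by_cases hdet : A.det = 0
  · obtain ⟨h, hh0, hh⟩ := Matrix.exists_mulVec_eq_zero_iff.2 hdet
    have hq : quad A (WithLp.toLp 2 h) = 0 := by
      rw [quad_eq, hh, dotProduct_zero]
    have hz : N (WithLp.toLp 2 h) = 0 := by
      rw [hN]
      rw [← integral_zero Ω (E n) (μ := μ)]
      refine integral_congr_ae ?_
      filter_upwards [hη] with ω hω
      have h1 := hω (WithLp.toLp 2 h)
      rw [hq, mul_zero] at h1
      have h2 : η ω (WithLp.toLp 2 h) = 0 := by
        have := sq_nonneg (η ω (WithLp.toLp 2 h))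
        exact pow_eq_zero_iff (two_ne_zero) |>.1 (le_antisymm h1 this)
      rw [h2, zero_smul]
    have hm : (mat N).det = 0 := by
      refine Matrix.exists_mulVec_eq_zero_iff.1 ⟨h, hh0, ?_⟩
      rw [mat_mulVec] at hz
      exact (WithLp.toLp_eq_zero 2).1 hz
    rw [hm, abs_zero]
    positivity
  · obtain ⟨V, hV, d, hd⟩ := exists_simul hA hdet (mat N)
    set v : Fin n → E n := fun i => WithLp.toLp 2 (V *ᵥ Pi.single i 1) with hv
    have hcol : ∀ i, N (v i) = WithLp.toLp 2 (fun k => (mat N * V) k i) := by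
      intro i
      rw [hv]
      simp only
      rw [mat_mulVec, Matrix.mulVec_mulVec, Matrix.mulVec_single_one]
      rfl
    have hinner : ∀ i j, ⟪N (v i), N (v j)⟫ = if i = j then d i else 0 := by
      intro i j
      rw [hcol i, hcol j, inner_toLp]
      have h1 := congrFun (congrFun hd i) j
      rw [Matrix.mul_apply] at h1
      rw [Matrix.diagonal_apply] at h1
      rw [← h1]
      rfl
    have hnorm : ∀ i, ‖N (v i)‖ ^ 2 = d i := by
      intro i
      rw [← real_inner_self_eq_norm_sq, hinner, if_pos rfl]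
    have hdet1 : V.det ^ 2 * A.det = 1 := by
      have := congrArg Matrix.det hV
      rw [Matrix.det_mul, Matrix.det_mul, Matrix.det_transpose, Matrix.det_one] at this
      linarith
    have hdet2 : (mat N).det ^ 2 * V.det ^ 2 = (∏ i, ‖N (v i)‖) ^ 2 := by
      have := congrArg Matrix.det hd
      rw [Matrix.det_mul, Matrix.det_transpose, Matrix.det_mul, Matrix.det_diagonal] at this
      rw [← Finset.prod_pow]
      rw [Finset.prod_congr rfl fun i _ => hnorm i, ← this]
      ring
    have hApos : 0 ≤ A.det := hA.det_nonneg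
    have hdet3 : |(mat N).det| = (∏ i, ‖N (v i)‖) * √A.det := by
      have h1 : (mat N).det ^ 2 = ((∏ i, ‖N (v i)‖) * √A.det) ^ 2 := by
        rw [mul_pow, Real.sq_sqrt hApos, ← hdet2]
        linear_combination ((mat N).det ^ 2) * (-hdet1)
      have h2 := sq_eq_sq_iff_abs_eq_abs _ _ |>.1 h1
      rw [h2, abs_of_nonneg]
      exact mul_nonneg (Finset.prod_nonneg fun i _ => norm_nonneg _) (Real.sqrt_nonneg _)
    rw [hdet3]
    refine mul_le_mul_of_nonneg_right ?_ (Real.sqrt_nonneg _)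
    by_cases hz : ∃ i, N (v i) = 0
    · obtain ⟨i, hi0⟩ := hz
      rw [Finset.prod_eq_zero (Finset.mem_univ i) (by rw [hi0, norm_zero])]
      exact hR
    rw [not_exists] at hz
    refine (amgm hn _ fun i => norm_nonneg _).trans ?_
    refine pow_le_pow_left₀ (div_nonneg (Finset.sum_nonneg fun i _ => norm_nonneg _) hn'.le) ?_ n
    refine div_le_div_of_nonneg_right ?_ hn'.le
    -- orthonormal family
    set u : Fin n → E n := fun i => ‖N (v i)‖⁻¹ • N (v i) with hu
    have hpos : ∀ i, 0 < ‖N (v i)‖ := fun i => norm_pos_iff.2 (hz i)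
    have horth : Orthonormal ℝ u := by
      rw [orthonormal_iff_ite]
      intro i j
      rw [hu]
      simp only
      rw [real_inner_smul_left, real_inner_smul_right, hinner i j]
      by_cases hij : i = j
      · subst hij
        rw [if_pos rfl, if_pos rfl, ← hnorm]
        have := (hpos i).ne'
        field_simp
      · rw [if_neg hij, if_neg hij]; ring
    have hsum : ∑ i, ‖N (v i)‖ = ∫ ω, ∑ i, ⟪u i, η ω (v i) • a ω⟫ ∂μ := by
      rw [integral_finsetSum _ fun i _ => (hai (v i)).const_inner (u i)]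
      refine Finset.sum_congr rfl fun i _ => ?_
      rw [integral_inner (hai (v i)), ← hN, hu]
      simp only
      rw [real_inner_smul_left, real_inner_self_eq_norm_sq]
      have := (hpos i).ne'
      field_simp
    rw [hsum]
    refine integral_mono_ae (integrable_finsetSum _ fun i _ => (hai (v i)).const_inner (u i)) hi ?_
    filter_upwards [hη] with ω hω
    -- Cauchy-Schwarz
    have h1 : ∑ i, η ω (v i) ^ 2 ≤ c ω ^ 2 := by
      set t : Fin n → ℝ := fun i => η ω (v i) with ht
      have h2 := hω (WithLp.toLp 2 (V *ᵥ t))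
      rw [quad_comb hV] at h2
      have h3 : η ω (WithLp.toLp 2 (V *ᵥ t)) = ∑ i, t i ^ 2 := by
        have h4 : (WithLp.toLp 2 (V *ᵥ t) : E n) = ∑ i, t i • v i := by
          ext k
          rw [PiLp.toLp_apply]
          simp only [hv, WithLp.ofLp_sum, WithLp.ofLp_smul, Finset.sum_apply, Pi.smul_apply,
            Matrix.mulVec_single_one, smul_eq_mul]
          unfold Matrix.mulVec dotProduct
          exact Finset.sum_congr rfl fun i _ => mul_comm _ _
        rw [h4, map_sum]
        refine Finset.sum_congr rfl fun i _ => ?_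
        rw [map_smul, smul_eq_mul, sq]
      rw [h3] at h2
      have h5 : 0 ≤ ∑ i, t i ^ 2 := Finset.sum_nonneg fun i _ => sq_nonneg _
      rcases h5.eq_or_lt with h6 | h6
      · rw [← h6]; positivity
      · rw [sq] at h2
        exact le_of_mul_le_mul_right h2 h6
    have h2 : ∑ i, ⟪u i, a ω⟫ ^ 2 ≤ ‖a ω‖ ^ 2 := by
      have := horth.sum_inner_products_le (a ω) (s := Finset.univ)
      simpa using this
    have h3 : (∑ i, ⟪u i, η ω (v i) • a ω⟫) ^ 2 ≤ (‖a ω‖ * c ω) ^ 2 := by
      have h4 := Finset.sum_mul_sq_le_sq_mul_sq Finset.univ (fun i => η ω (v i))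
        (fun i => ⟪u i, a ω⟫)
      simp only [real_inner_smul_right]
      refine h4.trans ?_
      rw [mul_pow, mul_comm (‖a ω‖ ^ 2)]
      exact mul_le_mul h1 h2 (Finset.sum_nonneg fun i _ => sq_nonneg _) (sq_nonneg _)
    exact le_of_sq_le_sq h3 (mul_nonneg (norm_nonneg _) (hc ω))

end Pool.Agent.H65L
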