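import Mathlib

set_option autoImplicit false

/-! The determinant of 1 - W (module LB/DetW). -/

open Real Set MeasureTheory Metric Filter Topology
open scoped RealInnerProductSpace

namespace Pool.Agent.H65L


variable {n : ℕ}

theorem detW_exp_le {w : ℝ} (h : w ≤ 289 / 500) (h' : -(289 / 500) ≤ w) :
    Real.exp (-(w + 9 / 10 * w ^ 2)) ≤ 1 - w := by
  have h1w : 0 < 1 - w := by linarith
  rcases le_total w 0 with h0 | h0
  · -- `exp(-w - w²/2) ≤ 1 - w` for `w ≤ 0`
    set u := -w with hu
    have hu0 : 0 ≤ u := by linarith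
    have e1 : -(w + 9 / 10 * w ^ 2) ≤ u - 9 / 10 * u ^ 2 := by rw [hu]; nlinarith
    have e2 : 1 - w = 1 + u := by rw [hu]; ring
    rw [e2]
    refine (Real.exp_le_exp.2 e1).trans ?_
    -- 1/(1+u) ≤ exp(-(u - 9/10u²)) since exp(x) ≥ 1+x..., use `u - 9/10 u² ≤ log (1+u)`
    have h2 : u - 9 / 10 * u ^ 2 ≤ Real.log (1 + u) := by
      have h3 : 1 - (1 + u)⁻¹ ≤ Real.log (1 + u) := by
        have := Real.one_sub_inv_le_log_of_pos (x := 1 + u) (by linarith)
        exact this
      have h4 : u - 9 / 10 * u ^ 2 ≤ u - u ^ 2 / 2 := by nlinarith [sq_nonneg u]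
      have h5 : u - u ^ 2 / 2 ≤ Real.log (1 + u) := by
        have hmono : ∀ y : ℝ, 0 ≤ y → 0 ≤ Real.log (1 + y) - (y - y ^ 2 / 2) := by
          intro y hy
          have key : MonotoneOn (fun y : ℝ => Real.log (1 + y) - (y - y ^ 2 / 2)) (Set.Ici 0) := by
            apply monotoneOn_of_deriv_nonneg (convex_Ici 0)
            · apply ContinuousOn.sub
              · apply ContinuousOn.log
                · fun_prop
                · intro x hx
                  have : (0 : ℝ) ≤ x := hx
                  positivity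
              · fun_prop
            · intro x hx
              rw [interior_Ici, Set.mem_Ioi] at hx
              apply DifferentiableAt.differentiableWithinAt
              have : (1 + x) ≠ 0 := by positivity
              fun_prop (disch := assumption)
            · intro x hx
              rw [interior_Ici, Set.mem_Ioi] at hx
              have hx1 : (1 + x) ≠ 0 := by positivity
              have hd : HasDerivAt (fun y : ℝ => Real.log (1 + y) - (y - y ^ 2 / 2))
                  (1 / (1 + x) - (1 - (2 * x) / 2)) x := by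
                have a1 : HasDerivAt (fun y : ℝ => 1 + y) 1 x := by
                  simpa using (hasDerivAt_id x).const_add 1
                have a2 := a1.log hx1
                have a3 : HasDerivAt (fun y : ℝ => y ^ 2) (2 * x) x := by
                  simpa using hasDerivAt_pow 2 x
                exact a2.sub ((hasDerivAt_id x).sub (a3.div_const 2))
              rw [hd.deriv]
              have : 1 / (1 + x) - (1 - 2 * x / 2) = x ^ 2 / (1 + x) := by field_simp; ring
              rw [this]
              positivity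
          have := key (Set.mem_Ici.2 le_rfl) (Set.mem_Ici.2 hy) hy
          simpa using this
        linarith [hmono u hu0]
      linarith
    calc Real.exp (u - 9 / 10 * u ^ 2) ≤ Real.exp (Real.log (1 + u)) := Real.exp_le_exp.2 h2
      _ = 1 + u := Real.exp_log (by linarith)
  · -- `1 ≤ (1 - w) exp u`
    set u := w + 9 / 10 * w ^ 2 with hu
    have hu0 : 0 ≤ u := by positivity
    have hT : 1 + u + u ^ 2 / 2 + u ^ 3 / 6 + u ^ 4 / 24 ≤ Real.exp u := by
      have := Real.sum_le_exp_of_nonneg hu0 5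
      simp [Finset.sum_range_succ, Nat.factorial] at this
      linarith
    have hP : 1 ≤ (1 - w) * (1 + u + u ^ 2 / 2 + u ^ 3 / 6 + u ^ 4 / 24) := by
      have e : (1 - w) * (1 + u + u ^ 2 / 2 + u ^ 3 / 6 + u ^ 4 / 24) - 1 =
          w ^ 2 * (2 / 5 - w / 3 - 17 / 100 * w ^ 2 - 41 / 120 * w ^ 3 - 231 / 1000 * w ^ 4 -
            81 / 400 * w ^ 5 - 7533 / 80000 * w ^ 6 - 2187 / 80000 * w ^ 7) := by
        rw [hu]; ring
      have p2 := pow_le_pow_left₀ h0 h 2
      have p3 := pow_le_pow_left₀ h0 h 3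
      have p4 := pow_le_pow_left₀ h0 h 4
      have p5 := pow_le_pow_left₀ h0 h 5
      have p6 := pow_le_pow_left₀ h0 h 6
      have p7 := pow_le_pow_left₀ h0 h 7
      have : 0 ≤ 2 / 5 - w / 3 - 17 / 100 * w ^ 2 - 41 / 120 * w ^ 3 - 231 / 1000 * w ^ 4 -
            81 / 400 * w ^ 5 - 7533 / 80000 * w ^ 6 - 2187 / 80000 * w ^ 7 := by
        norm_num at p2 p3 p4 p5 p6 p7
        linarith
      have h3 := mul_nonneg (sq_nonneg w) this
      linarith
    rw [Real.exp_neg, inv_le_iff_one_le_mul₀ (Real.exp_pos u)]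
    calc (1 : ℝ) ≤ (1 - w) * (1 + u + u ^ 2 / 2 + u ^ 3 / 6 + u ^ 4 / 24) := hP
      _ ≤ (1 - w) * Real.exp u := mul_le_mul_of_nonneg_left hT h1w.le

theorem det_one_sub_ge {W : Matrix (Fin n) (Fin n) ℝ} (hs : W.IsSymm) {q : ℝ} (hq : q ≤ 1 / 3)
    (htr : W.trace = q) (hsq : ∑ i, ∑ j, W i j ^ 2 ≤ q) : 53 / 100 ≤ (1 - W).det := by
  have hA : W.IsHermitian := by
    rw [Matrix.IsHermitian, Matrix.conjTranspose_eq_transpose_of_trivial]; exact hs
  set l := hA.eigenvalues with hl
  have hsum : ∑ i, l i = q := by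
    rw [← htr, hA.trace_eq_sum_eigenvalues]
    simp [hl]
  have hspec : W = Unitary.conjStarAlgAut ℝ _ hA.eigenvectorUnitary (Matrix.diagonal l) := by
    conv_lhs => rw [hA.spectral_theorem]
    rfl
  have hsq2 : ∑ i, l i ^ 2 ≤ q := by
    have e1 : ∑ i, ∑ j, W i j ^ 2 = (W * W).trace := by
      rw [Matrix.trace]
      refine Finset.sum_congr rfl fun i _ => ?_
      rw [Matrix.diag_apply, Matrix.mul_apply]
      refine Finset.sum_congr rfl fun j _ => ?_
      rw [pow_two, hs.apply i j]
    have e2 : (W * W).trace = ∑ i, l i ^ 2 := by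
      conv_lhs => rw [hspec]
      rw [← map_mul, Unitary.conjStarAlgAut_apply, Matrix.diagonal_mul_diagonal,
        Matrix.trace_mul_comm, ← mul_assoc]
      simp [pow_two]
    rw [← e2, ← e1]
    exact hsq
  have hdet : (1 - W).det = ∏ i, (1 - l i) := by
    have e1 : (1 : Matrix (Fin n) (Fin n) ℝ) - W =
        Unitary.conjStarAlgAut ℝ _ hA.eigenvectorUnitary (Matrix.diagonal fun i => 1 - l i) := by
      have e2 : (Matrix.diagonal fun i => 1 - l i) = (1 : Matrix (Fin n) (Fin n) ℝ) -
          Matrix.diagonal l := by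
        rw [← Matrix.diagonal_one, Matrix.diagonal_sub]
      rw [e2, map_sub, map_one, ← hspec]
    rw [e1, Unitary.conjStarAlgAut_apply, Matrix.det_mul, Matrix.det_mul, Matrix.det_diagonal,
      mul_comm, ← mul_assoc, ← Matrix.det_mul]
    simp
  have hbound : ∀ i, |l i| ≤ 289 / 500 := by
    intro i
    have h1 : l i ^ 2 ≤ 1 / 3 := by
      refine le_trans ?_ (hsq2.trans hq)
      exact Finset.single_le_sum (f := fun i => l i ^ 2) (fun j _ => sq_nonneg _)
        (Finset.mem_univ i)
    apply abs_le_of_sq_le_sq' _ (by norm_num) |> abs_le.2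
    linarith [h1]
  rw [hdet]
  have h1 : ∏ i, Real.exp (-(l i + 9 / 10 * l i ^ 2)) ≤ ∏ i, (1 - l i) := by
    refine Finset.prod_le_prod (fun i _ => (Real.exp_pos _).le) fun i _ => ?_
    have := abs_le.1 (hbound i)
    exact detW_exp_le this.2 this.1
  refine le_trans ?_ h1
  rw [← Real.exp_sum]
  have h2 : ∑ i, -(l i + 9 / 10 * l i ^ 2) = -(q + 9 / 10 * ∑ i, l i ^ 2) := by
    rw [Finset.sum_neg_distrib, Finset.sum_add_distrib, hsum, Finset.mul_sum]
  rw [h2]
  have h3 : -(19 / 30) ≤ -(q + 9 / 10 * ∑ i, l i ^ 2) := by nlinarith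
  refine le_trans ?_ (Real.exp_le_exp.2 h3)
  -- exp(-19/30) ≥ 0.53
  rw [Real.exp_neg, ← one_div, le_div_iff₀ (Real.exp_pos _)]
  have h4 : Real.exp (19 / 30) ≤ 1.8841 := by
    have h5 := Real.exp_bound' (x := 19 / 30) (by norm_num) (by norm_num) (n := 8) (by norm_num)
    simp [Finset.sum_range_succ, Nat.factorial] at h5
    norm_num at h5 ⊢
    linarith
  nlinarith
end Pool.Agent.H65L
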