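import Pool.Agent.H65L.Change

set_option autoImplicit false

/-! The functional and its derivative in terms of the boosted function (module LB/Formula). -/

open Real Set MeasureTheory Metric Filter Topology
open scoped RealInnerProductSpace

namespace Pool.Agent.H65L

open Pool.Agent.H65G

variable {n : ℕ}

theorem fml_cont {κ : ℝ} (hκ0 : 0 ≤ κ) {G : E n → ℝ} (hG : Cone κ G) : Continuous G := by
  have h : LipschitzWith ⟨κ, hκ0⟩ G := LipschitzWith.of_dist_le_mul fun x y => by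
    rw [Real.dist_eq, dist_eq_norm]
    exact hG.lip x y
  exact h.continuous

theorem fml_integrable_comp_Lam {F : Type} [NormedAddCommGroup F] {w : E n}
    (hw : ‖w‖ < 1) (f : E n → F) : Integrable (fun y => f (Lam w y)) ↔ Integrable f := by
  have hme : MeasurableEmbedding (fun y => Lam w y) :=
    (LamEquiv hw).toHomeomorph.measurableEmbedding
  have h1 := hme.integrable_map_iff (μ := (volume : Measure (E n))) (g := f)
  have h2 : Measure.map (fun y => Lam w y) (volume : Measure (E n)) =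
      ENNReal.ofReal (gm w)⁻¹ • volume := map_Lam hw
  rw [h2, integrable_smul_measure] at h1
  · exact h1.symm
  · exact (ENNReal.ofReal_pos.2 (inv_pos.2 (gm_pos hw))).ne'
  · exact ENNReal.ofReal_ne_top

theorem fml_Lam_hh {w : E n} (hw : ‖w‖ < 1) (z : E n) (τ : ℝ) :
    Lam w (hh w z τ) = wt (Lam w (z - τ • w)) • Lam w (z - τ • w) := by
  rw [hh, map_smul, wt, norm_Lam_sub_sq hw]

theorem fml_continuous_hh (w z : E n) : Continuous fun τ => hh w z τ := by
  unfold hh qf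
  fun_prop

theorem fml_continuous_dhh (w z δ : E n) : Continuous fun τ => dhh w z τ δ := by
  unfold dhh qf
  fun_prop

theorem Lam_Phi {w : E n} (hw : ‖w‖ < 1) {κ : ℝ} (hκ0 : 0 ≤ κ) (hκ : κ < 1) {G G' : E n → ℝ}
    (hG : Cone κ G) (hG' : Cone 1 G') (hB : IsBoost w G G') :
    Lam w (Phi G w) = ∫ y, (G' y * wt y) • y := by
  have hwc : Continuous (wt : E n → ℝ) := continuous_wt
  have h1 : Lam w (Phi G w) = ∫ z, Lam w (ker w z (G z)) :=
    ((LamEquiv hw).integral_comp_comm _).symm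
  have h2 : ∀ z, Lam w (ker w z (G z)) = ∫ τ in ⟪w, z⟫..G z,
      (fun (y : E n) (_ : ℝ) => wt y • y) (Lam w (z - τ • w)) (gm w * (τ - ⟪w, z⟫)) := by
    intro z
    rw [ker, ← ContinuousLinearMap.intervalIntegral_comp_comm _
      ((fml_continuous_hh w z).intervalIntegrable _ _)]
    simp_rw [fml_Lam_hh hw]
  rw [h1]
  simp_rw [h2]
  have h3 := change_var hw (fml_cont hκ0 hG) (fml_cont zero_le_one hG') hB
    (fun y => by simpa using abs_le_norm hG' y)
    (f := fun (y : E n) (_ : ℝ) => wt y • y) (by unfold Function.uncurry; fun_prop)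
    (C := 1) (m := 1) (fun y τ _ => by
      have := wt_pos y
      rw [norm_smul, Real.norm_of_nonneg this.le]
      nlinarith [norm_nonneg y])
  rw [h3.2.2]
  congr 1
  funext y
  rw [intervalIntegral.integral_const, sub_zero, smul_smul]

theorem Lam_deriv {w : E n} (hw : ‖w‖ < 1) {κ : ℝ} (hκ0 : 0 ≤ κ) (hκ : κ < 1) {G G' : E n → ℝ}
    (hG : Cone κ G) (hG' : Cone 1 G') (hB : IsBoost w G G') (δ : E n) :
    Lam w (∫ z, (-⟪δ, z⟫ • hh w z ⟪w, z⟫ + ∫ τ in ⟪w, z⟫..G z, dhh w z τ δ)) =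
      -(cn n * gm w) • (Lam w δ - Wf G' (Lam w δ)) -
        (gm w ^ 2 * ⟪w, Phi G w⟫) • Lam w δ := by
  have hwc : Continuous (wt : E n → ℝ) := continuous_wt
  have hgp := gm_pos hw
  have hGc := fml_cont hκ0 hG
  have hGc' := fml_cont zero_le_one hG'
  set ξ := Lam w δ with hξ
  have h1 : Lam w (∫ z, (-⟪δ, z⟫ • hh w z ⟪w, z⟫ + ∫ τ in ⟪w, z⟫..G z, dhh w z τ δ)) =
      ∫ z, Lam w (-⟪δ, z⟫ • hh w z ⟪w, z⟫ + ∫ τ in ⟪w, z⟫..G z, dhh w z τ δ) :=
    ((LamEquiv hw).integral_comp_comm _).symm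
  -- the second part
  set f : E n → ℝ → E n := fun y t =>
    wt y • ((gm w * t * ⟪ξ, y⟫) • y - (gm w * (t + ⟪w, y⟫)) • ξ) with hf
  have hdhh : ∀ z τ, Lam w (dhh w z τ δ) = f (Lam w (z - τ • w)) (gm w * (τ - ⟪w, z⟫)) := by
    intro z τ
    obtain ⟨i1, i2⟩ := inv_boost hw z τ
    set y := Lam w (z - τ • w) with hy
    set t := gm w * (τ - ⟪w, z⟫) with ht
    have e1 : ⟪δ, z⟫ = ⟪ξ, y⟫ + gm w * t * ⟪w, δ⟫ := by
      rw [← i1, inner_add_right, real_inner_smul_right, ← inner_Lam, real_inner_comm w δ]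
    rw [dhh, map_smul, map_sub, map_smul, map_smul, ← hy, ← hξ, hf]
    simp only
    rw [i2]
    have e2 : exp (-qf w z τ / 2) = wt y := by
      rw [wt, hy, norm_Lam_sub_sq hw]
    have e3 : gm w ^ 2 * (τ - ⟪w, z⟫) * ⟪δ, z⟫ - gm w ^ 4 * ⟪w, δ⟫ * (τ - ⟪w, z⟫) ^ 2 =
        gm w * t * ⟪ξ, y⟫ := by
      rw [e1, ht]
      ring
    rw [e2, e3]
  have hfc : Continuous (Function.uncurry f) := by
    rw [hf]
    unfold Function.uncurry
    fun_prop
  have hfb : ∀ (y : E n) (τ : ℝ), |τ| ≤ ‖y‖ →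
      ‖f y τ‖ ≤ (3 * gm w * ‖ξ‖) * (1 + ‖y‖) ^ 3 * wt y := by
    intro y t ht
    have hwy := wt_pos y
    have hy := norm_nonneg y
    have hx := norm_nonneg ξ
    rw [hf]
    simp only
    rw [norm_smul, Real.norm_of_nonneg hwy.le]
    have b1 : ‖(gm w * t * ⟪ξ, y⟫) • y‖ ≤ gm w * ‖y‖ * (‖ξ‖ * ‖y‖) * ‖y‖ := by
      rw [norm_smul, Real.norm_eq_abs, abs_mul, abs_mul, abs_of_pos hgp]
      gcongr
      exact abs_real_inner_le_norm ξ y
    have b2 : ‖(gm w * (t + ⟪w, y⟫)) • ξ‖ ≤ gm w * (‖y‖ + ‖y‖) * ‖ξ‖ := by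
      rw [norm_smul, Real.norm_eq_abs, abs_mul, abs_of_pos hgp]
      gcongr
      refine (abs_add_le _ _).trans (add_le_add ht ?_)
      refine (abs_real_inner_le_norm w y).trans ?_
      nlinarith
    have b3 := (norm_sub_le ((gm w * t * ⟪ξ, y⟫) • y) ((gm w * (t + ⟪w, y⟫)) • ξ)).trans
      (add_le_add b1 b2)
    have b4 : gm w * ‖y‖ * (‖ξ‖ * ‖y‖) * ‖y‖ + gm w * (‖y‖ + ‖y‖) * ‖ξ‖ ≤
        (3 * gm w * ‖ξ‖) * (1 + ‖y‖) ^ 3 := by
      have : ‖y‖ ^ 3 + 2 * ‖y‖ ≤ 3 * (1 + ‖y‖) ^ 3 := by nlinarith [pow_nonneg hy 3, pow_nonneg hy 2]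
      calc gm w * ‖y‖ * (‖ξ‖ * ‖y‖) * ‖y‖ + gm w * (‖y‖ + ‖y‖) * ‖ξ‖
          = gm w * ‖ξ‖ * (‖y‖ ^ 3 + 2 * ‖y‖) := by ring
        _ ≤ gm w * ‖ξ‖ * (3 * (1 + ‖y‖) ^ 3) := by gcongr
        _ = (3 * gm w * ‖ξ‖) * (1 + ‖y‖) ^ 3 := by ring
    calc wt y * ‖(gm w * t * ⟪ξ, y⟫) • y - (gm w * (t + ⟪w, y⟫)) • ξ‖
        ≤ wt y * ((3 * gm w * ‖ξ‖) * (1 + ‖y‖) ^ 3) := by
          gcongr
          exact b3.trans b4
      _ = (3 * gm w * ‖ξ‖) * (1 + ‖y‖) ^ 3 * wt y := by ring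
  obtain ⟨hI1, hI2, hE⟩ := change_var hw hGc hGc' hB
    (fun y => by simpa using abs_le_norm hG' y) hfc hfb
  -- the first part
  have hA : ∀ y, Lam w (-⟪δ, Lam w y⟫ • hh w (Lam w y) ⟪w, Lam w y⟫) =
      -((⟪y, ξ⟫ * wt y) • y) := by
    intro y
    have e1 : Lam w y - ⟪w, Lam w y⟫ • w = LamInv w y := by
      rw [inner_w_Lam hw, Lam_apply, LamInv_apply]
      have h3 : gm w + 1 ≠ 0 := by positivity
      have : gm w / (gm w + 1) * ⟪w, y⟫ =
          -(gm w ^ 2 / (gm w + 1) * ⟪w, y⟫) + gm w * ⟪w, y⟫ := by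
        field_simp
        ring
      rw [this]
      module
    rw [map_smul, fml_Lam_hh hw, e1, Lam_LamInv hw, ← inner_Lam, ← hξ, real_inner_comm ξ y,
      smul_smul, neg_mul, neg_smul]
  have hIq : Integrable fun y : E n => (⟪y, ξ⟫ * wt y) • y := by
    have h := integrable_hom (F := E n) 2 0 (f := fun y : E n => ⟪y, ξ⟫ • y) (by fun_prop)
      (fun r z _ => by
        rw [real_inner_smul_left, smul_smul, smul_smul]
        congr 1
        ring)
    refine h.congr (Eventually.of_forall fun y => ?_)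
    simp only [pow_zero, one_mul, smul_smul]
    congr 1
    ring
  have hIA : Integrable fun z => Lam w (-⟪δ, z⟫ • hh w z ⟪w, z⟫) := by
    rw [← fml_integrable_comp_Lam hw]
    simp_rw [hA]
    exact hIq.neg
  have hEA : ∫ z, Lam w (-⟪δ, z⟫ • hh w z ⟪w, z⟫) = -(cn n * gm w) • ξ := by
    rw [integral_comp_Lam hw (fun z => Lam w (-⟪δ, z⟫ • hh w z ⟪w, z⟫))]
    simp_rw [hA]
    rw [integral_neg, integral_inner_smul_wt ξ, smul_neg, smul_smul, neg_smul, mul_comm]
  -- the inner integral of the second part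
  have hin : ∀ y, ∫ t in (0 : ℝ)..G' y, f y t =
      gm w • ((G' y ^ 2 / 2 * wt y) • (⟪y, ξ⟫ • y - ξ)) -
        (gm w * (⟪w, (G' y * wt y) • y⟫)) • ξ := by
    intro y
    have e1 : ∀ t : ℝ, f y t = t • ((wt y * gm w) • (⟪y, ξ⟫ • y - ξ)) -
        (wt y * gm w * ⟪w, y⟫) • ξ := by
      intro t
      rw [hf]
      simp only
      rw [real_inner_comm ξ y]
      module
    simp_rw [e1]
    rw [intervalIntegral.integral_sub, intervalIntegral.integral_smul_const,
      intervalIntegral.integral_const, integral_id, sub_zero, real_inner_smul_right]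
    · simp only [ne_eq, OfNat.ofNat_ne_zero, not_false_eq_true, zero_pow, sub_zero]
      module
    · exact (by fun_prop : Continuous fun t : ℝ =>
        t • ((wt y * gm w) • (⟪y, ξ⟫ • y - ξ))).intervalIntegrable _ _
    · exact continuous_const.intervalIntegrable _ _
  have hIW : Integrable fun y : E n => (G' y ^ 2 / 2 * wt y) • (⟪y, ξ⟫ • y - ξ) := by
    have h4 := integrable_hom (F := E n) 4 0 (f := fun y : E n => (G' y ^ 2 / 2 * ⟪y, ξ⟫) • y)
      (by fun_prop) (fun r z hr => by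
        rw [hG'.hom r z hr, real_inner_smul_left, smul_smul, smul_smul]
        congr 1
        ring)
    have h2 := integrable_hom (F := E n) 2 0 (f := fun y : E n => (G' y ^ 2 / 2) • ξ)
      (by fun_prop) (fun r z hr => by
        rw [hG'.hom r z hr, smul_smul]
        congr 1
        ring)
    refine (h4.sub h2).congr (Eventually.of_forall fun y => ?_)
    simp only [pow_zero, one_mul, Pi.sub_apply]
    module
  have hIL : Integrable fun y : E n => (G' y * wt y) • y := by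
    have h2 := integrable_hom (F := E n) 2 0 (f := fun y : E n => G' y • y)
      (by fun_prop) (fun r z hr => by
        rw [hG'.hom r z hr, smul_smul, smul_smul]
        congr 1
        ring)
    refine h2.congr (Eventually.of_forall fun y => ?_)
    simp only [pow_zero, one_mul]
    module
  have hcn := cn_pos n
  have hEW : ∫ y : E n, (G' y ^ 2 / 2 * wt y) • (⟪y, ξ⟫ • y - ξ) = cn n • Wf G' ξ := by
    rw [Wf, smul_smul, mul_inv_cancel₀ hcn.ne', one_smul]
  have hEL : ∫ y : E n, (gm w * (⟪w, (G' y * wt y) • y⟫)) • ξ =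
      (gm w ^ 2 * ⟪w, Phi G w⟫) • ξ := by
    rw [integral_smul_const, integral_const_mul, integral_inner hIL, ← Lam_Phi hw hκ0 hκ hG hG' hB,
      inner_w_Lam hw]
    congr 1
    ring
  have hES : ∫ y, ∫ t in (0 : ℝ)..G' y, f y t =
      (cn n * gm w) • Wf G' ξ - (gm w ^ 2 * ⟪w, Phi G w⟫) • ξ := by
    simp_rw [hin]
    rw [integral_sub, integral_smul, hEW, hEL, smul_smul, mul_comm (gm w)]
    · exact hIW.smul (gm w)
    · exact ((hIL.const_inner w).const_mul (gm w)).smul_const ξ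
  rw [h1]
  have h5 : ∀ z, Lam w (-⟪δ, z⟫ • hh w z ⟪w, z⟫ + ∫ τ in ⟪w, z⟫..G z, dhh w z τ δ) =
      Lam w (-⟪δ, z⟫ • hh w z ⟪w, z⟫) +
        ∫ τ in ⟪w, z⟫..G z, f (Lam w (z - τ • w)) (gm w * (τ - ⟪w, z⟫)) := by
    intro z
    rw [map_add, ← ContinuousLinearMap.intervalIntegral_comp_comm _
      ((fml_continuous_dhh w z δ).intervalIntegrable _ _)]
    simp_rw [hdhh]
  simp_rw [h5]
  rw [integral_add hIA hI1, hEA, hE, hES]
  module

end Pool.Agent.H65L
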