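import Pool.Agent.H65L.LamAlg

set_option autoImplicit false

/-! Gaussian integrals (module LB/Gauss). -/

open Real Set MeasureTheory Metric Filter Topology
open scoped RealInnerProductSpace

namespace Pool.Agent.H65L

open Pool.Agent.H65G

variable {n : ℕ}

theorem wt_pos (z : E n) : 0 < wt z := exp_pos _

theorem continuous_wt : Continuous (wt : E n → ℝ) := by
  unfold wt; fun_prop

theorem cn_pos (n : ℕ) : 0 < cn n := by
  unfold cn; positivity

theorem gauss_integrable_exp {b : ℝ} (hb : 0 < b) :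
    Integrable fun z : E n => exp (-b * ‖z‖ ^ 2) := by
  by_contra h
  have h1 := GaussianFourier.integral_rexp_neg_mul_sq_norm (V := E n) hb
  rw [integral_undef h] at h1
  have : 0 < (π / b) ^ (Module.finrank ℝ (E n) / 2 : ℝ) := by positivity
  linarith

theorem gauss_poly_le (m : ℕ) {c : ℝ} (hc : 0 < c) {r : ℝ} (hr : 0 ≤ r) :
    (1 + r) ^ m * exp (-(c * r ^ 2)) ≤
      (m.factorial * exp (1 + 1 / (2 * c))) * exp (-(c / 2) * r ^ 2) := by
  have h1 : (1 + r) ^ m ≤ m.factorial * exp (1 + r) := by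
    have := Real.pow_div_factorial_le_exp (1 + r) (by linarith) m
    rw [div_le_iff₀ (by positivity)] at this
    linarith
  have h2 : 1 + r ≤ 1 + 1 / (2 * c) + c / 2 * r ^ 2 := by
    have : 0 ≤ (c * r - 1) ^ 2 / (2 * c) := by positivity
    have e : (c * r - 1) ^ 2 / (2 * c) = c / 2 * r ^ 2 - r + 1 / (2 * c) := by
      field_simp; ring
    linarith
  calc (1 + r) ^ m * exp (-(c * r ^ 2)) ≤ (m.factorial * exp (1 + r)) * exp (-(c * r ^ 2)) := by
        gcongr
    _ ≤ (m.factorial * exp (1 + 1 / (2 * c) + c / 2 * r ^ 2)) * exp (-(c * r ^ 2)) := by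
        gcongr
    _ = (m.factorial * exp (1 + 1 / (2 * c))) * exp (-(c / 2) * r ^ 2) := by
        rw [mul_assoc, mul_assoc, ← exp_add, ← exp_add]
        congr 2
        ring

theorem integrable_poly_exp (m : ℕ) {c : ℝ} (hc : 0 < c) :
    Integrable fun z : E n => (1 + ‖z‖) ^ m * exp (-(c * ‖z‖ ^ 2)) := by
  refine Integrable.mono' ((gauss_integrable_exp (half_pos hc)).const_mul
    (m.factorial * exp (1 + 1 / (2 * c)))) ?_ ?_
  · exact Continuous.aestronglyMeasurable (by fun_prop)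
  · refine Filter.Eventually.of_forall fun z => ?_
    rw [Real.norm_of_nonneg (by positivity)]
    exact gauss_poly_le m hc (norm_nonneg z)

theorem integral_wt : ∫ z : E n, wt z = cn n := by
  have h := GaussianFourier.integral_rexp_neg_mul_sq_norm (V := E n) (b := 1 / 2) (by norm_num)
  have e : (wt : E n → ℝ) = fun z => exp (-(1 / 2) * ‖z‖ ^ 2) := by
    funext z
    rw [wt]
    congr 1
    ring
  rw [e, h, finrank_euclideanSpace_fin, cn, Real.sqrt_eq_rpow, ← Real.rpow_natCast,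
    ← Real.rpow_mul (by positivity)]
  congr 1
  · ring
  · ring

/-- bound for continuous homogeneous functions -/
theorem gauss_hom_bound {F : Type} [NormedAddCommGroup F] [NormedSpace ℝ F] (k : ℕ) {f : E n → F}
    (hf : Continuous f) (hom : ∀ (r : ℝ) (z : E n), 0 ≤ r → f (r • z) = r ^ k • f z) :
    ∃ C : ℝ, 0 ≤ C ∧ ∀ z, ‖f z‖ ≤ C * ‖z‖ ^ k := by
  obtain ⟨C, hC⟩ := (isCompact_closedBall (0 : E n) 1).exists_bound_of_continuousOn
    (hf.continuousOn (s := closedBall 0 1))
  have hC0 : 0 ≤ C := (norm_nonneg _).trans (hC 0 (by simp))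
  refine ⟨C, hC0, fun z => ?_⟩
  rcases eq_or_ne z 0 with rfl | hz
  · rcases Nat.eq_zero_or_pos k with rfl | hk
    · simpa using hC 0 (by simp)
    · have h := hom 0 0 le_rfl
      rw [zero_smul, zero_pow hk.ne', zero_smul] at h
      rw [h, norm_zero]
      positivity
  · have hz' : ‖z‖ ≠ 0 := norm_ne_zero_iff.2 hz
    have h := hom ‖z‖ (‖z‖⁻¹ • z) (norm_nonneg z)
    rw [smul_smul, mul_inv_cancel₀ hz', one_smul] at h
    rw [h, norm_smul, norm_pow, norm_norm, mul_comm]
    refine mul_le_mul_of_nonneg_right (hC _ ?_) (by positivity)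
    rw [mem_closedBall_zero_iff, norm_smul, norm_inv, norm_norm, inv_mul_cancel₀ hz']

/-- Continuous positively homogeneous functions are integrable against the Gaussian weight. -/
theorem gauss_integrable_hom {F : Type} [NormedAddCommGroup F] [NormedSpace ℝ F] (k m : ℕ)
    {f : E n → F} {c : ℝ} (hc : 0 < c)
    (hf : Continuous f) (hom : ∀ (r : ℝ) (z : E n), 0 ≤ r → f (r • z) = r ^ k • f z) :
    Integrable fun z : E n => (‖z‖ ^ m * exp (-(c * ‖z‖ ^ 2))) • f z := by
  obtain ⟨C, hC0, hC⟩ := gauss_hom_bound k hf hom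
  refine Integrable.mono' ((integrable_poly_exp (m + k) hc).const_mul C) ?_ ?_
  · exact Continuous.aestronglyMeasurable (by fun_prop)
  · refine Filter.Eventually.of_forall fun z => ?_
    rw [norm_smul, Real.norm_of_nonneg (by positivity)]
    have h1 : ‖z‖ ≤ 1 + ‖z‖ := by linarith
    calc ‖z‖ ^ m * exp (-(c * ‖z‖ ^ 2)) * ‖f z‖ ≤
        ‖z‖ ^ m * exp (-(c * ‖z‖ ^ 2)) * (C * ‖z‖ ^ k) := by gcongr; exact hC z
      _ = C * (‖z‖ ^ (m + k) * exp (-(c * ‖z‖ ^ 2))) := by rw [pow_add]; ring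
      _ ≤ C * ((1 + ‖z‖) ^ (m + k) * exp (-(c * ‖z‖ ^ 2))) := by gcongr

theorem gauss_wt_eq (z : E n) : wt z = exp (-(1 / 2 * ‖z‖ ^ 2)) := by
  rw [wt]; congr 1; ring

theorem integrable_hom {F : Type} [NormedAddCommGroup F] [NormedSpace ℝ F] (k m : ℕ) {f : E n → F}
    (hf : Continuous f) (hom : ∀ (r : ℝ) (z : E n), 0 ≤ r → f (r • z) = r ^ k • f z) :
    Integrable fun z : E n => (‖z‖ ^ m * wt z) • f z := by
  have := gauss_integrable_hom k m (c := 1 / 2) (by norm_num) hf hom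
  simpa only [gauss_wt_eq] using this

/-- `E[|Z|² f(Z)] = (n + k) E[f(Z)]` when `f` is positively homogeneous of degree `k`. -/
theorem integral_norm_sq_hom {F : Type} [NormedAddCommGroup F] [NormedSpace ℝ F] [CompleteSpace F]
    (k : ℕ) {f : E n → F} (hf : Continuous f)
    (hom : ∀ (r : ℝ) (z : E n), 0 ≤ r → f (r • z) = r ^ k • f z) :
    ∫ z : E n, (‖z‖ ^ 2 * wt z) • f z = ((n : ℝ) + k) • ∫ z : E n, wt z • f z := by
  -- scaling
  have hscale : ∀ s : ℝ, 0 < s → ∫ z : E n, exp (-(s ^ 2 / 2 * ‖z‖ ^ 2)) • f z =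
      (s ^ (n + k))⁻¹ • ∫ z : E n, wt z • f z := by
    intro s hs
    have h := Measure.integral_comp_smul (volume : Measure (E n)) (fun z => wt z • f z) s
    rw [finrank_euclideanSpace_fin] at h
    have e1 : ∀ z : E n, wt (s • z) • f (s • z) =
        s ^ k • (exp (-(s ^ 2 / 2 * ‖z‖ ^ 2)) • f z) := by
      intro z
      rw [hom s z hs.le, wt, norm_smul, Real.norm_of_nonneg hs.le, smul_comm]
      congr 3
      ring
    simp_rw [e1] at h
    rw [integral_smul, abs_of_pos (by positivity)] at h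
    have hs' : s ^ k ≠ 0 := by positivity
    have h2 : ∫ z : E n, exp (-(s ^ 2 / 2 * ‖z‖ ^ 2)) • f z =
        (s ^ k)⁻¹ • (s ^ k • ∫ z : E n, exp (-(s ^ 2 / 2 * ‖z‖ ^ 2)) • f z) := by
      rw [smul_smul, inv_mul_cancel₀ hs', one_smul]
    rw [h2, h, smul_smul, pow_add, mul_inv, mul_comm]
  -- derivative of the left-hand side at `1`
  have hder : HasDerivAt (fun s : ℝ => ∫ z : E n, exp (-(s ^ 2 / 2 * ‖z‖ ^ 2)) • f z)
      (∫ z : E n, (-(1 : ℝ) * ‖z‖ ^ 2 * exp (-((1 : ℝ) ^ 2 / 2 * ‖z‖ ^ 2))) • f z) 1 := by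
    have hint : ∀ s : ℝ, 0 < s → ∀ m : ℕ, Integrable fun z : E n =>
        (‖z‖ ^ m * exp (-(s ^ 2 / 2 * ‖z‖ ^ 2))) • f z := fun s hs m =>
      gauss_integrable_hom k m (by positivity) hf hom
    have hb := (hint (1 / 2) (by norm_num) 2).norm.const_mul (3 / 2)
    refine (hasDerivAt_integral_of_dominated_loc_of_deriv_le
      (bound := fun z => 3 / 2 * ‖(‖z‖ ^ 2 * exp (-((1 / 2 : ℝ) ^ 2 / 2 * ‖z‖ ^ 2))) • f z‖)
      (F' := fun (s : ℝ) (z : E n) => (-s * ‖z‖ ^ 2 * exp (-(s ^ 2 / 2 * ‖z‖ ^ 2))) • f z)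
      (s := Metric.ball (1 : ℝ) (1 / 2)) (Metric.ball_mem_nhds _ (by norm_num)) ?_ ?_ ?_ ?_ hb
      ?_).2
    · refine Filter.Eventually.of_forall fun s => ?_
      exact Continuous.aestronglyMeasurable (by fun_prop)
    · simpa using hint 1 one_pos 0
    · exact Continuous.aestronglyMeasurable (by fun_prop)
    · refine Filter.Eventually.of_forall fun z s hs => ?_
      rw [Metric.mem_ball, Real.dist_eq, abs_lt] at hs
      rw [norm_smul, norm_smul, norm_mul, norm_mul, norm_neg, norm_mul,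
        Real.norm_of_nonneg (by linarith : (0 : ℝ) ≤ s), norm_of_nonneg (exp_pos _).le,
        norm_of_nonneg (exp_pos _).le, ← mul_assoc, ← mul_assoc]
      have hs1 : s ≤ 3 / 2 := by linarith
      have hs2 : (1 / 2 : ℝ) ≤ s := by linarith
      gcongr
    · refine Filter.Eventually.of_forall fun z s _ => ?_
      have h1 : HasDerivAt (fun s : ℝ => -(s ^ 2 / 2 * ‖z‖ ^ 2)) (-s * ‖z‖ ^ 2) s := by
        have a3 : HasDerivAt (fun y : ℝ => y ^ 2) (2 * s) s := by
          simpa using hasDerivAt_pow 2 s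
        have := ((a3.div_const 2).mul_const (‖z‖ ^ 2)).neg
        refine this.congr_deriv ?_
        ring
      have h2 := h1.exp
      have h3 := h2.smul_const (f z)
      refine h3.congr_deriv ?_
      congr 1
      ring
  have hder2 : HasDerivAt (fun s : ℝ => ∫ z : E n, exp (-(s ^ 2 / 2 * ‖z‖ ^ 2)) • f z)
      ((-((n : ℝ) + k)) • ∫ z : E n, wt z • f z) 1 := by
    have h1 : HasDerivAt (fun s : ℝ => (s ^ (n + k))⁻¹) (-((n : ℝ) + k)) 1 := by
      have a1 := (hasDerivAt_pow (n + k) (1 : ℝ)).inv (by simp)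
      refine a1.congr_deriv ?_
      simp
    have h2 := h1.smul_const (∫ z : E n, wt z • f z)
    refine h2.congr_of_eventuallyEq ?_
    filter_upwards [Ioi_mem_nhds (zero_lt_one (α := ℝ))] with s hs
    exact hscale s hs
  have h := hder.unique hder2
  have e2 : ∫ z : E n, (-(1 : ℝ) * ‖z‖ ^ 2 * exp (-((1 : ℝ) ^ 2 / 2 * ‖z‖ ^ 2))) • f z =
      - ∫ z : E n, (‖z‖ ^ 2 * wt z) • f z := by
    rw [← integral_neg]
    congr 1
    funext z
    rw [gauss_wt_eq, ← neg_smul]
    congr 1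
    ring_nf
  rw [e2, neg_smul] at h
  exact neg_injective h

/-- second moments are invariant under isometries -/
theorem gauss_isom (U : E n ≃ₗᵢ[ℝ] E n) (a b : E n) :
    ∫ z : E n, wt z * (⟪z, U a⟫ * ⟪z, U b⟫) = ∫ z : E n, wt z * (⟪z, a⟫ * ⟪z, b⟫) := by
  have h := (U.measurePreserving).integral_comp (U.toHomeomorph.measurableEmbedding)
    (fun z : E n => wt z * (⟪z, U a⟫ * ⟪z, U b⟫))
  rw [← h]
  congr 1
  funext z
  rw [wt, wt, U.norm_map, U.inner_map_map, U.inner_map_map]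

theorem gauss_second_integrable (a b : E n) :
    Integrable fun z : E n => wt z * (⟪z, a⟫ * ⟪z, b⟫) := by
  have := integrable_hom (n := n) 2 0 (f := fun z : E n => (⟪z, a⟫ * ⟪z, b⟫ : ℝ)) (by fun_prop)
    (fun r z _ => by
      rw [real_inner_smul_left, real_inner_smul_left, smul_eq_mul]; ring)
  simpa using this

theorem gauss_ne {i j : Fin n} (hij : i ≠ j) :
    ∫ z : E n, wt z * (⟪z, EuclideanSpace.single i (1 : ℝ)⟫ * ⟪z, EuclideanSpace.single j (1 : ℝ)⟫)
      = 0 := by
  set a := EuclideanSpace.single i (1 : ℝ) with ha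
  set b := EuclideanSpace.single j (1 : ℝ) with hb
  have h := gauss_isom (n := n) (Submodule.reflection (ℝ ∙ a)ᗮ) a b
  have h1 : Submodule.reflection (ℝ ∙ a)ᗮ a = -a :=
    Submodule.reflection_orthogonalComplement_singleton_eq_neg a
  have h2 : Submodule.reflection (ℝ ∙ a)ᗮ b = b := by
    rw [Submodule.reflection_eq_self_iff, Submodule.mem_orthogonal_singleton_iff_inner_right]
    rw [ha, hb, EuclideanSpace.inner_single_left]
    simp [hij]
  rw [h1, h2] at h
  have h3 : ∫ z : E n, wt z * (⟪z, -a⟫ * ⟪z, b⟫) = - ∫ z : E n, wt z * (⟪z, a⟫ * ⟪z, b⟫) := by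
    rw [← integral_neg]
    congr 1
    funext z
    rw [inner_neg_right]
    ring
  rw [h3] at h
  linarith

theorem gauss_diag (i j : Fin n) :
    ∫ z : E n, wt z * (⟪z, EuclideanSpace.single i (1 : ℝ)⟫ * ⟪z, EuclideanSpace.single i (1 : ℝ)⟫)
      = ∫ z : E n, wt z * (⟪z, EuclideanSpace.single j (1 : ℝ)⟫ *
        ⟪z, EuclideanSpace.single j (1 : ℝ)⟫) := by
  set a := EuclideanSpace.single i (1 : ℝ) with ha
  set b := EuclideanSpace.single j (1 : ℝ) with hb
  have h := gauss_isom (n := n) (Submodule.reflection (ℝ ∙ (b - a))ᗮ) b b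
  have h1 : Submodule.reflection (ℝ ∙ (b - a))ᗮ b = a :=
    Submodule.reflection_sub (by simp [ha, hb])
  rw [h1] at h
  exact h

theorem gauss_one (i : Fin n) :
    ∫ z : E n, wt z * (⟪z, EuclideanSpace.single i (1 : ℝ)⟫ * ⟪z, EuclideanSpace.single i (1 : ℝ)⟫)
      = cn n := by
  have h1 := integral_norm_sq_hom (n := n) 0 (f := fun _ => (1 : ℝ)) continuous_const
    (fun r z _ => by simp)
  simp only [smul_eq_mul, mul_one, Nat.cast_zero, add_zero] at h1
  rw [integral_wt] at h1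
  have h2 : ∫ z : E n, ‖z‖ ^ 2 * wt z = ∑ j : Fin n, ∫ z : E n, wt z *
      (⟪z, EuclideanSpace.single j (1 : ℝ)⟫ * ⟪z, EuclideanSpace.single j (1 : ℝ)⟫) := by
    rw [← integral_finsetSum _ fun j _ => gauss_second_integrable _ _]
    congr 1
    funext z
    rw [← Finset.mul_sum, mul_comm, EuclideanSpace.norm_sq_eq]
    congr 1
    refine Finset.sum_congr rfl fun j _ => ?_
    rw [EuclideanSpace.inner_single_right]
    simp [pow_two]
  rw [h2, Finset.sum_congr rfl fun j _ => gauss_diag j i] at h1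
  rw [Finset.sum_const, Finset.card_univ, Fintype.card_fin, nsmul_eq_mul] at h1
  have hn : (n : ℝ) ≠ 0 := by
    have := i.pos
    positivity
  exact mul_left_cancel₀ hn h1

/-- The covariance of the Gaussian measure is the identity. -/
theorem integral_inner_smul_wt (ξ : E n) : ∫ z : E n, (⟪z, ξ⟫ * wt z) • z = cn n • ξ := by
  have hint : Integrable fun z : E n => (⟪z, ξ⟫ * wt z) • z := by
    have := integrable_hom (n := n) 2 0 (f := fun z : E n => (⟪z, ξ⟫ : ℝ) • z) (by fun_prop)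
      (fun r z _ => by rw [real_inner_smul_left, smul_smul, smul_smul]; congr 1; ring)
    refine this.congr (Filter.Eventually.of_forall fun z => ?_)
    simp only [pow_zero, one_mul]
    rw [smul_smul, mul_comm]
  ext i
  have h1 : (∫ z : E n, (⟪z, ξ⟫ * wt z) • z) i = ∫ z : E n, (⟪z, ξ⟫ * wt z) * z i := by
    have := (EuclideanSpace.proj (𝕜 := ℝ) i).integral_comp_comm hint
    refine this.symm.trans ?_
    rfl
  rw [h1]
  have h2 : ∀ z : E n, (⟪z, ξ⟫ * wt z) * z i = ∑ j : Fin n, ξ j * (wt z *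
      (⟪z, EuclideanSpace.single i (1 : ℝ)⟫ * ⟪z, EuclideanSpace.single j (1 : ℝ)⟫)) := by
    intro z
    have e : ⟪z, ξ⟫ = ∑ j : Fin n, ξ j * z j := by
      rw [PiLp.inner_apply]
      exact Finset.sum_congr rfl fun j _ => by simp
    rw [e, Finset.sum_mul, Finset.sum_mul]
    refine Finset.sum_congr rfl fun j _ => ?_
    rw [EuclideanSpace.inner_single_right, EuclideanSpace.inner_single_right]
    simp
    ring
  simp_rw [h2]
  rw [integral_finsetSum _ fun j _ => (gauss_second_integrable _ _).const_mul _]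
  simp_rw [integral_const_mul]
  rw [Finset.sum_eq_single i]
  · rw [gauss_one]
    simp [mul_comm]
  · intro j _ hj
    rw [gauss_ne (Ne.symm hj), mul_zero]
  · intro h; exact absurd (Finset.mem_univ _) h

end Pool.Agent.H65L
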