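import Pool.Agent.H65L.KerLip
import Pool.Agent.H65L.Gauss

set_option autoImplicit false

/-! Lipschitz dependence of the functional (module LB/PhiLip). -/

open Real Set MeasureTheory Metric Filter Topology
open scoped RealInnerProductSpace

namespace Pool.Agent.H65L

open Pool.Agent.H65G

variable {n : ℕ}

namespace PhiLip

theorem ker_self (w z : E n) : ker w z ⟪w, z⟫ = 0 := by
  unfold ker
  exact intervalIntegral.integral_same

theorem cone_continuous {κ : ℝ} {G : E n → ℝ} (hG : Cone κ G) : Continuous G := by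
  have hl : LipschitzWith (Real.toNNReal κ) G := by
    refine LipschitzWith.of_dist_le_mul fun x y => ?_
    rw [Real.dist_eq, dist_eq_norm]
    refine (hG.lip x y).trans (mul_le_mul_of_nonneg_right (Real.le_coe_toNNReal κ) (norm_nonneg _))
  exact hl.continuous

theorem integrable_dom {κ : ℝ} (hκ0 : 0 ≤ κ) (hκ : κ < 1) (C : ℝ) :
    Integrable fun z : E n => C * ((1 + ‖z‖) ^ 5 * exp (-((1 - κ ^ 2) / 2 * ‖z‖ ^ 2))) :=
  (integrable_poly_exp 5 (by nlinarith)).const_mul C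

end PhiLip

open PhiLip

theorem integrable_ker {κ : ℝ} (hκ0 : 0 ≤ κ) (hκ : κ < 1) {G : E n → ℝ} (hG : Cone κ G) {w : E n}
    (hw : ‖w‖ ≤ κ) : Integrable fun z => ker w z (G z) := by
  obtain ⟨C, hC, h⟩ := ker_lip (n := n) hκ0 hκ
  refine (integrable_dom hκ0 hκ (C * 2)).mono'
    (continuous_ker_g (cone_continuous hG) (hw.trans_lt hκ)).aestronglyMeasurable
    (ae_of_all _ fun z => ?_)
  have a1 := abs_le_norm hG z
  have a2 := KerLip.abs_inner_le (z := z) hw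
  have h1 := h w w z (G z) ⟪w, z⟫ hw hw a1 a2
  rw [ker_self, sub_zero, sub_self, norm_zero, zero_add] at h1
  refine h1.trans ?_
  have a3 : |G z - ⟪w, z⟫| ≤ 2 * (1 + ‖z‖) := by
    have := abs_sub (G z) ⟪w, z⟫
    nlinarith [norm_nonneg z]
  have := mul_le_mul_of_nonneg_left a3
    (by positivity : 0 ≤ C * (1 + ‖z‖) ^ 4 * exp (-((1 - κ ^ 2) / 2 * ‖z‖ ^ 2)))
  refine this.trans (le_of_eq ?_)
  ring

theorem phi_lip {κ : ℝ} (hκ0 : 0 ≤ κ) (hκ : κ < 1) : ∃ C : ℝ, 0 ≤ C ∧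
    ∀ G G' : E n → ℝ, Cone κ G → Cone κ G' → ∀ ε : ℝ, (∀ z, |G z - G' z| ≤ ε * ‖z‖) →
      ∀ w w' : E n, ‖w‖ ≤ κ → ‖w'‖ ≤ κ → ‖Phi G w - Phi G' w'‖ ≤ C * (ε + ‖w - w'‖) := by
  rcases Nat.eq_zero_or_pos n with hn | hn
  · subst hn
    refine ⟨0, le_rfl, fun G G' _ _ ε _ w w' _ _ => ?_⟩
    rw [Subsingleton.elim (Phi G w - Phi G' w') 0, norm_zero, zero_mul]
  obtain ⟨C, hC, h⟩ := ker_lip (n := n) hκ0 hκ
  have hI : 0 ≤ ∫ z : E n, (1 + ‖z‖) ^ 5 * exp (-((1 - κ ^ 2) / 2 * ‖z‖ ^ 2)) :=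
    integral_nonneg fun z => by positivity
  refine ⟨C * ∫ z : E n, (1 + ‖z‖) ^ 5 * exp (-((1 - κ ^ 2) / 2 * ‖z‖ ^ 2)), by positivity, ?_⟩
  intro G G' hG hG' ε hε w w' hw hw'
  have hε0 : 0 ≤ ε := by
    have h1 := hε (EuclideanSpace.single ⟨0, hn⟩ (1 : ℝ))
    rw [EuclideanSpace.norm_single, norm_one, mul_one] at h1
    exact (abs_nonneg _).trans h1
  unfold Phi
  rw [← integral_sub (integrable_ker hκ0 hκ hG hw) (integrable_ker hκ0 hκ hG' hw')]
  have hb : ∀ z : E n, ‖ker w z (G z) - ker w' z (G' z)‖ ≤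
      (C * (ε + ‖w - w'‖)) * ((1 + ‖z‖) ^ 5 * exp (-((1 - κ ^ 2) / 2 * ‖z‖ ^ 2))) := by
    intro z
    have h1 := h w w' z (G z) (G' z) hw hw' (abs_le_norm hG z) (abs_le_norm hG' z)
    refine h1.trans ?_
    have h2 : ‖w - w'‖ + |G z - G' z| ≤ (1 + ‖z‖) * (ε + ‖w - w'‖) := by
      have := hε z
      nlinarith [norm_nonneg z, norm_nonneg (w - w'), mul_nonneg (norm_nonneg z) (norm_nonneg (w - w'))]
    have := mul_le_mul_of_nonneg_left h2
      (by positivity : 0 ≤ C * (1 + ‖z‖) ^ 4 * exp (-((1 - κ ^ 2) / 2 * ‖z‖ ^ 2)))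
    refine this.trans (le_of_eq ?_)
    ring
  have h3 := norm_integral_le_of_norm_le (integrable_dom hκ0 hκ (C * (ε + ‖w - w'‖)))
    (ae_of_all _ hb)
  rw [integral_const_mul] at h3
  refine h3.trans (le_of_eq ?_)
  ring

end Pool.Agent.H65L
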