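import Pool.Agent.H65L.SpecA

set_option autoImplicit false

/-! The derivative of the correlation at one (module LB/SpecC). -/

open Real Set MeasureTheory Metric Filter Topology
open scoped RealInnerProductSpace

namespace Pool.Agent.H65L

open Pool.Agent.H65G

variable {n : ℕ}

namespace SpecC

theorem cone_zero {κ : ℝ} {G : E n → ℝ} (hG : Cone κ G) : G 0 = 0 := by
  have := hG.hom 0 0 le_rfl
  simpa using this

theorem cone_abs {κ : ℝ} {G : E n → ℝ} (hG : Cone κ G) (z : E n) : |G z| ≤ κ * ‖z‖ := by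
  have := hG.lip z 0
  rwa [cone_zero hG, sub_zero, sub_zero] at this

theorem cone_lip {κ : ℝ} (hκ : 0 ≤ κ) {G : E n → ℝ} (hG : Cone κ G) :
    LipschitzWith ⟨κ, hκ⟩ G := by
  refine LipschitzWith.of_dist_le_mul fun x y => ?_
  rw [Real.dist_eq, dist_eq_norm]
  exact hG.lip x y

/-- the dominating function in one variable -/
noncomputable def bd (z : E n) : ℝ := (1 + ‖z‖) ^ 2 * wt z

theorem integrable_bd : Integrable (bd : E n → ℝ) := by
  have h := integrable_poly_exp (n := n) 2 (c := 1 / 2) (by norm_num)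
  refine h.congr (Eventually.of_forall fun z => ?_)
  simp only [bd, wt]
  congr 2
  ring

theorem integrable_bd2 : Integrable (fun p : E n × E n => bd p.1 * bd p.2) :=
  integrable_bd.mul_prod integrable_bd

theorem bd_nonneg (z : E n) : 0 ≤ bd z := mul_nonneg (by positivity) (wt_pos z).le

/-- integrability of continuous functions with quadratic growth -/
theorem integrable_wt2 {C : ℝ} {f : E n × E n → ℝ} (hf : AEStronglyMeasurable f volume)
    (hb : ∀ p, |f p| ≤ C * ((1 + ‖p.1‖) * (1 + ‖p.2‖)) ^ 2) :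
    Integrable (fun p : E n × E n => (wt p.1 * wt p.2) * f p) := by
  refine Integrable.mono' (integrable_bd2.const_mul C) ?_ (Eventually.of_forall fun p => ?_)
  · refine AEStronglyMeasurable.mul ?_ hf
    exact ((continuous_wt.comp continuous_fst).mul
      (continuous_wt.comp continuous_snd)).aestronglyMeasurable
  · have h1 := wt_pos p.1
    have h2 := wt_pos p.2
    rw [Real.norm_eq_abs, abs_mul, abs_of_pos (mul_pos h1 h2)]
    calc wt p.1 * wt p.2 * |f p| ≤ wt p.1 * wt p.2 * (C * ((1 + ‖p.1‖) * (1 + ‖p.2‖)) ^ 2) :=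
          mul_le_mul_of_nonneg_left (hb p) (mul_pos h1 h2).le
      _ = C * (bd p.1 * bd p.2) := by simp only [bd]; ring

theorem sum_le (a b : ℝ) (ha : 0 ≤ a) (hb : 0 ≤ b) : a + b ≤ (1 + a) * (1 + b) := by nlinarith

theorem rot_norm (φ : ℝ) (p : E n × E n) : ‖cos φ • p.1 + sin φ • p.2‖ ≤ (1 + ‖p.1‖) * (1 + ‖p.2‖) := by
  have h1 := norm_nonneg p.1
  have h2 := norm_nonneg p.2
  calc ‖cos φ • p.1 + sin φ • p.2‖ ≤ ‖cos φ • p.1‖ + ‖sin φ • p.2‖ := norm_add_le _ _
    _ = |cos φ| * ‖p.1‖ + |sin φ| * ‖p.2‖ := by simp [norm_smul]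
    _ ≤ 1 * ‖p.1‖ + 1 * ‖p.2‖ := by
        gcongr
        · exact abs_cos_le_one φ
        · exact abs_sin_le_one φ
    _ ≤ _ := by rw [one_mul, one_mul]; exact sum_le _ _ h1 h2

theorem fst_norm (p : E n × E n) : ‖p.1‖ ≤ (1 + ‖p.1‖) * (1 + ‖p.2‖) := by
  have h1 := norm_nonneg p.1
  have h2 := norm_nonneg p.2
  nlinarith

/-- the basic identity -/
theorem mom_sub_corr {κ : ℝ} (hκ : 0 ≤ κ) {G : E n → ℝ} (hG : Cone κ G) {φ : ℝ} (h0 : 0 ≤ φ)
    (h1 : φ ≤ π) : mom G - corr G (cos φ) = (cn n)⁻¹ ^ 2 / 2 *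
      ∫ p : E n × E n, (wt p.1 * wt p.2) * (G p.1 - G (cos φ • p.1 + sin φ • p.2)) ^ 2 := by
  have hGc : Continuous G := (cone_lip hκ hG).continuous
  have hrot : Continuous fun p : E n × E n => G (cos φ • p.1 + sin φ • p.2) :=
    hGc.comp (by fun_prop)
  have hG1 : Continuous fun p : E n × E n => G p.1 := hGc.comp continuous_fst
  have hs : √(1 - cos φ ^ 2) = sin φ := by
    have : 1 - cos φ ^ 2 = sin φ ^ 2 := by have := sin_sq_add_cos_sq φ; linarith
    rw [this, Real.sqrt_sq (sin_nonneg_of_nonneg_of_le_pi h0 h1)]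
  have bG1 : ∀ p : E n × E n, |G p.1| ≤ κ * ((1 + ‖p.1‖) * (1 + ‖p.2‖)) := fun p =>
    (cone_abs hG p.1).trans (mul_le_mul_of_nonneg_left (fst_norm p) hκ)
  have bGr : ∀ p : E n × E n, |G (cos φ • p.1 + sin φ • p.2)| ≤
      κ * ((1 + ‖p.1‖) * (1 + ‖p.2‖)) := fun p =>
    (cone_abs hG _).trans (mul_le_mul_of_nonneg_left (rot_norm φ p) hκ)
  have i1 : Integrable (fun p : E n × E n => (wt p.1 * wt p.2) * (G p.1 ^ 2)) :=
    integrable_wt2 (hG1.pow 2).aestronglyMeasurable fun p => by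
      rw [abs_pow, ← mul_pow]
      exact pow_le_pow_left₀ (abs_nonneg _) (bG1 p) 2
  have i2 : Integrable (fun p : E n × E n =>
      (wt p.1 * wt p.2) * (G (cos φ • p.1 + sin φ • p.2) ^ 2)) :=
    integrable_wt2 (hrot.pow 2).aestronglyMeasurable fun p => by
      rw [abs_pow, ← mul_pow]
      exact pow_le_pow_left₀ (abs_nonneg _) (bGr p) 2
  have i3 : Integrable (fun p : E n × E n =>
      (wt p.1 * wt p.2) * (G p.1 * G (cos φ • p.1 + sin φ • p.2))) :=
    integrable_wt2 (hG1.mul hrot).aestronglyMeasurable fun p => by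
      rw [abs_mul, ← mul_pow, sq]
      exact mul_le_mul (bG1 p) (bGr p) (abs_nonneg _) (by positivity)
  -- correlation
  have hcorr : corr G (cos φ) = (cn n)⁻¹ ^ 2 * ∫ p : E n × E n,
      (wt p.1 * wt p.2) * (G p.1 * G (cos φ • p.1 + sin φ • p.2)) := by
    unfold corr
    rw [hs]
    congr 1
    have := integral_prod _ i3
    rw [← Measure.volume_eq_prod] at this
    rw [this]
    refine integral_congr_ae (Eventually.of_forall fun z => ?_)
    refine integral_congr_ae (Eventually.of_forall fun z' => ?_)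
    simp only
    ring
  -- second moment
  have hmom : mom G = (cn n)⁻¹ ^ 2 * ∫ p : E n × E n, (wt p.1 * wt p.2) * (G p.1 ^ 2) := by
    have h := integral_prod_mul (μ := (volume : Measure (E n))) (ν := (volume : Measure (E n)))
      (fun z : E n => G z ^ 2 * wt z) (fun z : E n => wt z)
    rw [← Measure.volume_eq_prod, integral_wt] at h
    have e : ∫ p : E n × E n, (wt p.1 * wt p.2) * (G p.1 ^ 2) =
        ∫ p : E n × E n, G p.1 ^ 2 * wt p.1 * wt p.2 := by
      refine integral_congr_ae (Eventually.of_forall fun p => ?_)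
      simp only
      ring
    rw [e, h]
    unfold mom
    have := (cn_pos n).ne'
    field_simp
  have hr := integral_rotate φ (fun p : E n × E n => G p.1 ^ 2)
  simp only [smul_eq_mul] at hr
  have hsum : ∫ p : E n × E n, (wt p.1 * wt p.2) * (G p.1 - G (cos φ • p.1 + sin φ • p.2)) ^ 2 =
      (∫ p : E n × E n, (wt p.1 * wt p.2) * (G p.1 ^ 2)) -
      2 * (∫ p : E n × E n, (wt p.1 * wt p.2) * (G p.1 * G (cos φ • p.1 + sin φ • p.2))) +
      ∫ p : E n × E n, (wt p.1 * wt p.2) * (G (cos φ • p.1 + sin φ • p.2) ^ 2) := by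
    have e1 := integral_sub i1 (i3.const_mul 2)
    have e2 := integral_add (i1.sub (i3.const_mul 2)) i2
    rw [integral_const_mul] at e1
    rw [← e1]
    refine Eq.trans ?_ (Eq.trans e2 ?_)
    · refine integral_congr_ae (Eventually.of_forall fun p => ?_)
      simp only [Pi.sub_apply]
      ring
    · rfl
  rw [hcorr, hmom, hsum, hr]
  ring

/-- the second moment of a linear form -/
theorem integral_clm_sq (L : E n →L[ℝ] ℝ) : ∫ z : E n, wt z * L z ^ 2 = cn n * ‖L‖ ^ 2 := by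
  set g : E n := (InnerProductSpace.toDual ℝ (E n)).symm L with hg
  have hL : ∀ z, L z = ⟪g, z⟫ := fun z => by
    rw [hg, InnerProductSpace.toDual_symm_apply]
  have hn : ‖L‖ = ‖g‖ := by rw [hg, LinearIsometryEquiv.norm_map]
  have hint : Integrable (fun z : E n => (⟪z, g⟫ * wt z) • z) := by
    refine Integrable.mono' (integrable_bd.const_mul ‖g‖) ?_ (Eventually.of_forall fun z => ?_)
    · refine Continuous.aestronglyMeasurable ?_
      exact ((continuous_id.inner continuous_const).mul continuous_wt).smul continuous_id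
    · have h1 := abs_real_inner_le_norm z g
      have h2 := wt_pos z
      have h3 := norm_nonneg z
      have h4 := norm_nonneg g
      rw [norm_smul, Real.norm_eq_abs, abs_mul, abs_of_pos h2]
      calc |⟪z, g⟫| * wt z * ‖z‖ ≤ (‖z‖ * ‖g‖) * wt z * ‖z‖ := by gcongr
        _ = ‖g‖ * (‖z‖ ^ 2 * wt z) := by ring
        _ ≤ ‖g‖ * ((1 + ‖z‖) ^ 2 * wt z) := by gcongr; linarith
        _ = ‖g‖ * bd z := rfl
  have h := integral_inner (𝕜 := ℝ) hint g
  rw [integral_inner_smul_wt] at h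
  rw [hn]
  calc ∫ z : E n, wt z * L z ^ 2 = ∫ z : E n, ⟪g, (⟪z, g⟫ * wt z) • z⟫ := by
        refine integral_congr_ae (Eventually.of_forall fun z => ?_)
        simp only
        rw [hL z, inner_smul_right, real_inner_comm g z]
        ring
    _ = ⟪g, cn n • g⟫ := h
    _ = cn n * ‖g‖ ^ 2 := by rw [inner_smul_right, real_inner_self_eq_norm_sq]

theorem measurable_dd (G : E n → ℝ) :
    Measurable fun p : E n × E n => fderiv ℝ G p.1 p.2 := by
  have h1 : Measurable fun p : E n × E n => (fderiv ℝ G p.1, p.2) :=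
    ((measurable_fderiv ℝ G).comp measurable_fst).prodMk measurable_snd
  exact ContinuousLinearMap.measurable_apply₂.comp h1

theorem fderiv_norm {κ : ℝ} (hκ : 0 ≤ κ) {G : E n → ℝ} (hG : Cone κ G) (z : E n) :
    ‖fderiv ℝ G z‖ ≤ κ := norm_fderiv_le_of_lipschitz ℝ (cone_lip hκ hG)

theorem integrable_dd {κ : ℝ} (hκ : 0 ≤ κ) {G : E n → ℝ} (hG : Cone κ G) :
    Integrable fun p : E n × E n => (wt p.1 * wt p.2) * (fderiv ℝ G p.1 p.2) ^ 2 := by
  refine integrable_wt2 (C := κ ^ 2) ((measurable_dd G).pow_const 2).aestronglyMeasurable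
    fun p => ?_
  rw [abs_pow, ← mul_pow]
  refine pow_le_pow_left₀ (abs_nonneg _) ?_ 2
  have h1 := norm_nonneg p.1
  have h2 := norm_nonneg p.2
  calc |fderiv ℝ G p.1 p.2| ≤ ‖fderiv ℝ G p.1‖ * ‖p.2‖ := (fderiv ℝ G p.1).le_opNorm p.2
    _ ≤ κ * ‖p.2‖ := mul_le_mul_of_nonneg_right (fderiv_norm hκ hG _) h2
    _ ≤ κ * ((1 + ‖p.1‖) * (1 + ‖p.2‖)) := mul_le_mul_of_nonneg_left (by nlinarith) hκ

theorem integral_dd_le {κ : ℝ} (hκ : 0 ≤ κ) {G : E n → ℝ} (hG : Cone κ G) :
    ∫ p : E n × E n, (wt p.1 * wt p.2) * (fderiv ℝ G p.1 p.2) ^ 2 ≤ cn n ^ 2 * κ ^ 2 := by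
  have hi := integrable_dd hκ hG
  have h := integral_prod _ hi
  rw [← Measure.volume_eq_prod] at h
  rw [h]
  have e : ∀ z : E n, ∫ z' : E n, (wt z * wt z') * (fderiv ℝ G z z') ^ 2 =
      wt z * (cn n * ‖fderiv ℝ G z‖ ^ 2) := by
    intro z
    rw [← integral_clm_sq, ← integral_const_mul]
    refine integral_congr_ae (Eventually.of_forall fun z' => ?_)
    simp only
    ring
  simp only [e]
  have hc := cn_pos n
  have hwi : Integrable (wt : E n → ℝ) := by
    have h := integrable_poly_exp (n := n) 0 (c := 1 / 2) (by norm_num)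
    refine h.congr (Eventually.of_forall fun z => ?_)
    simp only [wt, pow_zero, one_mul]
    congr 1
    ring
  calc ∫ z : E n, wt z * (cn n * ‖fderiv ℝ G z‖ ^ 2) ≤ ∫ z : E n, wt z * (cn n * κ ^ 2) := by
        refine integral_mono_of_nonneg (Eventually.of_forall fun z => ?_) (hwi.mul_const _)
          (Eventually.of_forall fun z => ?_)
        · have := wt_pos z
          simp only [Pi.zero_apply]
          positivity
        · have h1 := wt_pos z
          have h2 := fderiv_norm hκ hG z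
          have h3 := norm_nonneg (fderiv ℝ G z)
          simp only
          gcongr
    _ = cn n ^ 2 * κ ^ 2 := by rw [integral_mul_const, integral_wt]; ring

theorem tendsto_quot {κ : ℝ} (hκ : 0 ≤ κ) {G : E n → ℝ} (hG : Cone κ G) :
    Tendsto (fun φ : ℝ => ∫ p : E n × E n, (wt p.1 * wt p.2) *
      ((G p.1 - G (cos φ • p.1 + sin φ • p.2)) ^ 2 / φ ^ 2)) (𝓝[>] 0)
      (𝓝 (∫ p : E n × E n, (wt p.1 * wt p.2) * (fderiv ℝ G p.1 p.2) ^ 2)) := by
  have hGc : Continuous G := (cone_lip hκ hG).continuous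
  refine tendsto_integral_filter_of_dominated_convergence
    (fun p : E n × E n => κ ^ 2 * (bd p.1 * bd p.2)) ?_ ?_ (integrable_bd2.const_mul _) ?_
  · refine Eventually.of_forall fun φ => Continuous.aestronglyMeasurable ?_
    refine Continuous.mul ((continuous_wt.comp continuous_fst).mul
      (continuous_wt.comp continuous_snd)) (Continuous.div_const (Continuous.pow ?_ 2) _)
    exact (hGc.comp continuous_fst).sub
      (hGc.comp (by fun_prop))
  · have hIoo : Ioo (0 : ℝ) 1 ∈ 𝓝[>] (0 : ℝ) := Ioo_mem_nhdsGT (by norm_num)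
    filter_upwards [hIoo] with φ hφ
    refine Eventually.of_forall fun p => ?_
    have hφ0 := hφ.1
    have hφ1 := hφ.2
    have h1 := wt_pos p.1
    have h2 := wt_pos p.2
    have hn1 := norm_nonneg p.1
    have hn2 := norm_nonneg p.2
    have hcos : |1 - cos φ| ≤ φ := by
      have h3 := one_sub_sq_div_two_le_cos (x := φ)
      have h4 := cos_le_one φ
      rw [abs_of_nonneg (by linarith)]
      nlinarith
    have hsin : |sin φ| ≤ φ := by
      have := Real.abs_sin_le_abs (x := φ)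
      rwa [abs_of_pos hφ0] at this
    have key : |G p.1 - G (cos φ • p.1 + sin φ • p.2)| ≤
        κ * (φ * ((1 + ‖p.1‖) * (1 + ‖p.2‖))) := by
      refine (hG.lip _ _).trans (mul_le_mul_of_nonneg_left ?_ hκ)
      have e : p.1 - (cos φ • p.1 + sin φ • p.2) = (1 - cos φ) • p.1 - sin φ • p.2 := by
        rw [sub_smul, one_smul]; abel
      rw [e]
      calc ‖(1 - cos φ) • p.1 - sin φ • p.2‖ ≤ ‖(1 - cos φ) • p.1‖ + ‖sin φ • p.2‖ :=
            norm_sub_le _ _
        _ = |1 - cos φ| * ‖p.1‖ + |sin φ| * ‖p.2‖ := by simp [norm_smul]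
        _ ≤ φ * ‖p.1‖ + φ * ‖p.2‖ := by gcongr
        _ = φ * (‖p.1‖ + ‖p.2‖) := by ring
        _ ≤ _ := mul_le_mul_of_nonneg_left (sum_le _ _ hn1 hn2) hφ0.le
    have key2 : (G p.1 - G (cos φ • p.1 + sin φ • p.2)) ^ 2 ≤
        (κ * (φ * ((1 + ‖p.1‖) * (1 + ‖p.2‖)))) ^ 2 := by
      rw [← sq_abs]
      exact pow_le_pow_left₀ (abs_nonneg _) key 2
    rw [Real.norm_eq_abs, abs_of_nonneg (by positivity)]
    calc wt p.1 * wt p.2 * ((G p.1 - G (cos φ • p.1 + sin φ • p.2)) ^ 2 / φ ^ 2)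
        ≤ wt p.1 * wt p.2 * ((κ * (φ * ((1 + ‖p.1‖) * (1 + ‖p.2‖)))) ^ 2 / φ ^ 2) := by gcongr
      _ = κ ^ 2 * (bd p.1 * bd p.2) := by
          simp only [bd]
          field_simp
  · have hd : ∀ᵐ z : E n, DifferentiableAt ℝ G z := (cone_lip hκ hG).ae_differentiableAt
    have hd2 : ∀ᵐ p : E n × E n, DifferentiableAt ℝ G p.1 :=
      Measure.quasiMeasurePreserving_fst.ae hd
    filter_upwards [hd2] with p hp
    refine Tendsto.const_mul _ ?_
    have hc : HasDerivAt (fun φ : ℝ => cos φ • p.1 + sin φ • p.2) p.2 0 := by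
      have h1 := (hasDerivAt_cos 0).smul_const p.1
      have h2 := (hasDerivAt_sin 0).smul_const p.2
      have h3 := h1.add h2
      have e : -sin 0 • p.1 + cos 0 • p.2 = p.2 := by simp
      rw [e] at h3
      exact h3
    have hp' : HasFDerivAt G (fderiv ℝ G p.1)
        ((fun φ : ℝ => cos φ • p.1 + sin φ • p.2) 0) := by
      simpa using hp.hasFDerivAt
    have hcomp := hp'.comp_hasDerivAt (0 : ℝ) hc
    have ht := hcomp.tendsto_slope_zero_right
    have ht2 := (ht.pow 2)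
    refine ht2.congr' ?_
    filter_upwards [self_mem_nhdsWithin] with φ hφ
    have hφ0 : φ ≠ 0 := (ne_of_gt hφ)
    simp only [Function.comp, zero_add, cos_zero, sin_zero, one_smul, zero_smul, add_zero,
      smul_eq_mul]
    field_simp
    ring

end SpecC

theorem eventually_mom_sub_corr {κ : ℝ} (hκ : 0 ≤ κ) {G : E n → ℝ} (hG : Cone κ G) {ε : ℝ}
    (hε : 0 < ε) : ∀ᶠ φ in 𝓝[>] (0 : ℝ), mom G - corr G (cos φ) ≤ (κ ^ 2 / 2 + ε) * φ ^ 2 := by
  have hc := cn_pos n
  have hlim := (SpecC.tendsto_quot hκ hG).const_mul ((cn n)⁻¹ ^ 2 / 2)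
  have hle : (cn n)⁻¹ ^ 2 / 2 * (∫ p : E n × E n, (wt p.1 * wt p.2) * (fderiv ℝ G p.1 p.2) ^ 2) <
      κ ^ 2 / 2 + ε := by
    have h := SpecC.integral_dd_le hκ hG
    have : (cn n)⁻¹ ^ 2 / 2 * (∫ p : E n × E n, (wt p.1 * wt p.2) * (fderiv ℝ G p.1 p.2) ^ 2) ≤
        (cn n)⁻¹ ^ 2 / 2 * (cn n ^ 2 * κ ^ 2) := mul_le_mul_of_nonneg_left h (by positivity)
    have e : (cn n)⁻¹ ^ 2 / 2 * (cn n ^ 2 * κ ^ 2) = κ ^ 2 / 2 := by field_simp
    linarith
  have hev := hlim.eventually_lt_const hle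
  have hIoo : Ioo (0 : ℝ) 1 ∈ 𝓝[>] (0 : ℝ) := Ioo_mem_nhdsGT (by norm_num)
  filter_upwards [hev, hIoo] with φ hφ hφ1
  have h0 := hφ1.1
  have hpi : φ ≤ π := by have := pi_gt_three; linarith [hφ1.2]
  rw [SpecC.mom_sub_corr hκ hG h0.le hpi]
  have e : (∫ p : E n × E n, (wt p.1 * wt p.2) *
      ((G p.1 - G (cos φ • p.1 + sin φ • p.2)) ^ 2 / φ ^ 2)) =
      (∫ p : E n × E n, (wt p.1 * wt p.2) * (G p.1 - G (cos φ • p.1 + sin φ • p.2)) ^ 2) /
        φ ^ 2 := by
    rw [← integral_div]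
    refine integral_congr_ae (Eventually.of_forall fun p => ?_)
    simp only
    ring
  rw [e] at hφ
  have hφ2 : 0 < φ ^ 2 := by positivity
  have := mul_lt_mul_of_pos_right hφ hφ2
  have e2 : (cn n)⁻¹ ^ 2 / 2 * ((∫ p : E n × E n, (wt p.1 * wt p.2) *
      (G p.1 - G (cos φ • p.1 + sin φ • p.2)) ^ 2) / φ ^ 2) * φ ^ 2 = (cn n)⁻¹ ^ 2 / 2 *
      (∫ p : E n × E n, (wt p.1 * wt p.2) * (G p.1 - G (cos φ • p.1 + sin φ • p.2)) ^ 2) := by
    field_simp
  rw [e2] at this
  exact this.le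

end Pool.Agent.H65L
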