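import Pool.Agent.H65L.SpecB
import Pool.Agent.H65L.SpecC

set_option autoImplicit false

/-! The spectral inequalities (module LB/Spec). -/

open Real Set MeasureTheory Metric Filter Topology
open scoped RealInnerProductSpace

namespace Pool.Agent.H65L

open Pool.Agent.H65G

variable {n : ℕ}

theorem mom_nonneg (G : E n → ℝ) : 0 ≤ mom G := by
  unfold mom cn wt
  refine mul_nonneg (by positivity) (integral_nonneg fun z => ?_)
  positivity

/-- `corr ρ ≤ ρ^k mom`. -/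
theorem corr_le_pow {κ : ℝ} (hκ : 0 ≤ κ) {G : E n → ℝ} (hG : Cone κ G) {k : ℕ}
    {C ρ₀ : ℝ} (hρ₀ : 0 < ρ₀) (hs : ∀ ρ : ℝ, 0 ≤ ρ → ρ ≤ ρ₀ → |corr G ρ| ≤ C * ρ ^ k)
    {ρ : ℝ} (h0 : 0 < ρ) (h1 : ρ < 1) : corr G ρ ≤ ρ ^ k * mom G := by
  have hm0 := mom_nonneg G
  rcases le_or_gt (corr G ρ) 0 with hc | hc
  · exact hc.trans (by positivity)
  have hp0 : ∀ j : ℕ, 0 ≤ ρ ^ (2 ^ j) := fun j => by positivity
  have hp1 : ∀ j : ℕ, ρ ^ (2 ^ j) ≤ 1 := fun j => pow_le_one₀ h0.le h1.le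
  have hsq : ∀ j : ℕ, corr G (ρ ^ (2 ^ j)) ^ 2 ≤ mom G * corr G (ρ ^ (2 ^ (j + 1))) := by
    intro j
    have := corr_sq_le hκ hG (hp0 j) (hp1 j)
    rwa [← pow_mul, ← pow_succ] at this
  have hmpos : 0 < mom G := by
    rcases hm0.lt_or_eq with h | h
    · exact h
    · exfalso
      have := hsq 0
      rw [← h, zero_mul, pow_zero, pow_one] at this
      nlinarith
  have hpos : ∀ j : ℕ, 0 < corr G (ρ ^ (2 ^ j)) := by
    intro j
    induction j with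
    | zero => simpa using hc
    | succ j ih =>
      have := hsq j
      by_contra hneg
      push Not at hneg
      nlinarith [mul_nonneg hm0 (neg_nonneg.2 hneg), pow_pos ih 2]
  -- b_j = a_j / mom
  have hb : ∀ j : ℕ, (corr G ρ / mom G) ^ (2 ^ j) ≤ corr G (ρ ^ (2 ^ j)) / mom G := by
    intro j
    induction j with
    | zero => simp
    | succ j ih =>
      have hb0 : 0 ≤ (corr G ρ / mom G) ^ (2 ^ j) := by positivity
      calc (corr G ρ / mom G) ^ (2 ^ (j + 1)) = ((corr G ρ / mom G) ^ (2 ^ j)) ^ 2 := by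
            rw [← pow_mul, ← pow_succ]
        _ ≤ (corr G (ρ ^ (2 ^ j)) / mom G) ^ 2 := pow_le_pow_left₀ hb0 ih 2
        _ = corr G (ρ ^ (2 ^ j)) ^ 2 / mom G ^ 2 := by rw [div_pow]
        _ ≤ mom G * corr G (ρ ^ (2 ^ (j + 1))) / mom G ^ 2 := by
            gcongr
            exact hsq j
        _ = corr G (ρ ^ (2 ^ (j + 1))) / mom G := by field_simp
  by_contra hlt
  push Not at hlt
  set r := corr G ρ / mom G / ρ ^ k with hr
  have hr1 : 1 < r := by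
    rw [hr, lt_div_iff₀ (by positivity), one_mul, lt_div_iff₀ hmpos]
    exact hlt
  have htend : Tendsto (fun j : ℕ => r ^ (2 ^ j)) atTop atTop :=
    (tendsto_pow_atTop_atTop_of_one_lt hr1).comp (tendsto_pow_atTop_atTop_of_one_lt one_lt_two)
  have htend0 : Tendsto (fun j : ℕ => ρ ^ (2 ^ j)) atTop (𝓝 0) :=
    (tendsto_pow_atTop_nhds_zero_of_lt_one h0.le h1).comp
      (tendsto_pow_atTop_atTop_of_one_lt one_lt_two)
  obtain ⟨j, hj1, hj2⟩ := ((htend.eventually_gt_atTop (C / mom G)).and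
    (htend0.eventually (gt_mem_nhds hρ₀))).exists
  have h3 := hs (ρ ^ (2 ^ j)) (hp0 j) hj2.le
  have h4 : corr G (ρ ^ (2 ^ j)) ≤ C * (ρ ^ (2 ^ j)) ^ k := (le_abs_self _).trans h3
  have h5 : r ^ (2 ^ j) ≤ C / mom G := by
    have e1 : r ^ (2 ^ j) = (corr G ρ / mom G) ^ (2 ^ j) / (ρ ^ (2 ^ j)) ^ k := by
      rw [hr, div_pow, ← pow_mul, ← pow_mul, mul_comm k]
    rw [e1, div_le_iff₀ (by positivity)]
    calc (corr G ρ / mom G) ^ (2 ^ j) ≤ corr G (ρ ^ (2 ^ j)) / mom G := hb j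
      _ ≤ C * (ρ ^ (2 ^ j)) ^ k / mom G := by gcongr
      _ = C / mom G * (ρ ^ (2 ^ j)) ^ k := by ring
  linarith

/-- `(1 - u)^k ≤ 1 / (1 + k u)`. -/
theorem one_sub_pow_mul_le (k : ℕ) {u : ℝ} (h0 : 0 ≤ u) (h1 : u ≤ 1) :
    (1 - u) ^ k * (1 + k * u) ≤ 1 := by
  have h2 : 1 + k * u ≤ (1 + u) ^ k := one_add_mul_le_pow (by linarith) k
  calc (1 - u) ^ k * (1 + k * u) ≤ (1 - u) ^ k * (1 + u) ^ k :=
        mul_le_mul_of_nonneg_left h2 (pow_nonneg (by linarith) k)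
    _ = (1 - u ^ 2) ^ k := by rw [← mul_pow]; congr 1; ring
    _ ≤ 1 := pow_le_one₀ (by nlinarith) (by nlinarith)

/-- The abstract argument: `corr ρ ≤ ρ^k corr 1`, hence `k * mom ≤ κ²`. -/
theorem mom_le_of_small {κ : ℝ} (hκ : 0 ≤ κ) {G : E n → ℝ} (hG : Cone κ G) {k : ℕ} (hk : 0 < k)
    {C ρ₀ : ℝ} (hρ₀ : 0 < ρ₀) (hs : ∀ ρ : ℝ, 0 ≤ ρ → ρ ≤ ρ₀ → |corr G ρ| ≤ C * ρ ^ k) :
    k * mom G ≤ κ ^ 2 := by
  by_contra hlt
  push Not at hlt
  have hm0 := mom_nonneg G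
  set δ := k * mom G - κ ^ 2 with hδ
  have hδ0 : 0 < δ := by linarith
  set B := κ ^ 2 / 2 + δ / 8 with hB
  have hB0 : 0 ≤ B := by positivity
  have hev := eventually_mom_sub_corr hκ hG (ε := δ / 8) (by linarith)
  have hsm : ∀ᶠ φ : ℝ in 𝓝[>] (0 : ℝ), φ ^ 2 * (mom G * k + B * k) < δ / 4 := by
    have : Tendsto (fun φ : ℝ => φ ^ 2 * (mom G * k + B * k)) (𝓝[>] 0) (𝓝 (0 ^ 2 * (mom G * k + B * k))) := by
      apply Tendsto.mono_left _ nhdsWithin_le_nhds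
      exact Continuous.tendsto (by fun_prop) 0
    rw [zero_pow two_ne_zero, zero_mul] at this
    exact this.eventually (gt_mem_nhds (by linarith))
  have hlt1 : ∀ᶠ φ : ℝ in 𝓝[>] (0 : ℝ), φ < 1 :=
    (Iio_mem_nhds one_pos |> mem_nhdsWithin_of_mem_nhds)
  have hpos : ∀ᶠ φ : ℝ in 𝓝[>] (0 : ℝ), 0 < φ := self_mem_nhdsWithin
  obtain ⟨φ, h1, h2, h3, h4⟩ := (hev.and (hsm.and (hlt1.and hpos))).exists
  have hφ2 : 0 < φ ^ 2 := by positivity
  have hcb := Real.cos_bound (x := φ) (by rw [abs_of_pos h4]; exact h3.le)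
  rw [abs_of_pos h4] at hcb
  have hcb' := abs_le.1 hcb
  set u := 1 - cos φ with hu
  have hu1 : φ ^ 2 / 2 - φ ^ 4 * (5 / 96) ≤ u := by rw [hu]; linarith [hcb'.2]
  have hu2 : u ≤ φ ^ 2 / 2 := by
    have := Real.one_sub_sq_div_two_le_cos (x := φ)
    rw [hu]; linarith
  have hφ4 : φ ^ 4 ≤ φ ^ 2 := by
    have : φ ^ 2 ≤ 1 := by nlinarith
    nlinarith
  have hu0 : 0 < u := by nlinarith
  have hu3 : u ≤ 1 := by nlinarith
  have hcos : cos φ = 1 - u := by rw [hu]; ring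
  have hc0 : 0 < cos φ := by rw [hcos]; nlinarith
  have hc1 : cos φ < 1 := by rw [hcos]; linarith
  have h5 := corr_le_pow hκ hG hρ₀ hs hc0 hc1
  have h6 : mom G * (1 - cos φ ^ k) ≤ B * φ ^ 2 := by
    have : mom G - corr G (cos φ) ≤ B * φ ^ 2 := by rw [hB]; exact h1
    nlinarith
  have h7 := one_sub_pow_mul_le k hu0.le hu3
  rw [← hcos] at h7
  have hk0 : (0 : ℝ) < k := by exact_mod_cast hk
  have hden : 0 < 1 + k * u := by positivity
  -- `k u ≤ (1 - cos^k)(1 + k u)`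
  have h8 : k * u ≤ (1 - cos φ ^ k) * (1 + k * u) := by nlinarith
  have h9 : mom G * (k * u) ≤ B * φ ^ 2 * (1 + k * u) := by
    calc mom G * (k * u) ≤ mom G * ((1 - cos φ ^ k) * (1 + k * u)) :=
          mul_le_mul_of_nonneg_left h8 hm0
      _ = mom G * (1 - cos φ ^ k) * (1 + k * u) := by ring
      _ ≤ B * φ ^ 2 * (1 + k * u) := mul_le_mul_of_nonneg_right h6 hden.le
  have h10 : mom G * (k * (φ ^ 2 / 2 - φ ^ 4 * (5 / 96))) ≤ B * φ ^ 2 * (1 + k * (φ ^ 2 / 2)) := by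
    refine le_trans ?_ (h9.trans ?_)
    · gcongr
    · gcongr
  -- divide by φ²
  have h11 : mom G * k * (1 / 2 - φ ^ 2 * (5 / 96)) ≤ B * (1 + k * (φ ^ 2 / 2)) := by
    have e1 : mom G * (k * (φ ^ 2 / 2 - φ ^ 4 * (5 / 96))) =
        φ ^ 2 * (mom G * k * (1 / 2 - φ ^ 2 * (5 / 96))) := by ring
    have e2 : B * φ ^ 2 * (1 + k * (φ ^ 2 / 2)) = φ ^ 2 * (B * (1 + k * (φ ^ 2 / 2))) := by ring
    rw [e1, e2] at h10
    exact le_of_mul_le_mul_left h10 hφ2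
  have h12 : mom G * k * (φ ^ 2 * (5 / 96)) ≤ mom G * k * φ ^ 2 := by
    have : 0 ≤ mom G * k * φ ^ 2 := by positivity
    nlinarith
  have h13 : B * (k * (φ ^ 2 / 2)) ≤ B * k * φ ^ 2 := by
    have : 0 ≤ B * k * φ ^ 2 := by positivity
    nlinarith
  have h14 : mom G * k / 2 - κ ^ 2 / 2 = δ / 2 := by rw [hδ]; ring
  nlinarith

theorem mom_le_sq {κ : ℝ} (hκ : 0 ≤ κ) {G : E n → ℝ} (hG : Cone κ G) : mom G ≤ κ ^ 2 := by
  have h := mom_le_of_small hκ hG (k := 1) one_pos (C := κ ^ 2 * n) (ρ₀ := 1) one_pos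
    fun ρ h0 h1 => by simpa using abs_corr_le_odd hκ hG h0 h1
  simpa using h

theorem mom_le_third {G : E n → ℝ} (hG : Cone 1 G) (hb : ∫ z, (G z * wt z) • z = 0) :
    mom G ≤ 1 / 3 := by
  obtain ⟨C, _, hC⟩ := abs_corr_le_balanced zero_le_one hG hb
  have h := mom_le_of_small zero_le_one hG (k := 3) (by norm_num) (C := C) (ρ₀ := 1 / 4)
    (by norm_num) hC
  push_cast at h
  linarith

end Pool.Agent.H65L
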