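import Pool.Agent.H65L.Formula

set_option autoImplicit false

/-! The integral which bounds the trace norm (module LB/Trace). -/

open Real Set MeasureTheory Metric Filter Topology
open scoped RealInnerProductSpace

namespace Pool.Agent.H65L

open Pool.Agent.H65G

variable {n : ℕ}

theorem trc_qf_Lam {w : E n} (hw : ‖w‖ < 1) (y : E n) :
    qf w (Lam w y) ⟪w, Lam w y⟫ = ‖y‖ ^ 2 := by
  have e1 : Lam w y - ⟪w, Lam w y⟫ • w = LamInv w y := by
    have hgp := gm_pos hw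
    rw [inner_w_Lam hw, Lam_apply, LamInv_apply]
    have h3 : gm w + 1 ≠ 0 := by positivity
    have : gm w / (gm w + 1) * ⟪w, y⟫ =
        -(gm w ^ 2 / (gm w + 1) * ⟪w, y⟫) + gm w * ⟪w, y⟫ := by
      field_simp
      ring
    rw [this]
    module
  rw [← norm_Lam_sub_sq hw, e1, Lam_LamInv hw]

theorem trc_hasDerivAt {w : E n} (hw : ‖w‖ < 1) (z : E n) (τ : ℝ) :
    HasDerivAt (fun τ => qf w z τ * exp (-qf w z τ / 2))
      (-2 * gm w * ⟪w, Lam w (z - τ • w)⟫ * (1 - ‖Lam w (z - τ • w)‖ ^ 2 / 2) *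
        wt (Lam w (z - τ • w))) τ := by
  obtain ⟨i1, i2⟩ := inv_boost hw z τ
  have h1 : HasDerivAt (fun τ => qf w z τ) (-(2 * τ) + gm w ^ 2 * (2 * (τ - ⟪w, z⟫))) τ := by
    have h2 : HasDerivAt (fun τ : ℝ => ‖z‖ ^ 2 - τ ^ 2) (-(2 * τ)) τ := by
      simpa using (hasDerivAt_pow 2 τ).const_sub (‖z‖ ^ 2)
    have h3 : HasDerivAt (fun τ : ℝ => (τ - ⟪w, z⟫) ^ 2) (2 * (τ - ⟪w, z⟫)) τ := by
      have h := ((hasDerivAt_id τ).sub_const ⟪w, z⟫).fun_pow 2
      simpa using h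
    exact h2.add (h3.const_mul (gm w ^ 2))
  have h4 : HasDerivAt (fun τ => exp (-qf w z τ / 2))
      (exp (-qf w z τ / 2) * (-(-(2 * τ) + gm w ^ 2 * (2 * (τ - ⟪w, z⟫))) / 2)) τ :=
    (h1.neg.div_const 2).exp
  have h5 := h1.fun_mul h4
  have hwt : wt (Lam w (z - τ • w)) = exp (-qf w z τ / 2) := by
    rw [wt, norm_Lam_sub_sq hw]
  rw [hwt, norm_Lam_sub_sq hw]
  have h6 : gm w * ⟪w, Lam w (z - τ • w)⟫ = τ - gm w ^ 2 * (τ - ⟪w, z⟫) := by
    linear_combination i2
  have h7 : -2 * gm w * ⟪w, Lam w (z - τ • w)⟫ * (1 - qf w z τ / 2) * exp (-qf w z τ / 2) =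
      (-(2 * τ) + gm w ^ 2 * (2 * (τ - ⟪w, z⟫))) * exp (-qf w z τ / 2) +
      qf w z τ * (exp (-qf w z τ / 2) * (-(-(2 * τ) + gm w ^ 2 * (2 * (τ - ⟪w, z⟫))) / 2)) := by
    linear_combination (-2 * (1 - qf w z τ / 2) * exp (-qf w z τ / 2)) * h6
  rw [h7]
  exact h5

theorem trc_continuous_qf (w z : E n) : Continuous fun τ => qf w z τ := by
  unfold qf
  fun_prop

/-- If the boosted function is balanced then the integral of `|y|² exp(-|y|²/2) dz` over the graph
is the same as for a hyperplane. -/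
theorem integral_qf {w : E n} (hw : ‖w‖ < 1) {κ : ℝ} (hκ0 : 0 ≤ κ) (hκ : κ < 1) {G G' : E n → ℝ}
    (hG : Cone κ G) (hG' : Cone 1 G') (hB : IsBoost w G G')
    (hz : ∫ y, (G' y * wt y) • y = 0) :
    Integrable (fun z => qf w z (G z) * exp (-qf w z (G z) / 2)) ∧
    ∫ z, qf w z (G z) * exp (-qf w z (G z) / 2) = cn n * gm w * n := by
  have hwc : Continuous (wt : E n → ℝ) := continuous_wt
  have hgp := gm_pos hw
  have hGc := fml_cont hκ0 hG
  have hGc' := fml_cont zero_le_one hG'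
  set f : E n → ℝ → ℝ := fun y _ => -2 * gm w * ⟪w, y⟫ * (1 - ‖y‖ ^ 2 / 2) * wt y with hf
  have hfc : Continuous (Function.uncurry f) := by
    rw [hf]
    unfold Function.uncurry
    fun_prop
  have hfb : ∀ (y : E n) (τ : ℝ), |τ| ≤ ‖y‖ → ‖f y τ‖ ≤ (2 * gm w) * (1 + ‖y‖) ^ 3 * wt y := by
    intro y t _
    have hwy := wt_pos y
    have hy := norm_nonneg y
    rw [hf]
    simp only
    rw [Real.norm_eq_abs, abs_mul, abs_mul, abs_mul, abs_mul, abs_of_pos hgp, abs_of_pos hwy]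
    have b1 : |⟪w, y⟫| ≤ ‖y‖ := by
      refine (abs_real_inner_le_norm w y).trans ?_
      nlinarith
    have b2 : |1 - ‖y‖ ^ 2 / 2| ≤ 1 + ‖y‖ ^ 2 := by
      rw [abs_le]
      constructor <;> nlinarith [sq_nonneg ‖y‖]
    have b3 : ‖y‖ * (1 + ‖y‖ ^ 2) ≤ (1 + ‖y‖) ^ 3 := by nlinarith [pow_nonneg hy 3, pow_nonneg hy 2]
    have b4 : |(-2 : ℝ)| = 2 := by norm_num
    rw [b4]
    calc 2 * gm w * |⟪w, y⟫| * |1 - ‖y‖ ^ 2 / 2| * wt y
        ≤ 2 * gm w * ‖y‖ * (1 + ‖y‖ ^ 2) * wt y := by gcongr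
      _ = 2 * gm w * (‖y‖ * (1 + ‖y‖ ^ 2)) * wt y := by ring
      _ ≤ 2 * gm w * (1 + ‖y‖) ^ 3 * wt y := by gcongr
  obtain ⟨hI1, hI2, hE⟩ := change_var hw hGc hGc' hB
    (fun y => by simpa using abs_le_norm hG' y) hfc hfb
  have hFTC : ∀ z, ∫ τ in ⟪w, z⟫..G z, f (Lam w (z - τ • w)) (gm w * (τ - ⟪w, z⟫)) =
      qf w z (G z) * exp (-qf w z (G z) / 2) -
        qf w z ⟪w, z⟫ * exp (-qf w z ⟪w, z⟫ / 2) := by
    intro z
    refine intervalIntegral.integral_eq_sub_of_hasDerivAt (fun τ _ => trc_hasDerivAt hw z τ) ?_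
    refine Continuous.intervalIntegrable ?_ _ _
    fun_prop
  have hIz : Integrable fun z : E n => qf w z ⟪w, z⟫ * exp (-qf w z ⟪w, z⟫ / 2) := by
    rw [← fml_integrable_comp_Lam hw]
    simp_rw [trc_qf_Lam hw]
    have h := integrable_hom (F := ℝ) 0 2 (f := fun _ : E n => (1 : ℝ)) continuous_const
      (fun r z _ => by simp)
    refine h.congr (Eventually.of_forall fun y => ?_)
    simp [wt]
  have hEz : ∫ z : E n, qf w z ⟪w, z⟫ * exp (-qf w z ⟪w, z⟫ / 2) = cn n * gm w * n := by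
    rw [integral_comp_Lam hw]
    simp_rw [trc_qf_Lam hw]
    have h := integral_norm_sq_hom (F := ℝ) 0 (f := fun _ : E n => (1 : ℝ)) continuous_const
      (fun r z _ => by simp)
    simp only [smul_eq_mul, mul_one, integral_wt] at h
    have h2 : ∫ y : E n, ‖y‖ ^ 2 * exp (-‖y‖ ^ 2 / 2) = ∫ y : E n, ‖y‖ ^ 2 * wt y := rfl
    rw [h2, h, smul_eq_mul]
    push_cast
    ring
  have hL : Integrable fun y : E n => (G' y * wt y) • y := by
    have h2 := integrable_hom (F := E n) 2 0 (f := fun y : E n => G' y • y)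
      (by fun_prop) (fun r z hr => by
        rw [hG'.hom r z hr, smul_smul, smul_smul]
        congr 1
        ring)
    refine h2.congr (Eventually.of_forall fun y => ?_)
    simp only [pow_zero, one_mul]
    module
  have hL2 : Integrable fun y : E n => (‖y‖ ^ 2 * wt y) • (G' y • y) :=
    integrable_hom (F := E n) 2 2 (f := fun y : E n => G' y • y)
      (by fun_prop) (fun r z hr => by
        rw [hG'.hom r z hr, smul_smul, smul_smul]
        congr 1
        ring)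
  have hz2 : ∫ y : E n, (‖y‖ ^ 2 * wt y) • (G' y • y) = 0 := by
    rw [integral_norm_sq_hom 2 (f := fun y : E n => G' y • y)
      (by fun_prop) (fun r z hr => by
        rw [hG'.hom r z hr, smul_smul, smul_smul]
        congr 1
        ring)]
    have : ∫ y : E n, wt y • (G' y • y) = ∫ y, (G' y * wt y) • y := by
      congr 1
      funext y
      module
    rw [this, hz, smul_zero]
  have hE0 : ∫ y, ∫ t in (0 : ℝ)..G' y, f y t = 0 := by
    have e1 : ∀ y, ∫ t in (0 : ℝ)..G' y, f y t =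
        -2 * gm w * ⟪w, (G' y * wt y) • y⟫ +
          gm w * ⟪w, (‖y‖ ^ 2 * wt y) • (G' y • y)⟫ := by
      intro y
      rw [hf]
      simp only
      rw [intervalIntegral.integral_const, sub_zero, real_inner_smul_right,
        real_inner_smul_right, real_inner_smul_right, smul_eq_mul]
      ring
    simp_rw [e1]
    rw [integral_add ((hL.const_inner w).const_mul _) ((hL2.const_inner w).const_mul _),
      integral_const_mul, integral_const_mul, integral_inner hL, integral_inner hL2, hz, hz2]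
    simp
  have hsum : (fun z => qf w z (G z) * exp (-qf w z (G z) / 2)) =
      fun z => (∫ τ in ⟪w, z⟫..G z, f (Lam w (z - τ • w)) (gm w * (τ - ⟪w, z⟫))) +
        qf w z ⟪w, z⟫ * exp (-qf w z ⟪w, z⟫ / 2) := by
    funext z
    rw [hFTC z]
    ring
  rw [hsum]
  refine ⟨hI1.add hIz, ?_⟩
  rw [integral_add hI1 hIz, hE, hE0, hEz, zero_add]

end Pool.Agent.H65L
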