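import Pool.Agent.H65L.Stein

set_option autoImplicit false

/-! Bounds for the matrix W (module LB/WBound). -/

open Real Set MeasureTheory Metric Filter Topology
open scoped RealInnerProductSpace

namespace Pool.Agent.H65L

open Pool.Agent.H65G

variable {n : ℕ}

namespace WB

theorem cont {κ : ℝ} {G : E n → ℝ} (hG : Cone κ G) : Continuous G := by
  have h : LipschitzWith (Real.toNNReal κ) G := by
    refine LipschitzWith.of_dist_le_mul fun x y => ?_
    rw [Real.dist_eq, dist_eq_norm]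
    refine (hG.lip x y).trans ?_
    exact mul_le_mul_of_nonneg_right (Real.le_coe_toNNReal κ) (norm_nonneg _)
  exact h.continuous

theorem integrable_sq_wt {κ : ℝ} {G : E n → ℝ} (hG : Cone κ G) :
    Integrable fun z : E n => G z ^ 2 / 2 * wt z := by
  have h := integrable_hom (n := n) (F := ℝ) 2 0 (f := fun z => G z ^ 2 / 2)
    (((cont hG).pow 2).div_const 2) (by
      intro r z hr
      simp only [hG.hom r z hr, smul_eq_mul]
      ring)
  refine h.congr (Eventually.of_forall fun z => ?_)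
  simp only [pow_zero, one_mul, smul_eq_mul]
  ring

theorem integrable_vec {κ : ℝ} {G : E n → ℝ} (hG : Cone κ G) (ξ : E n) :
    Integrable fun z : E n => (G z ^ 2 / 2 * wt z * ⟪z, ξ⟫) • z := by
  have h := integrable_hom (n := n) (F := E n) 4 0 (f := fun z => (G z ^ 2 / 2 * ⟪z, ξ⟫) • z)
    (((((cont hG).pow 2).div_const 2).mul (continuous_id.inner continuous_const)).smul
      continuous_id) (by
      intro r z hr
      simp only [hG.hom r z hr, real_inner_smul_left, smul_smul]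
      congr 1
      ring)
  refine h.congr (Eventually.of_forall fun z => ?_)
  simp only [pow_zero, one_mul, smul_smul]
  congr 1
  ring

theorem integrable_comp {κ : ℝ} {G : E n → ℝ} (hG : Cone κ G) (ξ : E n) (i : Fin n) :
    Integrable fun z : E n => G z ^ 2 / 2 * wt z * ⟪z, ξ⟫ * z i := by
  have h := (EuclideanSpace.proj (𝕜 := ℝ) i).integrable_comp (integrable_vec hG ξ)
  refine h.congr (Eventually.of_forall fun z => ?_)
  simp

theorem Wf_comp {κ : ℝ} {G : E n → ℝ} (hG : Cone κ G) (ξ : E n) (i : Fin n) :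
    Wf G ξ i = (cn n)⁻¹ * ((∫ z, G z ^ 2 / 2 * wt z * ⟪z, ξ⟫ * z i) -
      ξ i * ∫ z, G z ^ 2 / 2 * wt z) := by
  have h1 : (∫ z, (G z ^ 2 / 2 * wt z) • (⟪z, ξ⟫ • z - ξ)) =
      (∫ z, (G z ^ 2 / 2 * wt z * ⟪z, ξ⟫) • z) - (∫ z, G z ^ 2 / 2 * wt z) • ξ := by
    rw [← integral_smul_const, ← integral_sub (integrable_vec hG ξ)
      ((integrable_sq_wt hG).smul_const ξ)]
    congr 1
    ext1 z
    rw [smul_sub, smul_smul]
  have h2 : (∫ z, (G z ^ 2 / 2 * wt z * ⟪z, ξ⟫) • z) i =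
      ∫ z, G z ^ 2 / 2 * wt z * ⟪z, ξ⟫ * z i := by
    have := (EuclideanSpace.proj (𝕜 := ℝ) i).integral_comp_comm (integrable_vec hG ξ)
    simpa using this.symm
  unfold Wf
  rw [h1]
  simp only [PiLp.smul_apply, PiLp.sub_apply, smul_eq_mul, h2]
  ring

theorem inner_eq_sum (z ξ : E n) : ⟪z, ξ⟫ = ∑ j, ξ j * z j := by
  simp [PiLp.inner_apply]

theorem integrable_comp2 {κ : ℝ} {G : E n → ℝ} (hG : Cone κ G) (i j : Fin n) :
    Integrable fun z : E n => G z ^ 2 / 2 * wt z * z j * z i := by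
  have h := integrable_comp hG (EuclideanSpace.single j (1 : ℝ)) i
  refine h.congr (Eventually.of_forall fun z => ?_)
  simp [EuclideanSpace.inner_single_right]

theorem Wm_eq {κ : ℝ} {G : E n → ℝ} (hG : Cone κ G) (i j : Fin n) :
    Wm G i j = (cn n)⁻¹ * ((∫ z, G z ^ 2 / 2 * wt z * z j * z i) -
      (if i = j then 1 else 0) * ∫ z, G z ^ 2 / 2 * wt z) := by
  unfold Wm
  rw [Matrix.of_apply, Wf_comp hG]
  simp [EuclideanSpace.inner_single_right]

end WB

open WB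

theorem Wm_symm {κ : ℝ} {G : E n → ℝ} (hG : Cone κ G) : (Wm G).IsSymm := by
  ext i j
  rw [Matrix.transpose_apply, Wm_eq hG, Wm_eq hG]
  congr 2
  · congr 1
    ext z
    ring
  · simp only [eq_comm]

theorem Wf_apply {κ : ℝ} {G : E n → ℝ} (hG : Cone κ G) (ξ : E n) (i : Fin n) :
    Wf G ξ i = ∑ j, Wm G i j * ξ j := by
  rw [Wf_comp hG]
  have h1 : (∫ z, G z ^ 2 / 2 * wt z * ⟪z, ξ⟫ * z i) =
      ∑ j, ξ j * ∫ z, G z ^ 2 / 2 * wt z * z j * z i := by
    have h2 : ∀ j : Fin n, ξ j * (∫ z, G z ^ 2 / 2 * wt z * z j * z i) =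
        ∫ z, ξ j * (G z ^ 2 / 2 * wt z * z j * z i) := fun j => by
      rw [integral_const_mul]
    simp only [h2]
    rw [← integral_finsetSum _ fun j _ => (integrable_comp2 hG i j).const_mul _]
    congr 1
    ext z
    rw [inner_eq_sum, Finset.mul_sum, Finset.sum_mul]
    refine Finset.sum_congr rfl fun j _ => ?_
    ring
  rw [h1]
  simp only [Wm_eq hG]
  simp only [mul_sub, sub_mul, Finset.sum_sub_distrib, Finset.mul_sum]
  congr 1
  · refine Finset.sum_congr rfl fun j _ => ?_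
    ring
  · rw [Finset.sum_eq_single i]
    · simp; ring
    · intro j _ hj
      simp [Ne.symm hj]
    · simp

theorem trace_Wm {κ : ℝ} {G : E n → ℝ} (hG : Cone κ G) : (Wm G).trace = mom G := by
  have hk := integral_norm_sq_hom (n := n) (F := ℝ) 2 (f := fun z => G z ^ 2 / 2)
    (((cont hG).pow 2).div_const 2) (by
      intro r z hr
      simp only [hG.hom r z hr, smul_eq_mul]
      ring)
  simp only [smul_eq_mul] at hk
  unfold Matrix.trace
  simp only [Matrix.diag_apply, Wm_eq hG, if_true, one_mul]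
  rw [← Finset.mul_sum, Finset.sum_sub_distrib,
    ← integral_finsetSum _ fun j _ => integrable_comp2 hG j j]
  have h1 : (∫ z, ∑ i : Fin n, G z ^ 2 / 2 * wt z * z i * z i) =
      ((n : ℝ) + 2) * ∫ z : E n, G z ^ 2 / 2 * wt z := by
    have h2 : (∫ z : E n, G z ^ 2 / 2 * wt z) = ∫ z : E n, wt z * (G z ^ 2 / 2) := by
      congr 1; ext z; ring
    rw [h2]
    push_cast at hk
    rw [← hk]
    congr 1
    ext z
    rw [EuclideanSpace.real_norm_sq_eq, Finset.sum_mul, Finset.sum_mul]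
    refine Finset.sum_congr rfl fun i _ => ?_
    ring
  rw [h1]
  simp only [Finset.sum_const, Finset.card_univ, Fintype.card_fin, nsmul_eq_mul]
  unfold mom
  congr 1
  have h3 : (∫ z : E n, G z ^ 2 * wt z) = 2 * ∫ z : E n, G z ^ 2 / 2 * wt z := by
    rw [← integral_const_mul]
    congr 1
    ext z
    ring
  rw [h3]
  ring

namespace WB

/-- Row `i` of the matrix `Q` as a vector. -/
noncomputable def row (Q : Matrix (Fin n) (Fin n) ℝ) (i : Fin n) : E n := WithLp.toLp 2 (Q i)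

theorem integral_inner_sq (ξ : E n) :
    Integrable (fun z : E n => ⟪z, ξ⟫ ^ 2 * wt z) ∧
      ∫ z : E n, ⟪z, ξ⟫ ^ 2 * wt z = cn n * ‖ξ‖ ^ 2 := by
  have h := integrable_hom (n := n) (F := E n) 2 0 (f := fun z => ⟪z, ξ⟫ • z)
    (by fun_prop) (by
      intro r z hr
      simp only [real_inner_smul_left, smul_smul]
      congr 1
      ring)
  have h' : Integrable fun z : E n => (⟪z, ξ⟫ * wt z) • z := by
    refine h.congr (Eventually.of_forall fun z => ?_)
    simp only [pow_zero, one_mul, smul_smul]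
    congr 1
    ring
  have h2 := h'.const_inner (𝕜 := ℝ) ξ
  have h3 := integral_inner (𝕜 := ℝ) h' ξ
  constructor
  · refine h2.congr (Eventually.of_forall fun z => ?_)
    simp only [inner_smul_right, real_inner_comm z ξ]
    ring
  · rw [integral_inner_smul_wt, inner_smul_right, real_inner_self_eq_norm_sq] at h3
    rw [← h3]
    congr 1
    ext z
    simp only [inner_smul_right, real_inner_comm z ξ]
    ring

theorem stein_hyp {G : E n → ℝ} (hG : Cone 1 G) (ξ : E n) (z z' : E n) (hz : ‖z - z'‖ ≤ 1) :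
    |G z ^ 2 * ⟪z, ξ⟫ - G z' ^ 2 * ⟪z', ξ⟫| ≤ 3 * ‖ξ‖ * (1 + ‖z‖) ^ 2 * ‖z - z'‖ := by
  have h1 := hG.lip z z'
  have h2 : |G z| ≤ ‖z‖ := by simpa using abs_le_norm hG z
  have h3 : |G z'| ≤ ‖z'‖ := by simpa using abs_le_norm hG z'
  have h4 : ‖z'‖ ≤ ‖z‖ + 1 := by
    have : z' = z - (z - z') := by abel
    calc ‖z'‖ = ‖z - (z - z')‖ := by rw [← this]
      _ ≤ ‖z‖ + ‖z - z'‖ := norm_sub_le _ _
      _ ≤ _ := by linarith
  have h5 : |⟪z, ξ⟫| ≤ ‖z‖ * ‖ξ‖ := abs_real_inner_le_norm _ _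
  have h6 : |⟪z, ξ⟫ - ⟪z', ξ⟫| ≤ ‖z - z'‖ * ‖ξ‖ := by
    rw [← inner_sub_left]
    exact abs_real_inner_le_norm _ _
  rw [one_mul] at h1
  have e : G z ^ 2 * ⟪z, ξ⟫ - G z' ^ 2 * ⟪z', ξ⟫ =
      (G z - G z') * (G z + G z') * ⟪z, ξ⟫ + G z' ^ 2 * (⟪z, ξ⟫ - ⟪z', ξ⟫) := by ring
  have h7 : |G z + G z'| ≤ 2 * ‖z‖ + 1 := (abs_add_le _ _).trans (by linarith)
  have h8 : G z' ^ 2 ≤ (‖z‖ + 1) ^ 2 := by
    rw [← sq_abs]
    exact pow_le_pow_left₀ (abs_nonneg _) (h3.trans h4) 2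
  have hn := norm_nonneg z
  have hx := norm_nonneg ξ
  have hd := norm_nonneg (z - z')
  calc |G z ^ 2 * ⟪z, ξ⟫ - G z' ^ 2 * ⟪z', ξ⟫|
      ≤ |(G z - G z') * (G z + G z') * ⟪z, ξ⟫| + |G z' ^ 2 * (⟪z, ξ⟫ - ⟪z', ξ⟫)| := by
        rw [e]; exact abs_add_le _ _
    _ = |G z - G z'| * |G z + G z'| * |⟪z, ξ⟫| + G z' ^ 2 * |⟪z, ξ⟫ - ⟪z', ξ⟫| := by
        rw [abs_mul, abs_mul, abs_mul, abs_of_nonneg (sq_nonneg (G z'))]
    _ ≤ ‖z - z'‖ * (2 * ‖z‖ + 1) * (‖z‖ * ‖ξ‖) + (‖z‖ + 1) ^ 2 * (‖z - z'‖ * ‖ξ‖) := by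
        gcongr
    _ ≤ 3 * ‖ξ‖ * (1 + ‖z‖) ^ 2 * ‖z - z'‖ := by
        have : 0 ≤ ‖z - z'‖ * ‖ξ‖ := by positivity
        nlinarith [mul_nonneg this hn]

theorem diff_ae {G : E n → ℝ} (hG : Cone 1 G) : ∀ᵐ z, DifferentiableAt ℝ G z := by
  have h : LipschitzWith 1 G := by
    refine LipschitzWith.of_dist_le_mul fun x y => ?_
    rw [Real.dist_eq, dist_eq_norm]
    simpa using hG.lip x y
  exact h.ae_differentiableAt

theorem norm_fderiv_le {G : E n → ℝ} (hG : Cone 1 G) (z v : E n) :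
    |fderiv ℝ G z v| ≤ ‖v‖ := by
  have h : LipschitzWith 1 G := by
    refine LipschitzWith.of_dist_le_mul fun x y => ?_
    rw [Real.dist_eq, dist_eq_norm]
    simpa using hG.lip x y
  have h1 := norm_fderiv_le_of_lipschitz ℝ h (x₀ := z)
  have h2 := (fderiv ℝ G z).le_opNorm v
  rw [Real.norm_eq_abs] at h2
  refine h2.trans ?_
  have h3 : ‖fderiv ℝ G z‖ ≤ 1 := by simpa using h1
  calc ‖fderiv ℝ G z‖ * ‖v‖ ≤ 1 * ‖v‖ := by gcongr
    _ = ‖v‖ := one_mul _

theorem fderiv_prod {G : E n → ℝ} {z : E n} (hd : DifferentiableAt ℝ G z) (ξ v : E n) :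
    fderiv ℝ (fun z => G z ^ 2 * ⟪z, ξ⟫) z v =
      2 * (G z * (⟪z, ξ⟫ * fderiv ℝ G z v)) + G z ^ 2 * ⟪v, ξ⟫ := by
  have h1 : HasFDerivAt (fun z : E n => ⟪z, ξ⟫) (innerSL ℝ ξ) z := by
    have := (innerSL ℝ ξ).hasFDerivAt (x := z)
    refine this.congr_of_eventuallyEq (Eventually.of_forall fun y => ?_)
    simp [real_inner_comm]
  have h2 : HasFDerivAt (fun z => G z ^ 2 * ⟪z, ξ⟫) _ z := (hd.hasFDerivAt.pow 2).mul h1
  rw [h2.fderiv]
  simp [real_inner_comm v ξ]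
  ring

theorem amgm_aux {x A B : ℝ} (hA : 0 ≤ A) (hB : 0 ≤ B)
    (h : ∀ t : ℝ, 0 < t → x ≤ t * (A * A) / 2 + (B * B) / (2 * t)) : x ≤ A * B := by
  refine le_of_forall_pos_le_add fun ε hε => ?_
  set e := ε / (A + B + 1) with he
  have hepos : 0 < e := by positivity
  have h1 := h ((B + e) / (A + e)) (by positivity)
  have h2 : (B + e) / (A + e) * (A * A) / 2 ≤ (B + e) * A / 2 := by
    have h4 : A / (A + e) ≤ 1 := by
      rw [div_le_one (by positivity)]
      linarith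
    have h5 : (B + e) / (A + e) * (A * A) / 2 = (B + e) * A / 2 * (A / (A + e)) := by
      ring
    rw [h5]
    exact mul_le_of_le_one_right (by positivity) h4
  have h6 : (B * B) / (2 * ((B + e) / (A + e))) ≤ B * (A + e) / 2 := by
    have h4 : B / (B + e) ≤ 1 := by
      rw [div_le_one (by positivity)]
      linarith
    have h5 : (B * B) / (2 * ((B + e) / (A + e))) = B * (A + e) / 2 * (B / (B + e)) := by
      field_simp
    rw [h5]
    exact mul_le_of_le_one_right (by positivity) h4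
  have h7 : e * (A + B + 1) = ε := by
    rw [he]
    field_simp
  nlinarith

theorem amgm_limit {x a b : ℝ} (ha : 0 ≤ a) (hb : 0 ≤ b)
    (h : ∀ t : ℝ, 0 < t → x ≤ t * a / 2 + b / (2 * t)) : x ≤ √a * √b := by
  refine amgm_aux (Real.sqrt_nonneg a) (Real.sqrt_nonneg b) fun t ht => ?_
  rw [Real.mul_self_sqrt ha, Real.mul_self_sqrt hb]
  exact h t ht

end WB

/-- For every matrix `Q` the inner product of `W` and `Q` is at most `√(E G²) |Q|`. -/
theorem sum_mul_le {G : E n → ℝ} (hG : Cone 1 G) (Q : Matrix (Fin n) (Fin n) ℝ) :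
    ∑ i, ∑ j, Wm G i j * Q i j ≤ √(mom G) * √(∑ i, ∑ j, Q i j ^ 2) := by
  have hcn := cn_pos n
  -- Stein for every row
  have hst := fun i : Fin n => stein (F := fun z : E n => G z ^ 2 * ⟪z, row Q i⟫)
    (C := 3 * ‖row Q i‖) (m := 2) (fun z z' h => stein_hyp hG (row Q i) z z' h)
    ((diff_ae hG).mono fun z hz => (hz.pow 2).mul
      (differentiableAt_id.inner ℝ (differentiableAt_const _)))
    (EuclideanSpace.single i (1 : ℝ))
  have hsq := integrable_sq_wt hG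
  -- the vector `Q z`
  have hrow : ∀ i, ⟪(EuclideanSpace.single i (1 : ℝ) : E n), row Q i⟫ = Q i i := by
    intro i
    simp [EuclideanSpace.inner_single_left, row]
  have hae : ∀ i, (fun z => fderiv ℝ (fun z : E n => G z ^ 2 * ⟪z, row Q i⟫) z
      (EuclideanSpace.single i (1 : ℝ)) * wt z) =ᵐ[volume]
      fun z => 2 * (G z * (⟪z, row Q i⟫ * fderiv ℝ G z (EuclideanSpace.single i (1 : ℝ))) * wt z) +
        2 * Q i i * (G z ^ 2 / 2 * wt z) := by
    intro i
    filter_upwards [diff_ae hG] with z hz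
    rw [fderiv_prod hz, hrow]
    ring
  have hint : ∀ i, Integrable (fun z : E n =>
      G z * (⟪z, row Q i⟫ * fderiv ℝ G z (EuclideanSpace.single i (1 : ℝ))) * wt z) := by
    intro i
    have h1 := ((hst i).2.1.congr (hae i)).sub (hsq.const_mul (2 * Q i i))
    refine (h1.const_mul (1 / 2)).congr (Eventually.of_forall fun z => ?_)
    simp only [Pi.sub_apply]
    ring
  have hkey : ∀ i, ∑ j, Wm G i j * Q i j = (cn n)⁻¹ * ∫ z : E n,
      G z * (⟪z, row Q i⟫ * fderiv ℝ G z (EuclideanSpace.single i (1 : ℝ))) * wt z := by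
    intro i
    have h1 := Wf_apply hG (row Q i) i
    have h2 : ∑ j, Wm G i j * Q i j = ∑ j, Wm G i j * row Q i j := rfl
    rw [h2, ← h1, Wf_comp hG]
    congr 1
    have h3 := (hst i).2.2
    rw [integral_congr_ae (hae i), integral_add ((hint i).const_mul 2) (hsq.const_mul _),
      integral_const_mul, integral_const_mul] at h3
    have h4 : (∫ z : E n, G z ^ 2 * ⟪z, row Q i⟫ * ⟪z, EuclideanSpace.single i (1 : ℝ)⟫ * wt z) =
        2 * ∫ z : E n, G z ^ 2 / 2 * wt z * ⟪z, row Q i⟫ * z i := by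
      rw [← integral_const_mul]
      congr 1
      ext z
      simp [EuclideanSpace.inner_single_right]
      ring
    rw [h4] at h3
    have h5 : row Q i i = Q i i := rfl
    rw [h5]
    linarith
  -- sum over the rows
  have hmom : (∫ z : E n, G z ^ 2 * wt z) = cn n * mom G := by
    unfold mom
    field_simp
  have hmom0 : 0 ≤ mom G := by
    unfold mom
    refine mul_nonneg (inv_pos.2 hcn).le (integral_nonneg fun z => ?_)
    exact mul_nonneg (sq_nonneg _) (wt_pos z).le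
  have hQ : ∀ i, ‖row Q i‖ ^ 2 = ∑ j, Q i j ^ 2 := by
    intro i
    rw [EuclideanSpace.real_norm_sq_eq]
    rfl
  refine amgm_limit hmom0 (Finset.sum_nonneg fun i _ => Finset.sum_nonneg fun j _ => sq_nonneg _)
    fun t ht => ?_
  simp only [hkey]
  rw [← Finset.mul_sum, ← integral_finsetSum _ fun i _ => hint i]
  have hpt : ∀ z : E n, (∑ i, G z * (⟪z, row Q i⟫ *
      fderiv ℝ G z (EuclideanSpace.single i (1 : ℝ))) * wt z) ≤
      t * (G z ^ 2 / 2 * wt z) + 1 / (2 * t) * ∑ i, ⟪z, row Q i⟫ ^ 2 * wt z := by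
    intro z
    have h1 : (∑ i, G z * (⟪z, row Q i⟫ *
        fderiv ℝ G z (EuclideanSpace.single i (1 : ℝ))) * wt z) =
        G z * fderiv ℝ G z (∑ i, ⟪z, row Q i⟫ • (EuclideanSpace.single i (1 : ℝ) : E n)) *
          wt z := by
      rw [map_sum, Finset.mul_sum, Finset.sum_mul]
      refine Finset.sum_congr rfl fun i _ => ?_
      rw [map_smul, smul_eq_mul]
    have h2 : ‖∑ i, ⟪z, row Q i⟫ • (EuclideanSpace.single i (1 : ℝ) : E n)‖ ^ 2 =
        ∑ i, ⟪z, row Q i⟫ ^ 2 := by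
      rw [EuclideanSpace.real_norm_sq_eq]
      refine Finset.sum_congr rfl fun i _ => ?_
      congr 1
      simp [Finset.sum_apply, Pi.single_apply]
    have h3 := norm_fderiv_le hG z
      (∑ i, ⟪z, row Q i⟫ • (EuclideanSpace.single i (1 : ℝ) : E n))
    set u := ∑ i, ⟪z, row Q i⟫ • (EuclideanSpace.single i (1 : ℝ) : E n)
    have h4 : (fderiv ℝ G z u) ^ 2 ≤ ∑ i, ⟪z, row Q i⟫ ^ 2 := by
      rw [← h2, ← sq_abs]
      exact pow_le_pow_left₀ (abs_nonneg _) h3 2
    rw [h1, ← Finset.sum_mul]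
    have h5 : G z * fderiv ℝ G z u ≤ t * (G z ^ 2 / 2) + 1 / (2 * t) * (fderiv ℝ G z u) ^ 2 := by
      have h6 : t * (G z ^ 2 / 2) + 1 / (2 * t) * (fderiv ℝ G z u) ^ 2 - G z * fderiv ℝ G z u =
          (t * G z - fderiv ℝ G z u) ^ 2 / (2 * t) := by
        field_simp
        ring
      have h7 : 0 ≤ (t * G z - fderiv ℝ G z u) ^ 2 / (2 * t) := by positivity
      linarith
    have h8 : 1 / (2 * t) * (fderiv ℝ G z u) ^ 2 ≤ 1 / (2 * t) * ∑ i, ⟪z, row Q i⟫ ^ 2 := by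
      gcongr
    have hw := (wt_pos z).le
    nlinarith
  have hi2 : Integrable fun z : E n => ∑ i, ⟪z, row Q i⟫ ^ 2 * wt z :=
    integrable_finsetSum _ fun i _ => (integral_inner_sq (row Q i)).1
  have hle := integral_mono (integrable_finsetSum _ fun i _ => hint i)
    ((hsq.const_mul t).add (hi2.const_mul (1 / (2 * t)))) hpt
  have hR : (∫ z : E n, (t * (G z ^ 2 / 2 * wt z) + 1 / (2 * t) *
      ∑ i, ⟪z, row Q i⟫ ^ 2 * wt z)) =
      cn n * (t * mom G / 2 + (∑ i, ∑ j, Q i j ^ 2) / (2 * t)) := by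
    rw [integral_add (hsq.const_mul t) (hi2.const_mul (1 / (2 * t))), integral_const_mul,
      integral_const_mul, integral_finsetSum _ fun i _ => (integral_inner_sq (row Q i)).1]
    have h1 : (∫ z : E n, G z ^ 2 / 2 * wt z) = cn n * mom G / 2 := by
      rw [← hmom, ← integral_div]
      congr 1
      ext z
      ring
    simp only [(integral_inner_sq (row Q _)).2, hQ, h1, ← Finset.mul_sum]
    ring
  have hle' : (∫ z : E n, ∑ i, G z * (⟪z, row Q i⟫ *
      fderiv ℝ G z (EuclideanSpace.single i (1 : ℝ))) * wt z) ≤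
      cn n * (t * mom G / 2 + (∑ i, ∑ j, Q i j ^ 2) / (2 * t)) := by
    rw [← hR]
    exact hle
  calc (cn n)⁻¹ * (∫ z : E n, ∑ i, G z * (⟪z, row Q i⟫ *
      fderiv ℝ G z (EuclideanSpace.single i (1 : ℝ))) * wt z) ≤
      (cn n)⁻¹ * (cn n * (t * mom G / 2 + (∑ i, ∑ j, Q i j ^ 2) / (2 * t))) := by
        gcongr
    _ = _ := by field_simp

theorem sum_sq_Wm {G : E n → ℝ} (hG : Cone 1 G) : ∑ i, ∑ j, Wm G i j ^ 2 ≤ mom G := by
  have h := sum_mul_le hG (Wm G)
  have h1 : ∑ i, ∑ j, Wm G i j * Wm G i j = ∑ i, ∑ j, Wm G i j ^ 2 :=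
    Finset.sum_congr rfl fun i _ => Finset.sum_congr rfl fun j _ => by ring
  rw [h1] at h
  have h0 : 0 ≤ ∑ i, ∑ j, Wm G i j ^ 2 :=
    Finset.sum_nonneg fun i _ => Finset.sum_nonneg fun j _ => sq_nonneg _
  have hm : 0 ≤ mom G := by
    unfold mom
    refine mul_nonneg (inv_pos.2 (cn_pos n)).le (integral_nonneg fun z => ?_)
    exact mul_nonneg (sq_nonneg _) (wt_pos z).le
  set S := ∑ i, ∑ j, Wm G i j ^ 2
  have h2 : S = √S * √S := (Real.mul_self_sqrt h0).symm
  have h3 := Real.sqrt_nonneg S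
  have h4 : √S ≤ √(mom G) := by
    rcases h3.eq_or_lt with h5 | h5
    · rw [← h5]
      exact Real.sqrt_nonneg _
    · have : √S * √S ≤ √(mom G) * √S := by rw [← h2]; exact h
      exact le_of_mul_le_mul_right this h5
  calc S = √S * √S := h2
    _ ≤ √(mom G) * √(mom G) := by gcongr
    _ = mom G := Real.mul_self_sqrt hm

theorem inner_Wf_le {G : E n → ℝ} (hG : Cone 1 G) (ξ : E n) :
    ⟪Wf G ξ, ξ⟫ ≤ √(mom G) * ‖ξ‖ ^ 2 := by
  have h := sum_mul_le hG (Matrix.of fun i j => ξ i * ξ j)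
  have h1 : ⟪Wf G ξ, ξ⟫ = ∑ i, ∑ j, Wm G i j * (Matrix.of fun i j => ξ i * ξ j) i j := by
    rw [inner_eq_sum]
    refine Finset.sum_congr rfl fun i _ => ?_
    rw [Wf_apply hG, Finset.mul_sum]
    refine Finset.sum_congr rfl fun j _ => ?_
    rw [Matrix.of_apply]
    ring
  have h2 : ∑ i, ∑ j, ((Matrix.of fun i j => ξ i * ξ j) : Matrix (Fin n) (Fin n) ℝ) i j ^ 2 =
      (‖ξ‖ ^ 2) ^ 2 := by
    rw [EuclideanSpace.real_norm_sq_eq, sq (∑ i, ξ i ^ 2), Finset.sum_mul_sum]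
    refine Finset.sum_congr rfl fun i _ => Finset.sum_congr rfl fun j _ => ?_
    rw [Matrix.of_apply]
    ring
  rw [h1]
  refine h.trans (le_of_eq ?_)
  rw [h2, Real.sqrt_sq (sq_nonneg _)]

end Pool.Agent.H65L
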