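import Pool.Agent.H65L.Boost
import Pool.Agent.H65L.Formula
import Pool.Agent.H65L.Trace
import Pool.Agent.H65L.Spec
import Pool.Agent.H65L.WBound
import Pool.Agent.H65L.DetW
import Pool.Agent.H65L.DetN
import Pool.Agent.H65L.PhiLip

set_option autoImplicit false

/-! The Jacobian bound (module LB/Jac). -/

open Real Set MeasureTheory Metric Filter Topology
open scoped RealInnerProductSpace

namespace Pool.Agent.H65L

open Pool.Agent.H65G

variable {n : ℕ}

theorem Cone.mono {κ κ' : ℝ} {G : E n → ℝ} (h : Cone κ G) (hk : κ ≤ κ') : Cone κ' G :=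
  ⟨h.odd, h.hom, fun z z' => (h.lip z z').trans
    (mul_le_mul_of_nonneg_right hk (norm_nonneg _))⟩

theorem Cone.continuous {κ : ℝ} {G : E n → ℝ} (h : Cone κ G) : Continuous G := by
  have hl : LipschitzWith (Real.toNNReal κ) G := by
    apply LipschitzWith.of_dist_le_mul
    intro x y
    rw [Real.dist_eq, dist_eq_norm]
    exact (h.lip x y).trans (mul_le_mul_of_nonneg_right (Real.le_coe_toNNReal κ) (norm_nonneg _))
  exact hl.continuous

/-- `Wf` as a linear map has the matrix `Wm`. -/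
theorem det_one_sub_Wf {G : E n → ℝ} {T : E n →L[ℝ] E n}
    (hT : ∀ ξ, T ξ = ξ - Wf G ξ) : T.det = (1 - Wm G).det := by
  set b := (EuclideanSpace.basisFun (Fin n) ℝ).toBasis with hb
  rw [ContinuousLinearMap.det, ← LinearMap.det_toMatrix b]
  congr 1
  ext i j
  rw [LinearMap.toMatrix_apply]
  simp only [hb, OrthonormalBasis.coe_toBasis, EuclideanSpace.basisFun_apply,
    ContinuousLinearMap.coe_coe, hT]
  simp only [OrthonormalBasis.coe_toBasis_repr_apply, EuclideanSpace.basisFun_repr]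
  simp [Matrix.one_apply, PiLp.single_apply, Wm]

theorem det_comp' (S T : E n →L[ℝ] E n) : (S.comp T).det = S.det * T.det :=
  LinearMap.det_comp (S : E n →ₗ[ℝ] E n) (T : E n →ₗ[ℝ] E n)

theorem det_smul' (c : ℝ) (T : E n →L[ℝ] E n) : (c • T).det = c ^ n * T.det := by
  have h := LinearMap.det_smul c (T : E n →ₗ[ℝ] E n)
  rw [finrank_euclideanSpace_fin] at h
  exact h

/-- The determinant of the derivative in `w`. -/
theorem det_D {w : E n} (hw : ‖w‖ < 1) {G' : E n → ℝ} (hG' : Cone 1 G') {D : E n →L[ℝ] E n}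
    (hD : ∀ δ, Lam w (D δ) = -(cn n * gm w) • (Lam w δ - Wf G' (Lam w δ))) :
    D.det = (-(cn n * gm w)) ^ n * (1 - Wm G').det := by
  -- the map `1 - W` is continuous linear
  have hlin : ∃ T : E n →L[ℝ] E n, ∀ ξ, T ξ = ξ - Wf G' ξ := by
    have h1 : ∀ ξ : E n, ξ - Wf G' ξ = WithLp.toLp 2 ((1 - Wm G').mulVec (WithLp.ofLp ξ)) := by
      intro ξ
      ext i
      rw [Matrix.sub_mulVec, Matrix.one_mulVec]
      simp only [PiLp.sub_apply, Wf_apply hG', Pi.sub_apply, Matrix.mulVec, dotProduct]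
    refine ⟨LinearMap.toContinuousLinearMap (Matrix.toEuclideanLin (1 - Wm G')), fun ξ => ?_⟩
    rw [h1]
    rfl
  obtain ⟨T, hT⟩ := hlin
  have h2 : (Lam w).comp D = (-(cn n * gm w)) • (T.comp (Lam w)) := by
    ext1 δ
    simp only [ContinuousLinearMap.comp_apply, _root_.smul_apply, hT, hD]
  have h3 : (Lam w).det * D.det = (-(cn n * gm w)) ^ n * (T.det * (Lam w).det) := by
    rw [← det_comp', h2, det_smul', det_comp']
  rw [det_Lam hw, det_one_sub_Wf hT] at h3
  have h4 := (gm_pos hw).ne'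
  have h5 : gm w * D.det = gm w * ((-(cn n * gm w)) ^ n * (1 - Wm G').det) := by
    rw [h3]; ring
  exact mul_left_cancel₀ h4 h5

/-- At a zero of the functional, the derivative `D` in `w` is invertible and the derivative `N` in
the parameter satisfies `|det N| ≤ (100/53) √(1-|w|²) √det A |det D|`. -/
theorem jac_bound {κ : ℝ} (hκ0 : 0 ≤ κ) (hκ : κ < 1) (hn : 0 < n) {w : E n} (hw : ‖w‖ ≤ κ)
    {G : E n → ℝ} (hG : Cone κ G) (hz : Phi G w = 0) {A : Matrix (Fin n) (Fin n) ℝ}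
    (hA : A.PosSemidef) {η : E n → E n →L[ℝ] ℝ} (hηm : Measurable η)
    (hη : ∀ᵐ z, ∀ h, (η z h) ^ 2 ≤ (‖z‖ ^ 2 - G z ^ 2) * quad A h) {N D : E n →L[ℝ] E n}
    (hN : ∀ h, N h = ∫ z, η z h • hh w z (G z))
    (hD : ∀ δ, D δ = ∫ z, (-⟪δ, z⟫ • hh w z ⟪w, z⟫ + ∫ τ in ⟪w, z⟫..G z, dhh w z τ δ)) :
    D.det ≠ 0 ∧ |N.det| ≤ 100 / 53 * √(1 - ‖w‖ ^ 2) * √A.det * |D.det| := by
  have hw1 : ‖w‖ < 1 := lt_of_le_of_lt hw hκ
  obtain ⟨κ', h0', h1', hB⟩ := exists_boost (n := n) hκ0 hκ hκ0 hκ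
  obtain ⟨G', hG'κ, hBo⟩ := hB w hw G hG
  have hG' : Cone 1 G' := hG'κ.mono h1'.le
  have hbal : ∫ y, (G' y * wt y) • y = 0 := by
    rw [← Lam_Phi hw1 hκ0 hκ hG hG' hBo, hz, map_zero]
  have hmom := mom_le_third hG' hbal
  have hg := gm_pos hw1
  have hc := cn_pos n
  have hdet : 53 / 100 ≤ (1 - Wm G').det :=
    det_one_sub_ge (Wm_symm hG') hmom (trace_Wm hG') (sum_sq_Wm hG')
  have hDL : ∀ δ, Lam w (D δ) = -(cn n * gm w) • (Lam w δ - Wf G' (Lam w δ)) := by
    intro δ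
    rw [hD, Lam_deriv hw1 hκ0 hκ hG hG' hBo, hz, inner_zero_right, mul_zero, zero_smul, sub_zero]
  have hDdet := det_D hw1 hG' hDL
  have hDabs : |D.det| = (cn n * gm w) ^ n * (1 - Wm G').det := by
    rw [hDdet, abs_mul, abs_pow, abs_neg, abs_of_pos (mul_pos hc hg),
      abs_of_pos (by linarith : 0 < (1 - Wm G').det)]
  have hD0 : 0 < |D.det| := by
    rw [hDabs]
    have : 0 < (1 - Wm G').det := by linarith
    positivity
  refine ⟨abs_pos.1 hD0, ?_⟩
  -- the derivative in the parameter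
  obtain ⟨hJi, hJ⟩ := integral_qf hw1 hκ0 hκ hG hG' hBo hbal
  have hGc : Continuous G := hG.continuous
  have hqc : Continuous fun z : E n => qf w z (G z) := by
    unfold qf; fun_prop
  set a : E n → E n := fun z => exp (-qf w z (G z) / 2) • Lam w (z - G z • w) with ha
  set c : E n → ℝ := fun z => √(‖z‖ ^ 2 - G z ^ 2) with hcdef
  have hac : Continuous a := by
    simp only [ha]
    fun_prop
  have hGz : ∀ z, G z ^ 2 ≤ ‖z‖ ^ 2 := by
    intro z
    have h1 := abs_le_norm hG z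
    have h2 : |G z| ≤ ‖z‖ := h1.trans (mul_le_of_le_one_left (norm_nonneg z) hκ.le)
    rw [← sq_abs]
    exact pow_le_pow_left₀ (abs_nonneg _) h2 2
  have hcsq : ∀ z, c z ^ 2 = ‖z‖ ^ 2 - G z ^ 2 := fun z =>
    Real.sq_sqrt (by linarith [hGz z])
  have hqn : ∀ z, ‖Lam w (z - G z • w)‖ = √(qf w z (G z)) := by
    intro z
    rw [← norm_Lam_sub_sq hw1, Real.sqrt_sq (norm_nonneg _)]
  have hq0 : ∀ z, 0 ≤ qf w z (G z) := by
    intro z
    rw [← norm_Lam_sub_sq hw1]
    positivity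
  have hna : ∀ z, ‖a z‖ * c z ≤ qf w z (G z) * exp (-qf w z (G z) / 2) := by
    intro z
    simp only [ha, hcdef]
    rw [norm_smul, Real.norm_eq_abs, abs_of_pos (exp_pos _), hqn]
    have h1 : √(‖z‖ ^ 2 - G z ^ 2) ≤ √(qf w z (G z)) := by
      apply Real.sqrt_le_sqrt
      unfold qf
      have : 0 ≤ gm w ^ 2 * (G z - ⟪w, z⟫) ^ 2 := by positivity
      linarith
    calc exp (-qf w z (G z) / 2) * √(qf w z (G z)) * √(‖z‖ ^ 2 - G z ^ 2) ≤
        exp (-qf w z (G z) / 2) * √(qf w z (G z)) * √(qf w z (G z)) := by gcongr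
      _ = exp (-qf w z (G z) / 2) * (√(qf w z (G z)) * √(qf w z (G z))) := by ring
      _ = _ := by rw [Real.mul_self_sqrt (hq0 z), mul_comm]
  have hcc : Continuous c := by
    simp only [hcdef]
    fun_prop
  have hint : Integrable fun z => ‖a z‖ * c z := by
    refine Integrable.mono' hJi (hac.norm.mul hcc).aestronglyMeasurable ?_
    refine Eventually.of_forall fun z => ?_
    rw [Real.norm_eq_abs, abs_of_nonneg (mul_nonneg (norm_nonneg _) (Real.sqrt_nonneg _))]
    exact hna z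
  have hle : ∫ z, ‖a z‖ * c z ≤ cn n * gm w * n := by
    rw [← hJ]
    exact integral_mono hint hJi hna
  have hηmh : ∀ h : E n, Measurable fun z => η z h := fun h =>
    (ContinuousLinearMap.apply ℝ ℝ h).continuous.measurable.comp hηm
  have hη' : ∀ᵐ z, ∀ h : E n, (η z h) ^ 2 ≤ c z ^ 2 * quad A h := by
    filter_upwards [hη] with z hz' h
    rw [hcsq]
    exact hz' h
  have hai : ∀ h : E n, Integrable fun z => η z h • a z := by
    intro h
    refine Integrable.mono' (hint.mul_const (√(quad A h)))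
      ((hηmh h).aestronglyMeasurable.smul hac.aestronglyMeasurable) ?_
    filter_upwards [hη'] with z hz'
    rw [norm_smul, Real.norm_eq_abs]
    have h1 : |η z h| ≤ c z * √(quad A h) := by
      have h2 := Real.abs_le_sqrt (hz' h)
      rwa [Real.sqrt_mul (sq_nonneg _), Real.sqrt_sq (Real.sqrt_nonneg _)] at h2
    calc |η z h| * ‖a z‖ ≤ (c z * √(quad A h)) * ‖a z‖ := by gcongr
      _ = _ := by ring
  have hNL : ∀ h, ((Lam w).comp N) h = ∫ z, η z h • a z := by
    intro h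
    have hi2 : Integrable fun z => η z h • hh w z (G z) := by
      have h1 := (LamInv w).integrable_comp (hai h)
      refine h1.congr (Eventually.of_forall fun z => ?_)
      simp only [ha, hh, map_smul, LamInv_Lam hw1]
    rw [ContinuousLinearMap.comp_apply, hN, ← (Lam w).integral_comp_comm hi2]
    refine integral_congr_ae (Eventually.of_forall fun z => ?_)
    simp only [ha, hh, map_smul]
  have hfin := det_le_of_integral hn hA (fun z => Real.sqrt_nonneg _) hη' hint hai hNL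
  rw [det_comp', det_Lam hw1, abs_mul, abs_of_pos hg] at hfin
  have hn' : (0 : ℝ) < n := Nat.cast_pos.2 hn
  have hint0 : 0 ≤ ∫ z, ‖a z‖ * c z :=
    integral_nonneg fun z => mul_nonneg (norm_nonneg _) (Real.sqrt_nonneg _)
  have h5 : (∫ z, ‖a z‖ * c z) / n ≤ cn n * gm w := by
    rw [div_le_iff₀ hn']
    exact hle
  have h6 : ((∫ z, ‖a z‖ * c z) / n) ^ n ≤ (cn n * gm w) ^ n :=
    pow_le_pow_left₀ (div_nonneg hint0 hn'.le) h5 n
  have h7 : gm w * |N.det| ≤ (cn n * gm w) ^ n * √A.det :=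
    hfin.trans (mul_le_mul_of_nonneg_right h6 (Real.sqrt_nonneg _))
  have h8 : √(1 - ‖w‖ ^ 2) * gm w = 1 := by
    unfold gm
    exact mul_inv_cancel₀ (Real.sqrt_pos.2 (one_sub_pos hw1)).ne'
  have h9 : |N.det| ≤ √(1 - ‖w‖ ^ 2) * ((cn n * gm w) ^ n * √A.det) := by
    calc |N.det| = √(1 - ‖w‖ ^ 2) * (gm w * |N.det|) := by rw [← mul_assoc, h8, one_mul]
      _ ≤ _ := by gcongr
  have h10 : (cn n * gm w) ^ n ≤ 100 / 53 * |D.det| := by
    rw [hDabs]
    have : 0 ≤ (cn n * gm w) ^ n := by positivity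
    nlinarith
  calc |N.det| ≤ √(1 - ‖w‖ ^ 2) * ((cn n * gm w) ^ n * √A.det) := h9
    _ ≤ √(1 - ‖w‖ ^ 2) * ((100 / 53 * |D.det|) * √A.det) := by gcongr
    _ = _ := by ring

end Pool.Agent.H65L
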