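import Pool.Agent.H65L.PhiLip

set_option autoImplicit false

/-! The joint derivative of the functional (module LB/Joint). -/

open Real Set MeasureTheory Metric Filter Topology
open scoped RealInnerProductSpace

namespace Pool.Agent.H65L

open Pool.Agent.H65G

variable {n : ℕ}

namespace JT

/-- a map into continuous linear maps on a finite dimensional space is a.e. strongly measurable if
its values at all vectors are -/
theorem aesm_clm {Ω H F : Type} [MeasurableSpace Ω] {μ : Measure Ω} [NormedAddCommGroup H]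
    [NormedSpace ℝ H] [FiniteDimensional ℝ H] [NormedAddCommGroup F] [NormedSpace ℝ F]
    {T : Ω → H →L[ℝ] F} (h : ∀ v, AEStronglyMeasurable (fun ω => T ω v) μ) :
    AEStronglyMeasurable T μ := by
  set b := Module.finBasis ℝ H with hb
  have h1 : T = fun ω => ∑ i, ContinuousLinearMap.smulRightL ℝ H F
      (LinearMap.toContinuousLinearMap (b.coord i)) (T ω (b i)) := by
    funext ω
    ext v
    simp only [FunLike.coe_sum, Finset.sum_apply, ContinuousLinearMap.smulRightL_apply_apply]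
    conv_lhs => rw [← b.sum_repr v, map_sum]
    exact Finset.sum_congr rfl fun i _ => map_smul _ _ _
  rw [h1]
  refine Finset.aestronglyMeasurable_fun_sum _ fun i _ => ?_
  exact (ContinuousLinearMap.continuous _).comp_aestronglyMeasurable (h (b i))

/-- the derivative of a family of a.e. strongly measurable functions is a.e. strongly measurable -/
theorem aesm_deriv {Ω H F : Type} [MeasurableSpace Ω] {μ : Measure Ω} [NormedAddCommGroup H]
    [NormedSpace ℝ H] [FiniteDimensional ℝ H] [NormedAddCommGroup F] [NormedSpace ℝ F]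
    {f : H → Ω → F} {T : Ω → H →L[ℝ] F} {x₀ : H} {s : Set H} (hs : s ∈ 𝓝 x₀)
    (hf : ∀ x ∈ s, AEStronglyMeasurable (f x) μ)
    (hd : ∀ᵐ ω ∂μ, HasFDerivAt (f · ω) (T ω) x₀) : AEStronglyMeasurable T μ := by
  refine aesm_clm fun v => ?_
  have hlim : Tendsto (fun m : ℕ => x₀ + ((m : ℝ) + 1)⁻¹ • v) atTop (𝓝 x₀) := by
    have h1 : Tendsto (fun m : ℕ => ((m : ℝ) + 1)⁻¹) atTop (𝓝 0) := by
      simpa [one_div] using tendsto_one_div_add_atTop_nhds_zero_nat (𝕜 := ℝ)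
    have h2 := (h1.smul_const v).const_add x₀
    simpa using h2
  obtain ⟨m₀, hm₀⟩ := eventually_atTop.1 (hlim.eventually hs)
  refine aestronglyMeasurable_of_tendsto_ae atTop (f := fun (m : ℕ) ω =>
    (((m + m₀ : ℕ) : ℝ) + 1) • (f (x₀ + (((m + m₀ : ℕ) : ℝ) + 1)⁻¹ • v) ω - f x₀ ω)) ?_ ?_
  · intro m
    exact ((hf _ (hm₀ _ (Nat.le_add_left _ _))).sub (hf x₀ (mem_of_mem_nhds hs))).const_smul _
  · filter_upwards [hd] with ω hω
    have h3 : Tendsto (fun m : ℕ => ((m + m₀ : ℕ) : ℝ) + 1) atTop atTop := by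
      refine tendsto_atTop_add_const_right _ _ ?_
      exact tendsto_natCast_atTop_atTop.comp (tendsto_add_atTop_nat m₀)
    exact hω.lim v (c := fun m : ℕ => ((m + m₀ : ℕ) : ℝ) + 1) (l := atTop)
      (tendsto_norm_atTop_atTop.comp h3)

theorem chain {H₁ H₂ F : Type} [NormedAddCommGroup H₁] [NormedSpace ℝ H₁]
    [NormedAddCommGroup H₂] [NormedSpace ℝ H₂] [NormedAddCommGroup F] [NormedSpace ℝ F]
    {K : H₂ × ℝ → F} {g : H₁ → ℝ} {D : H₂ × ℝ →L[ℝ] F} {p₀ : H₁} {w₀ : H₂}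
    (hD : HasFDerivAt K D (w₀, g p₀)) (hg : DifferentiableAt ℝ g p₀) :
    HasFDerivAt (fun x : H₁ × H₂ => K (x.2, g x.1))
      (D.comp ((ContinuousLinearMap.snd ℝ H₁ H₂).prod
        ((fderiv ℝ g p₀).comp (ContinuousLinearMap.fst ℝ H₁ H₂)))) (p₀, w₀) := by
  have h0 : HasFDerivAt (Prod.fst : H₁ × H₂ → H₁) (ContinuousLinearMap.fst ℝ H₁ H₂)
    (p₀, w₀) := hasFDerivAt_fst
  have h1 : HasFDerivAt (Prod.snd : H₁ × H₂ → H₂) (ContinuousLinearMap.snd ℝ H₁ H₂)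
    (p₀, w₀) := hasFDerivAt_snd
  have h2 : HasFDerivAt (fun x : H₁ × H₂ => g x.1)
      ((fderiv ℝ g p₀).comp (ContinuousLinearMap.fst ℝ H₁ H₂)) (p₀, w₀) :=
    HasFDerivAt.comp (g := g) (p₀, w₀) hg.hasFDerivAt h0
  have h3 : HasFDerivAt (fun x : H₁ × H₂ => (x.2, g x.1))
      ((ContinuousLinearMap.snd ℝ H₁ H₂).prod
        ((fderiv ℝ g p₀).comp (ContinuousLinearMap.fst ℝ H₁ H₂))) (p₀, w₀) := h1.prodMk h2
  exact HasFDerivAt.comp (g := K) (p₀, w₀) hD h3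

end JT

open JT

/-- `G p` is a family of cone functions, Lipschitz in the parameter `p`, and for almost every `z`
the function `p ↦ G p z` is differentiable at `p₀`. Then `(p, w) ↦ Phi (G p) w` is differentiable
at `(p₀, w₀)`, with the expected derivative. -/
theorem hasFDerivAt_Phi {k : ℕ} {κ : ℝ} (hκ0 : 0 ≤ κ) (hκ : κ < 1) {w₀ : E n} (hw : ‖w₀‖ < 1)
    {G : E k → E n → ℝ} {p₀ : E k} {L : ℝ} (hc : Continuous (Function.uncurry G))
    (hG : ∀ p, Cone κ (G p)) (hL : ∀ p p' z, |G p z - G p' z| ≤ L * ‖p - p'‖ * ‖z‖)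
    (hd : ∀ᵐ z, DifferentiableAt ℝ (fun p => G p z) p₀) :
    ∃ (N : E k →L[ℝ] E n) (D : E n →L[ℝ] E n),
      HasFDerivAt (fun x : E k × E n => Phi (G x.1) x.2)
        (N.comp (ContinuousLinearMap.fst ℝ (E k) (E n)) +
          D.comp (ContinuousLinearMap.snd ℝ (E k) (E n))) (p₀, w₀) ∧
      (∀ h, N h = ∫ z, fderiv ℝ (fun p => G p z) p₀ h • hh w₀ z (G p₀ z)) ∧
      ∀ δ, D δ = ∫ z, (-⟪δ, z⟫ • hh w₀ z ⟪w₀, z⟫ +
        ∫ τ in ⟪w₀, z⟫..G p₀ z, dhh w₀ z τ δ) := by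
  set κ₁ := max κ ((1 + ‖w₀‖) / 2) with hκ₁
  have hκ₁0 : 0 ≤ κ₁ := hκ0.trans (le_max_left _ _)
  have hκ₁1 : κ₁ < 1 := max_lt hκ (by linarith)
  obtain ⟨C, hC0, hC⟩ := ker_lip (n := n) hκ₁0 hκ₁1
  have hGk : ∀ p z, |G p z| ≤ κ₁ * ‖z‖ := fun p z =>
    (abs_le_norm (hG p) z).trans (mul_le_mul_of_nonneg_right (le_max_left _ _) (norm_nonneg _))
  have hGc : ∀ p, Continuous (G p) := fun p =>
    hc.comp (continuous_const.prodMk continuous_id)
  set F : E k × E n → E n → E n := fun x z => ker x.2 z (G x.1 z) with hF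
  set s : Set (E k × E n) := {x | ‖x.2‖ < (1 + ‖w₀‖) / 2} with hs
  have hs_mem : s ∈ 𝓝 (p₀, w₀) := by
    refine (isOpen_lt (continuous_norm.comp continuous_snd) continuous_const).mem_nhds ?_
    change ‖w₀‖ < (1 + ‖w₀‖) / 2
    linarith
  have hsk : ∀ x ∈ s, ‖x.2‖ ≤ κ₁ := fun x hx => (le_of_lt hx).trans (le_max_right _ _)
  have hFc : ∀ x ∈ s, Continuous (F x) := fun x hx =>
    continuous_ker_g (hGc x.1) (lt_of_le_of_lt (hsk x hx) hκ₁1)
  have hchain : ∀ᵐ z, HasFDerivAt (F · z) (fderiv ℝ (F · z) (p₀, w₀)) (p₀, w₀) ∧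
      ∀ h δ, fderiv ℝ (F · z) (p₀, w₀) (h, δ) =
        (fderiv ℝ (fun p => G p z) p₀ h) • hh w₀ z (G p₀ z) - ⟪δ, z⟫ • hh w₀ z ⟪w₀, z⟫ +
        ∫ τ in ⟪w₀, z⟫..G p₀ z, dhh w₀ z τ δ := by
    filter_upwards [hd] with z hz
    obtain ⟨D, hD, hD'⟩ := hasFDerivAt_ker (w := w₀) (z := z) (g := G p₀ z) hw
    have h2 := chain (K := fun x : E n × ℝ => ker x.1 z x.2) (g := fun p => G p z) hD hz
    have h3 : HasFDerivAt (F · z) (D.comp ((ContinuousLinearMap.snd ℝ (E k) (E n)).prod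
          ((fderiv ℝ (fun p => G p z) p₀).comp (ContinuousLinearMap.fst ℝ (E k) (E n)))))
        (p₀, w₀) := h2
    rw [h3.fderiv]
    refine ⟨h3, fun h δ => ?_⟩
    exact hD' δ _
  have h_int : Integrable (F (p₀, w₀)) := by
    exact integrable_ker hκ₁0 hκ₁1 (G := G p₀) ⟨(hG p₀).odd, (hG p₀).hom, fun z z' =>
      ((hG p₀).lip z z').trans (mul_le_mul_of_nonneg_right (le_max_left _ _) (norm_nonneg _))⟩
      (by have := le_max_right κ ((1 + ‖w₀‖) / 2); linarith)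
  have h_meas : AEStronglyMeasurable (fun z => fderiv ℝ (F · z) (p₀, w₀)) volume := by
    exact aesm_deriv hs_mem (fun x hx => (hFc x hx).aestronglyMeasurable)
      (hchain.mono fun z hz => hz.1)
  have h_lip : ∀ᵐ z, ∀ x ∈ s, ‖F x z - F (p₀, w₀) z‖ ≤
      C * (1 + |L|) * ((1 + ‖z‖) ^ 5 * exp (-((1 - κ₁ ^ 2) / 2 * ‖z‖ ^ 2))) * ‖x - (p₀, w₀)‖ := by
    refine Eventually.of_forall fun z x hx => ?_
    have h1 := hC x.2 w₀ z (G x.1 z) (G p₀ z) (hsk x hx) (hsk (p₀, w₀) (mem_of_mem_nhds hs_mem))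
      (hGk _ _) (hGk _ _)
    refine h1.trans ?_
    have h2 : ‖x.2 - w₀‖ ≤ ‖x - (p₀, w₀)‖ := norm_snd_le (x - (p₀, w₀))
    have h3 : ‖x.1 - p₀‖ ≤ ‖x - (p₀, w₀)‖ := norm_fst_le (x - (p₀, w₀))
    have h4 : |G x.1 z - G p₀ z| ≤ |L| * ‖x - (p₀, w₀)‖ * ‖z‖ := by
      refine (hL x.1 p₀ z).trans (mul_le_mul_of_nonneg_right ?_ (norm_nonneg z))
      exact mul_le_mul (le_abs_self L) h3 (norm_nonneg _) (abs_nonneg L)
    have h5 : ‖x.2 - w₀‖ + |G x.1 z - G p₀ z| ≤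
        (1 + |L|) * (1 + ‖z‖) * ‖x - (p₀, w₀)‖ := by
      have h6 := norm_nonneg (x - (p₀, w₀))
      have h7 := abs_nonneg L
      have h8 := norm_nonneg z
      have h9 := mul_nonneg h6 h8
      have h10 := mul_nonneg h7 h6
      nlinarith
    calc C * (1 + ‖z‖) ^ 4 * exp (-((1 - κ₁ ^ 2) / 2 * ‖z‖ ^ 2)) *
          (‖x.2 - w₀‖ + |G x.1 z - G p₀ z|)
        ≤ C * (1 + ‖z‖) ^ 4 * exp (-((1 - κ₁ ^ 2) / 2 * ‖z‖ ^ 2)) *
          ((1 + |L|) * (1 + ‖z‖) * ‖x - (p₀, w₀)‖) :=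
          mul_le_mul_of_nonneg_left h5 (by positivity)
      _ = C * (1 + |L|) * ((1 + ‖z‖) ^ 5 * exp (-((1 - κ₁ ^ 2) / 2 * ‖z‖ ^ 2))) *
          ‖x - (p₀, w₀)‖ := by ring
  have h_bd : Integrable fun z : E n =>
      C * (1 + |L|) * ((1 + ‖z‖) ^ 5 * exp (-((1 - κ₁ ^ 2) / 2 * ‖z‖ ^ 2))) := by
    refine (integrable_poly_exp 5 ?_).const_mul _
    have : κ₁ ^ 2 < 1 := by nlinarith
    linarith

  obtain ⟨hint, hder⟩ := hasFDerivAt_integral_of_dominated_loc_of_lip' hs_mem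
    (fun x hx => (hFc x hx).aestronglyMeasurable) h_int h_meas h_lip h_bd
    (hchain.mono fun z hz => hz.1)
  refine ⟨(∫ z, fderiv ℝ (F · z) (p₀, w₀)).comp (ContinuousLinearMap.inl ℝ (E k) (E n)),
    (∫ z, fderiv ℝ (F · z) (p₀, w₀)).comp (ContinuousLinearMap.inr ℝ (E k) (E n)), ?_, ?_, ?_⟩
  · have e : ((∫ z, fderiv ℝ (F · z) (p₀, w₀)).comp
          (ContinuousLinearMap.inl ℝ (E k) (E n))).comp (ContinuousLinearMap.fst ℝ (E k) (E n)) +
        ((∫ z, fderiv ℝ (F · z) (p₀, w₀)).comp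
          (ContinuousLinearMap.inr ℝ (E k) (E n))).comp (ContinuousLinearMap.snd ℝ (E k) (E n)) =
        ∫ z, fderiv ℝ (F · z) (p₀, w₀) := by
      refine ContinuousLinearMap.ext fun x => ?_
      rw [add_apply, ContinuousLinearMap.comp_apply,
        ContinuousLinearMap.comp_apply, ContinuousLinearMap.comp_apply,
        ContinuousLinearMap.comp_apply, ← map_add]
      congr 1
      ext <;> simp
    rw [e]
    exact hder
  · intro h
    rw [ContinuousLinearMap.comp_apply, ContinuousLinearMap.integral_apply hint]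
    refine integral_congr_ae ?_
    filter_upwards [hchain] with z hz
    have := hz.2 h 0
    rw [ContinuousLinearMap.inl_apply, this, inner_zero_left, zero_smul, sub_zero]
    have h0 : ∀ τ, dhh w₀ z τ 0 = 0 := by
      intro τ
      simp [dhh]
    simp only [h0, intervalIntegral.integral_zero, add_zero]
  · intro δ
    rw [ContinuousLinearMap.comp_apply, ContinuousLinearMap.integral_apply hint]
    refine integral_congr_ae ?_
    filter_upwards [hchain] with z hz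
    have := hz.2 0 δ
    rw [ContinuousLinearMap.inr_apply, this, map_zero, zero_smul, zero_sub, neg_smul]

end Pool.Agent.H65L
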