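import Pool.Agent.H65L.Boost
import Pool.Agent.H65L.Formula
import Pool.Agent.H65L.Joint
import Pool.Agent.H65L.Spec
import Pool.Agent.H65L.WBound

set_option autoImplicit false

/-! The zero of the functional is unique, with a quantitative bound (module LB/Lower). -/

open Real Set MeasureTheory Metric Filter Topology
open scoped RealInnerProductSpace

namespace Pool.Agent.H65L

open Pool.Agent.H65G

variable {n : ℕ}

namespace LowerAux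

theorem cone_continuous {κ : ℝ} {G : E n → ℝ} (hG : Cone κ G) (hκ : 0 ≤ κ) : Continuous G := by
  have : LipschitzWith κ.toNNReal G := by
    refine LipschitzWith.of_dist_le_mul fun x y => ?_
    rw [Real.dist_eq, dist_eq_norm, Real.coe_toNNReal κ hκ]
    exact hG.lip x y
  exact this.continuous

theorem cone_mono {κ κ' : ℝ} (h : κ ≤ κ') {G : E n → ℝ} (hG : Cone κ G) : Cone κ' G :=
  ⟨hG.odd, hG.hom, fun z z' => (hG.lip z z').trans (by gcongr)⟩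

theorem hasDerivAt_path (w₀ δ : E n) (s : ℝ) : HasDerivAt (fun s : ℝ => w₀ + s • δ) δ s := by
  have h := ((hasDerivAt_id s).smul_const δ).const_add w₀
  rw [one_smul] at h
  exact h

/-- The derivative of the functional along a line. -/
theorem hasDerivAt_line {κ : ℝ} (hκ0 : 0 ≤ κ) (hκ : κ < 1) {G : E n → ℝ} (hG : Cone κ G)
    (w₀ δ : E n) {s : ℝ} (hs : ‖w₀ + s • δ‖ < 1) :
    HasDerivAt (fun s : ℝ => Phi G (w₀ + s • δ))
      (∫ z, (-⟪δ, z⟫ • hh (w₀ + s • δ) z ⟪w₀ + s • δ, z⟫ +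
        ∫ τ in ⟪w₀ + s • δ, z⟫..G z, dhh (w₀ + s • δ) z τ δ)) s := by
  obtain ⟨N, D, hND, -, hD⟩ := hasFDerivAt_Phi (n := n) (k := 0) hκ0 hκ hs
    (G := fun _ => G) (p₀ := 0) (L := 0) ((cone_continuous hG hκ0).comp continuous_snd)
    (fun _ => hG) (fun p p' z => by simp) (Filter.Eventually.of_forall fun z => by simp)
  rw [← hD δ]
  have hl : HasDerivAt (fun s : ℝ => ((0 : E 0), w₀ + s • δ)) ((0 : E 0), δ) s :=
    HasDerivAt.prodMk (hasDerivAt_const _ _) (hasDerivAt_path w₀ δ s)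
  have := HasFDerivAt.comp_hasDerivAt (f := fun s : ℝ => ((0 : E 0), w₀ + s • δ)) s hND hl
  simpa [Function.comp_def] using this

end LowerAux

open LowerAux

theorem phi_lower {κ : ℝ} (hκ0 : 0 ≤ κ) (hκ : κ < 1) : ∃ c : ℝ, 0 < c ∧
    ∀ G : E n → ℝ, Cone κ G → ∀ w₀ w₁ : E n, ‖w₀‖ ≤ κ → ‖w₁‖ ≤ κ → Phi G w₀ = 0 →
      c * ‖w₁ - w₀‖ ≤ ‖Phi G w₁‖ := by
  obtain ⟨κ', hκ'0, hκ'1, hboost⟩ := exists_boost (n := n) hκ0 hκ hκ0 hκ
  have hκ2 : 0 < 1 - κ ^ 2 := by nlinarith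
  refine ⟨cn n * (1 - κ') * √(1 - κ ^ 2), by
    have := cn_pos n
    have := Real.sqrt_pos.2 hκ2
    have : 0 < 1 - κ' := by linarith
    positivity, ?_⟩
  intro G hG w₀ w₁ hw₀ hw₁ h0
  set δ := w₁ - w₀ with hδ
  have hws : ∀ s ∈ Icc (0 : ℝ) 1, ‖w₀ + s • δ‖ ≤ κ := by
    intro s hs
    have : w₀ + s • δ = (1 - s) • w₀ + s • w₁ := by
      rw [hδ, smul_sub, sub_smul, one_smul]; abel
    rw [this]
    calc ‖(1 - s) • w₀ + s • w₁‖ ≤ ‖(1 - s) • w₀‖ + ‖s • w₁‖ := norm_add_le _ _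
      _ = (1 - s) * ‖w₀‖ + s * ‖w₁‖ := by
        rw [norm_smul, norm_smul, Real.norm_eq_abs, Real.norm_eq_abs,
          abs_of_nonneg (by linarith [hs.2]), abs_of_nonneg hs.1]
      _ ≤ (1 - s) * κ + s * κ := by
        have := hs.1
        have : 0 ≤ 1 - s := by linarith [hs.2]
        gcongr
      _ = κ := by ring
  set w : ℝ → E n := fun s => w₀ + s • δ with hwdef
  set F : ℝ → E n := fun s => Phi G (w s) with hF
  set B : ℝ → ℝ := fun s => ⟪δ, F s⟫ * √(1 - ‖w s‖ ^ 2) +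
    (√(1 - ‖w s‖ ^ 2))⁻¹ * ⟪w s, δ⟫ * ⟪w s, F s⟫ with hB
  have key : ∀ s ∈ Icc (0 : ℝ) 1, ∃ V : ℝ, HasDerivAt B V s ∧ V ≤ -(cn n * (1 - κ') * ‖δ‖ ^ 2) := by
    intro s hs
    have hw1 : ‖w s‖ < 1 := lt_of_le_of_lt (hws s hs) hκ
    have hpos : 0 < 1 - ‖w s‖ ^ 2 := one_sub_pos hw1
    obtain ⟨G', hG', hBo⟩ := hboost (w s) (hws s hs) G hG
    have hG'1 : Cone 1 G' := cone_mono hκ'1.le hG'
    set F' : E n := ∫ z, (-⟪δ, z⟫ • hh (w s) z ⟪w s, z⟫ + ∫ τ in ⟪w s, z⟫..G z, dhh (w s) z τ δ)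
      with hF'
    have hdF : HasDerivAt F F' s := hasDerivAt_line hκ0 hκ hG w₀ δ hw1
    have hdw : HasDerivAt w δ s := hasDerivAt_path w₀ δ s
    have hn : HasDerivAt (fun s => 1 - ‖w s‖ ^ 2) (-(2 * ⟪w s, δ⟫)) s := by
      simpa using (hdw.norm_sq).const_sub 1
    have hu := hn.sqrt hpos.ne'
    set u := √(1 - ‖w s‖ ^ 2) with hudef
    have hupos : 0 < u := Real.sqrt_pos.2 hpos
    have hinv := hu.inv hupos.ne'
    have h1 : HasDerivAt (fun s => ⟪δ, F s⟫) ⟪δ, F'⟫ s := by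
      simpa using (hasDerivAt_const s δ).inner ℝ hdF
    have h2 : HasDerivAt (fun s => ⟪w s, δ⟫) ⟪δ, δ⟫ s := by
      simpa using hdw.inner ℝ (hasDerivAt_const s δ)
    have h3 : HasDerivAt (fun s => ⟪w s, F s⟫) (⟪w s, F'⟫ + ⟪δ, F s⟫) s := hdw.inner ℝ hdF
    have hBd := (h1.mul hu).add ((hinv.mul h2).mul h3)
    refine ⟨_, hBd, ?_⟩
    -- algebra
    have hLam := Lam_deriv hw1 hκ0 hκ hG hG'1 hBo δ
    rw [← hF'] at hLam
    set y := Lam (w s) δ with hy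
    have hgm : gm (w s) = u⁻¹ := rfl
    have e1 := inner_Lam_Lam hw1 δ F'
    have e2 : ⟪y, Lam (w s) F'⟫ = -(cn n * gm (w s)) * (⟪y, y⟫ - ⟪y, Wf G' y⟫) -
        (gm (w s) ^ 2 * ⟪w s, Phi G (w s)⟫) * ⟪y, y⟫ := by
      rw [hLam, inner_sub_right, real_inner_smul_right, real_inner_smul_right, inner_sub_right]
    have e3 := norm_Lam_sq hw1 δ
    rw [← hy] at e1 e3
    rw [e2] at e1
    rw [real_inner_self_eq_norm_sq] at e1
    have hWle := inner_Wf_le hG'1 y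
    have hmom := mom_le_sq hκ'0 hG'
    have hsq : √(mom G') ≤ κ' := by
      rw [show κ' = √(κ' ^ 2) from (Real.sqrt_sq hκ'0).symm]
      exact Real.sqrt_le_sqrt hmom
    have hny : ‖δ‖ ≤ ‖y‖ := norm_le_norm_Lam hw1 δ
    have hcn := cn_pos n
    have hFs : F s = Phi G (w s) := rfl
    have hval : ⟪δ, F'⟫ * u + ⟪δ, F s⟫ * (-(2 * ⟪w s, δ⟫) / (2 * u)) +
        ((-(-(2 * ⟪w s, δ⟫) / (2 * u)) / u ^ 2 * ⟪w s, δ⟫ + u⁻¹ * ⟪δ, δ⟫) * ⟪w s, F s⟫ +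
          u⁻¹ * ⟪w s, δ⟫ * (⟪w s, F'⟫ + ⟪δ, F s⟫)) =
        -(cn n * (‖y‖ ^ 2 - ⟪y, Wf G' y⟫)) := by
      have e4 : ⟪δ, F'⟫ = -(cn n * u⁻¹) * (‖y‖ ^ 2 - ⟪y, Wf G' y⟫) -
        (u⁻¹ ^ 2 * ⟪w s, F s⟫) * ‖y‖ ^ 2 - u⁻¹ ^ 2 * ⟪w s, δ⟫ * ⟪w s, F'⟫ := by
        rw [hFs, ← hgm]; linarith
      have e5 : ‖δ‖ ^ 2 = ‖y‖ ^ 2 - u⁻¹ ^ 2 * ⟪w s, δ⟫ ^ 2 := by rw [← hgm]; linarith
      rw [real_inner_self_eq_norm_sq, e4, e5]
      field_simp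
      ring
    have hgoal : -(cn n * (‖y‖ ^ 2 - ⟪y, Wf G' y⟫)) ≤ -(cn n * (1 - κ') * ‖δ‖ ^ 2) := by
      rw [real_inner_comm] at hWle
      have h5 : ⟪y, Wf G' y⟫ ≤ κ' * ‖y‖ ^ 2 := hWle.trans (by gcongr)
      have h6 : ‖δ‖ ^ 2 ≤ ‖y‖ ^ 2 := by gcongr
      have h7 : (1 - κ') * ‖δ‖ ^ 2 ≤ ‖y‖ ^ 2 - ⟪y, Wf G' y⟫ := by nlinarith
      nlinarith
    refine le_trans (le_of_eq ?_) hgoal
    exact hval
  have hmv : B 1 - B 0 ≤ -(cn n * (1 - κ') * ‖δ‖ ^ 2) * (1 - 0) := by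
    have hcont : ContinuousOn B (Icc 0 1) := fun s hs =>
      (key s hs).choose_spec.1.continuousAt.continuousWithinAt
    refine Convex.image_sub_le_mul_sub_of_deriv_le (convex_Icc (0 : ℝ) 1) hcont ?_ ?_ 0 (by simp) 1
      (by simp) zero_le_one
    · intro s hs
      rw [interior_Icc] at hs
      exact (key s (Ioo_subset_Icc_self hs)).choose_spec.1.differentiableAt.differentiableWithinAt
    · intro s hs
      rw [interior_Icc] at hs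
      obtain ⟨V, hV, hV2⟩ := key s (Ioo_subset_Icc_self hs)
      rw [hV.deriv]; exact hV2
  have hw0e : w 0 = w₀ := by simp [hwdef]
  have hw1e : w 1 = w₁ := by simp [hwdef, hδ]
  have hB0 : B 0 = 0 := by
    simp only [hB, hF, hw0e, h0, inner_zero_right]; ring
  -- bound for B 1
  have hw1lt : ‖w₁‖ < 1 := lt_of_le_of_lt hw₁ hκ
  have hpos1 : 0 < 1 - ‖w₁‖ ^ 2 := one_sub_pos hw1lt
  set u := √(1 - ‖w₁‖ ^ 2) with hu
  have hupos : 0 < u := Real.sqrt_pos.2 hpos1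
  have hgm : gm w₁ = u⁻¹ := rfl
  have hB1 : B 1 = u * ⟪Lam w₁ δ, Lam w₁ (Phi G w₁)⟫ := by
    simp only [hB, hF, hw1e]
    rw [inner_Lam_Lam hw1lt, hgm, ← hu]
    field_simp
  have hB1le : |B 1| ≤ u⁻¹ * (‖δ‖ * ‖Phi G w₁‖) := by
    rw [hB1, abs_mul, abs_of_pos hupos]
    have h1 := abs_real_inner_le_norm (Lam w₁ δ) (Lam w₁ (Phi G w₁))
    have h2 := norm_Lam_le hw1lt δ
    have h3 := norm_Lam_le hw1lt (Phi G w₁)
    rw [hgm] at h2 h3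
    calc u * |⟪Lam w₁ δ, Lam w₁ (Phi G w₁)⟫| ≤ u * (‖Lam w₁ δ‖ * ‖Lam w₁ (Phi G w₁)‖) := by gcongr
      _ ≤ u * ((u⁻¹ * ‖δ‖) * (u⁻¹ * ‖Phi G w₁‖)) := by gcongr
      _ = u⁻¹ * (‖δ‖ * ‖Phi G w₁‖) := by field_simp
  rw [hB0] at hmv
  have hneg : cn n * (1 - κ') * ‖δ‖ ^ 2 ≤ u⁻¹ * (‖δ‖ * ‖Phi G w₁‖) := by
    have := neg_abs_le (B 1)
    linarith
  have hcn := cn_pos n
  have husq : √(1 - κ ^ 2) ≤ u := Real.sqrt_le_sqrt (by
    have := norm_nonneg w₁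
    nlinarith)
  rcases (norm_nonneg δ).eq_or_lt with hδ0 | hδ0
  · rw [← hδ0, mul_zero]; exact norm_nonneg _
  · have h4 : cn n * (1 - κ') * ‖δ‖ * u ≤ ‖Phi G w₁‖ := by
      have h5 : ‖δ‖ * (cn n * (1 - κ') * ‖δ‖ * u) ≤ ‖δ‖ * ‖Phi G w₁‖ := by
        have h6 : u * (cn n * (1 - κ') * ‖δ‖ ^ 2) ≤ u * (u⁻¹ * (‖δ‖ * ‖Phi G w₁‖)) := by gcongr
        rw [← mul_assoc u u⁻¹, mul_inv_cancel₀ hupos.ne', one_mul] at h6
        nlinarith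
      exact le_of_mul_le_mul_left h5 hδ0
    have h7 : 0 < 1 - κ' := by linarith
    calc cn n * (1 - κ') * √(1 - κ ^ 2) * ‖δ‖ ≤ cn n * (1 - κ') * u * ‖δ‖ := by gcongr
      _ = cn n * (1 - κ') * ‖δ‖ * u := by ring
      _ ≤ _ := h4

end Pool.Agent.H65L
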