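import Pool.Agent.H65L.Family
import Pool.Agent.H65L.Lower
import Pool.Agent.H65L.Jac
import Pool.Agent.H65L.Area

set_option autoImplicit false

/-! The bound for one cube (module LB/Cube). -/

open Real Set MeasureTheory Metric Filter Topology
open scoped RealInnerProductSpace

namespace Pool.Agent.H65L

open Pool.Agent.H65G

variable {d : ℕ} {X : Type} [MetricSpace X] {κ : ℝ} {q : E (d + 1) → X}
  {A : E (d + 1) → Matrix (Fin (d + 1)) (Fin (d + 1)) ℝ}

attribute [local irreducible] fam Phi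

theorem quad_eq' (B : Matrix (Fin (d + 1)) (Fin (d + 1)) ℝ) (ξ : Fin (d + 1) → ℝ) :
    quad B (WithLp.toLp 2 ξ) = ξ ⬝ᵥ (Matrix.mulVec B ξ) := by
  simp only [quad, dotProduct, Matrix.mulVec, Finset.mul_sum]
  refine Finset.sum_congr rfl fun i _ => Finset.sum_congr rfl fun j _ => by ring

theorem posSemidef_of' (h : IsRiemannianCube q A) {p : E (d + 1)} (hp : p ∈ cube (d + 1)) :
    (A p).PosSemidef := by
  refine Matrix.PosSemidef.of_dotProduct_mulVec_nonneg ?_ fun x => ?_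
  · rw [Matrix.IsHermitian, Matrix.conjTranspose_eq_transpose_of_trivial]
    exact h.symm p hp
  · rw [star_trivial, ← quad_eq']
    exact h.nonneg p hp _

theorem integrable_sqrt_det' (h : IsRiemannianCube q A) :
    IntegrableOn (fun p => √(A p).det) (cube (d + 1)) volume := by
  refine ContinuousOn.integrableOn_compact (isCompact_cube _) ?_
  have h1 : Continuous fun B : Matrix (Fin (d + 1)) (Fin (d + 1)) ℝ => √B.det := by fun_prop
  exact h1.comp_continuousOn h.continuousOn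

theorem continuous_qt' (h : IsRiemannianCube q A) : Continuous (qt q) := by
  obtain ⟨L, hL0, hL⟩ := exists_bound h.continuousOn
  have hl : LipschitzWith (Real.toNNReal L) (qt q) := by
    apply LipschitzWith.of_dist_le_mul
    intro x y
    rw [Real.coe_toNNReal _ hL0, dist_eq_norm]
    exact dist_qt_le h hL0 hL x y
  exact hl.continuous

theorem continuous_famq (hκ0 : 0 ≤ κ) (hκ : κ ≤ 1) (γ : Sph (d + 1) → X)
    (h : IsRiemannianCube q A) :
    Continuous (Function.uncurry fun (p z : E (d + 1)) => fam κ γ (qt q p) z) := by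
  have h1 := continuous_fam hκ0 hκ γ
  have h2 : Continuous fun x : E (d + 1) × E (d + 1) => (qt q x.1, x.2) :=
    ((continuous_qt' h).comp continuous_fst).prodMk continuous_snd
  exact h1.comp h2

/-- The family in the chart. -/
noncomputable def fch (κ : ℝ) (γ : Sph (d + 1) → X) (q : E (d + 1) → X) (z p : E (d + 1)) : ℝ :=
  fam κ γ (qt q p) z

theorem continuous_fch (hκ0 : 0 ≤ κ) (hκ : κ ≤ 1) (γ : Sph (d + 1) → X)
    (h : IsRiemannianCube q A) : Continuous (Function.uncurry (fch κ γ q)) := by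
  have h1 := continuous_fam hκ0 hκ γ
  have h2 : Continuous fun x : E (d + 1) × E (d + 1) => (qt q x.2, x.1) :=
    ((continuous_qt' h).comp continuous_snd).prodMk continuous_fst
  exact h1.comp h2

theorem ae_ae_famq (hκ0 : 0 ≤ κ) (hκ : κ ≤ 1) (γ : Sph (d + 1) → X)
    (h : IsRiemannianCube q A) :
    ∀ᵐ p ∂(volume : Measure (E (d + 1))), ∀ᵐ z ∂(volume : Measure (E (d + 1))),
      DifferentiableAt ℝ (fch κ γ q z) p := by
  obtain ⟨L, hL0, hL⟩ := exists_bound h.continuousOn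
  have hm : MeasurableSet {x : E (d + 1) × E (d + 1) | DifferentiableAt ℝ (fch κ γ q x.1) x.2} :=
    measurableSet_of_differentiableAt_with_param ℝ (continuous_fch hκ0 hκ γ h)
  have h1 : ∀ᵐ z ∂(volume : Measure (E (d + 1))), ∀ᵐ p ∂(volume : Measure (E (d + 1))),
      DifferentiableAt ℝ (fch κ γ q z) p := by
    refine Eventually.of_forall fun z => ?_
    have hl : LipschitzWith (Real.toNNReal (L * ‖z‖)) (fch κ γ q z) := by
      apply LipschitzWith.of_dist_le_mul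
      intro x y
      rw [Real.coe_toNNReal _ (by positivity), Real.dist_eq, dist_eq_norm]
      refine (fam_dist hκ0 hκ γ _ _ z).trans ?_
      have := dist_qt_le h hL0 hL x y
      have hz := norm_nonneg z
      calc dist (qt q x) (qt q y) * ‖z‖ ≤ (L * ‖x - y‖) * ‖z‖ := by gcongr
        _ = _ := by ring
    exact hl.ae_differentiableAt
  have hsf' : SFinite (volume : Measure (E (d + 1))) := inferInstance
  have h2 : ∀ᵐ z ∂((volume : Measure (E (d + 1))).prod (volume : Measure (E (d + 1)))),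
      DifferentiableAt ℝ (fch κ γ q z.1) z.2 := (Measure.ae_prod_iff_ae_ae hm).2 h1
  have h3 : ∀ᵐ z ∂((volume : Measure (E (d + 1))).prod (volume : Measure (E (d + 1)))),
      DifferentiableAt ℝ (fch κ γ q z.2) z.1 := by
    have h4 := (Measure.measurePreserving_swap (μ := (volume : Measure (E (d + 1))))
      (ν := (volume : Measure (E (d + 1))))).quasiMeasurePreserving.ae h2
    exact h4
  exact Measure.ae_ae_of_ae_prod h3

/-- The set of zeros. -/
def zset (κ : ℝ) (γ : Sph (d + 1) → X) (q : E (d + 1) → X) : Set (E (d + 1)) :=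
  {p | p ∈ cube (d + 1) ∧ ∃ w : E (d + 1), ‖w‖ ≤ κ ∧ Phi (fam κ γ (qt q p)) w = 0}

open Classical in
/-- The barycentre in the chart. -/
noncomputable def bary (κ : ℝ) (γ : Sph (d + 1) → X) (q : E (d + 1) → X) (p : E (d + 1)) :
    E (d + 1) :=
  if h : ∃ w : E (d + 1), ‖w‖ ≤ κ ∧ Phi (fam κ γ (qt q p)) w = 0 then h.choose else 0

theorem bary_spec {γ : Sph (d + 1) → X} {p : E (d + 1)} (hp : p ∈ zset κ γ q) :
    ‖bary κ γ q p‖ ≤ κ ∧ Phi (fam κ γ (qt q p)) (bary κ γ q p) = 0 := by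
  unfold bary
  rw [dif_pos hp.2]
  exact hp.2.choose_spec

/-- Uniform estimates for the functional in a chart. -/
theorem exists_bary_lip (hκ0 : 0 ≤ κ) (hκ : κ < 1) (γ : Sph (d + 1) → X)
    (h : IsRiemannianCube q A) : ∃ K : ℝ, 0 ≤ K ∧
      ∀ p p' : E (d + 1), ∀ w w' : E (d + 1), ‖w‖ ≤ κ → ‖w'‖ ≤ κ →
        Phi (fam κ γ (qt q p)) w = 0 → Phi (fam κ γ (qt q p')) w' = 0 →
        ‖w - w'‖ ≤ K * ‖p - p'‖ := by
  obtain ⟨L, hL0, hL⟩ := exists_bound h.continuousOn
  obtain ⟨c, hc0, hc⟩ := phi_lower (n := d + 1) hκ0 hκ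
  obtain ⟨C, hC0, hC⟩ := phi_lip (n := d + 1) hκ0 hκ
  refine ⟨C * L / c, by positivity, fun p p' w w' hw hw' h1 h2 => ?_⟩
  have e1 := hc _ (fam_cone hκ0 γ (qt q p)) w w' hw hw' h1
  have e2 := hC _ _ (fam_cone hκ0 γ (qt q p)) (fam_cone hκ0 γ (qt q p')) (L * ‖p - p'‖)
    (fun z => (fam_dist hκ0 hκ.le γ _ _ z).trans
      (mul_le_mul_of_nonneg_right (dist_qt_le h hL0 hL p p') (norm_nonneg z))) w' w' hw' hw'
  rw [h2, sub_zero, sub_self, norm_zero, add_zero] at e2
  have e3 := e1.trans e2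
  rw [norm_sub_rev] at e3
  rw [div_mul_eq_mul_div, le_div_iff₀ hc0]
  linarith

theorem continuousOn_Phi (hκ0 : 0 ≤ κ) (hκ : κ < 1) (γ : Sph (d + 1) → X)
    (h : IsRiemannianCube q A) :
    ContinuousOn (fun x : E (d + 1) × E (d + 1) => Phi (fam κ γ (qt q x.1)) x.2)
      (univ ×ˢ closedBall 0 κ) := by
  obtain ⟨L, hL0, hL⟩ := exists_bound h.continuousOn
  obtain ⟨C, hC0, hC⟩ := phi_lip (n := d + 1) hκ0 hκ
  intro x hx
  rw [ContinuousWithinAt, tendsto_iff_dist_tendsto_zero]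
  have hb : ∀ᶠ y in 𝓝[univ ×ˢ closedBall 0 κ] x,
      dist (Phi (fam κ γ (qt q y.1)) y.2) (Phi (fam κ γ (qt q x.1)) x.2) ≤
        C * (L * ‖y.1 - x.1‖ + ‖y.2 - x.2‖) := by
    filter_upwards [self_mem_nhdsWithin] with y hy
    rw [dist_eq_norm]
    exact hC _ _ (fam_cone hκ0 γ (qt q y.1)) (fam_cone hκ0 γ (qt q x.1)) _
      (fun z => (fam_dist hκ0 hκ.le γ _ _ z).trans
        (mul_le_mul_of_nonneg_right (dist_qt_le h hL0 hL y.1 x.1) (norm_nonneg z))) _ _
      (mem_closedBall_zero_iff.1 hy.2) (mem_closedBall_zero_iff.1 hx.2)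
  refine squeeze_zero' (Eventually.of_forall fun _ => dist_nonneg) hb ?_
  have hcont : Continuous fun y : E (d + 1) × E (d + 1) =>
      C * (L * ‖y.1 - x.1‖ + ‖y.2 - x.2‖) := by fun_prop
  have := hcont.tendsto x
  simp only [sub_self, norm_zero, mul_zero, add_zero] at this
  exact this.mono_left nhdsWithin_le_nhds

theorem isCompact_zset (hκ0 : 0 ≤ κ) (hκ : κ < 1) (γ : Sph (d + 1) → X)
    (h : IsRiemannianCube q A) : IsCompact (zset κ γ q) := by
  set T : Set (E (d + 1) × E (d + 1)) := cube (d + 1) ×ˢ closedBall 0 κ with hT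
  have hTc : IsCompact T := (isCompact_cube (d + 1)).prod (isCompact_closedBall 0 κ)
  have hcont : ContinuousOn (fun x : E (d + 1) × E (d + 1) => Phi (fam κ γ (qt q x.1)) x.2) T :=
    (continuousOn_Phi hκ0 hκ γ h).mono (prod_mono (subset_univ _) subset_rfl)
  have hcl : IsClosed (T ∩ (fun x : E (d + 1) × E (d + 1) =>
      Phi (fam κ γ (qt q x.1)) x.2) ⁻¹' {0}) :=
    hcont.preimage_isClosed_of_isClosed hTc.isClosed isClosed_singleton
  have hco : IsCompact (T ∩ (fun x : E (d + 1) × E (d + 1) =>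
      Phi (fam κ γ (qt q x.1)) x.2) ⁻¹' {0}) := hTc.of_isClosed_subset hcl inter_subset_left
  have heq : zset κ γ q = Prod.fst '' (T ∩ (fun x : E (d + 1) × E (d + 1) =>
      Phi (fam κ γ (qt q x.1)) x.2) ⁻¹' {0}) := by
    ext p
    constructor
    · rintro ⟨hp, w, hw, hz⟩
      exact ⟨(p, w), ⟨⟨hp, mem_closedBall_zero_iff.2 hw⟩, hz⟩, rfl⟩
    · rintro ⟨⟨p', w⟩, ⟨⟨hp, hw⟩, hz⟩, rfl⟩
      exact ⟨hp, w, mem_closedBall_zero_iff.1 hw, hz⟩
  rw [heq]
  exact hco.image continuous_fst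

/-- The derivative of the barycentre and its Jacobian at a good point. -/
theorem bary_deriv (hκ0 : 0 ≤ κ) (hκ : κ < 1) (γ : Sph (d + 1) → X)
    (h : IsRiemannianCube q A) {p : E (d + 1)} (hp : p ∈ zset κ γ q)
    (hpi : p ∈ interior (cube (d + 1)))
    (hd : ∀ᵐ z : E (d + 1), DifferentiableAt ℝ (fch κ γ q z) p) :
    ∃ P' : E (d + 1) →L[ℝ] E (d + 1), HasFDerivWithinAt (bary κ γ q) P' (zset κ γ q) p ∧
      |P'.det| ≤ 100 / 53 * √(1 - ‖bary κ γ q p‖ ^ 2) * √(A p).det := by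
  obtain ⟨L, hL0, hL⟩ := exists_bound h.continuousOn
  obtain ⟨hb1, hb2⟩ := bary_spec hp
  have hw : ‖bary κ γ q p‖ < 1 := lt_of_le_of_lt hb1 hκ
  obtain ⟨K, hK0, hK⟩ := exists_bary_lip hκ0 hκ γ h
  obtain ⟨N, D, hH, hN, hD⟩ := hasFDerivAt_Phi (k := d + 1) hκ0 hκ hw
    (G := fun p z => fam κ γ (qt q p) z) (p₀ := p) (L := L) (continuous_famq hκ0 hκ.le γ h)
    (fun p => fam_cone hκ0 γ (qt q p))
    (fun p p' z => (fam_dist hκ0 hκ.le γ _ _ z).trans
      (mul_le_mul_of_nonneg_right (dist_qt_le h hL0 hL p p') (norm_nonneg z))) hd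
  have hmeas : Measurable fun z : E (d + 1) => fderiv ℝ (fch κ γ q z) p := by
    have h1 := measurable_fderiv_with_param ℝ (continuous_fch hκ0 hκ.le γ h)
    exact h1.comp (measurable_id.prodMk measurable_const)
  obtain ⟨hD0, hdet⟩ := jac_bound hκ0 hκ (Nat.succ_pos d) hb1 (fam_cone hκ0 γ (qt q p)) hb2
    (posSemidef_of' h hp.1) hmeas
    (Eventually.of_forall fun z ξ => sq_fderiv_fam hκ0 hκ.le γ h hpi z ξ) hN hD
  obtain ⟨P', hP', hPN⟩ := hasFDerivWithinAt_zero hH hD0 (s := zset κ γ q) (P := bary κ γ q) rfl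
    hb2 (fun p' hp' => (bary_spec hp').2) (K := K)
    (fun p' hp' => hK _ _ _ _ (bary_spec hp').1 hb1 (bary_spec hp').2 hb2)
  refine ⟨P', hP', ?_⟩
  have hcomp : D.comp P' = -N := by
    ext1 x
    simpa using hPN x
  have h1 : D.det * P'.det = (-N).det := by
    rw [← hcomp]
    exact (LinearMap.det_comp (D : E (d + 1) →ₗ[ℝ] E (d + 1)) (P' : E (d + 1) →ₗ[ℝ] E (d + 1))).symm
  have h2 : |(-N).det| = |N.det| := by
    simp only [ContinuousLinearMap.det]
    rw [ContinuousLinearMap.toLinearMap_neg, ← neg_one_smul ℝ, LinearMap.det_smul, abs_mul, abs_pow,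
      abs_neg, abs_one, one_pow, one_mul]
  have h3 : |D.det| * |P'.det| = |N.det| := by rw [← abs_mul, h1, h2]
  have h4 : 0 < |D.det| := abs_pos.2 hD0
  rw [← h3] at hdet
  have h5 : |P'.det| * |D.det| ≤
      100 / 53 * √(1 - ‖bary κ γ q p‖ ^ 2) * √(A p).det * |D.det| := by linarith
  exact le_of_mul_le_mul_right h5 h4

theorem cube_bound (hκ0 : 0 ≤ κ) (hκ : κ < 1) (γ : Sph (d + 1) → X)
    (h : IsRiemannianCube q A) :
    ∫⁻ w in {w : E (d + 1) | ‖w‖ ≤ κ ∧ ∃ p ∈ cube (d + 1), Phi (fam κ γ (q p)) w = 0},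
      ENNReal.ofReal (√(1 - ‖w‖ ^ 2))⁻¹ ≤ ENNReal.ofReal (100 / 53 * cubeVolume A) := by
  obtain ⟨K, hK0, hK⟩ := exists_bary_lip hκ0 hκ γ h
  have hcomp := isCompact_zset hκ0 hκ γ h
  have hms : MeasurableSet (zset κ γ q) := hcomp.measurableSet
  have hlip : LipschitzOnWith (Real.toNNReal K) (bary κ γ q) (zset κ γ q) := by
    apply LipschitzOnWith.of_dist_le_mul
    intro p hp p' hp'
    rw [Real.coe_toNNReal _ hK0, dist_eq_norm, dist_eq_norm]
    exact hK _ _ _ _ (bary_spec hp).1 (bary_spec hp').1 (bary_spec hp).2 (bary_spec hp').2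
  have himg : {w : E (d + 1) | ‖w‖ ≤ κ ∧ ∃ p ∈ cube (d + 1), Phi (fam κ γ (q p)) w = 0} ⊆
      bary κ γ q '' zset κ γ q := by
    rintro w ⟨hw, p, hp, hz⟩
    have hq : qt q p = q p := by simp only [qt, clamp_of_mem hp]
    have hz' : Phi (fam κ γ (qt q p)) w = 0 := by rw [hq]; exact hz
    have hpz : p ∈ zset κ γ q := ⟨hp, w, hw, hz'⟩
    refine ⟨p, hpz, ?_⟩
    have := hK p p _ _ (bary_spec hpz).1 hw (bary_spec hpz).2 hz'
    rw [sub_self, norm_zero, mul_zero] at this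
    exact sub_eq_zero.1 (norm_le_zero_iff.1 this)
  -- the good points
  have hgood : ∀ᵐ p : E (d + 1), p ∈ zset κ γ q → ∃ P' : E (d + 1) →L[ℝ] E (d + 1),
      HasFDerivWithinAt (bary κ γ q) P' (zset κ γ q) p ∧
      |P'.det| ≤ 100 / 53 * √(1 - ‖bary κ γ q p‖ ^ 2) * √(A p).det := by
    have h1 : ∀ᵐ p : E (d + 1), p ∈ cube (d + 1) → p ∈ interior (cube (d + 1)) :=
      (ae_restrict_iff' (measurableSet_cube (d + 1))).1 (ae_interior_cube (d + 1))
    filter_upwards [h1, ae_ae_famq hκ0 hκ.le γ h] with p hp1 hp2 hp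
    exact bary_deriv hκ0 hκ γ h hp (hp1 hp.1) hp2
  set S : Set (E (d + 1)) := {p | ∃ P' : E (d + 1) →L[ℝ] E (d + 1),
      HasFDerivWithinAt (bary κ γ q) P' (zset κ γ q) p ∧
      |P'.det| ≤ 100 / 53 * √(1 - ‖bary κ γ q p‖ ^ 2) * √(A p).det} with hS
  classical
  set P' : E (d + 1) → E (d + 1) →L[ℝ] E (d + 1) := fun p =>
    if hp : p ∈ S then hp.choose else 0 with hP'
  have hP'spec : ∀ᵐ p : E (d + 1), p ∈ zset κ γ q →
      HasFDerivWithinAt (bary κ γ q) (P' p) (zset κ γ q) p ∧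
      |(P' p).det| ≤ 100 / 53 * √(1 - ‖bary κ γ q p‖ ^ 2) * √(A p).det := by
    filter_upwards [hgood] with p hp hpz
    have hpS : p ∈ S := hp hpz
    simp only [hP', dif_pos hpS]
    exact hpS.choose_spec
  have hf : Measurable fun w : E (d + 1) => ENNReal.ofReal (√(1 - ‖w‖ ^ 2))⁻¹ := by fun_prop
  refine (lintegral_mono_set himg).trans ?_
  refine (lintegral_image_le hms hlip (hP'spec.mono fun p hp hpz => (hp hpz).1) hf).trans ?_
  have hint : ∫⁻ p in zset κ γ q, ENNReal.ofReal (√(1 - ‖bary κ γ q p‖ ^ 2))⁻¹ *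
      ENNReal.ofReal |(P' p).det| ≤
      ∫⁻ p in zset κ γ q, ENNReal.ofReal (100 / 53 * √(A p).det) := by
    refine setLIntegral_mono_ae' hms ?_
    filter_upwards [hP'spec] with p hp hpz
    have h1 := (hp hpz).2
    have h2 : 0 < √(1 - ‖bary κ γ q p‖ ^ 2) :=
      Real.sqrt_pos.2 (one_sub_pos (lt_of_le_of_lt (bary_spec hpz).1 hκ))
    rw [← ENNReal.ofReal_mul (inv_nonneg.2 h2.le)]
    apply ENNReal.ofReal_le_ofReal
    rw [inv_mul_le_iff₀ h2]
    linarith
  refine hint.trans ?_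
  refine (lintegral_mono_set fun p hp => hp.1 : _ ≤ ∫⁻ p in cube (d + 1),
    ENNReal.ofReal (100 / 53 * √(A p).det)).trans ?_
  rw [← ofReal_integral_eq_lintegral_ofReal ((integrable_sqrt_det' h).const_mul _)
    (Eventually.of_forall fun p => by positivity)]
  apply ENNReal.ofReal_le_ofReal
  rw [cubeVolume, integral_const_mul]

end Pool.Agent.H65L
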