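import Pool.Agent.H65G.Basic

set_option autoImplicit false

/-!
Definitions for the Lorentz equivariant Gaussian barycentre (lower bound for the filling volume of
the round sphere which does not depend on the dimension).
-/

open Real Set MeasureTheory Metric
open scoped RealInnerProductSpace

namespace Pool.Agent.H65L

open Pool.Agent.H65G (E Sph)

variable {n : ℕ}

/-- The Gaussian weight. -/
noncomputable def wt (z : E n) : ℝ := exp (-‖z‖ ^ 2 / 2)

/-- The integral of the Gaussian weight, `(2π)^(n/2)`. -/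
noncomputable def cn (n : ℕ) : ℝ := √(2 * π) ^ n

/-- The Lorentz factor `1 / √(1 - |w|²)`. -/
noncomputable def gm (w : E n) : ℝ := (√(1 - ‖w‖ ^ 2))⁻¹

/-- The square `|z|² - τ² + γ² (τ - ⟨w,z⟩)²` of the norm of the spatial part of the boosted
point `(z, τ)`. -/
noncomputable def qf (w z : E n) (τ : ℝ) : ℝ := ‖z‖ ^ 2 - τ ^ 2 + gm w ^ 2 * (τ - ⟪w, z⟫) ^ 2

/-- The spatial boost `Λ x = x + (γ²/(γ+1)) ⟨w,x⟩ w`. -/
noncomputable def Lam (w : E n) : E n →L[ℝ] E n :=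
  ContinuousLinearMap.id ℝ (E n) + (gm w ^ 2 / (gm w + 1)) • (innerSL ℝ w).smulRight w

/-- The inverse of the spatial boost. -/
noncomputable def LamInv (w : E n) : E n →L[ℝ] E n :=
  ContinuousLinearMap.id ℝ (E n) - (gm w / (gm w + 1)) • (innerSL ℝ w).smulRight w

/-- The density of the functional. -/
noncomputable def hh (w z : E n) (τ : ℝ) : E n := exp (-qf w z τ / 2) • (z - τ • w)

/-- The derivative of `w ↦ hh w z τ` in the direction `δ`. -/
noncomputable def dhh (w z : E n) (τ : ℝ) (δ : E n) : E n :=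
  exp (-qf w z τ / 2) •
    ((gm w ^ 2 * (τ - ⟪w, z⟫) * ⟪δ, z⟫ - gm w ^ 4 * ⟪w, δ⟫ * (τ - ⟪w, z⟫) ^ 2) • (z - τ • w) -
      τ • δ)

/-- The kernel of the functional. -/
noncomputable def ker (w z : E n) (g : ℝ) : E n := ∫ τ in ⟪w, z⟫..g, hh w z τ

/-- The functional whose zero `w` is the barycentre of `G`. -/
noncomputable def Phi (G : E n → ℝ) (w : E n) : E n := ∫ z, ker w z (G z)

/-- Odd, positively homogeneous functions with Lipschitz constant `κ`. -/
structure Cone (κ : ℝ) (G : E n → ℝ) : Prop where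
  odd : ∀ z, G (-z) = -G z
  hom : ∀ (r : ℝ) (z : E n), 0 ≤ r → G (r • z) = r * G z
  lip : ∀ z z', |G z - G z'| ≤ κ * ‖z - z'‖

/-- `Ĝ` is the function whose subgraph is the boost of the subgraph of `G`. -/
structure IsBoost (w : E n) (G G' : E n → ℝ) : Prop where
  le_iff : ∀ (z : E n) (τ : ℝ), τ ≤ G z ↔ gm w * (τ - ⟪w, z⟫) ≤ G' (Lam w (z - τ • w))
  graph : ∀ z : E n, G' (Lam w (z - G z • w)) = gm w * (G z - ⟪w, z⟫)

/-- The normalised second moment `E[G²]`. -/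
noncomputable def mom (G : E n → ℝ) : ℝ := (cn n)⁻¹ * ∫ z, G z ^ 2 * wt z

/-- The correlation `E[G(Z) G(ρ Z + √(1-ρ²) Z')]`. -/
noncomputable def corr (G : E n → ℝ) (ρ : ℝ) : ℝ :=
  (cn n)⁻¹ ^ 2 * ∫ z : E n, ∫ z' : E n, G z * G (ρ • z + √(1 - ρ ^ 2) • z') * (wt z * wt z')

/-- The map `ξ ↦ E[G² (⟨Z,ξ⟩ Z - ξ)]/2`. -/
noncomputable def Wf (G : E n → ℝ) (ξ : E n) : E n :=
  (cn n)⁻¹ • ∫ z, (G z ^ 2 / 2 * wt z) • (⟪z, ξ⟫ • z - ξ)

/-- The matrix of `Wf`. -/
noncomputable def Wm (G : E n → ℝ) : Matrix (Fin n) (Fin n) ℝ :=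
  Matrix.of fun i j => Wf G (EuclideanSpace.single j (1 : ℝ)) i

end Pool.Agent.H65L
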