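import Pool.Agent.H65L.LamAlg
import Pool.Agent.H65G.Ext
import Pool.Agent.H65G.Cube

set_option autoImplicit false

/-! The cone function of a point of the filling (module LB/Family). -/

open Real Set MeasureTheory Metric Filter Topology
open scoped RealInnerProductSpace

namespace Pool.Agent.H65L

open Pool.Agent.H65G

variable {d : ℕ} {X : Type} [MetricSpace X]

/-- The direction of a vector. -/
noncomputable def dir (z : E (d + 1)) : Sph (d + 1) :=
  if h : z ≠ 0 then ⟨‖z‖⁻¹ • z, by simp [norm_smul, h]⟩ else es 0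

/-- The odd part of the extended distance functions. -/
noncomputable def ang (γ : Sph (d + 1) → X) (s : Sph (d + 1)) (x : X) : ℝ :=
  (gext 1 γ s x - gext 1 γ (-s) x) / 2

/-- The cone function of the point `x`. -/
noncomputable def fam (κ : ℝ) (γ : Sph (d + 1) → X) (x : X) (z : E (d + 1)) : ℝ :=
  κ * (‖z‖ * sin (ang γ (dir z) x))

variable {κ : ℝ} {γ : Sph (d + 1) → X}

theorem coe_dir {z : E (d + 1)} (h : z ≠ 0) : (dir z : E (d + 1)) = ‖z‖⁻¹ • z := by
  rw [dir, dif_pos h]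

theorem norm_smul_dir (z : E (d + 1)) : ‖z‖ • (dir z : E (d + 1)) = z := by
  by_cases h : z = 0
  · simp [h]
  · rw [coe_dir h, smul_smul, mul_inv_cancel₀ (norm_ne_zero_iff.2 h), one_smul]

theorem dir_neg {z : E (d + 1)} (h : z ≠ 0) : dir (-z) = -dir z := by
  have h' : -z ≠ 0 := neg_ne_zero.2 h
  apply Subtype.ext
  rw [coe_dir h', norm_neg, smul_neg, ← coe_dir h]
  rfl

theorem dir_smul {z : E (d + 1)} (h : z ≠ 0) {r : ℝ} (hr : 0 < r) : dir (r • z) = dir z := by
  have h' : r • z ≠ 0 := smul_ne_zero hr.ne' h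
  apply Subtype.ext
  rw [coe_dir h', coe_dir h, norm_smul, Real.norm_of_nonneg hr.le, smul_smul]
  congr 1
  have := norm_ne_zero_iff.2 h
  field_simp

theorem chord_one (s t : E (d + 1)) : chord 1 s t = arccos ⟪s, t⟫ := by
  unfold chord
  congr 1
  ring

theorem ang_neg (γ : Sph (d + 1) → X) (s : Sph (d + 1)) (x : X) : ang γ (-s) x = -ang γ s x := by
  unfold ang
  rw [neg_neg]
  ring

theorem abs_ang_sub_le (γ : Sph (d + 1) → X) (s s' : Sph (d + 1)) (x : X) :
    |ang γ s x - ang γ s' x| ≤ arccos ⟪(s : E (d + 1)), (s' : E (d + 1))⟫ := by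
  have h1 := abs_gext_dir_le zero_le_one le_rfl γ s s' x
  have h2 := abs_gext_dir_le zero_le_one le_rfl γ (-s) (-s') x
  rw [chord_one] at h1 h2
  have e : ⟪((-s : Sph (d + 1)) : E (d + 1)), ((-s' : Sph (d + 1)) : E (d + 1))⟫ =
      ⟪(s : E (d + 1)), (s' : E (d + 1))⟫ := by
    have : ∀ s : Sph (d + 1), ((-s : Sph (d + 1)) : E (d + 1)) = -(s : E (d + 1)) := fun s => rfl
    rw [this, this, inner_neg_neg]
  rw [e] at h2
  unfold ang
  rw [abs_le] at h1 h2 ⊢
  constructor <;> linarith [h1.1, h1.2, h2.1, h2.2]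

theorem abs_ang_le (γ : Sph (d + 1) → X) (s : Sph (d + 1)) (x : X) : |ang γ s x| ≤ π / 2 := by
  have h := abs_ang_sub_le γ s (-s) x
  rw [ang_neg] at h
  have h2 := arccos_le_pi ⟪(s : E (d + 1)), ((-s : Sph (d + 1)) : E (d + 1))⟫
  rw [abs_le] at h ⊢
  constructor <;> linarith [h.1, h.2]

theorem abs_ang_dist_le (γ : Sph (d + 1) → X) (s : Sph (d + 1)) (x y : X) :
    |ang γ s x - ang γ s y| ≤ dist x y := by
  have h1 := abs_gext_sub_le (k₁ := 1) γ s x y
  have h2 := abs_gext_sub_le (k₁ := 1) γ (-s) x y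
  unfold ang
  rw [abs_le] at h1 h2 ⊢
  constructor <;> linarith [h1.1, h1.2, h2.1, h2.2]

theorem fam_zero (κ : ℝ) (γ : Sph (d + 1) → X) (x : X) : fam κ γ x 0 = 0 := by
  simp [fam]

theorem abs_fam_le (hκ0 : 0 ≤ κ) (γ : Sph (d + 1) → X) (x : X) (z : E (d + 1)) :
    |fam κ γ x z| ≤ κ * ‖z‖ := by
  unfold fam
  rw [abs_mul, abs_of_nonneg hκ0, abs_mul, abs_norm]
  have := abs_sin_le_one (ang γ (dir z) x)
  have h2 := norm_nonneg z
  gcongr
  nlinarith

/-- The planar law of cosines. -/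
theorem sin_lip {a b α β c : ℝ} (ha : 0 ≤ a) (hb : 0 ≤ b) (h : |α - β| ≤ arccos c) (hc1 : -1 ≤ c)
    (hc2 : c ≤ 1) : (a * sin α - b * sin β) ^ 2 ≤ a ^ 2 + b ^ 2 - 2 * a * b * c := by
  have h1 : c ≤ cos (α - β) := by
    rw [← cos_abs (α - β), ← cos_arccos hc1 hc2]
    exact cos_le_cos_of_nonneg_of_le_pi (abs_nonneg _) (arccos_le_pi _) h
  have h2 : cos (α - β) = cos α * cos β + sin α * sin β := cos_sub α β
  have h3 : (a * sin α - b * sin β) ^ 2 + (a * cos α - b * cos β) ^ 2 =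
      a ^ 2 + b ^ 2 - 2 * a * b * cos (α - β) := by
    rw [h2]
    nlinarith [sin_sq_add_cos_sq α, sin_sq_add_cos_sq β]
  have h4 : 2 * a * b * c ≤ 2 * a * b * cos (α - β) :=
    mul_le_mul_of_nonneg_left h1 (by positivity)
  nlinarith [sq_nonneg (a * cos α - b * cos β)]

theorem fam_lip (hκ0 : 0 ≤ κ) (γ : Sph (d + 1) → X) (x : X) (z z' : E (d + 1)) :
    |fam κ γ x z - fam κ γ x z'| ≤ κ * ‖z - z'‖ := by
  have hmain : (‖z‖ * sin (ang γ (dir z) x) - ‖z'‖ * sin (ang γ (dir z') x)) ^ 2 ≤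
      ‖z - z'‖ ^ 2 := by
    have h := sin_lip (norm_nonneg z) (norm_nonneg z') (abs_ang_sub_le γ (dir z) (dir z') x)
      (by
        have := abs_real_inner_le_norm (dir z : E (d + 1)) (dir z' : E (d + 1))
        simp only [norm_eq_of_mem_sphere, mul_one] at this
        exact (abs_le.1 this).1)
      (by
        have := abs_real_inner_le_norm (dir z : E (d + 1)) (dir z' : E (d + 1))
        simp only [norm_eq_of_mem_sphere, mul_one] at this
        exact (abs_le.1 this).2)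
    refine h.trans (le_of_eq ?_)
    rw [norm_sub_sq_real]
    have e : ⟪z, z'⟫ = ‖z‖ * ‖z'‖ * ⟪(dir z : E (d + 1)), (dir z' : E (d + 1))⟫ := by
      conv_lhs => rw [← norm_smul_dir z, ← norm_smul_dir z']
      rw [real_inner_smul_left, real_inner_smul_right]
      ring
    rw [e]
    ring
  have h2 := abs_le_of_sq_le_sq hmain (norm_nonneg _)
  unfold fam
  rw [← mul_sub, abs_mul, abs_of_nonneg hκ0]
  gcongr

theorem fam_cone (hκ0 : 0 ≤ κ) (γ : Sph (d + 1) → X) (x : X) : Cone κ (fam κ γ x) := by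
  refine ⟨fun z => ?_, fun r z hr => ?_, fam_lip hκ0 γ x⟩
  · by_cases h : z = 0
    · simp [h, fam_zero]
    · unfold fam
      rw [dir_neg h, ang_neg, sin_neg, norm_neg]
      ring
  · by_cases h : z = 0
    · simp [h, fam_zero]
    rcases hr.eq_or_lt with rfl | hr'
    · simp [fam_zero]
    · unfold fam
      rw [dir_smul h hr', norm_smul, Real.norm_of_nonneg hr]
      ring

theorem fam_dist (hκ0 : 0 ≤ κ) (hκ : κ ≤ 1) (γ : Sph (d + 1) → X) (x y : X) (z : E (d + 1)) :
    |fam κ γ x z - fam κ γ y z| ≤ dist x y * ‖z‖ := by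
  unfold fam
  rw [← mul_sub, ← mul_sub, abs_mul, abs_of_nonneg hκ0, abs_mul, abs_norm]
  have h1 := abs_sin_sub_sin_le (ang γ (dir z) x) (ang γ (dir z) y)
  have h2 := abs_ang_dist_le γ (dir z) x y
  have h3 := norm_nonneg z
  have h4 : (0 : ℝ) ≤ dist x y := dist_nonneg
  calc κ * (‖z‖ * |sin (ang γ (dir z) x) - sin (ang γ (dir z) y)|) ≤ 1 * (‖z‖ * dist x y) := by
        gcongr
        exact h1.trans h2
    _ = _ := by ring

theorem fam_gamma (hns : ∀ s t : Sph (d + 1),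
      arccos ⟪(s : E (d + 1)), (t : E (d + 1))⟫ ≤ dist (γ s) (γ t)) (t : Sph (d + 1))
    (z : E (d + 1)) : fam κ γ (γ t) z = κ * ⟪(t : E (d + 1)), z⟫ := by
  have hg : ∀ s : Sph (d + 1), gext 1 γ s (γ t) = arcsin ⟪(t : E (d + 1)), (s : E (d + 1))⟫ := by
    intro s
    rw [gext_gamma zero_le_one le_rfl (fun s t => by rw [chord_one]; exact hns s t), one_mul]
  have ha : ang γ (dir z) (γ t) = arcsin ⟪(t : E (d + 1)), (dir z : E (d + 1))⟫ := by
    unfold ang
    rw [hg, hg]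
    have : ((-dir z : Sph (d + 1)) : E (d + 1)) = -(dir z : E (d + 1)) := rfl
    rw [this, inner_neg_right, arcsin_neg]
    ring
  have hb := abs_real_inner_le_norm (t : E (d + 1)) (dir z : E (d + 1))
  simp only [norm_eq_of_mem_sphere, mul_one] at hb
  unfold fam
  rw [ha, sin_arcsin (abs_le.1 hb).1 (abs_le.1 hb).2, ← real_inner_smul_right, norm_smul_dir]

theorem continuous_fam (hκ0 : 0 ≤ κ) (hκ : κ ≤ 1) (γ : Sph (d + 1) → X) :
    Continuous fun p : X × E (d + 1) => fam κ γ p.1 p.2 := by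
  rw [continuous_iff_continuousAt]
  rintro ⟨x₀, z₀⟩
  rw [ContinuousAt, tendsto_iff_dist_tendsto_zero]
  have hb : ∀ p : X × E (d + 1), dist (fam κ γ p.1 p.2) (fam κ γ x₀ z₀) ≤
      κ * ‖p.2 - z₀‖ + dist p.1 x₀ * ‖z₀‖ := by
    intro p
    rw [Real.dist_eq]
    have h1 := fam_lip hκ0 γ p.1 p.2 z₀
    have h2 := fam_dist hκ0 hκ γ p.1 x₀ z₀
    have h3 := abs_sub_le (fam κ γ p.1 p.2) (fam κ γ p.1 z₀) (fam κ γ x₀ z₀)
    linarith
  refine squeeze_zero (fun p => dist_nonneg) hb ?_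
  have hcont : Continuous fun p : X × E (d + 1) =>
      κ * ‖p.2 - z₀‖ + dist p.1 x₀ * ‖z₀‖ := by
    fun_prop
  have := hcont.tendsto (x₀, z₀)
  simpa using this

theorem sq_fderiv_fam (hκ0 : 0 ≤ κ) (hκ : κ ≤ 1) (γ : Sph (d + 1) → X) {q : E (d + 1) → X}
    {A : E (d + 1) → Matrix (Fin (d + 1)) (Fin (d + 1)) ℝ} (h : IsRiemannianCube q A)
    {p : E (d + 1)} (hp : p ∈ interior (cube (d + 1))) (z ξ : E (d + 1)) :
    (fderiv ℝ (fun p => fam κ γ (qt q p) z) p ξ) ^ 2 ≤
      (‖z‖ ^ 2 - fam κ γ (qt q p) z ^ 2) * quad (A p) ξ := by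
  have hpc : p ∈ cube (d + 1) := interior_subset hp
  have hq0 := h.nonneg p hpc ξ
  set u : E (d + 1) → ℝ := fun p => ang γ (dir z) (qt q p) with hu
  set c : ℝ := κ * ‖z‖ with hc
  have hc0 : 0 ≤ c := by positivity
  have hcz : c ≤ ‖z‖ := by
    rw [hc]
    have := norm_nonneg z
    nlinarith
  have hfam : (fun p => fam κ γ (qt q p) z) = fun p => c * sin (u p) := by
    funext p
    simp only [fam, hu, hc]
    ring
  have hfam' : fam κ γ (qt q p) z = c * sin (u p) := congrFun hfam p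
  rw [hfam, hfam']
  have hcs : c ^ 2 ≤ ‖z‖ ^ 2 := by gcongr
  have hsin : (c * sin (u p)) ^ 2 ≤ c ^ 2 := by
    rw [mul_pow]
    have := sin_sq_le_one (u p)
    have := sq_nonneg c
    nlinarith
  have hrhs : 0 ≤ (‖z‖ ^ 2 - (c * sin (u p)) ^ 2) * quad (A p) ξ :=
    mul_nonneg (by linarith) hq0
  by_cases hd : DifferentiableAt ℝ (fun p => c * sin (u p)) p
  swap
  · rw [fderiv_zero_of_not_differentiableAt hd]
    simpa using hrhs
  by_cases hcp : c = 0
  · have : (fun p => c * sin (u p)) = fun _ => (0 : ℝ) := by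
      funext p
      rw [hcp, zero_mul]
    rw [this]
    simpa using hrhs
  have hcp' : 0 < c := lt_of_le_of_ne hc0 (Ne.symm hcp)
  have hub : ∀ p, |u p| ≤ π / 2 := fun p => abs_ang_le γ (dir z) (qt q p)
  by_cases hext : |sin (u p)| = 1
  · have hz : fderiv ℝ (fun p => c * sin (u p)) p = 0 := by
      rcases abs_eq (zero_le_one' ℝ) |>.1 hext with h1 | h1
      · have : IsLocalMax (fun p => c * sin (u p)) p := by
          refine Filter.Eventually.of_forall fun y => ?_
          simp only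
          rw [h1]
          have := sin_le_one (u y)
          gcongr
        exact this.fderiv_eq_zero
      · have : IsLocalMin (fun p => c * sin (u p)) p := by
          refine Filter.Eventually.of_forall fun y => ?_
          simp only
          rw [h1]
          have := neg_one_le_sin (u y)
          gcongr
        exact this.fderiv_eq_zero
    rw [hz]
    simpa using hrhs
  have hlt : |sin (u p)| < 1 := lt_of_le_of_ne (abs_sin_le_one _) hext
  have hus : u = fun p => arcsin (c⁻¹ * (c * sin (u p))) := by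
    funext y
    rw [← mul_assoc, inv_mul_cancel₀ hcp, one_mul, arcsin_sin (abs_le.1 (hub y)).1
      (abs_le.1 (hub y)).2]
  have hval : c⁻¹ * (c * sin (u p)) = sin (u p) := by
    rw [← mul_assoc, inv_mul_cancel₀ hcp, one_mul]
  have hdu : DifferentiableAt ℝ u p := by
    rw [hus]
    have h1 : DifferentiableAt ℝ arcsin (c⁻¹ * (c * sin (u p))) := by
      rw [hval]
      refine differentiableAt_arcsin.2 ⟨?_, ?_⟩
      · intro h2
        rw [h2] at hlt
        norm_num at hlt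
      · intro h2
        rw [h2] at hlt
        norm_num at hlt
    have h2 : DifferentiableAt ℝ (arcsin ∘ fun p => c⁻¹ * (c * sin (u p))) p :=
      DifferentiableAt.comp (g := arcsin) p h1 (hd.const_mul c⁻¹)
    exact h2
  have hder : fderiv ℝ (fun p => c * sin (u p)) p ξ = c * (cos (u p) * fderiv ℝ u p ξ) := by
    have h1 : HasFDerivAt (fun p => c * sin (u p)) (c • (cos (u p) • fderiv ℝ u p)) p :=
      (hdu.hasFDerivAt.sin).const_mul c
    rw [h1.fderiv]
    simp
  have hgrad : (fderiv ℝ u p ξ) ^ 2 ≤ quad (A p) ξ :=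
    sq_fderiv_le h (g := ang γ (dir z)) (abs_ang_dist_le γ (dir z)) hp ξ
  rw [hder]
  have hcos : cos (u p) ^ 2 = 1 - sin (u p) ^ 2 := by
    have := sin_sq_add_cos_sq (u p)
    linarith
  calc (c * (cos (u p) * fderiv ℝ u p ξ)) ^ 2 = c ^ 2 * cos (u p) ^ 2 * (fderiv ℝ u p ξ) ^ 2 := by
        ring
    _ ≤ c ^ 2 * cos (u p) ^ 2 * quad (A p) ξ := by gcongr
    _ = (c ^ 2 - (c * sin (u p)) ^ 2) * quad (A p) ξ := by rw [hcos]; ring
    _ ≤ _ := by gcongr

end Pool.Agent.H65L
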