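import Pool.Agent.H65L.RetDefs
import Pool.Agent.H65L.Family
import Pool.Agent.H65L.Lower
import Pool.Agent.H65L.PhiLip

set_option autoImplicit false

/-! Existence of zeros (module LB/Exist). -/

open Real Set MeasureTheory Metric Filter Topology
open scoped RealInnerProductSpace

namespace Pool.Agent.H65L

open Pool.Agent.H65G

variable {d : ℕ} {X : Type} [MetricSpace X]

namespace ExistAux

/-- Normalisation of a nonzero vector. -/
noncomputable def nrm {n : ℕ} (v : E n) (hv : v ≠ 0) : Sph n :=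
  ⟨‖v‖⁻¹ • v, by simp [norm_smul, hv]⟩

theorem continuous_nrm {n : ℕ} {Y : Type} [TopologicalSpace Y] {f : Y → E n} (hf : Continuous f)
    (h0 : ∀ y, f y ≠ 0) : Continuous fun y => nrm (f y) (h0 y) := by
  unfold nrm
  refine Continuous.subtype_mk ?_ _
  exact (hf.norm.inv₀ fun y => norm_ne_zero_iff.2 (h0 y)).smul hf

/-- The linear cone function. -/
noncomputable def lin {n : ℕ} (κ : ℝ) (t z : E n) : ℝ := κ * ⟪t, z⟫

theorem lin_cone {n : ℕ} {κ : ℝ} (hκ : 0 ≤ κ) {t : E n} (ht : ‖t‖ = 1) : Cone κ (lin κ t) := by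
  refine ⟨fun z => ?_, fun r z _ => ?_, fun z z' => ?_⟩
  · simp [lin, inner_neg_right]
  · simp only [lin, real_inner_smul_right]; ring
  · have h : lin κ t z - lin κ t z' = κ * ⟪t, z - z'⟫ := by
      simp only [lin, inner_sub_right]; ring
    rw [h, abs_mul, abs_of_nonneg hκ]
    have := abs_real_inner_le_norm t (z - z')
    rw [ht, one_mul] at this
    gcongr

theorem lin_sub {n : ℕ} {κ : ℝ} (hκ : 0 ≤ κ) (t t' z : E n) :
    |lin κ t z - lin κ t' z| ≤ (κ * ‖t - t'‖) * ‖z‖ := by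
  have h : lin κ t z - lin κ t' z = κ * ⟪t - t', z⟫ := by
    simp only [lin, inner_sub_left]; ring
  rw [h, abs_mul, abs_of_nonneg hκ, mul_assoc]
  gcongr
  exact abs_real_inner_le_norm _ _

theorem Phi_lin_self {n : ℕ} (κ : ℝ) (t : E n) : Phi (lin κ t) (κ • t) = 0 := by
  unfold Phi
  have : ∀ z, ker (κ • t) z (lin κ t z) = 0 := by
    intro z
    unfold ker lin
    rw [real_inner_smul_left, intervalIntegral.integral_same]
  simp [this]

theorem Phi_lin_zero {n : ℕ} (κ : ℝ) (t : E n) : Phi (lin κ t) 0 = (κ * cn n) • t := by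
  unfold Phi
  have h1 : ∀ z : E n, ker 0 z (lin κ t z) = κ • ((⟪z, t⟫ * wt z) • z) := by
    intro z
    unfold ker
    have h2 : ∀ τ : ℝ, hh (0 : E n) z τ = wt z • z := by
      intro τ
      unfold hh qf gm wt
      simp
    simp only [h2, inner_zero_left, intervalIntegral.integral_const, sub_zero, lin, smul_smul]
    rw [real_inner_comm]
    congr 1; ring
  simp only [h1]
  rw [integral_smul, integral_inner_smul_wt, smul_smul]

end ExistAux

open ExistAux

theorem exists_zero {κ : ℝ} (hκ0 : 0 < κ) (hκ : κ < 1) (γ : C(Sph (d + 1), X))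
    (hns : ∀ s t : Sph (d + 1), arccos ⟪(s : E (d + 1)), (t : E (d + 1))⟫ ≤ dist (γ s) (γ t))
    (hess : NoRetraction γ) {w : E (d + 1)} (hw : ‖w‖ < κ) : ∃ x, Phi (fam κ γ x) w = 0 := by
  by_contra hcon
  push Not at hcon
  obtain ⟨C, hC0, hC⟩ := phi_lip (n := d + 1) hκ0.le hκ
  obtain ⟨c, hc0, hc⟩ := phi_lower (n := d + 1) hκ0.le hκ
  have hcone : ∀ x, Cone κ (fam κ γ x) := fun x => fam_cone hκ0.le γ x
  -- the retraction
  have hcr : Continuous fun x => Phi (fam κ γ x) w := by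
    have hL : LipschitzWith C.toNNReal fun x => Phi (fam κ γ x) w := by
      refine LipschitzWith.of_dist_le_mul fun x y => ?_
      rw [dist_eq_norm, Real.coe_toNNReal C hC0]
      have := hC _ _ (hcone x) (hcone y) (dist x y) (fun z => fam_dist hκ0.le hκ.le γ x y z) w w
        hw.le hw.le
      simpa using this
    exact hL.continuous
  let r : C(X, Sph (d + 1)) := ⟨fun x => nrm (Phi (fam κ γ x) w) (hcon x), continuous_nrm hcr hcon⟩
  -- the homotopy
  let Ψ : unitInterval × Sph (d + 1) → E (d + 1) := fun p =>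
    Phi (lin κ (p.2 : E (d + 1))) ((1 - (p.1 : ℝ)) • w)
  have hsn : ∀ s : unitInterval, ‖(1 - (s : ℝ)) • w‖ ≤ ‖w‖ := by
    intro s
    rw [norm_smul, Real.norm_eq_abs, abs_of_nonneg (by linarith [s.2.2])]
    have := norm_nonneg w
    nlinarith [s.2.1]
  have ht1 : ∀ t : Sph (d + 1), ‖(t : E (d + 1))‖ = 1 := fun t => by simp
  have hΨc : Continuous Ψ := by
    have hL : LipschitzWith (C * (κ + ‖w‖)).toNNReal Ψ := by
      refine LipschitzWith.of_dist_le_mul fun p q => ?_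
      rw [dist_eq_norm, Real.coe_toNNReal _ (by positivity)]
      have h1 := hC _ _ (lin_cone hκ0.le (ht1 p.2)) (lin_cone hκ0.le (ht1 q.2))
        (κ * ‖(p.2 : E (d + 1)) - (q.2 : E (d + 1))‖) (fun z => lin_sub hκ0.le _ _ z)
        ((1 - (p.1 : ℝ)) • w) ((1 - (q.1 : ℝ)) • w) ((hsn p.1).trans hw.le) ((hsn q.1).trans hw.le)
      refine h1.trans ?_
      have h2 : ‖(p.2 : E (d + 1)) - (q.2 : E (d + 1))‖ ≤ dist p q := by
        rw [← dist_eq_norm]
        exact le_max_right _ _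
      have h3 : ‖(1 - (p.1 : ℝ)) • w - (1 - (q.1 : ℝ)) • w‖ ≤ ‖w‖ * dist p q := by
        rw [← sub_smul, norm_smul, mul_comm]
        have : ‖(1 - (p.1 : ℝ)) - (1 - (q.1 : ℝ))‖ ≤ dist p q := by
          rw [show (1 - (p.1 : ℝ)) - (1 - (q.1 : ℝ)) = (q.1 : ℝ) - (p.1 : ℝ) by ring,
            ← dist_eq_norm, dist_comm]
          exact le_max_left _ _
        gcongr
      calc C * (κ * ‖(p.2 : E (d + 1)) - (q.2 : E (d + 1))‖ +
          ‖(1 - (p.1 : ℝ)) • w - (1 - (q.1 : ℝ)) • w‖)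
          ≤ C * (κ * dist p q + ‖w‖ * dist p q) := by gcongr
        _ = C * (κ + ‖w‖) * dist p q := by ring
    exact hL.continuous
  have hΨ0 : ∀ p, Ψ p ≠ 0 := by
    intro p hp
    have h1 := hc _ (lin_cone hκ0.le (ht1 p.2)) (κ • (p.2 : E (d + 1))) ((1 - (p.1 : ℝ)) • w)
      (by rw [norm_smul, ht1, Real.norm_eq_abs, abs_of_pos hκ0, mul_one])
      ((hsn p.1).trans hw.le) (Phi_lin_self κ _)
    have h2 : Phi (lin κ (p.2 : E (d + 1))) ((1 - (p.1 : ℝ)) • w) = 0 := hp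
    rw [h2, norm_zero] at h1
    have h3 : κ - ‖w‖ ≤ ‖(1 - (p.1 : ℝ)) • w - κ • (p.2 : E (d + 1))‖ := by
      have h4 := norm_sub_norm_le (κ • (p.2 : E (d + 1))) ((1 - (p.1 : ℝ)) • w)
      rw [norm_smul, ht1, Real.norm_eq_abs, abs_of_pos hκ0, mul_one, norm_sub_rev] at h4
      linarith [hsn p.1]
    nlinarith
  refine hess r ⟨⟨⟨fun p => nrm (Ψ p) (hΨ0 p), continuous_nrm hΨc hΨ0⟩, ?_, ?_⟩⟩
  · intro t
    have h1 : fam κ γ (γ t) = lin κ (t : E (d + 1)) := by
      funext z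
      rw [fam_gamma hns]; rfl
    have h2 : Ψ (0, t) = Phi (fam κ γ (γ t)) w := by
      simp only [Ψ, h1]
      simp
    change nrm (Ψ (0, t)) (hΨ0 (0, t)) = nrm (Phi (fam κ γ (γ t)) w) (hcon (γ t))
    simp only [nrm, h2]
  · intro t
    have h2 : Ψ (1, t) = (κ * cn (d + 1)) • (t : E (d + 1)) := by
      simp only [Ψ]
      rw [show (1 - ((1 : unitInterval) : ℝ)) = 0 by simp, zero_smul]
      exact Phi_lin_zero κ _
    change nrm (Ψ (1, t)) (hΨ0 (1, t)) = t
    have hk : 0 < κ * cn (d + 1) := mul_pos hκ0 (cn_pos _)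
    apply Subtype.ext
    simp only [nrm, h2, norm_smul, ht1, mul_one, Real.norm_eq_abs, abs_of_pos hk, smul_smul]
    rw [inv_mul_cancel₀ hk.ne', one_smul]

end Pool.Agent.H65L
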