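import Pool.Agent.H65G.Cap

set_option autoImplicit false

/-! The volume of the hemisphere in the orthographic picture (module LB/Hemi). -/

open Real Set MeasureTheory Metric Filter Topology
open scoped RealInnerProductSpace Pointwise

namespace Pool.Agent.H65L

open Pool.Agent.H65G

variable {d : ℕ}

theorem hemisphere_le (hd : 1 ≤ d) {V : ℝ} (hV0 : 0 ≤ V)
    (hV : ∀ κ : ℝ, 0 < κ → κ < 1 →
      ∫⁻ w in ball (0 : E (d + 1)) κ, ENNReal.ofReal (√(1 - ‖w‖ ^ 2))⁻¹ ≤ ENNReal.ofReal V) :
    hemisphereVolume (d + 1) ≤ V := by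
  -- the cap of radius R
  have hcap : ∀ R : ℝ, 0 < R → R < π / 2 → capVolume (d + 1) R ≤ V := by
    intro R hR0 hR1
    have hk0 : 0 < sin R := sin_pos_of_pos_of_lt_pi hR0 (by linarith)
    have hk1 : sin R < 1 := by
      have := sin_lt_sin_of_lt_of_le_pi_div_two (x := R) (y := π / 2) (by linarith) le_rfl hR1
      rwa [sin_pi_div_two] at this
    rw [← int_cap d hR0 hR1]
    set κ := sin R with hκ
    set g : E (d + 1) → ℝ := fun w => (√(1 - ‖w‖ ^ 2))⁻¹ with hg
    have hg0 : ∀ w, 0 ≤ g w := fun w => inv_nonneg.2 (Real.sqrt_nonneg _)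
    have hgm : Measurable g := by
      rw [hg]
      fun_prop
    have h1 : ∫ y in closedBall (0 : E (d + 1)) 1, κ ^ (d + 1) * (√(1 - (κ * ‖y‖) ^ 2))⁻¹ =
        ∫ w in closedBall (0 : E (d + 1)) κ, g w := by
      have h2 := Measure.setIntegral_comp_smul_of_pos (volume : Measure (E (d + 1))) g
        (closedBall (0 : E (d + 1)) 1) hk0
      rw [finrank_euclideanSpace_fin] at h2
      have h3 : κ • closedBall (0 : E (d + 1)) 1 = closedBall (0 : E (d + 1)) κ := by
        rw [smul_unitClosedBall_of_nonneg hk0.le]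
      rw [h3] at h2
      rw [integral_const_mul]
      have h4 : ∫ y in closedBall (0 : E (d + 1)) 1, (√(1 - (κ * ‖y‖) ^ 2))⁻¹ =
          ∫ y in closedBall (0 : E (d + 1)) 1, g (κ • y) := by
        congr 1
        funext y
        rw [hg]
        simp only
        rw [norm_smul, Real.norm_of_nonneg hk0.le]
      rw [h4, h2, smul_eq_mul, ← mul_assoc, mul_inv_cancel₀ (by positivity), one_mul]
    rw [h1, integral_eq_lintegral_of_nonneg_ae (Eventually.of_forall hg0)
      hgm.aestronglyMeasurable]
    have h5 : ∫⁻ w in closedBall (0 : E (d + 1)) κ, ENNReal.ofReal (g w) ≤ ENNReal.ofReal V := by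
      refine (lintegral_mono_set ?_).trans (hV ((1 + κ) / 2) (by linarith) (by linarith))
      exact closedBall_subset_ball (by linarith)
    exact ENNReal.toReal_le_of_le_ofReal hV0 h5
  -- the limit
  have hcont : Continuous fun R : ℝ => capVolume (d + 1) R := by
    unfold capVolume
    refine continuous_const.mul (intervalIntegral.continuous_primitive (fun a b => ?_) 0)
    exact (by fun_prop : Continuous fun θ : ℝ => sin θ ^ (d + 1 - 1)).intervalIntegrable _ _
  have h6 : Tendsto (fun R : ℝ => capVolume (d + 1) R) (𝓝[<] (π / 2))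
      (𝓝 (hemisphereVolume (d + 1))) :=
    (hcont.tendsto (π / 2)).mono_left nhdsWithin_le_nhds
  have hpi : (0 : ℝ) < π / 2 := by positivity
  refine le_of_tendsto h6 ?_
  filter_upwards [Ioo_mem_nhdsLT hpi] with R hR
  exact hcap R hR.1 hR.2

end Pool.Agent.H65L
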