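import Pool.Agent.H65L.CubeA
import Pool.Agent.H65L.Exist
import Pool.Agent.H65L.Hemi

set_option autoImplicit false

/-! Assembly (module LB/Final). -/

open Real Set MeasureTheory Metric Filter Topology
open scoped RealInnerProductSpace

namespace Pool.Agent.H65L

open Pool.Agent.H65G

variable {d : ℕ} {X : Type} [MetricSpace X]

theorem ball_subset {κ : ℝ} (hκ0 : 0 < κ) (hκ : κ < 1) (γ : C(Sph (d + 1), X))
    (hns : ∀ s t : Sph (d + 1), arccos ⟪(s : E (d + 1)), (t : E (d + 1))⟫ ≤ dist (γ s) (γ t))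
    (hess : NoRetraction γ) {ι : Type} {q : ι → E (d + 1) → X}
    (hcov : ∀ x, ∃ i, ∃ p ∈ cube (d + 1), q i p = x) :
    ball (0 : E (d + 1)) κ ⊆
      ⋃ i, {w : E (d + 1) | ‖w‖ ≤ κ ∧ ∃ p ∈ cube (d + 1), Phi (fam κ γ (q i p)) w = 0} := by
  intro w hw
  have hw' : ‖w‖ < κ := mem_ball_zero_iff.1 hw
  obtain ⟨x, hx⟩ := exists_zero hκ0 hκ γ hns hess hw'
  obtain ⟨i, p, hp, rfl⟩ := hcov x
  exact mem_iUnion.2 ⟨i, hw'.le, p, hp, hx⟩

theorem main_bound (hd : 1 ≤ d) (γ : C(Sph (d + 1), X))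
    (hns : ∀ s t : Sph (d + 1), arccos ⟪(s : E (d + 1)), (t : E (d + 1))⟫ ≤ dist (γ s) (γ t))
    (hess : NoRetraction γ) {ι : Type} [Fintype ι] {q : ι → E (d + 1) → X}
    {A : ι → E (d + 1) → Matrix (Fin (d + 1)) (Fin (d + 1)) ℝ}
    (hq : ∀ i, IsRiemannianCube (q i) (A i))
    (hcov : ∀ x, ∃ i, ∃ p ∈ cube (d + 1), q i p = x) :
    53 / 100 * hemisphereVolume (d + 1) ≤ ∑ i, cubeVolume (A i) := by
  have h0 : ∀ i, 0 ≤ 100 / 53 * cubeVolume (A i) := fun i =>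
    mul_nonneg (by norm_num) (integral_nonneg fun p => Real.sqrt_nonneg _)
  have key : hemisphereVolume (d + 1) ≤ ∑ i, 100 / 53 * cubeVolume (A i) := by
    refine hemisphere_le hd (Finset.sum_nonneg fun i _ => h0 i) fun κ hκ0 hκ => ?_
    refine (lintegral_mono_set (ball_subset hκ0 hκ γ hns hess hcov)).trans ?_
    refine (lintegral_iUnion_le _ _).trans ?_
    rw [tsum_fintype, ENNReal.ofReal_sum_of_nonneg fun i _ => h0 i]
    exact Finset.sum_le_sum fun i _ => cube_bound hκ0.le hκ γ (hq i)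
  rw [← Finset.mul_sum] at key
  linarith

end Pool.Agent.H65L
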