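import Pool.Agent.H65L.Kernel

set_option autoImplicit false

/-! Bounds for the kernel (module LB/KerLip). -/

open Real Set MeasureTheory Metric Filter Topology
open scoped RealInnerProductSpace

namespace Pool.Agent.H65L

open Pool.Agent.H65G

variable {n : ℕ}

namespace KerLip

theorem continuous_hh (w : E n) : Continuous fun p : E n × ℝ => hh w p.1 p.2 := by
  unfold hh qf
  fun_prop

theorem continuous_hh_tau (w z : E n) : Continuous fun τ : ℝ => hh w z τ := by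
  unfold hh qf
  fun_prop

theorem exp_qf_le {κ : ℝ} {w z : E n} {τ : ℝ} (h : |τ| ≤ κ * ‖z‖) :
    exp (-qf w z τ / 2) ≤ exp (-((1 - κ ^ 2) / 2 * ‖z‖ ^ 2)) := by
  apply Real.exp_le_exp.2
  have := qf_lower (w := w) h
  linarith

theorem norm_sub_smul_le {κ : ℝ} (hκ0 : 0 ≤ κ) (hκ : κ < 1) {w z : E n} {τ : ℝ} (hw : ‖w‖ ≤ κ)
    (h : |τ| ≤ κ * ‖z‖) : ‖z - τ • w‖ ≤ 2 * ‖z‖ := by
  have h1 := norm_sub_le z (τ • w)
  rw [norm_smul, Real.norm_eq_abs] at h1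
  have h2 : |τ| * ‖w‖ ≤ κ * ‖z‖ * κ := mul_le_mul h hw (norm_nonneg _) (by positivity)
  have h3 : κ * ‖z‖ * κ ≤ ‖z‖ := by
    have : κ * κ ≤ 1 := by nlinarith
    nlinarith [norm_nonneg z]
  linarith

theorem norm_hh_le {κ : ℝ} (hκ0 : 0 ≤ κ) (hκ : κ < 1) {w z : E n} {τ : ℝ} (hw : ‖w‖ ≤ κ)
    (h : |τ| ≤ κ * ‖z‖) :
    ‖hh w z τ‖ ≤ 2 * ‖z‖ * exp (-((1 - κ ^ 2) / 2 * ‖z‖ ^ 2)) := by
  unfold hh
  rw [norm_smul, Real.norm_eq_abs, abs_of_pos (exp_pos _), mul_comm]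
  exact mul_le_mul (norm_sub_smul_le hκ0 hκ hw h) (exp_qf_le h) (exp_pos _).le (by positivity)

theorem abs_inner_le {κ : ℝ} {w z : E n} (hw : ‖w‖ ≤ κ) : |⟪w, z⟫| ≤ κ * ‖z‖ :=
  (abs_real_inner_le_norm w z).trans (mul_le_mul_of_nonneg_right hw (norm_nonneg _))

/-- the constant -/
noncomputable def cst (κ : ℝ) : ℝ := 4 * (1 - κ ^ 2)⁻¹ + 8 * (1 - κ ^ 2)⁻¹ ^ 2 + 1

theorem cst_nonneg {κ : ℝ} (hκ0 : 0 ≤ κ) (hκ : κ < 1) : 0 ≤ cst κ := by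
  have : 0 < 1 - κ ^ 2 := by nlinarith
  unfold cst
  positivity

theorem norm_dhh_le {κ : ℝ} (hκ0 : 0 ≤ κ) (hκ : κ < 1) {w z δ : E n} {τ : ℝ} (hw : ‖w‖ ≤ κ)
    (h : |τ| ≤ κ * ‖z‖) :
    ‖dhh w z τ δ‖ ≤ cst κ * (1 + ‖z‖) ^ 3 * exp (-((1 - κ ^ 2) / 2 * ‖z‖ ^ 2)) * ‖δ‖ := by
  have hw1 : ‖w‖ < 1 := hw.trans_lt hκ
  have hM : 0 < 1 - κ ^ 2 := by nlinarith
  set M := (1 - κ ^ 2)⁻¹ with hMdef
  have hM0 : 0 < M := inv_pos.2 hM
  have hg : gm w ^ 2 ≤ M := by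
    rw [gm_sq hw1, hMdef]
    apply inv_anti₀ hM
    have := pow_le_pow_left₀ (norm_nonneg w) hw 2
    linarith
  have hg4 : gm w ^ 4 ≤ M ^ 2 := by
    have h1 : gm w ^ 4 = (gm w ^ 2) ^ 2 := by ring
    rw [h1]
    exact pow_le_pow_left₀ (by positivity) hg 2
  set a := ‖z‖ with ha
  have ha0 : 0 ≤ a := norm_nonneg z
  set d := ‖δ‖ with hd
  have hd0 : 0 ≤ d := norm_nonneg δ
  have hτ : |τ| ≤ a := h.trans (by nlinarith)
  have ht : |τ - ⟪w, z⟫| ≤ 2 * a := by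
    have h1 := abs_sub τ ⟪w, z⟫
    have h2 : |⟪w, z⟫| ≤ a := (abs_inner_le hw).trans (by nlinarith)
    linarith
  have hδ : |⟪δ, z⟫| ≤ d * a := abs_real_inner_le_norm δ z
  have hwd : |⟪w, δ⟫| ≤ d := by
    refine (abs_inner_le hw).trans ?_
    nlinarith
  have hc : |gm w ^ 2 * (τ - ⟪w, z⟫) * ⟪δ, z⟫ - gm w ^ 4 * ⟪w, δ⟫ * (τ - ⟪w, z⟫) ^ 2| ≤
      (2 * M + 4 * M ^ 2) * (a ^ 2 * d) := by
    have h1 := abs_sub (gm w ^ 2 * (τ - ⟪w, z⟫) * ⟪δ, z⟫) (gm w ^ 4 * ⟪w, δ⟫ * (τ - ⟪w, z⟫) ^ 2)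
    rw [abs_mul, abs_mul, abs_mul, abs_mul, abs_of_nonneg (by positivity : 0 ≤ gm w ^ 2),
      abs_of_nonneg (by positivity : 0 ≤ gm w ^ 4), abs_pow] at h1
    have h2 : gm w ^ 2 * |τ - ⟪w, z⟫| * |⟪δ, z⟫| ≤ M * (2 * a) * (d * a) := by gcongr
    have h3 : gm w ^ 4 * |⟪w, δ⟫| * |τ - ⟪w, z⟫| ^ 2 ≤ M ^ 2 * d * (2 * a) ^ 2 := by gcongr
    refine h1.trans ((add_le_add h2 h3).trans (le_of_eq ?_))
    ring
  unfold dhh
  rw [norm_smul, Real.norm_eq_abs, abs_of_pos (exp_pos _)]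
  have h5 : ‖(gm w ^ 2 * (τ - ⟪w, z⟫) * ⟪δ, z⟫ - gm w ^ 4 * ⟪w, δ⟫ * (τ - ⟪w, z⟫) ^ 2) •
      (z - τ • w) - τ • δ‖ ≤ cst κ * (1 + a) ^ 3 * d := by
    refine (norm_sub_le _ _).trans ?_
    rw [norm_smul, norm_smul, Real.norm_eq_abs, Real.norm_eq_abs]
    have h6 := mul_le_mul hc (norm_sub_smul_le hκ0 hκ hw h) (norm_nonneg _) (by positivity)
    have h7 := mul_le_mul_of_nonneg_right hτ hd0
    refine (add_le_add h6 h7).trans ?_
    have h8 : a ^ 3 ≤ (1 + a) ^ 3 := pow_le_pow_left₀ ha0 (by linarith) 3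
    have h9 : a ≤ (1 + a) ^ 3 := by nlinarith [mul_nonneg ha0 ha0, mul_nonneg ha0 (mul_nonneg ha0 ha0)]
    have e1 : (2 * M + 4 * M ^ 2) * (a ^ 2 * d) * (2 * a) + a * d =
        (4 * M + 8 * M ^ 2) * (a ^ 3 * d) + a * d := by ring
    have e2 : cst κ * (1 + a) ^ 3 * d =
        (4 * M + 8 * M ^ 2) * ((1 + a) ^ 3 * d) + (1 + a) ^ 3 * d := by
      unfold cst
      rw [← hMdef]
      ring
    rw [← ha, e1, e2]
    gcongr
  have h10 := mul_le_mul (exp_qf_le (w := w) h) h5 (norm_nonneg _) (exp_pos _).le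
  refine h10.trans (le_of_eq ?_)
  rw [← ha]
  ring

theorem norm_hh_sub_le {κ : ℝ} (hκ0 : 0 ≤ κ) (hκ : κ < 1) {w w' z : E n} {τ : ℝ} (hw : ‖w‖ ≤ κ)
    (hw' : ‖w'‖ ≤ κ) (h : |τ| ≤ κ * ‖z‖) :
    ‖hh w z τ - hh w' z τ‖ ≤
      cst κ * (1 + ‖z‖) ^ 3 * exp (-((1 - κ ^ 2) / 2 * ‖z‖ ^ 2)) * ‖w - w'‖ := by
  have hseg : ∀ s ∈ Icc (0 : ℝ) 1, ‖w' + s • (w - w')‖ ≤ κ := by
    intro s hs
    have h1 : w' + s • (w - w') = (1 - s) • w' + s • w := by module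
    rw [h1]
    refine (norm_add_le _ _).trans ?_
    rw [norm_smul, norm_smul, Real.norm_eq_abs, Real.norm_eq_abs, abs_of_nonneg hs.1,
      abs_of_nonneg (by linarith [hs.2] : 0 ≤ 1 - s)]
    have h2 := mul_le_mul_of_nonneg_left hw' (by linarith [hs.2] : 0 ≤ 1 - s)
    have h3 := mul_le_mul_of_nonneg_left hw hs.1
    linarith
  have hder : ∀ s ∈ Icc (0 : ℝ) 1, HasDerivWithinAt (fun s : ℝ => hh (w' + s • (w - w')) z τ)
      (dhh (w' + s • (w - w')) z τ (w - w')) (Icc 0 1) s := by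
    intro s hs
    apply HasDerivAt.hasDerivWithinAt
    have h1 := hasDerivAt_hh (w := w' + s • (w - w')) (z := z) (δ := w - w') (τ := τ)
      ((hseg s hs).trans_lt hκ)
    have h2 : HasDerivAt (fun t : ℝ => t - s) 1 s := (hasDerivAt_id s).sub_const s
    have h3 : HasDerivAt (fun u : ℝ => hh (w' + s • (w - w') + u • (w - w')) z τ)
        (dhh (w' + s • (w - w')) z τ (w - w')) (s - s) := by rwa [sub_self]
    have h4 := HasDerivAt.scomp (h := fun t : ℝ => t - s) s h3 h2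
    rw [one_smul] at h4
    refine h4.congr_of_eventuallyEq (Eventually.of_forall fun t => ?_)
    simp only [Function.comp]
    congr 1
    module
  have h5 := norm_image_sub_le_of_norm_deriv_le_segment_01'
    (f := fun s : ℝ => hh (w' + s • (w - w')) z τ)
    (C := cst κ * (1 + ‖z‖) ^ 3 * exp (-((1 - κ ^ 2) / 2 * ‖z‖ ^ 2)) * ‖w - w'‖) hder
    (fun s hs => norm_dhh_le hκ0 hκ (hseg s ⟨hs.1, hs.2.le⟩) h)
  simpa using h5

theorem abs_le_of_mem_uIoc {a b x m : ℝ} (ha : |a| ≤ m) (hb : |b| ≤ m) (hx : x ∈ uIoc a b) :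
    |x| ≤ m := by
  rw [abs_le] at *
  rw [mem_uIoc] at hx
  rcases hx with hx | hx <;> constructor <;> linarith [hx.1, hx.2]

end KerLip

open KerLip

theorem continuous_ker_g {G : E n → ℝ} (hG : Continuous G) {w : E n} (hw : ‖w‖ < 1) :
    Continuous fun z => ker w z (G z) := by
  have h1 : (fun z => ker w z (G z)) = fun z =>
      (∫ τ in (0 : ℝ)..(G z), hh w z τ) - ∫ τ in (0 : ℝ)..⟪w, z⟫, hh w z τ := by
    ext1 z
    unfold ker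
    rw [intervalIntegral.integral_interval_sub_left] <;>
      exact (continuous_hh_tau w z).intervalIntegrable _ _
  rw [h1]
  refine Continuous.sub ?_ ?_
  · exact intervalIntegral.continuous_parametric_intervalIntegral_of_continuous
      (f := fun z τ => hh w z τ) (continuous_hh w) hG
  · exact intervalIntegral.continuous_parametric_intervalIntegral_of_continuous
      (f := fun z τ => hh w z τ) (continuous_hh w) (by fun_prop)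

/-- The kernel is Lipschitz in `(w, g)` with an integrable constant. -/
theorem ker_lip {κ : ℝ} (hκ0 : 0 ≤ κ) (hκ : κ < 1) : ∃ C : ℝ, 0 ≤ C ∧
    ∀ (w w' z : E n) (g g' : ℝ), ‖w‖ ≤ κ → ‖w'‖ ≤ κ → |g| ≤ κ * ‖z‖ → |g'| ≤ κ * ‖z‖ →
      ‖ker w z g - ker w' z g'‖ ≤
        C * (1 + ‖z‖) ^ 4 * exp (-((1 - κ ^ 2) / 2 * ‖z‖ ^ 2)) * (‖w - w'‖ + |g - g'|) := by
  have hc := cst_nonneg hκ0 hκ
  refine ⟨4 + 2 * cst κ, by positivity, ?_⟩
  intro w w' z g g' hw hw' hg hg'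
  have hi : ∀ (u : E n) (a b : ℝ), IntervalIntegrable (fun τ => hh u z τ) volume a b :=
    fun u a b => (continuous_hh_tau u z).intervalIntegrable _ _
  have e1 : ker w z g - ker w' z g' =
      (∫ τ in ⟪w, z⟫..⟪w', z⟫, hh w z τ) + (∫ τ in g'..g, hh w z τ) +
        ∫ τ in ⟪w', z⟫..g', (hh w z τ - hh w' z τ) := by
    unfold ker
    rw [intervalIntegral.integral_sub (hi _ _ _) (hi _ _ _),
      ← intervalIntegral.integral_add_adjacent_intervals (hi w ⟪w, z⟫ ⟪w', z⟫) (hi w ⟪w', z⟫ g),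
      ← intervalIntegral.integral_add_adjacent_intervals (hi w ⟪w', z⟫ g') (hi w g' g)]
    abel
  have a1 := abs_inner_le (z := z) hw
  have a2 := abs_inner_le (z := z) hw'
  set ee := exp (-((1 - κ ^ 2) / 2 * ‖z‖ ^ 2)) with hee
  have hee0 : 0 < ee := exp_pos _
  have b1 : ‖∫ τ in ⟪w, z⟫..⟪w', z⟫, hh w z τ‖ ≤ 2 * ‖z‖ * ee * |⟪w', z⟫ - ⟪w, z⟫| :=
    intervalIntegral.norm_integral_le_of_norm_le_const fun τ hτ =>
      norm_hh_le hκ0 hκ hw (abs_le_of_mem_uIoc a1 a2 hτ)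
  have b2 : ‖∫ τ in g'..g, hh w z τ‖ ≤ 2 * ‖z‖ * ee * |g - g'| :=
    intervalIntegral.norm_integral_le_of_norm_le_const fun τ hτ =>
      norm_hh_le hκ0 hκ hw (abs_le_of_mem_uIoc hg' hg hτ)
  have b3 : ‖∫ τ in ⟪w', z⟫..g', (hh w z τ - hh w' z τ)‖ ≤
      cst κ * (1 + ‖z‖) ^ 3 * ee * ‖w - w'‖ * |g' - ⟪w', z⟫| :=
    intervalIntegral.norm_integral_le_of_norm_le_const fun τ hτ =>
      norm_hh_sub_le hκ0 hκ hw hw' (abs_le_of_mem_uIoc a2 hg' hτ)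
  have c1 : |⟪w', z⟫ - ⟪w, z⟫| ≤ ‖w - w'‖ * ‖z‖ := by
    rw [← inner_sub_left, norm_sub_rev]
    exact abs_real_inner_le_norm _ _
  have c2 : |g' - ⟪w', z⟫| ≤ 2 * ‖z‖ := by
    have h1 := abs_sub g' ⟪w', z⟫
    nlinarith [norm_nonneg z]
  set a := ‖z‖ with ha
  have ha0 : 0 ≤ a := norm_nonneg z
  set d := ‖w - w'‖ with hd
  have hd0 : 0 ≤ d := norm_nonneg _
  have hm0 := abs_nonneg (g - g')
  rw [e1]
  refine (norm_add₃_le).trans ?_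
  have b1' : 2 * a * ee * |⟪w', z⟫ - ⟪w, z⟫| ≤ 2 * (1 + a) ^ 4 * ee * d := by
    calc 2 * a * ee * |⟪w', z⟫ - ⟪w, z⟫| ≤ 2 * a * ee * (d * a) := by gcongr
      _ = 2 * a ^ 2 * ee * d := by ring
      _ ≤ 2 * (1 + a) ^ 4 * ee * d := by
        have : a ^ 2 ≤ (1 + a) ^ 4 := by
          nlinarith [mul_nonneg ha0 ha0, mul_nonneg ha0 (mul_nonneg ha0 ha0),
            mul_nonneg (mul_nonneg ha0 ha0) (mul_nonneg ha0 ha0)]
        gcongr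
  have b2' : 2 * a * ee * |g - g'| ≤ 2 * (1 + a) ^ 4 * ee * |g - g'| := by
    have : a ≤ (1 + a) ^ 4 := by
      nlinarith [mul_nonneg ha0 ha0, mul_nonneg ha0 (mul_nonneg ha0 ha0),
        mul_nonneg (mul_nonneg ha0 ha0) (mul_nonneg ha0 ha0)]
    gcongr
  have b3' : cst κ * (1 + a) ^ 3 * ee * d * |g' - ⟪w', z⟫| ≤
      2 * cst κ * (1 + a) ^ 4 * ee * d := by
    calc cst κ * (1 + a) ^ 3 * ee * d * |g' - ⟪w', z⟫|
        ≤ cst κ * (1 + a) ^ 3 * ee * d * (2 * a) := by gcongr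
      _ ≤ cst κ * (1 + a) ^ 3 * ee * d * (2 * (1 + a)) := by gcongr; linarith
      _ = _ := by ring
  have s := add_le_add (add_le_add (b1.trans b1') (b2.trans b2')) (b3.trans b3')
  refine s.trans ?_
  have p1 : 0 ≤ (1 + a) ^ 4 * ee * d := by positivity
  have p2 : 0 ≤ (1 + a) ^ 4 * ee * |g - g'| := by positivity
  have p3 := mul_nonneg hc p2
  nlinarith

end Pool.Agent.H65L
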