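import Pool.Agent.H65L.LamAlg

set_option autoImplicit false

/-! The derivative of the kernel (module LB/Kernel). -/

open Real Set MeasureTheory Metric Filter Topology
open scoped RealInnerProductSpace

namespace Pool.Agent.H65L

open Pool.Agent.H65G

variable {n : ℕ}

/-- Joint derivative of a parametric primitive. -/
theorem Kernel_primitive {H F : Type*} [NormedAddCommGroup H] [NormedSpace ℝ H] [ProperSpace H]
    [NormedAddCommGroup F] [NormedSpace ℝ F] [CompleteSpace F]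
    {f : H → ℝ → F} {f' : H → ℝ → H →L[ℝ] F} {s : Set H} (hs : IsOpen s) {x₀ : H} (hx₀ : x₀ ∈ s)
    (hf : ContinuousOn (fun p : H × ℝ => f p.1 p.2) (s ×ˢ univ))
    (hf' : ContinuousOn (fun p : H × ℝ => f' p.1 p.2) (s ×ˢ univ))
    (hd : ∀ x ∈ s, ∀ τ : ℝ, HasFDerivAt (fun x => f x τ) (f' x τ) x) (a b : ℝ) :
    HasFDerivAt (fun p : H × ℝ => ∫ τ in a..p.2, f p.1 τ)
      ((∫ τ in a..b, f' x₀ τ).comp (ContinuousLinearMap.fst ℝ H ℝ) +
        (ContinuousLinearMap.snd ℝ H ℝ).smulRight (f x₀ b)) (x₀, b) := by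
  have hcont : ∀ x ∈ s, Continuous (f x) := by
    intro x hx
    rw [← continuousOn_univ]
    exact hf.comp (f := fun τ : ℝ => (x, τ)) (by fun_prop) (fun τ _ => ⟨hx, mem_univ _⟩)
  have hcont' : ∀ x ∈ s, Continuous (f' x) := by
    intro x hx
    rw [← continuousOn_univ]
    exact hf'.comp (f := fun τ : ℝ => (x, τ)) (by fun_prop) (fun τ _ => ⟨hx, mem_univ _⟩)
  obtain ⟨r, hr, hrs⟩ := Metric.nhds_basis_closedBall.mem_iff.1 (hs.mem_nhds hx₀)
  -- first part
  have h1 : HasFDerivAt (fun x : H => ∫ τ in a..b, f x τ) (∫ τ in a..b, f' x₀ τ) x₀ := by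
    obtain ⟨C, hC⟩ := ((isCompact_closedBall x₀ r).prod
      (isCompact_uIcc (a := a) (b := b))).exists_bound_of_continuousOn
      (hf'.mono (prod_mono hrs (subset_univ _)))
    refine intervalIntegral.hasFDerivAt_integral_of_dominated_of_fderiv_le
      (s := closedBall x₀ r) (bound := fun _ => C) (closedBall_mem_nhds x₀ hr) ?_ ?_ ?_ ?_ ?_ ?_
    · filter_upwards [hs.mem_nhds hx₀] with x hx
      exact (hcont x hx).aestronglyMeasurable
    · exact (hcont x₀ hx₀).intervalIntegrable _ _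
    · exact (hcont' x₀ hx₀).aestronglyMeasurable
    · refine ae_of_all _ fun t ht x hx => ?_
      exact hC (x, t) ⟨hx, uIoc_subset_uIcc ht⟩
    · exact intervalIntegrable_const
    · refine ae_of_all _ fun t ht x hx => ?_
      exact hd x (hrs hx) t
  -- second part
  have h2 : HasFDerivAt (fun p : H × ℝ => ∫ τ in b..p.2, f p.1 τ)
      ((ContinuousLinearMap.snd ℝ H ℝ).smulRight (f x₀ b)) (x₀, b) := by
    rw [hasFDerivAt_iff_isLittleO, Asymptotics.isLittleO_iff]
    intro ε hε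
    have hcb : ContinuousAt (fun p : H × ℝ => f p.1 p.2) (x₀, b) :=
      hf.continuousAt ((hs.prod isOpen_univ).mem_nhds ⟨hx₀, mem_univ _⟩)
    obtain ⟨ρ, hρ, hρs⟩ := Metric.continuousAt_iff.1 hcb ε hε
    filter_upwards [Metric.ball_mem_nhds (x₀, b) hρ,
      (hs.prod isOpen_univ).mem_nhds (⟨hx₀, mem_univ _⟩ : (x₀, b) ∈ s ×ˢ (univ : Set ℝ))]
      with p hp hps
    have hint : IntervalIntegrable (fun τ => f p.1 τ) volume b p.2 :=
      (hcont p.1 hps.1).intervalIntegrable _ _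
    have e : (∫ τ in b..p.2, f p.1 τ) - (∫ τ in b..(x₀, b).2, f (x₀, b).1 τ) -
        ((ContinuousLinearMap.snd ℝ H ℝ).smulRight (f x₀ b)) (p - (x₀, b)) =
        ∫ τ in b..p.2, (f p.1 τ - f x₀ b) := by
      rw [intervalIntegral.integral_sub hint intervalIntegrable_const]
      simp
    rw [e]
    have hb : ∀ τ ∈ uIoc b p.2, ‖f p.1 τ - f x₀ b‖ ≤ ε := by
      intro τ hτ
      have h3 : dist (p.1, τ) (x₀, b) < ρ := by
        have hp1 : dist p (x₀, b) < ρ := hp
        rw [Prod.dist_eq] at hp1 ⊢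
        refine max_lt (lt_of_le_of_lt (le_max_left _ _) hp1) ?_
        refine lt_of_le_of_lt ?_ (lt_of_le_of_lt (le_max_right _ _) hp1)
        have h4 := abs_sub_left_of_mem_uIcc (uIoc_subset_uIcc hτ)
        simpa [Real.dist_eq] using h4
      have h5 := hρs h3
      rw [dist_eq_norm] at h5
      exact h5.le
    have h6 := intervalIntegral.norm_integral_le_of_norm_le_const hb
    refine h6.trans ?_
    have h7 : |p.2 - b| ≤ ‖p - (x₀, b)‖ := by
      have := norm_snd_le (p - (x₀, b))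
      simpa using this
    gcongr
  have h3 : HasFDerivAt (fun p : H × ℝ => (∫ τ in a..b, f p.1 τ) + ∫ τ in b..p.2, f p.1 τ)
      ((∫ τ in a..b, f' x₀ τ).comp (ContinuousLinearMap.fst ℝ H ℝ) +
        (ContinuousLinearMap.snd ℝ H ℝ).smulRight (f x₀ b)) (x₀, b) := by
    refine HasFDerivAt.add ?_ h2
    exact HasFDerivAt.comp (x₀, b) (f := fun p : H × ℝ => p.1)
      (g := fun x : H => ∫ τ in a..b, f x τ) h1 hasFDerivAt_fst
  refine h3.congr_of_eventuallyEq ?_
  filter_upwards [(hs.prod isOpen_univ).mem_nhds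
    (⟨hx₀, mem_univ _⟩ : (x₀, b) ∈ s ×ˢ (univ : Set ℝ))] with p hps
  exact (intervalIntegral.integral_add_adjacent_intervals
    ((hcont p.1 hps.1).intervalIntegrable _ _) ((hcont p.1 hps.1).intervalIntegrable _ _)).symm

/-- The derivative of `hh` in `w` as a linear map. -/
noncomputable def Kernel_D (z w : E n) (τ : ℝ) : E n →L[ℝ] E n :=
  exp (-qf w z τ / 2) •
    (((gm w ^ 2 * (τ - ⟪w, z⟫)) • innerSL ℝ z -
        (gm w ^ 4 * (τ - ⟪w, z⟫) ^ 2) • innerSL ℝ w).smulRight (z - τ • w) -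
      τ • ContinuousLinearMap.id ℝ (E n))

theorem Kernel_D_apply (z w : E n) (τ : ℝ) (δ : E n) : Kernel_D z w τ δ = dhh w z τ δ := by
  simp only [Kernel_D, dhh, smul_apply, sub_apply,
    ContinuousLinearMap.smulRight_apply, innerSL_apply_apply, smul_eq_mul,
    ContinuousLinearMap.id_apply, real_inner_comm z δ]
  congr 3
  ring

theorem Kernel_hasFDerivAt {w z : E n} {τ : ℝ} (hw : ‖w‖ < 1) :
    HasFDerivAt (fun w => hh w z τ) (Kernel_D z w τ) w := by
  have h1 : HasFDerivAt (fun w : E n => ‖w‖ ^ 2) ((2 : ℝ) • innerSL ℝ w) w := by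
    have := (hasStrictFDerivAt_norm_sq w).hasFDerivAt
    refine this.congr_fderiv ?_
    ext1 δ
    simp [two_mul]
  have h3 : HasFDerivAt (fun w : E n => 1 - ‖w‖ ^ 2) (-((2 : ℝ) • innerSL ℝ w)) w :=
    h1.const_sub 1
  have h2 : HasFDerivAt (fun w : E n => (1 - ‖w‖ ^ 2)⁻¹)
      (-((1 - ‖w‖ ^ 2) ^ 2)⁻¹ • (-((2 : ℝ) • innerSL ℝ w))) w :=
    (hasDerivAt_inv (one_sub_pos hw).ne').comp_hasFDerivAt w h3
  have h4 : HasFDerivAt (fun w : E n => gm w ^ 2)
      (-((1 - ‖w‖ ^ 2) ^ 2)⁻¹ • (-((2 : ℝ) • innerSL ℝ w))) w := by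
    refine h2.congr_of_eventuallyEq ?_
    filter_upwards [(isOpen_lt continuous_norm continuous_const).mem_nhds hw] with v hv
    exact gm_sq hv
  have h5 : HasFDerivAt (fun w : E n => τ - ⟪w, z⟫) (-(innerSL ℝ z)) w := by
    have h6 : HasFDerivAt (fun w : E n => ⟪z, w⟫) (innerSL ℝ z) w :=
      (innerSL ℝ z).hasFDerivAt
    have h7 : (fun w : E n => τ - ⟪w, z⟫) = fun w : E n => τ - ⟪z, w⟫ := by
      funext v
      rw [real_inner_comm]
    rw [h7]
    exact h6.const_sub τ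
  have h8 := (h4.mul (h5.pow 2)).const_add (‖z‖ ^ 2 - τ ^ 2)
  have h9 : HasFDerivAt (fun w => qf w z τ) _ w := h8
  have h10 := ((h9.neg.mul_const (2⁻¹ : ℝ)).exp)
  have h11 : HasFDerivAt (fun w : E n => z - τ • w) (-(τ • ContinuousLinearMap.id ℝ (E n))) w :=
    ((hasFDerivAt_id w).const_smul τ).const_sub z
  have h12 := h10.smul h11
  have h13 : (fun w : E n => hh w z τ) = fun w : E n => exp (-qf w z τ * 2⁻¹) • (z - τ • w) := by
    funext v
    rw [hh, div_eq_mul_inv]
  rw [h13]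
  refine h12.congr_fderiv ?_
  ext1 δ
  rw [Kernel_D_apply, dhh]
  have hg4 : gm w ^ 4 = ((1 - ‖w‖ ^ 2) ^ 2)⁻¹ := by
    rw [show gm w ^ 4 = (gm w ^ 2) ^ 2 by ring, gm_sq hw, inv_pow]
  simp only [add_apply, smul_apply,
    neg_apply, ContinuousLinearMap.smulRight_apply, innerSL_apply_apply,
    smul_eq_mul, ContinuousLinearMap.id_apply, nsmul_eq_mul, hg4, ← div_eq_mul_inv,
    real_inner_comm z δ, Pi.neg_apply, Nat.cast_ofNat, Nat.add_one_sub_one, pow_one]
  module

/-- `dhh` is the derivative of `hh` in `w`. -/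
theorem hasDerivAt_hh {w z δ : E n} {τ : ℝ} (hw : ‖w‖ < 1) :
    HasDerivAt (fun s : ℝ => hh (w + s • δ) z τ) (dhh w z τ δ) 0 := by
  have h1 : HasDerivAt (fun s : ℝ => w + s • δ) δ 0 := by
    have := ((hasDerivAt_id (0 : ℝ)).smul_const δ).const_add w
    simpa using this
  have h2 : HasFDerivAt (fun w => hh w z τ) (Kernel_D z w τ) (w + (0 : ℝ) • δ) := by
    simpa using Kernel_hasFDerivAt (z := z) (τ := τ) hw
  have h3 := h2.comp_hasDerivAt (0 : ℝ) h1
  rw [Kernel_D_apply] at h3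
  exact h3

theorem Kernel_continuousOn_gm :
    ContinuousOn (fun p : E n × ℝ => gm p.1) (ball 0 1 ×ˢ univ) := by
  have h1 : Continuous fun p : E n × ℝ => √(1 - ‖p.1‖ ^ 2) := by fun_prop
  refine h1.continuousOn.inv₀ fun p hp => ?_
  have h2 : ‖p.1‖ < 1 := by simpa using hp.1
  exact (Real.sqrt_pos.2 (one_sub_pos h2)).ne'

theorem Kernel_continuousOn_exp (z : E n) :
    ContinuousOn (fun p : E n × ℝ => exp (-qf p.1 z p.2 / 2)) (ball 0 1 ×ˢ univ) := by
  have h1 := Kernel_continuousOn_gm (n := n)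
  unfold qf
  fun_prop

theorem Kernel_continuous_hh (z : E n) :
    ContinuousOn (fun p : E n × ℝ => hh p.1 z p.2) (ball 0 1 ×ˢ univ) := by
  have h1 := Kernel_continuousOn_exp z
  unfold hh
  fun_prop

theorem Kernel_continuous_D (z : E n) :
    ContinuousOn (fun p : E n × ℝ => Kernel_D z p.1 p.2) (ball 0 1 ×ˢ univ) := by
  have h1 := Kernel_continuousOn_exp z
  have h2 := Kernel_continuousOn_gm (n := n)
  rw [continuousOn_clm_apply]
  intro δ
  simp only [Kernel_D_apply]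
  unfold dhh
  fun_prop

theorem hasFDerivAt_ker {w z : E n} {g : ℝ} (hw : ‖w‖ < 1) :
    ∃ D : E n × ℝ →L[ℝ] E n, HasFDerivAt (fun x : E n × ℝ => ker x.1 z x.2) D (w, g) ∧
      ∀ (δ : E n) (η : ℝ), D (δ, η) = η • hh w z g - ⟪δ, z⟫ • hh w z ⟪w, z⟫ +
        ∫ τ in ⟪w, z⟫..g, dhh w z τ δ := by
  have hwb : w ∈ ball (0 : E n) 1 := by simpa using hw
  have hprim := fun b : ℝ => Kernel_primitive (f := fun w τ => hh w z τ)
    (f' := fun w τ => Kernel_D z w τ) isOpen_ball hwb (Kernel_continuous_hh z)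
    (Kernel_continuous_D z)
    (fun x hx τ => Kernel_hasFDerivAt (z := z) (τ := τ) (by simpa using hx)) 0 b
  have hc : ∀ x : E n, Continuous fun τ : ℝ => hh x z τ := by
    intro x
    unfold hh qf
    fun_prop
  have hcD : Continuous fun τ : ℝ => Kernel_D z w τ := by
    rw [← continuousOn_univ]
    exact (Kernel_continuous_D z).comp (f := fun τ : ℝ => (w, τ)) (by fun_prop)
      (fun τ _ => ⟨hwb, mem_univ _⟩)
  have h1 := hprim g
  have h2 : HasFDerivAt (fun x : E n × ℝ => (x.1, ⟪x.1, z⟫))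
      ((ContinuousLinearMap.fst ℝ (E n) ℝ).prod
        ((innerSL ℝ z).comp (ContinuousLinearMap.fst ℝ (E n) ℝ))) (w, g) := by
    refine HasFDerivAt.prodMk hasFDerivAt_fst ?_
    have h7 : (fun x : E n × ℝ => ⟪x.1, z⟫) =
        fun x => ((innerSL ℝ z).comp (ContinuousLinearMap.fst ℝ (E n) ℝ)) x := by
      funext v
      simp [real_inner_comm]
    rw [h7]
    exact ContinuousLinearMap.hasFDerivAt _
  have h3 := HasFDerivAt.comp (w, g) (f := fun x : E n × ℝ => (x.1, ⟪x.1, z⟫))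
    (g := fun p : E n × ℝ => ∫ τ in (0 : ℝ)..p.2, hh p.1 z τ) (hprim ⟪w, z⟫) h2
  have h4 := h1.sub h3
  refine ⟨_, h4.congr_of_eventuallyEq (Eventually.of_forall fun x => ?_), fun δ η => ?_⟩
  · simp only [ker, Function.comp_apply, Pi.sub_apply]
    rw [intervalIntegral.integral_interval_sub_left ((hc x.1).intervalIntegrable _ _)
      ((hc x.1).intervalIntegrable _ _)]
  · have hi : ∀ a b : ℝ, IntervalIntegrable (fun τ => Kernel_D z w τ) volume a b :=
      fun a b => hcD.intervalIntegrable a b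
    have e1 : (∫ τ in ⟪w, z⟫..g, dhh w z τ δ) = (∫ τ in (0 : ℝ)..g, Kernel_D z w τ) δ -
        (∫ τ in (0 : ℝ)..⟪w, z⟫, Kernel_D z w τ) δ := by
      rw [ContinuousLinearMap.intervalIntegral_apply (hi _ _),
        ContinuousLinearMap.intervalIntegral_apply (hi _ _)]
      simp only [Kernel_D_apply]
      rw [intervalIntegral.integral_interval_sub_left]
      · have : Continuous fun τ : ℝ => Kernel_D z w τ δ := by fun_prop
        simp only [Kernel_D_apply] at this
        exact this.intervalIntegrable _ _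
      · have : Continuous fun τ : ℝ => Kernel_D z w τ δ := by fun_prop
        simp only [Kernel_D_apply] at this
        exact this.intervalIntegrable _ _
    rw [e1]
    simp [real_inner_comm]
    abel

end Pool.Agent.H65L
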