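import Pool.Agent.H65L.Defs

set_option autoImplicit false

/-! Algebra of the spatial boost. -/

open Real Set MeasureTheory Metric
open scoped RealInnerProductSpace

namespace Pool.Agent.H65L

open Pool.Agent.H65G (E Sph)

variable {n : ℕ} {w : E n}

theorem one_sub_pos (hw : ‖w‖ < 1) : 0 < 1 - ‖w‖ ^ 2 := by
  have := norm_nonneg w
  nlinarith

theorem gm_pos (hw : ‖w‖ < 1) : 0 < gm w := inv_pos.2 (Real.sqrt_pos.2 (one_sub_pos hw))

theorem gm_sq (hw : ‖w‖ < 1) : gm w ^ 2 = (1 - ‖w‖ ^ 2)⁻¹ := by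
  unfold gm
  rw [inv_pow, Real.sq_sqrt (one_sub_pos hw).le]

theorem gm_sq_mul (hw : ‖w‖ < 1) : gm w ^ 2 * (1 - ‖w‖ ^ 2) = 1 := by
  rw [gm_sq hw, inv_mul_cancel₀ (one_sub_pos hw).ne']

theorem gm_sq_mul_norm (hw : ‖w‖ < 1) : gm w ^ 2 * ‖w‖ ^ 2 = gm w ^ 2 - 1 := by
  have := gm_sq_mul hw
  linarith

theorem one_le_gm (hw : ‖w‖ < 1) : 1 ≤ gm w := by
  have h1 := gm_sq_mul hw
  have h2 := gm_pos hw
  have h3 : 0 ≤ gm w ^ 2 * ‖w‖ ^ 2 := by positivity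
  nlinarith

theorem Lam_apply (x : E n) : Lam w x = x + (gm w ^ 2 / (gm w + 1) * ⟪w, x⟫) • w := by
  simp [Lam, smul_smul]

theorem LamInv_apply (x : E n) : LamInv w x = x - (gm w / (gm w + 1) * ⟪w, x⟫) • w := by
  simp [LamInv, smul_smul]

theorem coef_norm (hw : ‖w‖ < 1) : gm w ^ 2 / (gm w + 1) * ‖w‖ ^ 2 = gm w - 1 := by
  have h1 := gm_sq_mul_norm hw
  have h2 := gm_pos hw
  have h3 : gm w + 1 ≠ 0 := by positivity
  field_simp
  linarith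

theorem coef'_norm (hw : ‖w‖ < 1) : gm w * (gm w / (gm w + 1) * ‖w‖ ^ 2) = gm w - 1 := by
  rw [← coef_norm hw]
  ring

theorem Lam_self (hw : ‖w‖ < 1) : Lam w w = gm w • w := by
  rw [Lam_apply, real_inner_self_eq_norm_sq, coef_norm hw, sub_smul, one_smul]
  abel

theorem inner_Lam (x y : E n) : ⟪Lam w x, y⟫ = ⟪x, Lam w y⟫ := by
  simp only [Lam_apply, inner_add_left, inner_add_right, real_inner_smul_left,
    real_inner_smul_right, real_inner_comm w x]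
  ring

theorem inner_w_Lam (hw : ‖w‖ < 1) (x : E n) : ⟪w, Lam w x⟫ = gm w * ⟪w, x⟫ := by
  rw [← inner_Lam, Lam_self hw, real_inner_smul_left]

theorem Lam_LamInv (hw : ‖w‖ < 1) (x : E n) : Lam w (LamInv w x) = x := by
  have h2 := gm_pos hw
  have h3 : gm w + 1 ≠ 0 := by positivity
  rw [LamInv_apply, map_sub, map_smul, Lam_self hw, Lam_apply, smul_smul]
  have : gm w / (gm w + 1) * ⟪w, x⟫ * gm w = gm w ^ 2 / (gm w + 1) * ⟪w, x⟫ := by ring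
  rw [this]
  abel

theorem LamInv_Lam (hw : ‖w‖ < 1) (x : E n) : LamInv w (Lam w x) = x := by
  have h2 := gm_pos hw
  have h3 : gm w + 1 ≠ 0 := by positivity
  rw [LamInv_apply, inner_w_Lam hw, Lam_apply]
  have : gm w / (gm w + 1) * (gm w * ⟪w, x⟫) = gm w ^ 2 / (gm w + 1) * ⟪w, x⟫ := by ring
  rw [this]
  abel

theorem inner_Lam_Lam (hw : ‖w‖ < 1) (x y : E n) :
    ⟪Lam w x, Lam w y⟫ = ⟪x, y⟫ + gm w ^ 2 * ⟪w, x⟫ * ⟪w, y⟫ := by
  have h0 := coef_norm hw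
  have h2 := gm_pos hw
  have h3 : gm w + 1 ≠ 0 := by positivity
  have h4 : ⟪w, Lam w y⟫ = gm w * ⟪w, y⟫ := inner_w_Lam hw y
  rw [Lam_apply x, inner_add_left, real_inner_smul_left, h4, Lam_apply y, inner_add_right,
    real_inner_smul_right, real_inner_comm w x]
  have : gm w ^ 2 / (gm w + 1) * ⟪w, x⟫ * (gm w * ⟪w, y⟫) =
      gm w ^ 2 * ⟪w, x⟫ * ⟪w, y⟫ - gm w ^ 2 / (gm w + 1) * ⟪w, y⟫ * ⟪w, x⟫ := by
    field_simp
    ring
  rw [this]
  ring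

theorem norm_Lam_sq (hw : ‖w‖ < 1) (x : E n) : ‖Lam w x‖ ^ 2 = ‖x‖ ^ 2 + gm w ^ 2 * ⟪w, x⟫ ^ 2 := by
  rw [← real_inner_self_eq_norm_sq, inner_Lam_Lam hw, real_inner_self_eq_norm_sq]
  ring

/-- The norm of the spatial part of the boosted point. -/
theorem norm_Lam_sub_sq (hw : ‖w‖ < 1) (z : E n) (τ : ℝ) :
    ‖Lam w (z - τ • w)‖ ^ 2 = qf w z τ := by
  have h := gm_sq_mul hw
  rw [norm_Lam_sq hw, qf, norm_sub_sq_real, inner_sub_right, real_inner_smul_right,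
    real_inner_smul_right, real_inner_self_eq_norm_sq, norm_smul, real_inner_comm w z,
    Real.norm_eq_abs, mul_pow, sq_abs]
  have h5 : gm w ^ 2 * ‖w‖ ^ 2 = gm w ^ 2 - 1 := gm_sq_mul_norm hw
  have e1 : gm w ^ 2 * (⟪w, z⟫ - τ * ‖w‖ ^ 2) ^ 2 =
      gm w ^ 2 * ⟪w, z⟫ ^ 2 - 2 * τ * ⟪w, z⟫ * (gm w ^ 2 * ‖w‖ ^ 2) +
        τ ^ 2 * ‖w‖ ^ 2 * (gm w ^ 2 * ‖w‖ ^ 2) := by ring
  have e2 : τ ^ 2 * ‖w‖ ^ 2 * (gm w ^ 2 - 1) =
      τ ^ 2 * (gm w ^ 2 * ‖w‖ ^ 2) - τ ^ 2 * ‖w‖ ^ 2 := by ring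
  rw [e1, h5, e2, h5]
  ring

theorem norm_le_norm_Lam (hw : ‖w‖ < 1) (x : E n) : ‖x‖ ≤ ‖Lam w x‖ := by
  have h := norm_Lam_sq hw x
  have h1 : 0 ≤ gm w ^ 2 * ⟪w, x⟫ ^ 2 := by positivity
  have h2 := norm_nonneg (Lam w x)
  have h3 := norm_nonneg x
  nlinarith

theorem norm_Lam_le (hw : ‖w‖ < 1) (x : E n) : ‖Lam w x‖ ≤ gm w * ‖x‖ := by
  have h := norm_Lam_sq hw x
  have h1 : ⟪w, x⟫ ^ 2 ≤ ‖w‖ ^ 2 * ‖x‖ ^ 2 := by
    rw [← mul_pow, ← sq_abs]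
    exact pow_le_pow_left₀ (abs_nonneg _) (abs_real_inner_le_norm w x) 2
  have h2 := gm_sq_mul_norm hw
  have h3 : ‖Lam w x‖ ^ 2 ≤ (gm w * ‖x‖) ^ 2 := by
    have : gm w ^ 2 * ⟪w, x⟫ ^ 2 ≤ gm w ^ 2 * (‖w‖ ^ 2 * ‖x‖ ^ 2) := by gcongr
    nlinarith
  exact le_of_sq_le_sq h3 (mul_nonneg (gm_pos hw).le (norm_nonneg _))

/-- The inverse boost: the point with spatial part `y` and time `τ'`. -/
theorem boost_inv (hw : ‖w‖ < 1) (y : E n) (t : ℝ) :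
    Lam w ((Lam w y + (gm w * t) • w) - (gm w * (t + ⟪w, y⟫)) • w) = y ∧
    gm w * (gm w * (t + ⟪w, y⟫) - ⟪w, Lam w y + (gm w * t) • w⟫) = t := by
  have h2 := gm_pos hw
  have h3 : gm w + 1 ≠ 0 := by positivity
  have h5 := gm_sq_mul hw
  constructor
  · have e1 : (Lam w y + (gm w * t) • w) - (gm w * (t + ⟪w, y⟫)) • w = LamInv w y := by
      have : gm w / (gm w + 1) * ⟪w, y⟫ =
          -(gm w ^ 2 / (gm w + 1) * ⟪w, y⟫) + gm w * ⟪w, y⟫ := by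
        field_simp
        ring
      rw [Lam_apply, LamInv_apply, this]
      module
    rw [e1, Lam_LamInv hw]
  · rw [inner_add_right, real_inner_smul_right, inner_w_Lam hw, real_inner_self_eq_norm_sq]
    have : gm w * (gm w * (t + ⟪w, y⟫) - (gm w * ⟪w, y⟫ + gm w * t * ‖w‖ ^ 2)) =
        gm w ^ 2 * (1 - ‖w‖ ^ 2) * t := by ring
    rw [this, h5, one_mul]

/-- The inverse boost applied to the boost. -/
theorem inv_boost (hw : ‖w‖ < 1) (z : E n) (τ : ℝ) :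
    Lam w (Lam w (z - τ • w)) + (gm w * (gm w * (τ - ⟪w, z⟫))) • w = z ∧
    gm w * (gm w * (τ - ⟪w, z⟫) + ⟪w, Lam w (z - τ • w)⟫) = τ := by
  have h2 := gm_pos hw
  have h3 : gm w + 1 ≠ 0 := by positivity
  have h5 := gm_sq_mul hw
  have h6 := coef_norm hw
  constructor
  · rw [Lam_apply (Lam w (z - τ • w)), inner_w_Lam hw, Lam_apply (z - τ • w), inner_sub_right,
      real_inner_smul_right, real_inner_self_eq_norm_sq]
    have e : z - τ • w + (gm w ^ 2 / (gm w + 1) * (⟪w, z⟫ - τ * ‖w‖ ^ 2)) • w +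
        (gm w ^ 2 / (gm w + 1) * (gm w * (⟪w, z⟫ - τ * ‖w‖ ^ 2))) • w +
        (gm w * (gm w * (τ - ⟪w, z⟫))) • w =
        z + (-τ + gm w ^ 2 / (gm w + 1) * (⟪w, z⟫ - τ * ‖w‖ ^ 2) * (1 + gm w) +
          gm w ^ 2 * (τ - ⟪w, z⟫)) • w := by module
    rw [e]
    have e2 : -τ + gm w ^ 2 / (gm w + 1) * (⟪w, z⟫ - τ * ‖w‖ ^ 2) * (1 + gm w) +
        gm w ^ 2 * (τ - ⟪w, z⟫) = 0 := by
      have : gm w ^ 2 / (gm w + 1) * (⟪w, z⟫ - τ * ‖w‖ ^ 2) * (1 + gm w) =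
          gm w ^ 2 * (⟪w, z⟫ - τ * ‖w‖ ^ 2) := by
        field_simp
        ring
      rw [this]
      linear_combination τ * h5
    rw [e2, zero_smul, add_zero]
  · rw [inner_w_Lam hw, inner_sub_right, real_inner_smul_right, real_inner_self_eq_norm_sq]
    linear_combination τ * h5

/-- The spatial boost as a linear equivalence. -/
noncomputable def LamEquiv (hw : ‖w‖ < 1) : E n ≃L[ℝ] E n :=
  ContinuousLinearEquiv.equivOfInverse (Lam w) (LamInv w) (LamInv_Lam hw) (Lam_LamInv hw)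

theorem abs_le_norm {κ : ℝ} {G : E n → ℝ} (hG : Cone κ G) (z : E n) :
    |G z| ≤ κ * ‖z‖ := by
  have h0 : G 0 = 0 := by
    have := hG.hom 0 0 le_rfl
    simpa using this
  have := hG.lip z 0
  simpa [h0] using this

theorem qf_lower {κ : ℝ} {z : E n} {τ : ℝ} (h : |τ| ≤ κ * ‖z‖) :
    (1 - κ ^ 2) * ‖z‖ ^ 2 ≤ qf w z τ := by
  unfold qf
  have h1 : 0 ≤ gm w ^ 2 * (τ - ⟪w, z⟫) ^ 2 := by positivity
  have h2 : τ ^ 2 ≤ (κ * ‖z‖) ^ 2 := by
    rw [← sq_abs]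
    exact pow_le_pow_left₀ (abs_nonneg _) h 2
  nlinarith

/-- The determinant of the spatial boost. -/
theorem det_Lam (hw : ‖w‖ < 1) : (Lam w).det = gm w := by
  have h6 := coef_norm hw
  have h1 : LinearMap.det ((Lam w : E n →L[ℝ] E n) : E n →ₗ[ℝ] E n) =
      1 + gm w ^ 2 / (gm w + 1) * ‖w‖ ^ 2 := by
    set b := (EuclideanSpace.basisFun (Fin n) ℝ).toBasis with hb
    rw [← LinearMap.det_toMatrix b]
    have h2 : LinearMap.toMatrix b b ((Lam w : E n →L[ℝ] E n) : E n →ₗ[ℝ] E n) =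
        1 + Matrix.replicateCol Unit ((gm w ^ 2 / (gm w + 1)) • fun i => w i) *
          Matrix.replicateRow Unit (fun i => w i) := by
      ext i j
      rw [LinearMap.toMatrix_apply]
      simp only [hb, OrthonormalBasis.coe_toBasis, EuclideanSpace.basisFun_apply,
        ContinuousLinearMap.coe_coe, Lam_apply, EuclideanSpace.inner_single_right,
        Matrix.add_apply, Matrix.mul_apply, Matrix.replicateCol_apply, Matrix.replicateRow_apply]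
      simp only [OrthonormalBasis.coe_toBasis_repr_apply, EuclideanSpace.basisFun_repr]
      simp [Matrix.one_apply, PiLp.single_apply]
      ring
    rw [h2, Matrix.det_one_add_replicateCol_mul_replicateRow]
    congr 1
    rw [dotProduct_smul, smul_eq_mul, EuclideanSpace.norm_sq_eq]
    congr 1
    simp [dotProduct, sq]
  rw [ContinuousLinearMap.det, h1, h6]
  ring

end Pool.Agent.H65L
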