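import Mathlib

set_option autoImplicit false

namespace Pool.Agent.H65L

/-- The space `X` does not retract to the sphere `γ`, in the weak sense: there is no continuous map
`r` from `X` to the sphere such that `r ∘ γ` is homotopic to the identity of the sphere. If `X` is a
compact manifold, orientable or not, with boundary sphere `γ`, this holds since the boundary is
homologous to zero modulo two. -/
def NoRetraction {n : ℕ} {X : Type} [TopologicalSpace X]
    (γ : C(Metric.sphere (0 : EuclideanSpace ℝ (Fin n)) 1, X)) : Prop :=
  ∀ r : C(X, Metric.sphere (0 : EuclideanSpace ℝ (Fin n)) 1),
    ¬ (r.comp γ).Homotopic (ContinuousMap.id _)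

end Pool.Agent.H65L
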