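import Pool.Agent.H65L.Gauss

set_option autoImplicit false

/-! Semigroup property of the Gaussian correlation (module LB/SpecA). -/

open Real Set MeasureTheory Metric Filter Topology
open scoped RealInnerProductSpace

namespace Pool.Agent.H65L

open Pool.Agent.H65G

variable {n : ℕ}

namespace SpecA

/-- The rotation of pairs. -/
noncomputable def rotM (c s : ℝ) : (E n × E n) →ₗ[ℝ] (E n × E n) :=
  LinearMap.prod (c • LinearMap.fst ℝ (E n) (E n) + s • LinearMap.snd ℝ (E n) (E n))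
    (-s • LinearMap.fst ℝ (E n) (E n) + c • LinearMap.snd ℝ (E n) (E n))

theorem rotM_apply (c s : ℝ) (p : E n × E n) :
    rotM c s p = (c • p.1 + s • p.2, -s • p.1 + c • p.2) := rfl

theorem rotM_comp {c s : ℝ} (h : c ^ 2 + s ^ 2 = 1) :
    rotM (n := n) c s ∘ₗ rotM c (-s) = LinearMap.id := by
  apply LinearMap.ext
  intro p
  rw [LinearMap.comp_apply, rotM_apply, rotM_apply, LinearMap.id_apply]
  apply Prod.ext
  · have : c • (c • p.1 + -s • p.2) + s • (- -s • p.1 + c • p.2) = (c ^ 2 + s ^ 2) • p.1 := by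
      module
    simp only [this, h, one_smul]
  · have : -s • (c • p.1 + -s • p.2) + c • (- -s • p.1 + c • p.2) = (c ^ 2 + s ^ 2) • p.2 := by
      module
    simp only [this, h, one_smul]

/-- The rotation as an equivalence. -/
noncomputable def rotE {c s : ℝ} (h : c ^ 2 + s ^ 2 = 1) : (E n × E n) ≃ₗ[ℝ] (E n × E n) :=
  LinearEquiv.ofLinearMap (rotM c s) (rotM c (-s)) (rotM_comp h)
    (by
      have h' : c ^ 2 + (-s) ^ 2 = 1 := by rw [neg_sq]; exact h
      have := rotM_comp (n := n) h'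
      rwa [neg_neg] at this)

theorem abs_det_rotM {c s : ℝ} (h : c ^ 2 + s ^ 2 = 1) :
    |LinearMap.det (rotM (n := n) c s)| = 1 := by
  have h1 : LinearMap.det (rotM (n := n) c s) * LinearMap.det (rotM (n := n) c (-s)) = 1 := by
    rw [← LinearMap.det_comp, rotM_comp h, LinearMap.det_id]
  have h2 : LinearMap.det (rotM (n := n) c (-s)) = LinearMap.det (rotM (n := n) c s) := by
    rw [← LinearMap.det_conj (rotM (n := n) c s)
      ((LinearEquiv.refl ℝ (E n)).prodCongr (LinearEquiv.neg ℝ))]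
    congr 1
    apply LinearMap.ext
    intro p
    apply Prod.ext
    · simp [rotM_apply]
    · simp [rotM_apply, add_comm]
  rw [h2] at h1
  rcases mul_self_eq_one_iff.1 h1 with h3 | h3 <;> rw [h3] <;> simp

theorem measurePreserving_rotM {c s : ℝ} (h : c ^ 2 + s ^ 2 = 1) :
    MeasurePreserving (rotM (n := n) c s) volume volume := by
  have h0 : LinearMap.det (rotM (n := n) c s) ≠ 0 := by
    intro h1
    have := abs_det_rotM (n := n) h
    rw [h1, abs_zero] at this
    exact zero_ne_one this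
  refine ⟨(LinearMap.continuous_of_finiteDimensional _).measurable, ?_⟩
  rw [Measure.volume_eq_prod,
    Measure.map_linearMap_addHaar_eq_smul_addHaar (volume.prod volume) h0, abs_inv, abs_det_rotM h]
  simp

theorem measurableEmbedding_rotM {c s : ℝ} (h : c ^ 2 + s ^ 2 = 1) :
    MeasurableEmbedding (rotM (n := n) c s) :=
  (rotE (n := n) h).toContinuousLinearEquiv.toHomeomorph.measurableEmbedding

theorem norm_rot {c s : ℝ} (h : c ^ 2 + s ^ 2 = 1) (p q : E n) :
    ‖c • p + s • q‖ ^ 2 + ‖-s • p + c • q‖ ^ 2 = ‖p‖ ^ 2 + ‖q‖ ^ 2 := by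
  rw [norm_add_sq_real, norm_add_sq_real, norm_smul, norm_smul, norm_smul, norm_smul,
    inner_smul_left, inner_smul_left, inner_smul_right, inner_smul_right]
  simp only [norm_neg, Real.norm_eq_abs, mul_pow, sq_abs, RCLike.conj_to_real]
  linear_combination (‖p‖ ^ 2 + ‖q‖ ^ 2) * h

theorem wt_rot {c s : ℝ} (h : c ^ 2 + s ^ 2 = 1) (p q : E n) :
    wt (c • p + s • q) * wt (-s • p + c • q) = wt p * wt q := by
  unfold wt
  rw [← Real.exp_add, ← Real.exp_add]
  congr 1
  have := norm_rot h p q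
  linarith

theorem integral_rot {F : Type} [NormedAddCommGroup F] [NormedSpace ℝ F] {c s : ℝ}
    (h : c ^ 2 + s ^ 2 = 1) (f : E n × E n → F) :
    ∫ p : E n × E n, (wt p.1 * wt p.2) • f (c • p.1 + s • p.2, -s • p.1 + c • p.2) =
      ∫ p : E n × E n, (wt p.1 * wt p.2) • f p := by
  have h1 := (measurePreserving_rotM (n := n) h).integral_comp (measurableEmbedding_rotM h)
    (fun p : E n × E n => (wt p.1 * wt p.2) • f p)
  rw [← h1]
  congr 1
  ext p
  simp only [rotM_apply]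
  rw [wt_rot h]

/-- Measurable functions of linear growth. -/
def Gr (G : E n → ℝ) : Prop :=
  StronglyMeasurable G ∧ ∃ C : ℝ, 0 ≤ C ∧ ∀ z, |G z| ≤ C * (1 + ‖z‖)

theorem integrable_growth (m : ℕ) {f : E n → ℝ} (hf : AEStronglyMeasurable f volume) {C : ℝ}
    (hC : ∀ z, |f z| ≤ C * (1 + ‖z‖) ^ m) : Integrable fun z => f z * wt z := by
  have h1 := (integrable_poly_exp (n := n) m (c := 1 / 2) (by norm_num)).const_mul C
  refine h1.mono' (hf.mul continuous_wt.aestronglyMeasurable) (ae_of_all _ fun z => ?_)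
  have h2 : wt z = exp (-(1 / 2 * ‖z‖ ^ 2)) := by unfold wt; congr 1; ring
  rw [norm_mul, Real.norm_eq_abs, Real.norm_eq_abs, abs_of_pos (wt_pos z), ← h2, ← mul_assoc]
  exact mul_le_mul_of_nonneg_right (hC z) (wt_pos z).le

theorem integrable_growth_prod (m : ℕ) {f : E n × E n → ℝ}
    (hf : AEStronglyMeasurable f volume) {C : ℝ}
    (hC : ∀ p, |f p| ≤ C * ((1 + ‖p.1‖) ^ m * (1 + ‖p.2‖) ^ m)) :
    Integrable fun p : E n × E n => (wt p.1 * wt p.2) * f p := by
  have h1 := integrable_poly_exp (n := n) m (c := 1 / 2) (by norm_num)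
  have h2 := (h1.mul_prod h1).const_mul C
  rw [← Measure.volume_eq_prod] at h2
  have h3 : AEStronglyMeasurable (fun p : E n × E n => wt p.1 * wt p.2) volume :=
    ((continuous_wt.comp continuous_fst).mul
      (continuous_wt.comp continuous_snd)).aestronglyMeasurable
  refine h2.mono' (h3.mul hf) (ae_of_all _ fun p => ?_)
  have h4 : ∀ z : E n, exp (-(1 / 2 * ‖z‖ ^ 2)) = wt z := by
    intro z; unfold wt; congr 1; ring
  rw [norm_mul, Real.norm_eq_abs, Real.norm_eq_abs,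
    abs_of_pos (mul_pos (wt_pos p.1) (wt_pos p.2)), h4, h4]
  have h5 := mul_le_mul_of_nonneg_left (hC p) (mul_pos (wt_pos p.1) (wt_pos p.2)).le
  refine h5.trans (le_of_eq ?_)
  ring

/-- The Mehler semigroup. -/
noncomputable def P (ρ : ℝ) (G : E n → ℝ) (x : E n) : ℝ :=
  (cn n)⁻¹ * ∫ z' : E n, G (ρ • x + √(1 - ρ ^ 2) • z') * wt z'

theorem growth_comp {ρ c : ℝ} (h0 : |ρ| ≤ 1) (h1 : |c| ≤ 1) {G : E n → ℝ} {C : ℝ} (hC : 0 ≤ C)
    (hG : ∀ z, |G z| ≤ C * (1 + ‖z‖)) (x z : E n) :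
    |G (ρ • x + c • z)| ≤ C * ((1 + ‖x‖) * (1 + ‖z‖)) := by
  refine (hG _).trans (mul_le_mul_of_nonneg_left ?_ hC)
  have h2 : ‖ρ • x + c • z‖ ≤ ‖x‖ + ‖z‖ := by
    refine (norm_add_le _ _).trans ?_
    rw [norm_smul, norm_smul, Real.norm_eq_abs, Real.norm_eq_abs]
    have := mul_le_mul_of_nonneg_right h0 (norm_nonneg x)
    have := mul_le_mul_of_nonneg_right h1 (norm_nonneg z)
    linarith
  nlinarith [norm_nonneg x, norm_nonneg z]

theorem Gr.P {ρ : ℝ} (h0 : 0 ≤ ρ) (h1 : ρ ≤ 1) {G : E n → ℝ} (hG : Gr G) : Gr (P ρ G) := by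
  obtain ⟨hm, C, hC, hb⟩ := hG
  have hc : |√(1 - ρ ^ 2)| ≤ 1 := by
    rw [abs_of_nonneg (Real.sqrt_nonneg _), Real.sqrt_le_one]
    nlinarith
  have hρ : |ρ| ≤ 1 := by rw [abs_of_nonneg h0]; exact h1
  refine ⟨?_, ?_⟩
  · have h2 : StronglyMeasurable fun p : E n × E n =>
        G (ρ • p.1 + √(1 - ρ ^ 2) • p.2) * wt p.2 := by
      refine StronglyMeasurable.mul ?_ (continuous_wt.comp continuous_snd).stronglyMeasurable
      exact hm.comp_measurable (by fun_prop)
    have h3 := h2.integral_prod_right' (ν := (volume : Measure (E n)))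
    exact h3.const_mul _
  · refine ⟨(cn n)⁻¹ * (C * ∫ z : E n, (1 + ‖z‖) ^ 1 * wt z), ?_, fun x => ?_⟩
    · have h4 : 0 ≤ ∫ z : E n, (1 + ‖z‖) ^ 1 * wt z :=
        integral_nonneg fun z => mul_nonneg (by positivity) (wt_pos z).le
      have := cn_pos n
      positivity
    · unfold SpecA.P
      rw [abs_mul, abs_of_pos (inv_pos.2 (cn_pos n)), mul_assoc]
      refine mul_le_mul_of_nonneg_left ?_ (inv_pos.2 (cn_pos n)).le
      have h5 : ∀ z : E n, ‖G (ρ • x + √(1 - ρ ^ 2) • z) * wt z‖ ≤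
          (C * (1 + ‖x‖)) * ((1 + ‖z‖) ^ 1 * wt z) := by
        intro z
        rw [norm_mul, Real.norm_eq_abs, Real.norm_eq_abs, abs_of_pos (wt_pos z)]
        have := mul_le_mul_of_nonneg_right (growth_comp hρ hc hC hb x z) (wt_pos z).le
        refine this.trans (le_of_eq ?_)
        ring
      have h6 : Integrable fun z : E n => (C * (1 + ‖x‖)) * ((1 + ‖z‖) ^ 1 * wt z) := by
        refine Integrable.const_mul ?_ _
        refine integrable_growth 1 (by fun_prop) (C := 1) fun z => ?_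
        rw [one_mul, abs_of_nonneg (by positivity)]
      have h7 := norm_integral_le_of_norm_le h6 (ae_of_all _ h5)
      rw [integral_const_mul, Real.norm_eq_abs] at h7
      refine h7.trans (le_of_eq ?_)
      ring

theorem abs_sqrt_le {ρ : ℝ} : |√(1 - ρ ^ 2)| ≤ 1 := by
  rw [abs_of_nonneg (Real.sqrt_nonneg _), Real.sqrt_le_one]
  nlinarith [sq_nonneg ρ]

theorem sa {ρ : ℝ} (h0 : 0 ≤ ρ) (h1 : ρ ≤ 1) {F G : E n → ℝ} (hF : Gr F) (hG : Gr G) :
    ∫ z, F z * P ρ G z * wt z = ∫ z, P ρ F z * G z * wt z := by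
  have hρ : |ρ| ≤ 1 := by rw [abs_of_nonneg h0]; exact h1
  set c := √(1 - ρ ^ 2) with hc
  have hc1 : |c| ≤ 1 := abs_sqrt_le
  have hc2 : ρ ^ 2 + c ^ 2 = 1 := by
    rw [hc, Real.sq_sqrt (by nlinarith)]; ring
  obtain ⟨hFm, A, hA, hFb⟩ := hF
  obtain ⟨hGm, B, hB, hGb⟩ := hG
  have e1 : ∫ z, F z * P ρ G z * wt z =
      (cn n)⁻¹ * ∫ p : E n × E n, (wt p.1 * wt p.2) * (F p.1 * G (ρ • p.1 + c • p.2)) := by
    rw [Measure.volume_eq_prod, integral_prod, ← integral_const_mul]
    · congr 1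
      ext z
      unfold P
      rw [← hc, show F z * ((cn n)⁻¹ * ∫ z' : E n, G (ρ • z + c • z') * wt z') * wt z =
        (cn n)⁻¹ * ((F z * wt z) * ∫ z' : E n, G (ρ • z + c • z') * wt z') by ring,
        ← integral_const_mul]
      congr 2
      ext z'
      ring
    · rw [← Measure.volume_eq_prod]
      refine integrable_growth_prod 2 (C := A * B) ?_ fun p => ?_
      · refine StronglyMeasurable.aestronglyMeasurable (StronglyMeasurable.mul ?_ ?_)
        · exact hFm.comp_measurable measurable_fst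
        · exact hGm.comp_measurable (by fun_prop)
      · rw [abs_mul]
        have t1 := hFb p.1
        have t2 := growth_comp hρ hc1 hB hGb p.1 p.2
        have t3 := mul_le_mul t1 t2 (abs_nonneg _) (by positivity)
        refine t3.trans ?_
        have t4 : (1 + ‖p.2‖) ≤ (1 + ‖p.2‖) ^ 2 := by nlinarith [norm_nonneg p.2]
        calc A * (1 + ‖p.1‖) * (B * ((1 + ‖p.1‖) * (1 + ‖p.2‖)))
            = A * B * ((1 + ‖p.1‖) ^ 2 * (1 + ‖p.2‖)) := by ring
          _ ≤ A * B * ((1 + ‖p.1‖) ^ 2 * (1 + ‖p.2‖) ^ 2) := by gcongr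
  have e2 : ∫ z, P ρ F z * G z * wt z =
      (cn n)⁻¹ * ∫ p : E n × E n, (wt p.1 * wt p.2) * (F (ρ • p.1 - c • p.2) * G p.1) := by
    rw [Measure.volume_eq_prod, integral_prod, ← integral_const_mul]
    · congr 1
      ext z
      have e3 : P ρ F z = (cn n)⁻¹ * ∫ z' : E n, F (ρ • z - c • z') * wt z' := by
        unfold P
        rw [← hc]
        congr 1
        rw [← integral_neg_eq_self (fun z' : E n => F (ρ • z + c • z') * wt z')]
        congr 1
        ext z'
        have : wt (-z') = wt z' := by unfold wt; rw [norm_neg]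
        rw [this, smul_neg, sub_eq_add_neg]
      rw [e3, show (cn n)⁻¹ * (∫ z' : E n, F (ρ • z - c • z') * wt z') * G z * wt z =
        (cn n)⁻¹ * ((G z * wt z) * ∫ z' : E n, F (ρ • z - c • z') * wt z') by ring,
        ← integral_const_mul]
      congr 2
      ext z'
      ring
    · rw [← Measure.volume_eq_prod]
      refine integrable_growth_prod 2 (C := A * B) ?_ fun p => ?_
      · refine StronglyMeasurable.aestronglyMeasurable (StronglyMeasurable.mul ?_ ?_)
        · exact hFm.comp_measurable (by fun_prop)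
        · exact hGm.comp_measurable measurable_fst
      · rw [abs_mul]
        have t1 := hGb p.1
        have hc3 : |-c| ≤ 1 := by rw [abs_neg]; exact hc1
        have t2 := growth_comp hρ hc3 hA hFb p.1 p.2
        rw [neg_smul, ← sub_eq_add_neg] at t2
        have t3 := mul_le_mul t2 t1 (abs_nonneg _) (by positivity)
        refine t3.trans ?_
        have t4 : (1 + ‖p.2‖) ≤ (1 + ‖p.2‖) ^ 2 := by nlinarith [norm_nonneg p.2]
        calc A * ((1 + ‖p.1‖) * (1 + ‖p.2‖)) * (B * (1 + ‖p.1‖))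
            = A * B * ((1 + ‖p.1‖) ^ 2 * (1 + ‖p.2‖)) := by ring
          _ ≤ A * B * ((1 + ‖p.1‖) ^ 2 * (1 + ‖p.2‖) ^ 2) := by gcongr
  rw [e1, e2]
  congr 1
  have h5 := integral_rot (n := n) hc2
    (fun p : E n × E n => F (ρ • p.1 - c • p.2) * G p.1)
  simp only [smul_eq_mul] at h5
  rw [← h5]
  congr 1
  ext p
  congr 3
  have : ρ • (ρ • p.1 + c • p.2) - c • (-c • p.1 + ρ • p.2) = (ρ ^ 2 + c ^ 2) • p.1 := by module
  rw [this, hc2, one_smul]

theorem sg {ρ : ℝ} (h0 : 0 ≤ ρ) (h1 : ρ ≤ 1) {G : E n → ℝ} (hG : Gr G) (x : E n) :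
    P ρ (P ρ G) x = P (ρ ^ 2) G x := by
  have hρ : |ρ| ≤ 1 := by rw [abs_of_nonneg h0]; exact h1
  set c := √(1 - ρ ^ 2) with hc
  have hc1 : |c| ≤ 1 := abs_sqrt_le
  have hc0 : 0 ≤ c := Real.sqrt_nonneg _
  have hc2 : ρ ^ 2 + c ^ 2 = 1 := by
    rw [hc, Real.sq_sqrt (by nlinarith)]; ring
  obtain ⟨hGm, B, hB, hGb⟩ := hG
  set q := √(1 + ρ ^ 2) with hq
  have hq0 : 0 < q := Real.sqrt_pos.2 (by positivity)
  have hq2 : q ^ 2 = 1 + ρ ^ 2 := Real.sq_sqrt (by positivity)
  have hcq : √(1 - (ρ ^ 2) ^ 2) = c * q := by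
    rw [hc, hq, ← Real.sqrt_mul (by nlinarith)]
    congr 1; ring
  have hrot : (ρ / q) ^ 2 + (1 / q) ^ 2 = 1 := by
    rw [div_pow, div_pow, ← add_div, hq2, one_pow, div_eq_one_iff_eq (by positivity)]
    ring
  have hbd : ∀ p : E n × E n, |G (ρ ^ 2 • x + (c * ρ) • p.1 + c • p.2)| ≤
      (B * (1 + ‖x‖)) * ((1 + ‖p.1‖) ^ 1 * (1 + ‖p.2‖) ^ 1) := by
    intro p
    refine (hGb _).trans ?_
    have h2 : ‖ρ ^ 2 • x + (c * ρ) • p.1 + c • p.2‖ ≤ ‖x‖ + ‖p.1‖ + ‖p.2‖ := by
      refine (norm_add₃_le).trans ?_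
      rw [norm_smul, norm_smul, norm_smul, Real.norm_eq_abs, Real.norm_eq_abs, Real.norm_eq_abs,
        abs_pow, abs_mul]
      have a1 : |ρ| ^ 2 ≤ 1 := pow_le_one₀ (abs_nonneg _) hρ
      have a2 : |c| * |ρ| ≤ 1 := mul_le_one₀ hc1 (abs_nonneg _) hρ
      have := mul_le_mul_of_nonneg_right a1 (norm_nonneg x)
      have := mul_le_mul_of_nonneg_right a2 (norm_nonneg p.1)
      have := mul_le_mul_of_nonneg_right hc1 (norm_nonneg p.2)
      linarith
    rw [mul_assoc, pow_one, pow_one]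
    refine mul_le_mul_of_nonneg_left ?_ hB
    have n1 := norm_nonneg x
    have n2 := norm_nonneg p.1
    have n3 := norm_nonneg p.2
    nlinarith [mul_nonneg n1 n2, mul_nonneg n1 n3, mul_nonneg n2 n3,
      mul_nonneg n1 (mul_nonneg n2 n3)]
  have hint : Integrable fun p : E n × E n =>
      (wt p.1 * wt p.2) * G (ρ ^ 2 • x + (c * ρ) • p.1 + c • p.2) := by
    refine integrable_growth_prod 1 (C := B * (1 + ‖x‖)) ?_ hbd
    exact (hGm.comp_measurable (by fun_prop)).aestronglyMeasurable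
  have e1 : P ρ (P ρ G) x = (cn n)⁻¹ ^ 2 *
      ∫ p : E n × E n, (wt p.1 * wt p.2) * G (ρ ^ 2 • x + (c * ρ) • p.1 + c • p.2) := by
    rw [Measure.volume_eq_prod, integral_prod _ (by rwa [← Measure.volume_eq_prod]), sq,
      mul_assoc, ← integral_const_mul]
    unfold P
    congr 2
    ext y
    rw [← hc, mul_assoc, mul_comm (∫ _, _) (wt y), ← integral_const_mul]
    congr 2
    ext z
    have : ρ • (ρ • x + c • y) + c • z = ρ ^ 2 • x + (c * ρ) • y + c • z := by module
    rw [this]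
    ring
  have e2 : ∫ p : E n × E n, (wt p.1 * wt p.2) * G (ρ ^ 2 • x + (c * ρ) • p.1 + c • p.2) =
      ∫ p : E n × E n, (wt p.1 * wt p.2) * G (ρ ^ 2 • x + (c * q) • p.1) := by
    have h5 := integral_rot (n := n) hrot
      (fun p : E n × E n => G (ρ ^ 2 • x + (c * q) • p.1))
    simp only [smul_eq_mul] at h5
    rw [← h5]
    congr 1
    ext p
    congr 2
    rw [smul_add, smul_smul, smul_smul, add_assoc]
    congr 3
    · field_simp
    · field_simp
  have e3 : ∫ p : E n × E n, (wt p.1 * wt p.2) * G (ρ ^ 2 • x + (c * q) • p.1) =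
      (∫ y : E n, wt y * G (ρ ^ 2 • x + (c * q) • y)) * ∫ z : E n, wt z := by
    rw [← integral_prod_mul (μ := (volume : Measure (E n))) (ν := (volume : Measure (E n)))
      (fun y : E n => wt y * G (ρ ^ 2 • x + (c * q) • y)) wt, ← Measure.volume_eq_prod]
    congr 1
    ext p
    ring
  rw [e1, e2, e3, integral_wt]
  unfold P
  rw [hcq]
  have hcn := (cn_pos n).ne'
  have e4 : ∫ y : E n, wt y * G (ρ ^ 2 • x + (c * q) • y) =
      ∫ y : E n, G (ρ ^ 2 • x + (c * q) • y) * wt y := by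
    congr 1; ext y; ring
  rw [e4]
  field_simp

theorem corr_eq (G : E n → ℝ) (ρ : ℝ) : corr G ρ = (cn n)⁻¹ * ∫ z, G z * P ρ G z * wt z := by
  unfold corr P
  rw [sq, mul_assoc, ← integral_const_mul]
  congr 2
  ext z
  rw [show G z * ((cn n)⁻¹ * ∫ z' : E n, G (ρ • z + √(1 - ρ ^ 2) • z') * wt z') * wt z =
    (cn n)⁻¹ * ((G z * wt z) * ∫ z' : E n, G (ρ • z + √(1 - ρ ^ 2) • z') * wt z') by ring,
    ← integral_const_mul (G z * wt z)]
  congr 2
  ext z'
  ring

theorem Gr.integrable_mul {F G : E n → ℝ} (hF : Gr F) (hG : Gr G) :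
    Integrable fun z => F z * G z * wt z := by
  obtain ⟨hFm, A, hA, hFb⟩ := hF
  obtain ⟨hGm, B, hB, hGb⟩ := hG
  refine integrable_growth 2 (C := A * B) (hFm.mul hGm).aestronglyMeasurable fun z => ?_
  rw [abs_mul]
  refine (mul_le_mul (hFb z) (hGb z) (abs_nonneg _) (by positivity)).trans (le_of_eq ?_)
  ring

theorem cauchy_schwarz {F G : E n → ℝ} (hF : Gr F) (hG : Gr G) :
    (∫ z, F z * G z * wt z) ^ 2 ≤ (∫ z, F z * F z * wt z) * ∫ z, G z * G z * wt z := by
  have h1 := hF.integrable_mul hG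
  have h2 := hF.integrable_mul hF
  have h3 := hG.integrable_mul hG
  set a := ∫ z, F z * F z * wt z
  set b := ∫ z, F z * G z * wt z
  set d := ∫ z, G z * G z * wt z
  have h4 : ∀ t : ℝ, 0 ≤ a * (t * t) + (2 * b) * t + d := by
    intro t
    have h5 : a * (t * t) + (2 * b) * t + d =
        ∫ z, (t * F z + G z) ^ 2 * wt z := by
      have h6 : (fun z => (t * F z + G z) ^ 2 * wt z) = fun z =>
          (t * t) * (F z * F z * wt z) + (2 * t) * (F z * G z * wt z) + G z * G z * wt z := by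
        ext z; ring
      have i1 : Integrable fun z => (t * t) * (F z * F z * wt z) + (2 * t) * (F z * G z * wt z) :=
        (h2.const_mul _).add (h1.const_mul _)
      rw [h6, integral_add i1 h3,
        integral_add (h2.const_mul _) (h1.const_mul _), integral_const_mul, integral_const_mul]
      ring
    rw [h5]
    exact integral_nonneg fun z => mul_nonneg (sq_nonneg _) (wt_pos z).le
  have h7 := discrim_le_zero h4
  unfold discrim at h7
  nlinarith

theorem _root_.Pool.Agent.H65L.Cone.gr {κ : ℝ} {G : E n → ℝ} (hG : Cone κ G) : Gr G := by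
  have h0 : G 0 = 0 := by
    have := hG.hom 0 0 le_rfl
    simpa using this
  have hl : LipschitzWith (Real.toNNReal κ) G := by
    refine LipschitzWith.of_dist_le_mul fun x y => ?_
    rw [Real.dist_eq, dist_eq_norm]
    refine (hG.lip x y).trans (mul_le_mul_of_nonneg_right (Real.le_coe_toNNReal κ) (norm_nonneg _))
  refine ⟨hl.continuous.stronglyMeasurable, |κ|, abs_nonneg _, fun z => ?_⟩
  have h1 := hG.lip z 0
  rw [h0, sub_zero, sub_zero] at h1
  have h2 : κ * ‖z‖ ≤ |κ| * ‖z‖ := mul_le_mul_of_nonneg_right (le_abs_self κ) (norm_nonneg _)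
  nlinarith [abs_nonneg κ, norm_nonneg z]

end SpecA

open SpecA

/-- Rotation invariance of the Gaussian measure on pairs. -/
theorem integral_rotate {F : Type} [NormedAddCommGroup F] [NormedSpace ℝ F] (φ : ℝ)
    (f : E n × E n → F) :
    ∫ p : E n × E n, (wt p.1 * wt p.2) • f (cos φ • p.1 + sin φ • p.2, -sin φ • p.1 + cos φ • p.2) =
      ∫ p : E n × E n, (wt p.1 * wt p.2) • f p :=
  integral_rot (Real.cos_sq_add_sin_sq φ) f

theorem corr_one {κ : ℝ} {G : E n → ℝ} (hG : Cone κ G) : corr G 1 = mom G := by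
  rw [corr_eq]
  unfold mom
  congr 2
  ext z
  have hcn := (cn_pos n).ne'
  have : P 1 G z = G z := by
    unfold P
    simp only [one_smul, one_pow, sub_self, Real.sqrt_zero, zero_smul, add_zero]
    rw [integral_const_mul, integral_wt]
    field_simp
  rw [this]
  ring

/-- Cauchy-Schwarz for the Ornstein-Uhlenbeck semigroup. -/
theorem corr_sq_le {κ : ℝ} (hκ : 0 ≤ κ) {G : E n → ℝ} (hG : Cone κ G) {ρ : ℝ} (h0 : 0 ≤ ρ)
    (h1 : ρ ≤ 1) : corr G ρ ^ 2 ≤ mom G * corr G (ρ ^ 2) := by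
  have hg := hG.gr
  have hP := hg.P h0 h1
  have e1 : corr G (ρ ^ 2) = (cn n)⁻¹ * ∫ z, P ρ G z * P ρ G z * wt z := by
    rw [corr_eq, ← sa h0 h1 hg hP]
    congr 2
    ext z
    rw [sg h0 h1 hg z]
  have e2 : mom G = (cn n)⁻¹ * ∫ z, G z * G z * wt z := by
    unfold mom
    congr 2
    ext z
    ring
  rw [e1, e2, corr_eq, mul_pow]
  have h2 := cauchy_schwarz hg hP
  have h3 := mul_le_mul_of_nonneg_left h2 (sq_nonneg (cn n)⁻¹)
  refine h3.trans (le_of_eq ?_)
  ring

end Pool.Agent.H65L
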