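import Pool.Agent.H65L.Gauss

set_option autoImplicit false

/-! The correlation for small parameters (module LB/SpecB). -/

open Real Set MeasureTheory Metric Filter Topology
open scoped RealInnerProductSpace

namespace Pool.Agent.H65L

open Pool.Agent.H65G

variable {n : ℕ}

namespace SpecB

theorem cone_continuous {κ : ℝ} {G : E n → ℝ} (hG : Cone κ G) : Continuous G := by
  have h : LipschitzWith (Real.toNNReal κ) G := by
    refine LipschitzWith.of_dist_le_mul fun x y => ?_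
    rw [Real.dist_eq, dist_eq_norm]
    refine (hG.lip x y).trans ?_
    exact mul_le_mul_of_nonneg_right (Real.le_coe_toNNReal κ) (norm_nonneg _)
  exact h.continuous

theorem cone_zero {κ : ℝ} {G : E n → ℝ} (hG : Cone κ G) : G 0 = 0 := by
  have h := hG.odd 0
  rw [neg_zero] at h
  linarith

theorem cone_abs_le {κ : ℝ} {G : E n → ℝ} (hG : Cone κ G) (z : E n) : |G z| ≤ κ * ‖z‖ := by
  have h := hG.lip z 0
  rw [cone_zero hG, sub_zero, sub_zero] at h
  exact h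

theorem wt_neg (z : E n) : wt (-z) = wt z := by
  unfold wt; rw [norm_neg]

theorem wt_eq (z : E n) : wt z = exp (-(1 / 2 * ‖z‖ ^ 2)) := by
  unfold wt; congr 1; ring

/-- The inner integral of the correlation. -/
theorem corr_eq (G : E n → ℝ) (ρ : ℝ) :
    corr G ρ = (cn n)⁻¹ ^ 2 * ∫ z : E n, (G z * wt z) *
      ∫ z' : E n, G (ρ • z + √(1 - ρ ^ 2) • z') * wt z' := by
  unfold corr
  congr 1
  refine integral_congr_ae (Eventually.of_forall fun z => ?_)
  change (∫ z' : E n, G z * G (ρ • z + √(1 - ρ ^ 2) • z') * (wt z * wt z')) =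
    (G z * wt z) * ∫ z' : E n, G (ρ • z + √(1 - ρ ^ 2) • z') * wt z'
  rw [← integral_const_mul]
  refine integral_congr_ae (Eventually.of_forall fun z' => ?_)
  change G z * G (ρ • z + √(1 - ρ ^ 2) • z') * (wt z * wt z') =
    (G z * wt z) * (G (ρ • z + √(1 - ρ ^ 2) • z') * wt z')
  ring

theorem integrable_inner {κ : ℝ} (hκ : 0 ≤ κ) {G : E n → ℝ} (hG : Cone κ G) (b : E n) {c : ℝ}
    (h0 : 0 ≤ c) (h1 : c ≤ 1) : Integrable fun z' : E n => G (b + c • z') * wt z' := by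
  have hi := (integrable_poly_exp (n := n) 1 (c := 1 / 2) (by norm_num)).const_mul
    (κ * (1 + ‖b‖))
  refine hi.mono' ?_ (Eventually.of_forall fun z' => ?_)
  · refine Continuous.aestronglyMeasurable ?_
    have := cone_continuous hG
    have := continuous_wt (n := n)
    fun_prop
  · rw [norm_mul, Real.norm_eq_abs, Real.norm_eq_abs, abs_of_pos (wt_pos z'), ← wt_eq, ← mul_assoc]
    refine mul_le_mul_of_nonneg_right ?_ (wt_pos z').le
    refine (cone_abs_le hG _).trans ?_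
    rw [pow_one, mul_assoc]
    refine mul_le_mul_of_nonneg_left ?_ hκ
    have h2 : ‖b + c • z'‖ ≤ ‖b‖ + ‖z'‖ := by
      refine (norm_add_le _ _).trans ?_
      rw [norm_smul, Real.norm_eq_abs, abs_of_nonneg h0]
      have := mul_le_mul_of_nonneg_right h1 (norm_nonneg z')
      linarith
    nlinarith [norm_nonneg b, norm_nonneg z']

theorem integrable_wt : Integrable (wt : E n → ℝ) := by
  refine (integrable_poly_exp (n := n) 0 (c := 1 / 2) (by norm_num)).congr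
    (Eventually.of_forall fun z => ?_)
  change (1 + ‖z‖) ^ 0 * exp (-(1 / 2 * ‖z‖ ^ 2)) = wt z
  rw [pow_zero, one_mul, wt_eq]

theorem integral_norm_sq_wt : ∫ z : E n, ‖z‖ ^ 2 * wt z = n * cn n := by
  have h := integral_norm_sq_hom (n := n) 0 (f := fun _ : E n => (1 : ℝ)) continuous_const
    (fun r z _ => by simp)
  simp only [smul_eq_mul, mul_one, Nat.cast_zero, add_zero] at h
  rw [h, integral_wt]

theorem integrable_norm_sq_wt : Integrable fun z : E n => ‖z‖ ^ 2 * wt z := by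
  have h := integrable_hom (n := n) 0 2 (f := fun _ : E n => (1 : ℝ)) continuous_const
    (fun r z _ => by simp)
  simpa using h

end SpecB

open SpecB

theorem abs_corr_le_odd {κ : ℝ} (hκ : 0 ≤ κ) {G : E n → ℝ} (hG : Cone κ G) {ρ : ℝ} (h0 : 0 ≤ ρ)
    (h1 : ρ ≤ 1) : |corr G ρ| ≤ κ ^ 2 * n * ρ := by
  have hc0 : 0 ≤ √(1 - ρ ^ 2) := Real.sqrt_nonneg _
  have hc1 : √(1 - ρ ^ 2) ≤ 1 := by
    refine Real.sqrt_le_one.2 ?_
    nlinarith [sq_nonneg ρ]
  set c := √(1 - ρ ^ 2) with hc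
  have hcn := cn_pos n
  -- the inner integral
  have hinner : ∀ z : E n, |∫ z' : E n, G (ρ • z + c • z') * wt z'| ≤ κ * ρ * ‖z‖ * cn n := by
    intro z
    have hi1 := integrable_inner hκ hG (ρ • z) hc0 hc1
    have hi2 := integrable_inner hκ hG (-(ρ • z)) hc0 hc1
    have hneg : ∫ z' : E n, G (ρ • z + c • z') * wt z' =
        -∫ z' : E n, G (-(ρ • z) + c • z') * wt z' := by
      rw [← integral_neg_eq_self, ← integral_neg]
      refine integral_congr_ae (Eventually.of_forall fun z' => ?_)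
      change G (ρ • z + c • (-z')) * wt (-z') = -(G (-(ρ • z) + c • z') * wt z')
      rw [wt_neg, show ρ • z + c • (-z') = -(-(ρ • z) + c • z') by
        rw [smul_neg, neg_add, neg_neg], hG.odd]
      ring
    have h2 : 2 * ∫ z' : E n, G (ρ • z + c • z') * wt z' =
        ∫ z' : E n, (G (ρ • z + c • z') * wt z' - G (-(ρ • z) + c • z') * wt z') := by
      rw [integral_sub hi1 hi2, two_mul]
      nth_rewrite 2 [hneg]
      ring
    have h3 : |∫ z' : E n, (G (ρ • z + c • z') * wt z' - G (-(ρ • z) + c • z') * wt z')| ≤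
        ∫ z' : E n, (2 * κ * ρ * ‖z‖) * wt z' := by
      rw [← Real.norm_eq_abs]
      refine norm_integral_le_of_norm_le ?_ (Eventually.of_forall fun z' => ?_)
      · refine Integrable.const_mul ?_ _
        exact integrable_wt
      · rw [← sub_mul, norm_mul, Real.norm_eq_abs, Real.norm_eq_abs, abs_of_pos (wt_pos z')]
        refine mul_le_mul_of_nonneg_right ?_ (wt_pos z').le
        refine (hG.lip _ _).trans (le_of_eq ?_)
        rw [show ρ • z + c • z' - (-(ρ • z) + c • z') = (2 * ρ) • z by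
          rw [mul_smul, two_smul]; abel, norm_smul, Real.norm_eq_abs,
          abs_of_nonneg (by positivity)]
        ring
    rw [integral_const_mul, integral_wt, ← h2, abs_mul, abs_two] at h3
    nlinarith
  rw [corr_eq, abs_mul, abs_of_nonneg (by positivity)]
  have h4 : |∫ z : E n, (G z * wt z) * ∫ z' : E n, G (ρ • z + c • z') * wt z'| ≤
      ∫ z : E n, (κ ^ 2 * ρ * cn n) * (‖z‖ ^ 2 * wt z) := by
    rw [← Real.norm_eq_abs]
    refine norm_integral_le_of_norm_le (integrable_norm_sq_wt.const_mul _)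
      (Eventually.of_forall fun z => ?_)
    rw [norm_mul, norm_mul, Real.norm_eq_abs, Real.norm_eq_abs, Real.norm_eq_abs,
      abs_of_pos (wt_pos z)]
    calc |G z| * wt z * |∫ z' : E n, G (ρ • z + c • z') * wt z'|
        ≤ (κ * ‖z‖) * wt z * (κ * ρ * ‖z‖ * cn n) := by
          have h5 := cone_abs_le hG z
          have h6 := hinner z
          have h7 := (wt_pos z).le
          gcongr
      _ = _ := by ring
  rw [integral_const_mul, integral_norm_sq_wt] at h4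
  calc (cn n)⁻¹ ^ 2 * |∫ z : E n, (G z * wt z) * ∫ z' : E n, G (ρ • z + c • z') * wt z'|
      ≤ (cn n)⁻¹ ^ 2 * (κ ^ 2 * ρ * cn n * (n * cn n)) :=
        mul_le_mul_of_nonneg_left h4 (by positivity)
    _ = κ ^ 2 * n * ρ := by field_simp

namespace SpecB

theorem abs_sinh_sub_le (t : ℝ) : |sinh t - t| ≤ |t| ^ 3 * exp |t| := by
  -- reduce to `0 ≤ t`
  have key : ∀ t : ℝ, 0 ≤ t → |sinh t - t| ≤ t ^ 3 * exp t := by
    intro t ht
    have h1 : t ≤ sinh t := Real.self_le_sinh_iff.2 ht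
    rw [abs_of_nonneg (by linarith)]
    -- `f = t^3 exp t - sinh t + t` is monotone on `[0, ∞)`
    have hd : ∀ x : ℝ, HasDerivAt (fun t : ℝ => t ^ 3 * exp t - sinh t + t)
        (3 * x ^ 2 * exp x + x ^ 3 * exp x - cosh x + 1) x := by
      intro x
      have h2 := (((hasDerivAt_pow 3 x).mul (Real.hasDerivAt_exp x)).sub
        (Real.hasDerivAt_sinh x)).add (hasDerivAt_id x)
      refine h2.congr_deriv ?_
      norm_num
    have hm : MonotoneOn (fun t : ℝ => t ^ 3 * exp t - sinh t + t) (Ici 0) := by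
      refine monotoneOn_of_deriv_nonneg (convex_Ici 0)
        (fun x _ => (hd x).continuousAt.continuousWithinAt)
        (fun x _ => (hd x).differentiableAt.differentiableWithinAt) fun x hx => ?_
      rw [(hd x).deriv]
      rw [interior_Ici, mem_Ioi] at hx
      have h3 : cosh x - 1 ≤ x ^ 2 * exp x := by
        have h4 : cosh x = 1 + 2 * sinh (x / 2) ^ 2 := by
          have := Real.cosh_two_mul (x / 2)
          rw [show 2 * (x / 2) = x by ring, Real.cosh_sq] at this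
          linarith
        have h5 : sinh (x / 2) ≤ x / 2 * exp (x / 2) := by
          rw [Real.sinh_eq]
          have h6 := Real.add_one_le_exp (-x)
          have h7 : exp (-(x / 2)) = exp (x / 2) * exp (-x) := by
            rw [← Real.exp_add]; congr 1; ring
          rw [h7]
          nlinarith [Real.exp_pos (x / 2)]
        have h8 : 0 ≤ sinh (x / 2) := Real.sinh_nonneg_iff.2 (by linarith)
        have h9 : sinh (x / 2) ^ 2 ≤ (x / 2 * exp (x / 2)) ^ 2 := pow_le_pow_left₀ h8 h5 2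
        have h10 : (x / 2 * exp (x / 2)) ^ 2 = x ^ 2 / 4 * exp x := by
          rw [mul_pow, ← Real.exp_nat_mul]
          push_cast
          rw [show (2 : ℝ) * (x / 2) = x by ring]
          ring
        rw [h10] at h9
        nlinarith [Real.exp_pos x, mul_nonneg (sq_nonneg x) (Real.exp_pos x).le]
      have h11 : 0 ≤ x ^ 2 * exp x := by positivity
      have h12 : 0 ≤ x ^ 3 * exp x := by positivity
      linarith
    have h13 := hm (mem_Ici.2 le_rfl) (mem_Ici.2 ht) ht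
    simp only [Real.sinh_zero] at h13
    norm_num at h13
    linarith
  rcases le_total 0 t with ht | ht
  · have := key t ht
    rwa [abs_of_nonneg ht]
  · have := key (-t) (by linarith)
    rw [Real.sinh_neg, show -sinh t - -t = -(sinh t - t) by ring, abs_neg] at this
    rwa [abs_of_nonpos ht]

theorem exp_mul_bound (x y : ℝ) : x * y ≤ 2 * x ^ 2 + y ^ 2 / 8 := by
  nlinarith [sq_nonneg (4 * x - y)]

theorem wt_mul_exp_le (a v : E n) :
    wt v * exp (‖a‖ * ‖v‖) ≤ exp (2 * ‖a‖ ^ 2) * exp (-(3 / 8 * ‖v‖ ^ 2)) := by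
  rw [wt_eq, ← Real.exp_add, ← Real.exp_add]
  refine Real.exp_le_exp.2 ?_
  have := exp_mul_bound ‖a‖ ‖v‖
  linarith

theorem abs_inner_le (a v : E n) : |⟪a, v⟫| ≤ ‖a‖ * ‖v‖ := abs_real_inner_le_norm a v

theorem integrable_J {κ : ℝ} (hκ : 0 ≤ κ) {G : E n → ℝ} (hG : Cone κ G) (a : E n) :
    Integrable fun v : E n => G v * wt v * exp ⟪a, v⟫ := by
  have hi := (integrable_poly_exp (n := n) 1 (c := 3 / 8) (by norm_num)).const_mul
    (κ * exp (2 * ‖a‖ ^ 2))
  refine hi.mono' ?_ (Eventually.of_forall fun v => ?_)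
  · refine Continuous.aestronglyMeasurable ?_
    have := cone_continuous hG
    have := continuous_wt (n := n)
    fun_prop
  · rw [norm_mul, norm_mul, Real.norm_eq_abs, Real.norm_eq_abs, Real.norm_eq_abs,
      abs_of_pos (wt_pos v), abs_of_pos (Real.exp_pos _)]
    have h1 : exp ⟪a, v⟫ ≤ exp (‖a‖ * ‖v‖) :=
      Real.exp_le_exp.2 ((le_abs_self _).trans (abs_inner_le a v))
    have h2 := wt_mul_exp_le a v
    have h3 := cone_abs_le hG v
    have h4 : 0 < exp (2 * ‖a‖ ^ 2) * exp (-(3 / 8 * ‖v‖ ^ 2)) := by positivity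
    calc |G v| * wt v * exp ⟪a, v⟫ ≤ (κ * ‖v‖) * wt v * exp (‖a‖ * ‖v‖) := by
          have h7 := (wt_pos v).le
          gcongr
      _ = (κ * ‖v‖) * (wt v * exp (‖a‖ * ‖v‖)) := by ring
      _ ≤ (κ * (1 + ‖v‖)) * (exp (2 * ‖a‖ ^ 2) * exp (-(3 / 8 * ‖v‖ ^ 2))) := by
          have h8 : ‖v‖ ≤ 1 + ‖v‖ := by linarith
          have h9 : 0 ≤ wt v * exp (‖a‖ * ‖v‖) := mul_nonneg (wt_pos v).le (Real.exp_pos _).le
          gcongr
      _ = _ := by ring

/-- The constant `∫ (1 + |v|)⁴ exp (-3|v|²/8)`. -/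
noncomputable def KK (n : ℕ) : ℝ := ∫ v : E n, (1 + ‖v‖) ^ 4 * exp (-(3 / 8 * ‖v‖ ^ 2))

theorem KK_nonneg (n : ℕ) : 0 ≤ KK n :=
  integral_nonneg fun v => by positivity

theorem abs_J_le {κ : ℝ} (hκ : 0 ≤ κ) {G : E n → ℝ} (hG : Cone κ G)
    (hb : ∫ z, (G z * wt z) • z = 0) (a : E n) :
    |∫ v : E n, G v * wt v * exp ⟪a, v⟫| ≤ κ * KK n * ‖a‖ ^ 3 * exp (2 * ‖a‖ ^ 2) := by
  have hi1 := integrable_J hκ hG a
  have hi2 := integrable_J hκ hG (-a)
  have hneg : ∫ v : E n, G v * wt v * exp ⟪a, v⟫ = -∫ v : E n, G v * wt v * exp ⟪-a, v⟫ := by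
    rw [← integral_neg_eq_self, ← integral_neg]
    refine integral_congr_ae (Eventually.of_forall fun v => ?_)
    change G (-v) * wt (-v) * exp ⟪a, -v⟫ = -(G v * wt v * exp ⟪-a, v⟫)
    rw [wt_neg, hG.odd, inner_neg_right, inner_neg_left]
    ring
  have hiv : Integrable fun z : E n => (G z * wt z) • z := by
    have h := integrable_hom (n := n) 2 0 (f := fun z : E n => G z • z)
      ((cone_continuous hG).smul continuous_id) (fun r z hr => by
        rw [hG.hom r z hr, smul_smul, smul_smul]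
        congr 1; ring)
    refine h.congr (Eventually.of_forall fun z => ?_)
    change (‖z‖ ^ 0 * wt z) • (G z • z) = (G z * wt z) • z
    rw [smul_smul]
    congr 1; ring
  have hlin : ∫ v : E n, G v * wt v * ⟪a, v⟫ = 0 := by
    have h : ∫ v : E n, ⟪a, (G v * wt v) • v⟫ = ⟪a, ∫ v : E n, (G v * wt v) • v⟫ :=
      integral_inner hiv a
    rw [hb, inner_zero_right] at h
    rw [← h]
    refine integral_congr_ae (Eventually.of_forall fun v => ?_)
    change G v * wt v * ⟪a, v⟫ = ⟪a, (G v * wt v) • v⟫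
    rw [real_inner_smul_right]
  have hilin : Integrable fun v : E n => G v * wt v * ⟪a, v⟫ := by
    refine (hiv.const_inner a).congr (Eventually.of_forall fun v => ?_)
    change ⟪a, (G v * wt v) • v⟫ = G v * wt v * ⟪a, v⟫
    rw [real_inner_smul_right]
  have hmain : ∫ v : E n, G v * wt v * exp ⟪a, v⟫ =
      ∫ v : E n, G v * wt v * (sinh ⟪a, v⟫ - ⟪a, v⟫) := by
    have h1 : 2 * ∫ v : E n, G v * wt v * exp ⟪a, v⟫ =
        ∫ v : E n, (G v * wt v * exp ⟪a, v⟫ - G v * wt v * exp ⟪-a, v⟫) := by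
      rw [integral_sub hi1 hi2, two_mul]
      nth_rewrite 2 [hneg]
      ring
    have h2 : ∫ v : E n, (G v * wt v * exp ⟪a, v⟫ - G v * wt v * exp ⟪-a, v⟫) =
        2 * ∫ v : E n, G v * wt v * (sinh ⟪a, v⟫ - ⟪a, v⟫) := by
      have h3 : ∫ v : E n, 2 * (G v * wt v * (sinh ⟪a, v⟫ - ⟪a, v⟫)) =
          ∫ v : E n, ((G v * wt v * exp ⟪a, v⟫ - G v * wt v * exp ⟪-a, v⟫) -
            2 * (G v * wt v * ⟪a, v⟫)) := by
        refine integral_congr_ae (Eventually.of_forall fun v => ?_)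
        change 2 * (G v * wt v * (sinh ⟪a, v⟫ - ⟪a, v⟫)) =
          (G v * wt v * exp ⟪a, v⟫ - G v * wt v * exp ⟪-a, v⟫) - 2 * (G v * wt v * ⟪a, v⟫)
        rw [Real.sinh_eq, inner_neg_left]
        ring
      have hi12 : Integrable fun v : E n =>
          G v * wt v * exp ⟪a, v⟫ - G v * wt v * exp ⟪-a, v⟫ := hi1.sub hi2
      rw [← integral_const_mul, h3, integral_sub hi12 (hilin.const_mul 2),
        integral_const_mul 2 (fun v : E n => G v * wt v * ⟪a, v⟫), hlin]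
      ring
    linarith
  rw [hmain, ← Real.norm_eq_abs]
  have hK : ∫ v : E n, (κ * ‖a‖ ^ 3 * exp (2 * ‖a‖ ^ 2)) *
      ((1 + ‖v‖) ^ 4 * exp (-(3 / 8 * ‖v‖ ^ 2))) =
      κ * KK n * ‖a‖ ^ 3 * exp (2 * ‖a‖ ^ 2) := by
    rw [integral_const_mul, KK]
    ring
  rw [← hK]
  refine norm_integral_le_of_norm_le
    ((integrable_poly_exp (n := n) 4 (c := 3 / 8) (by norm_num)).const_mul _)
    (Eventually.of_forall fun v => ?_)
  rw [norm_mul, norm_mul, Real.norm_eq_abs, Real.norm_eq_abs, Real.norm_eq_abs,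
    abs_of_pos (wt_pos v)]
  have h1 := abs_sinh_sub_le ⟪a, v⟫
  have h2 := abs_inner_le a v
  have h3 := cone_abs_le hG v
  have h4 := wt_mul_exp_le a v
  have h5 : |⟪a, v⟫| ^ 3 * exp |⟪a, v⟫| ≤ (‖a‖ * ‖v‖) ^ 3 * exp (‖a‖ * ‖v‖) := by
    gcongr
  have h6 : ‖v‖ ^ 4 ≤ (1 + ‖v‖) ^ 4 := by
    gcongr
    linarith
  calc |G v| * wt v * |sinh ⟪a, v⟫ - ⟪a, v⟫|
      ≤ (κ * ‖v‖) * wt v * ((‖a‖ * ‖v‖) ^ 3 * exp (‖a‖ * ‖v‖)) := by
        have h7 := (wt_pos v).le
        have h8 := h1.trans h5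
        gcongr
    _ = κ * ‖a‖ ^ 3 * ‖v‖ ^ 4 * (wt v * exp (‖a‖ * ‖v‖)) := by ring
    _ ≤ κ * ‖a‖ ^ 3 * (1 + ‖v‖) ^ 4 * (exp (2 * ‖a‖ ^ 2) * exp (-(3 / 8 * ‖v‖ ^ 2))) := by
        have h9 : 0 ≤ wt v * exp (‖a‖ * ‖v‖) := mul_nonneg (wt_pos v).le (Real.exp_pos _).le
        gcongr
    _ = _ := by ring

theorem inner_eq {G : E n → ℝ} {κ : ℝ} (hG : Cone κ G) (z : E n) (ρ : ℝ) {c : ℝ} (hc : 0 < c) :
    ∫ z' : E n, G (ρ • z + c • z') * wt z' =
      c * exp (-(‖(ρ / c) • z‖ ^ 2 / 2)) * ∫ v : E n, G v * wt v * exp ⟪(ρ / c) • z, v⟫ := by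
  rw [← integral_sub_right_eq_self (fun z' : E n => G (ρ • z + c • z') * wt z') ((ρ / c) • z),
    ← integral_const_mul]
  refine integral_congr_ae (Eventually.of_forall fun v => ?_)
  change G (ρ • z + c • (v - (ρ / c) • z)) * wt (v - (ρ / c) • z) = _
  have h1 : ρ • z + c • (v - (ρ / c) • z) = c • v := by
    rw [smul_sub, smul_smul, mul_div_cancel₀ _ hc.ne']
    abel
  rw [h1, hG.hom c v hc.le]
  have h2 : wt (v - (ρ / c) • z) =
      exp (-(‖(ρ / c) • z‖ ^ 2 / 2)) * (wt v * exp ⟪(ρ / c) • z, v⟫) := by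
    unfold wt
    rw [← Real.exp_add, ← Real.exp_add]
    congr 1
    rw [@norm_sub_sq_real]
    rw [real_inner_comm]
    ring
  rw [h2]
  ring

end SpecB

open SpecB

theorem abs_corr_le_balanced {κ : ℝ} (hκ : 0 ≤ κ) {G : E n → ℝ} (hG : Cone κ G)
    (hb : ∫ z, (G z * wt z) • z = 0) :
    ∃ C : ℝ, 0 ≤ C ∧ ∀ ρ : ℝ, 0 ≤ ρ → ρ ≤ 1 / 4 → |corr G ρ| ≤ C * ρ ^ 3 := by
  have hcn := cn_pos n
  have hK := KK_nonneg n
  set K2 : ℝ := ∫ v : E n, (1 + ‖v‖) ^ 4 * exp (-(2 / 5 * ‖v‖ ^ 2)) with hK2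
  have hK2n : 0 ≤ K2 := integral_nonneg fun v => by positivity
  refine ⟨(cn n)⁻¹ ^ 2 * (8 * κ ^ 2 * KK n * K2), by positivity, fun ρ h0 h1 => ?_⟩
  have hsq : ρ ^ 2 ≤ 1 / 16 := by nlinarith
  have hcsq : √(1 - ρ ^ 2) ^ 2 = 1 - ρ ^ 2 := Real.sq_sqrt (by linarith)
  have hcpos : 0 < √(1 - ρ ^ 2) := Real.sqrt_pos.2 (by linarith)
  have hc1 : √(1 - ρ ^ 2) ≤ 1 := by
    refine Real.sqrt_le_one.2 ?_
    nlinarith [sq_nonneg ρ]
  set c := √(1 - ρ ^ 2) with hc
  have hrc : ρ / c ≤ 2 * ρ := by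
    rw [div_le_iff₀ hcpos]
    have : 1 / 2 ≤ c := by
      by_contra hcon
      rw [not_le] at hcon
      nlinarith
    nlinarith
  have hrc0 : 0 ≤ ρ / c := by positivity
  have hrc2 : (ρ / c) ^ 2 ≤ 1 / 15 := by
    rw [div_pow, hcsq, div_le_iff₀ (by linarith)]
    linarith
  have hinner : ∀ z : E n, |∫ z' : E n, G (ρ • z + c • z') * wt z'| ≤
      8 * κ * KK n * ρ ^ 3 * (‖z‖ ^ 3 * exp (‖z‖ ^ 2 / 10)) := by
    intro z
    rw [inner_eq hG z ρ hcpos, abs_mul, abs_mul, abs_of_pos hcpos, abs_of_pos (Real.exp_pos _)]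
    have hJ := abs_J_le hκ hG hb ((ρ / c) • z)
    have hna : ‖(ρ / c) • z‖ = ρ / c * ‖z‖ := by
      rw [norm_smul, Real.norm_eq_abs, abs_of_nonneg hrc0]
    rw [hna] at hJ ⊢
    set r := ρ / c with hr
    calc c * exp (-((r * ‖z‖) ^ 2 / 2)) * |∫ v : E n, G v * wt v * exp ⟪r • z, v⟫|
        ≤ 1 * exp (-((r * ‖z‖) ^ 2 / 2)) *
            (κ * KK n * (r * ‖z‖) ^ 3 * exp (2 * (r * ‖z‖) ^ 2)) := by gcongr
      _ = κ * KK n * (r * ‖z‖) ^ 3 * (exp (-((r * ‖z‖) ^ 2 / 2)) * exp (2 * (r * ‖z‖) ^ 2)) := by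
            ring
      _ = κ * KK n * (r * ‖z‖) ^ 3 * exp (3 / 2 * (r ^ 2 * ‖z‖ ^ 2)) := by
            rw [← Real.exp_add]; congr 2; ring
      _ ≤ κ * KK n * (2 * ρ * ‖z‖) ^ 3 * exp (3 / 2 * (1 / 15 * ‖z‖ ^ 2)) := by gcongr
      _ = 8 * κ * KK n * ρ ^ 3 * (‖z‖ ^ 3 * exp (‖z‖ ^ 2 / 10)) := by
            rw [show 3 / 2 * (1 / 15 * ‖z‖ ^ 2) = ‖z‖ ^ 2 / 10 by ring]
            ring
  rw [corr_eq, abs_mul, abs_of_nonneg (by positivity)]
  have h4 : |∫ z : E n, (G z * wt z) * ∫ z' : E n, G (ρ • z + c • z') * wt z'| ≤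
      ∫ z : E n, (8 * κ ^ 2 * KK n * ρ ^ 3) * ((1 + ‖z‖) ^ 4 * exp (-(2 / 5 * ‖z‖ ^ 2))) := by
    rw [← Real.norm_eq_abs]
    refine norm_integral_le_of_norm_le
      ((integrable_poly_exp (n := n) 4 (c := 2 / 5) (by norm_num)).const_mul _)
      (Eventually.of_forall fun z => ?_)
    rw [norm_mul, norm_mul, Real.norm_eq_abs, Real.norm_eq_abs, Real.norm_eq_abs,
      abs_of_pos (wt_pos z)]
    calc |G z| * wt z * |∫ z' : E n, G (ρ • z + c • z') * wt z'|
        ≤ (κ * ‖z‖) * wt z * (8 * κ * KK n * ρ ^ 3 * (‖z‖ ^ 3 * exp (‖z‖ ^ 2 / 10))) := by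
          have h5 := cone_abs_le hG z
          have h6 := hinner z
          have h7 := (wt_pos z).le
          gcongr
      _ = (8 * κ ^ 2 * KK n * ρ ^ 3) * (‖z‖ ^ 4 * (wt z * exp (‖z‖ ^ 2 / 10))) := by ring
      _ = (8 * κ ^ 2 * KK n * ρ ^ 3) * (‖z‖ ^ 4 * exp (-(2 / 5 * ‖z‖ ^ 2))) := by
          rw [wt_eq, ← Real.exp_add]; congr 3; ring
      _ ≤ (8 * κ ^ 2 * KK n * ρ ^ 3) * ((1 + ‖z‖) ^ 4 * exp (-(2 / 5 * ‖z‖ ^ 2))) := by
          have h8 : ‖z‖ ≤ 1 + ‖z‖ := by linarith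
          gcongr
  rw [integral_const_mul, ← hK2] at h4
  calc (cn n)⁻¹ ^ 2 * |∫ z : E n, (G z * wt z) * ∫ z' : E n, G (ρ • z + c • z') * wt z'|
      ≤ (cn n)⁻¹ ^ 2 * (8 * κ ^ 2 * KK n * ρ ^ 3 * K2) :=
        mul_le_mul_of_nonneg_left h4 (by positivity)
    _ = _ := by ring

end Pool.Agent.H65L
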