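import Pool.Agent.H65L.Gauss

set_option autoImplicit false

/-! Stein's formula for functions of polynomial growth (module LB/Stein). -/

open Real Set MeasureTheory Metric Filter Topology
open scoped RealInnerProductSpace

namespace Pool.Agent.H65L

open Pool.Agent.H65G

variable {n : ℕ}

/-- Local Lipschitz bounds of polynomial growth imply polynomial growth. -/
theorem growth_of_lip {F : E n → ℝ} {C : ℝ} {m : ℕ}
    (hF : ∀ z z', ‖z - z'‖ ≤ 1 → |F z - F z'| ≤ C * (1 + ‖z‖) ^ m * ‖z - z'‖) (z : E n) :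
    |F z| ≤ (|F 0| + |C|) * (1 + ‖z‖) ^ (m + 1) := by
  obtain ⟨N, hN⟩ := exists_nat_gt ‖z‖
  have hN0 : (0 : ℝ) < N := lt_of_le_of_lt (norm_nonneg z) hN
  have hstep : ∀ i : ℕ, i ≤ N → |F (((i : ℝ) / N) • z) - F 0| ≤
      |C| * (1 + ‖z‖) ^ m * ((i : ℝ) / N * ‖z‖) := by
    intro i
    induction i with
    | zero => intro _; simp
    | succ i ih =>
      intro hi
      have hi' : (i : ℝ) + 1 ≤ N := by exact_mod_cast hi
      have h1 := ih (by omega)
      have e1 : ((i : ℝ) / N) • z - (((i + 1 : ℕ) : ℝ) / N) • z = (-(1 / (N : ℝ))) • z := by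
        rw [← sub_smul]; congr 1; push_cast; ring
      have e2 : ‖((i : ℝ) / N) • z - (((i + 1 : ℕ) : ℝ) / N) • z‖ = 1 / N * ‖z‖ := by
        rw [e1, norm_smul, Real.norm_eq_abs, abs_neg, abs_of_pos (by positivity)]
      have h2 := hF (((i : ℝ) / N) • z) ((((i + 1 : ℕ) : ℝ) / N) • z) (by
        rw [e2, one_div, inv_mul_le_iff₀ hN0, mul_one]; exact hN.le)
      rw [e2] at h2
      have h3 : ‖((i : ℝ) / N) • z‖ ≤ ‖z‖ := by
        rw [norm_smul, Real.norm_eq_abs, abs_of_nonneg (by positivity)]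
        have : (i : ℝ) / N ≤ 1 := by rw [div_le_one hN0]; linarith
        exact mul_le_of_le_one_left (norm_nonneg z) this
      have h4 : C * (1 + ‖((i : ℝ) / N) • z‖) ^ m * (1 / N * ‖z‖) ≤
          |C| * (1 + ‖z‖) ^ m * (1 / N * ‖z‖) := by
        refine mul_le_mul_of_nonneg_right ?_ (by positivity)
        refine (mul_le_mul_of_nonneg_right (le_abs_self C) (by positivity)).trans ?_
        refine mul_le_mul_of_nonneg_left ?_ (abs_nonneg C)
        exact pow_le_pow_left₀ (by positivity) (by linarith) m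
      have h5 : |F ((((i + 1 : ℕ) : ℝ) / N) • z) - F 0| ≤
          |F (((i : ℝ) / N) • z) - F ((((i + 1 : ℕ) : ℝ) / N) • z)| +
            |F (((i : ℝ) / N) • z) - F 0| := by
        rw [abs_sub_comm (F (((i : ℝ) / N) • z))]
        exact abs_sub_le _ _ _
      have e3 : |C| * (1 + ‖z‖) ^ m * (((i + 1 : ℕ) : ℝ) / N * ‖z‖) =
          |C| * (1 + ‖z‖) ^ m * (1 / N * ‖z‖) + |C| * (1 + ‖z‖) ^ m * ((i : ℝ) / N * ‖z‖) := by
        push_cast; ring
      rw [e3]
      linarith
  have h1 := hstep N le_rfl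
  rw [div_self hN0.ne', one_smul, one_mul] at h1
  have h2 : |F z| ≤ |F 0| + |F z - F 0| := by
    have := abs_add_le (F 0) (F z - F 0)
    simpa using this
  have hz := norm_nonneg z
  have h3 : (1 : ℝ) ≤ (1 + ‖z‖) ^ (m + 1) := one_le_pow₀ (by linarith)
  have h4 : |F 0| ≤ |F 0| * (1 + ‖z‖) ^ (m + 1) := le_mul_of_one_le_right (abs_nonneg _) h3
  have h5 : |C| * (1 + ‖z‖) ^ m * ‖z‖ ≤ |C| * (1 + ‖z‖) ^ (m + 1) := by
    rw [pow_succ, mul_assoc]
    refine mul_le_mul_of_nonneg_left ?_ (abs_nonneg C)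
    exact mul_le_mul_of_nonneg_left (by linarith) (by positivity)
  linarith

theorem continuous_of_lip {F : E n → ℝ} {C : ℝ} {m : ℕ}
    (hF : ∀ z z', ‖z - z'‖ ≤ 1 → |F z - F z'| ≤ C * (1 + ‖z‖) ^ m * ‖z - z'‖) :
    Continuous F := by
  rw [continuous_iff_continuousAt]
  intro z
  rw [ContinuousAt, tendsto_iff_norm_sub_tendsto_zero]
  refine squeeze_zero' (g := fun z' => C * (1 + ‖z‖) ^ m * ‖z - z'‖)
    (Eventually.of_forall fun _ => norm_nonneg _) ?_ ?_
  · filter_upwards [ball_mem_nhds z one_pos] with z' hz'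
    rw [norm_sub_rev, Real.norm_eq_abs]
    refine hF z z' ?_
    rw [mem_ball, dist_eq_norm, norm_sub_rev] at hz'
    exact hz'.le
  · have : Tendsto (fun z' : E n => C * (1 + ‖z‖) ^ m * ‖z - z'‖) (𝓝 z)
        (𝓝 (C * (1 + ‖z‖) ^ m * ‖z - z‖)) :=
      tendsto_const_nhds.mul ((tendsto_const_nhds.sub tendsto_id).norm)
    simpa using this

theorem wt_eq (z : E n) : wt z = exp (-(1 / 2 * ‖z‖ ^ 2)) := by
  unfold wt; congr 1; ring

/-- Comparison of the weight at nearby points. -/
theorem wt_sub_le {z u : E n} (hu : ‖u‖ ≤ 1) : wt (z - u) ≤ exp (1 / 2) * exp (-(1 / 4 * ‖z‖ ^ 2)) := by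
  unfold wt
  rw [← exp_add]
  refine exp_le_exp.2 ?_
  have h1 : ‖z‖ ≤ ‖z - u‖ + ‖u‖ := by simpa using norm_add_le (z - u) u
  have h2 : ‖z‖ ^ 2 ≤ 2 * ‖z - u‖ ^ 2 + 2 * ‖u‖ ^ 2 := by
    have := norm_nonneg z
    nlinarith [sq_nonneg (‖z - u‖ - ‖u‖)]
  have h3 : ‖u‖ ^ 2 ≤ 1 := by nlinarith [norm_nonneg u]
  linarith

theorem hasDerivAt_wt (z v : E n) (t : ℝ) :
    HasDerivAt (fun t : ℝ => wt (z - t • v)) (⟪z - t • v, v⟫ * wt (z - t • v)) t := by
  have h1 : HasDerivAt (fun t : ℝ => z - t • v) (-v) t := by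
    simpa using ((hasDerivAt_id t).smul_const v).const_sub z
  have h2 := h1.norm_sq
  have h3 : HasDerivAt (fun t : ℝ => -‖z - t • v‖ ^ 2 / 2)
      (-(2 * ⟪z - t • v, -v⟫) / 2) t := (h2.neg).div_const 2
  have h4 := h3.exp
  unfold wt
  refine h4.congr_deriv ?_
  rw [inner_neg_right]
  ring

theorem stein {F : E n → ℝ} {C : ℝ} {m : ℕ}
    (hF : ∀ z z', ‖z - z'‖ ≤ 1 → |F z - F z'| ≤ C * (1 + ‖z‖) ^ m * ‖z - z'‖)
    (hd : ∀ᵐ z, DifferentiableAt ℝ F z) (v : E n) :
    Integrable (fun z => F z * ⟪z, v⟫ * wt z) ∧ Integrable (fun z => fderiv ℝ F z v * wt z) ∧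
    ∫ z, F z * ⟪z, v⟫ * wt z = ∫ z, fderiv ℝ F z v * wt z := by
  have hFc := continuous_of_lip hF
  have hgr := growth_of_lip hF
  set C₁ := |F 0| + |C| with hC₁
  have hC₁0 : 0 ≤ C₁ := by positivity
  -- a small radius
  set ε : ℝ := (‖v‖ + 1)⁻¹ / 2 with hε
  have hv1 : 0 < ‖v‖ + 1 := by positivity
  have hεpos : 0 < ε := by positivity
  have hsmall : ∀ t ∈ ball (0 : ℝ) ε, ‖t • v‖ ≤ 1 / 2 := by
    intro t ht
    rw [mem_ball, dist_zero_right, Real.norm_eq_abs] at ht
    rw [norm_smul, Real.norm_eq_abs]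
    have h1 : |t| * ‖v‖ ≤ ε * (‖v‖ + 1) :=
      mul_le_mul ht.le (by linarith) (norm_nonneg v) hεpos.le
    have h2 : ε * (‖v‖ + 1) = 1 / 2 := by rw [hε]; field_simp
    linarith
  have hpoly : ∀ (k : ℕ) (c : ℝ), 0 < c →
      Integrable fun z : E n => (1 + ‖z‖) ^ k * exp (-(c * ‖z‖ ^ 2)) := fun k c hc =>
    integrable_poly_exp k hc
  -- first representation: derivative of the function
  have hL : Integrable (fun z => fderiv ℝ F z v * wt z) ∧
      HasDerivAt (fun t : ℝ => ∫ z, F (z + t • v) * wt z) (∫ z, fderiv ℝ F z v * wt z) 0 := by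
    refine hasDerivAt_integral_of_dominated_loc_of_lip
      (F := fun (t : ℝ) z => F (z + t • v) * wt z) (s := ball 0 ε)
      (bound := fun z => |C| * 2 ^ m * ‖v‖ * ((1 + ‖z‖) ^ m * exp (-(1 / 2 * ‖z‖ ^ 2))))
      (ball_mem_nhds _ hεpos) ?_ ?_ ?_ ?_ ?_ ?_
    · refine Eventually.of_forall fun t => ?_
      have : Continuous fun z : E n => F (z + t • v) * wt z :=
        (hFc.comp (continuous_id.add continuous_const)).mul continuous_wt
      exact this.aestronglyMeasurable
    · refine Integrable.mono' ((hpoly (m + 1) (1 / 2) (by norm_num)).const_mul C₁)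
        ?_ (Eventually.of_forall fun z => ?_)
      · have : Continuous fun z : E n => F (z + (0 : ℝ) • v) * wt z :=
          (hFc.comp (continuous_id.add continuous_const)).mul continuous_wt
        exact this.aestronglyMeasurable
      · rw [zero_smul, add_zero, norm_mul, Real.norm_eq_abs, Real.norm_eq_abs,
          abs_of_pos (wt_pos z), ← wt_eq, ← mul_assoc]
        exact mul_le_mul_of_nonneg_right (hgr z) (wt_pos z).le
    · exact ((measurable_fderiv_apply_const ℝ F v).mul continuous_wt.measurable).aestronglyMeasurable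
    · refine Eventually.of_forall fun z => ?_
      refine LipschitzOnWith.of_dist_le_mul fun t ht t' ht' => ?_
      have hb0 : 0 ≤ |C| * 2 ^ m * ‖v‖ * ((1 + ‖z‖) ^ m * exp (-(1 / 2 * ‖z‖ ^ 2))) := by
        positivity
      have hd0 : dist (F (z + t • v) * wt z) (F (z + t' • v) * wt z) =
          |F (z + t • v) - F (z + t' • v)| * wt z := by
        rw [Real.dist_eq, ← sub_mul, abs_mul, abs_of_pos (wt_pos z)]
      rw [hd0, Real.dist_eq, Real.coe_nnabs, abs_of_nonneg hb0]
      have e1 : z + t • v - (z + t' • v) = (t - t') • v := by rw [sub_smul]; abel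
      have e2 : ‖z + t • v - (z + t' • v)‖ = |t - t'| * ‖v‖ := by
        rw [e1, norm_smul, Real.norm_eq_abs]
      have h1 := hsmall t ht
      have h1' := hsmall t' ht'
      have h2 : ‖z + t • v - (z + t' • v)‖ ≤ 1 := by
        rw [e1, sub_smul]
        exact (norm_sub_le _ _).trans (by linarith)
      have h3 := hF (z + t • v) (z + t' • v) h2
      rw [e2] at h3
      have h4 : C * (1 + ‖z + t • v‖) ^ m ≤ |C| * (2 ^ m * (1 + ‖z‖) ^ m) := by
        refine (mul_le_mul_of_nonneg_right (le_abs_self C) (by positivity)).trans ?_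
        refine mul_le_mul_of_nonneg_left ?_ (abs_nonneg C)
        rw [← mul_pow]
        refine pow_le_pow_left₀ (by positivity) ?_ m
        have := norm_add_le z (t • v)
        have := norm_nonneg z
        linarith
      calc |F (z + t • v) - F (z + t' • v)| * wt z
          ≤ (|C| * (2 ^ m * (1 + ‖z‖) ^ m) * (|t - t'| * ‖v‖)) * wt z := by
            refine mul_le_mul_of_nonneg_right (h3.trans ?_) (wt_pos z).le
            exact mul_le_mul_of_nonneg_right h4 (by positivity)
        _ = |C| * 2 ^ m * ‖v‖ * ((1 + ‖z‖) ^ m * exp (-(1 / 2 * ‖z‖ ^ 2))) * |t - t'| := by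
            rw [wt_eq]; ring
    · exact (hpoly m (1 / 2) (by norm_num)).const_mul _
    · filter_upwards [hd] with z hz
      have h1 : HasDerivAt (fun t : ℝ => z + t • v) v 0 := by
        simpa using ((hasDerivAt_id (0 : ℝ)).smul_const v).const_add z
      have h2 : HasFDerivAt F (fderiv ℝ F z) (z + (0 : ℝ) • v) := by
        simpa using hz.hasFDerivAt
      exact (h2.comp_hasDerivAt (0 : ℝ) h1).mul_const (wt z)
  -- second representation: derivative of the weight
  have hR : Integrable (fun z => F z * ⟪z, v⟫ * wt z) ∧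
      HasDerivAt (fun t : ℝ => ∫ z, F z * wt (z - t • v)) (∫ z, F z * ⟪z, v⟫ * wt z) 0 := by
    have key := hasDerivAt_integral_of_dominated_loc_of_deriv_le (μ := (volume : Measure (E n)))
      (F := fun (t : ℝ) z => F z * wt (z - t • v))
      (F' := fun (t : ℝ) z => F z * (⟪z - t • v, v⟫ * wt (z - t • v)))
      (x₀ := (0 : ℝ)) (s := ball 0 ε)
      (bound := fun z => C₁ * ‖v‖ * exp (1 / 2) *
        ((1 + ‖z‖) ^ (m + 2) * exp (-(1 / 4 * ‖z‖ ^ 2))))
      (ball_mem_nhds _ hεpos) ?_ ?_ ?_ ?_ ?_ ?_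
    · simp only [zero_smul, sub_zero] at key
      have e : (fun z : E n => F z * (⟪z, v⟫ * wt z)) = fun z => F z * ⟪z, v⟫ * wt z := by
        funext z; ring
      rw [e] at key
      exact key
    · refine Eventually.of_forall fun t => ?_
      have : Continuous fun z : E n => F z * wt (z - t • v) :=
        hFc.mul (continuous_wt.comp (continuous_id.sub continuous_const))
      exact this.aestronglyMeasurable
    · refine Integrable.mono' ((hpoly (m + 1) (1 / 2) (by norm_num)).const_mul C₁)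
        ?_ (Eventually.of_forall fun z => ?_)
      · have : Continuous fun z : E n => F z * wt (z - (0 : ℝ) • v) :=
          hFc.mul (continuous_wt.comp (continuous_id.sub continuous_const))
        exact this.aestronglyMeasurable
      · rw [zero_smul, sub_zero, norm_mul, Real.norm_eq_abs, Real.norm_eq_abs,
          abs_of_pos (wt_pos z), ← wt_eq, ← mul_assoc]
        exact mul_le_mul_of_nonneg_right (hgr z) (wt_pos z).le
    · have : Continuous fun z : E n => F z * (⟪z - (0 : ℝ) • v, v⟫ * wt (z - (0 : ℝ) • v)) := by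
        have h1 : Continuous fun z : E n => z - (0 : ℝ) • v := continuous_id.sub continuous_const
        exact hFc.mul ((h1.inner continuous_const).mul (continuous_wt.comp h1))
      exact this.aestronglyMeasurable
    · refine Eventually.of_forall fun z t ht => ?_
      have h1 := hsmall t ht
      have hz := norm_nonneg z
      rw [norm_mul, norm_mul, Real.norm_eq_abs, Real.norm_eq_abs, Real.norm_eq_abs,
        abs_of_pos (wt_pos _)]
      have h2 : |⟪z - t • v, v⟫| ≤ (1 + ‖z‖) * ‖v‖ := by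
        refine (abs_real_inner_le_norm _ _).trans ?_
        refine mul_le_mul_of_nonneg_right ?_ (norm_nonneg v)
        have := norm_sub_le z (t • v)
        linarith
      have h3 := wt_sub_le (z := z) (u := t • v) (by linarith)
      calc |F z| * (|⟪z - t • v, v⟫| * wt (z - t • v))
          ≤ (C₁ * (1 + ‖z‖) ^ (m + 1)) * (((1 + ‖z‖) * ‖v‖) *
            (exp (1 / 2) * exp (-(1 / 4 * ‖z‖ ^ 2)))) := by
            refine mul_le_mul (hgr z) ?_ (mul_nonneg (abs_nonneg _) (wt_pos _).le) (by positivity)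
            exact mul_le_mul h2 h3 (wt_pos _).le (by positivity)
        _ = C₁ * ‖v‖ * exp (1 / 2) * ((1 + ‖z‖) ^ (m + 2) * exp (-(1 / 4 * ‖z‖ ^ 2))) := by
            rw [pow_succ (1 + ‖z‖) (m + 1)]; ring
    · exact (hpoly (m + 2) (1 / 4) (by norm_num)).const_mul _
    · exact Eventually.of_forall fun z t _ => (hasDerivAt_wt z v t).const_mul (F z)
  refine ⟨hR.1, hL.1, ?_⟩
  have heq : (fun t : ℝ => ∫ z, F (z + t • v) * wt z) = fun t : ℝ => ∫ z, F z * wt (z - t • v) := by
    funext t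
    rw [← integral_add_right_eq_self (fun z => F z * wt (z - t • v)) (t • v)]
    refine integral_congr_ae (Eventually.of_forall fun z => ?_)
    simp only [add_sub_cancel_right]
  have h1 := hL.2
  rw [heq] at h1
  exact hR.2.unique h1

end Pool.Agent.H65L
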